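import Pool.Agent.Lib.MP_7b07e0_lc.Ord

/-! Well-orders with countable initial segments inject into `ω₁`. (ROW R) -/

namespace Pool.Agent.Lib.MP_f5c99b_lc

universe u

variable {M : Type u} [Membership M M] [hZF : Fact (IsModelOfZF M)]

/-- A strict well-order `R` of the set `W` all of whose initial segments are countable. -/
structure WOc (W R : M) : Prop where
  irrefl : ∀ x, x ∈ W → ¬ App R x x
  trans : ∀ x y z, x ∈ W → y ∈ W → z ∈ W → App R x y → App R y z → App R x z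
  tri : ∀ x y, x ∈ W → y ∈ W → App R x y ∨ x = y ∨ App R y x
  wf : ∀ a, Sub a W → (∃ x, x ∈ a) → ∃ x, x ∈ a ∧ ∀ y, y ∈ a → ¬ App R y x
  ctbl : ∀ x, x ∈ W → Ctbl (sep W (fun y => App R y x))

/-- initial segment -/
noncomputable def R1_seg (W R x : M) : M := sep W (fun y => App R y x)

instance DT_R1_seg (t1 t2 t3 : (ℕ → M) → M) [DT t1] [DT t2] [DT t3] :
    DT (fun v => R1_seg (t1 v) (t2 v) (t3 v)) := by
  refine DT3 (f := R1_seg) ?_ t1 t2 t3
  unfold R1_seg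
  infer_instance

theorem R1_mem_seg {W R x y : M} : y ∈ R1_seg W R x ↔ y ∈ W ∧ App R y x := mem_sep

/-- `g` is the collapse of the initial segment below `x` -/
def R1_P (W R x g : M) : Prop := IsFun g (R1_seg W R x) (om1 M) ∧
  ∀ y, y ∈ R1_seg W R x → ap g y = img (R1_seg W R y) (fun z => ap g z)

instance D_R1_P (t1 t2 t3 t4 : (ℕ → M) → M) [DT t1] [DT t2] [DT t3] [DT t4] :
    D (fun v => R1_P (t1 v) (t2 v) (t3 v) (t4 v)) := by
  refine D4 (P := R1_P) ?_ t1 t2 t3 t4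
  unfold R1_P
  infer_instance

/-- the value of the collapse at `x` -/
noncomputable def R1_t (W R x : M) : M :=
  iota (fun α => ∃ g, R1_P W R x g ∧ α = img (R1_seg W R x) (fun z => ap g z))

instance DT_R1_t (t1 t2 t3 : (ℕ → M) → M) [DT t1] [DT t2] [DT t3] :
    DT (fun v => R1_t (t1 v) (t2 v) (t3 v)) := by
  refine DT3 (f := R1_t) ?_ t1 t2 t3
  unfold R1_t
  infer_instance

theorem R1_img_congr {a : M} {s t : M → M} [DT (fun v => s (v 0))] [DT (fun v => t (v 0))]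
    (h : ∀ x, x ∈ a → s x = t x) : img a s = img a t := by
  refine Pool.Agent.Lib.MP_f5c99b_lc.ext fun y => ?_
  rw [mem_img, mem_img]
  constructor
  · rintro ⟨x, hx, rfl⟩
    exact ⟨x, hx, h x hx⟩
  · rintro ⟨x, hx, rfl⟩
    exact ⟨x, hx, (h x hx).symm⟩

theorem R1_seg_trans {W R : M} (h : WOc W R) {x y z : M} (hx : x ∈ W) (hy : y ∈ R1_seg W R x)
    (hz : z ∈ R1_seg W R y) : z ∈ R1_seg W R x := by
  obtain ⟨hy1, hy2⟩ := R1_mem_seg.mp hy
  obtain ⟨hz1, hz2⟩ := R1_mem_seg.mp hz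
  exact R1_mem_seg.mpr ⟨hz1, h.trans z y x hz1 hy1 hx hz2 hy2⟩

theorem R1_agree {W R : M} (h : WOc W R) {x x' g g' : M} (hx : x ∈ W) (hx' : x' ∈ W)
    (hg : R1_P W R x g) (hg' : R1_P W R x' g') :
    ∀ y, y ∈ R1_seg W R x → y ∈ R1_seg W R x' → ap g y = ap g' y := by
  by_contra hcon
  push Not at hcon
  obtain ⟨y0, h1, h2, h3⟩ := hcon
  obtain ⟨y, hy, hmin⟩ := h.wf (sep W (fun y => (y ∈ R1_seg W R x ∧ y ∈ R1_seg W R x') ∧
    ¬ ap g y = ap g' y)) sep_sub ⟨y0, mem_sep.mpr ⟨(R1_mem_seg.mp h1).1, ⟨h1, h2⟩, h3⟩⟩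
  obtain ⟨hyW, ⟨hy1, hy2⟩, hne⟩ := mem_sep.mp hy
  refine hne ?_
  rw [hg.2 y hy1, hg'.2 y hy2]
  refine R1_img_congr fun z hz => ?_
  by_contra hz'
  exact hmin z (mem_sep.mpr ⟨(R1_mem_seg.mp hz).1, ⟨R1_seg_trans h hx hy1 hz,
    R1_seg_trans h hx' hy2 hz⟩, hz'⟩) (R1_mem_seg.mp hz).2

theorem R1_t_eq {W R : M} (h : WOc W R) {x g : M} (hx : x ∈ W) (hg : R1_P W R x g) :
    R1_t W R x = img (R1_seg W R x) (fun z => ap g z) := by
  refine iota_eq ⟨g, hg, rfl⟩ ?_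
  rintro α ⟨g', hg', rfl⟩
  exact R1_img_congr fun z hz => R1_agree h hx hx hg' hg z hz hz

theorem R1_t_mem {W R : M} (h : WOc W R) {x g : M} (hx : x ∈ W) (hg : R1_P W R x g) :
    R1_t W R x ∈ om1 M := by
  rw [R1_t_eq h hx hg, mem_om1]
  refine ⟨⟨?_, ?_⟩, (h.ctbl x hx).img (fun z => ap g z)⟩
  · intro u hu w hw
    obtain ⟨z, hz, rfl⟩ := mem_img.mp hu
    rw [hg.2 z hz] at hw
    obtain ⟨w', hw', rfl⟩ := mem_img.mp hw
    exact mem_img.mpr ⟨w', R1_seg_trans h hx hz hw', rfl⟩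
  · intro u hu
    obtain ⟨z, hz, rfl⟩ := mem_img.mp hu
    exact (mem_om1.mp (hg.1.ap_mem hz)).1.1

theorem R1_t_ap {W R : M} (h : WOc W R) {x g z g' : M} (hx : x ∈ W) (hg : R1_P W R x g)
    (hz : z ∈ R1_seg W R x) (hg' : R1_P W R z g') : ap g z = R1_t W R z := by
  have hzW := (R1_mem_seg.mp hz).1
  rw [R1_t_eq h hzW hg', hg.2 z hz]
  exact R1_img_congr fun w hw => R1_agree h hx hzW hg hg' w (R1_seg_trans h hx hz hw) hw

theorem R1_exists {W R : M} (h : WOc W R) : ∀ x, x ∈ W → ∃ g, R1_P W R x g := by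
  by_contra hcon
  push Not at hcon
  obtain ⟨x0, h1, h2⟩ := hcon
  obtain ⟨x, hx, hmin⟩ := h.wf (sep W (fun x => ¬ ∃ g, R1_P W R x g)) sep_sub
    ⟨x0, mem_sep.mpr ⟨h1, fun ⟨g, hg⟩ => h2 g hg⟩⟩
  obtain ⟨hxW, hxn⟩ := mem_sep.mp hx
  have hex : ∀ y, y ∈ R1_seg W R x → ∃ g, R1_P W R y g := by
    intro y hy
    by_contra hy'
    exact hmin y (mem_sep.mpr ⟨(R1_mem_seg.mp hy).1, hy'⟩) (R1_mem_seg.mp hy).2
  refine hxn ⟨lam (R1_seg W R x) (fun y => R1_t W R y), isFun_lam' fun y hy => ?_, fun y hy => ?_⟩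
  · obtain ⟨g, hg⟩ := hex y hy
    exact R1_t_mem h (R1_mem_seg.mp hy).1 hg
  · obtain ⟨g, hg⟩ := hex y hy
    have hyW := (R1_mem_seg.mp hy).1
    rw [ap_lam' hy, R1_t_eq h hyW hg]
    refine R1_img_congr fun z hz => ?_
    have hzx := R1_seg_trans h hxW hy hz
    obtain ⟨g', hg'⟩ := hex z hzx
    rw [ap_lam' hzx]
    exact R1_t_ap h hyW hg hz hg'

theorem R1_t_lt {W R : M} (h : WOc W R) {x y : M} (hx : x ∈ W) (hy : y ∈ W) (hxy : App R x y) :
    R1_t W R x ∈ R1_t W R y := by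
  obtain ⟨g, hg⟩ := R1_exists h x hx
  obtain ⟨g', hg'⟩ := R1_exists h y hy
  have hxs : x ∈ R1_seg W R y := R1_mem_seg.mpr ⟨hx, hxy⟩
  rw [R1_t_eq h hy hg', mem_img]
  exact ⟨x, hxs, (R1_t_ap h hy hg' hxs hg).symm⟩

/-- Mostowski collapse of a well-order with countable initial segments -/
theorem WOc.emb {W R : M} (h : WOc W R) : Emb W (om1 M) := by
  refine Emb.of_fun (fun x => R1_t W R x) ?_ ?_
  · intro x hx
    obtain ⟨g, hg⟩ := R1_exists h x hx
    exact R1_t_mem h hx hg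
  · intro x hx y hy he
    rcases h.tri x y hx hy with h1 | h1 | h1
    · have h2 := R1_t_lt h hx hy h1
      rw [he] at h2
      exact (not_mem_self _ h2).elim
    · exact h1
    · have h2 := R1_t_lt h hy hx h1
      rw [he] at h2
      exact (not_mem_self _ h2).elim

/-- maximum of the two ordinals in a pair -/
noncomputable def R2_mx (p : M) : M := un (fst p) (snd p)

instance DT_R2_mx (t1 : (ℕ → M) → M) [DT t1] : DT (fun v => R2_mx (t1 v)) := by
  refine DT1 (f := R2_mx) ?_ t1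
  unfold R2_mx
  infer_instance

/-- Gödel order on pairs of ordinals -/
def R2_G (p q : M) : Prop := R2_mx p ∈ R2_mx q ∨ (R2_mx p = R2_mx q ∧
  (fst p ∈ fst q ∨ (fst p = fst q ∧ snd p ∈ snd q)))

instance D_R2_G (t1 t2 : (ℕ → M) → M) [DT t1] [DT t2] : D (fun v => R2_G (t1 v) (t2 v)) := by
  refine D2 (P := R2_G) ?_ t1 t2
  unfold R2_G
  infer_instance

theorem R2_ord {x : M} (h : x ∈ om1 M) : Ord x := (mem_om1.mp h).1

theorem R2_un {a b : M} (ha : Ord a) (hb : Ord b) : un a b = a ∨ un a b = b := by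
  have key : ∀ {a b : M}, Ord a → b ∈ a → un a b = a := by
    intro a b ha hba
    refine Pool.Agent.Lib.MP_f5c99b_lc.ext fun x => ?_
    rw [mem_un]
    exact ⟨fun h => h.elim id (fun h => ha.trans hba h), Or.inl⟩
  have key2 : ∀ {a b : M}, Ord b → a ∈ b → un a b = b := by
    intro a b hb hab
    refine Pool.Agent.Lib.MP_f5c99b_lc.ext fun x => ?_
    rw [mem_un]
    exact ⟨fun h => h.elim (fun h => hb.trans hab h) id, Or.inr⟩
  rcases ha.tri hb with h | h | h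
  · exact Or.inr (key2 hb h)
  · subst h
    left
    refine Pool.Agent.Lib.MP_f5c99b_lc.ext fun x => ?_
    rw [mem_un]
    exact ⟨fun h => h.elim id id, Or.inl⟩
  · exact Or.inl (key ha h)

theorem R2_mx_mem {p : M} (h : p ∈ prod (om1 M) (om1 M)) : R2_mx p ∈ om1 M := by
  have h1 := fst_mem h
  have h2 := snd_mem h
  rcases R2_un (R2_ord h1) (R2_ord h2) with h3 | h3
  · rw [R2_mx, h3]; exact h1
  · rw [R2_mx, h3]; exact h2

theorem R2_fst_mem {p : M} (h : p ∈ prod (om1 M) (om1 M)) : fst p ∈ suc (R2_mx p) := by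
  have h1 := R2_ord (fst_mem h)
  have h2 := R2_ord (snd_mem h)
  rw [mem_suc]
  rcases h1.tri h2 with h3 | h3 | h3
  · left; rw [R2_mx, mem_un]; exact Or.inr h3
  · right
    refine Pool.Agent.Lib.MP_f5c99b_lc.ext fun x => ?_
    rw [R2_mx, mem_un, ← h3]
    exact ⟨Or.inl, fun h => h.elim id id⟩
  · right
    refine Pool.Agent.Lib.MP_f5c99b_lc.ext fun x => ?_
    rw [R2_mx, mem_un]
    exact ⟨Or.inl, fun h => h.elim id (fun h => h1.trans h3 h)⟩

theorem R2_snd_mem {p : M} (h : p ∈ prod (om1 M) (om1 M)) : snd p ∈ suc (R2_mx p) := by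
  have h1 := R2_ord (fst_mem h)
  have h2 := R2_ord (snd_mem h)
  rw [mem_suc]
  rcases h1.tri h2 with h3 | h3 | h3
  · right
    refine Pool.Agent.Lib.MP_f5c99b_lc.ext fun x => ?_
    rw [R2_mx, mem_un]
    exact ⟨Or.inr, fun h => h.elim (fun h => h2.trans h3 h) id⟩
  · right
    refine Pool.Agent.Lib.MP_f5c99b_lc.ext fun x => ?_
    rw [R2_mx, mem_un, h3]
    exact ⟨Or.inl, fun h => h.elim id id⟩
  · left; rw [R2_mx, mem_un]; exact Or.inl h3

/-- the Gödel order as a relation -/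
noncomputable def R2_R : M :=
  sep (prod (prod (om1 M) (om1 M)) (prod (om1 M) (om1 M))) (fun q => R2_G (fst q) (snd q))

theorem R2_app {p q : M} (hp : p ∈ prod (om1 M) (om1 M)) (hq : q ∈ prod (om1 M) (om1 M)) :
    App (R2_R : M) p q ↔ R2_G p q := by
  rw [app_iff, R2_R, mem_sep, fst_pr, snd_pr]
  exact ⟨fun h => h.2, fun h => ⟨pr_mem_prod.mpr ⟨hp, hq⟩, h⟩⟩

theorem R2_wo : WOc (prod (om1 M) (om1 M)) (R2_R : M) where
  irrefl := by
    intro x hx h
    rw [R2_app hx hx] at h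
    rcases h with h | ⟨_, h | ⟨_, h⟩⟩
    · exact not_mem_self _ h
    · exact not_mem_self _ h
    · exact not_mem_self _ h
  trans := by
    intro x y z hx hy hz h1 h2
    rw [R2_app hx hy] at h1
    rw [R2_app hy hz] at h2
    rw [R2_app hx hz]
    have tm : ∀ {a b c : M}, c ∈ om1 M → a ∈ b → b ∈ c → a ∈ c := by
      intro a b c hc hab hbc
      exact (R2_ord hc).trans hbc hab
    rcases h1 with h1 | ⟨e1, h1⟩
    · rcases h2 with h2 | ⟨e2, h2⟩
      · exact Or.inl (tm (R2_mx_mem hz) h1 h2)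
      · exact Or.inl (e2 ▸ h1)
    · rcases h2 with h2 | ⟨e2, h2⟩
      · exact Or.inl (e1.symm ▸ h2)
      · right
        refine ⟨e1.trans e2, ?_⟩
        rcases h1 with h1 | ⟨f1, h1⟩
        · rcases h2 with h2 | ⟨f2, h2⟩
          · exact Or.inl (tm (fst_mem hz) h1 h2)
          · exact Or.inl (f2 ▸ h1)
        · rcases h2 with h2 | ⟨f2, h2⟩
          · exact Or.inl (f1.symm ▸ h2)
          · exact Or.inr ⟨f1.trans f2, tm (snd_mem hz) h1 h2⟩
  tri := by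
    intro x y hx hy
    rw [R2_app hx hy, R2_app hy hx]
    rcases (R2_ord (R2_mx_mem hx)).tri (R2_ord (R2_mx_mem hy)) with h | h | h
    · exact Or.inl (Or.inl h)
    · rcases (R2_ord (fst_mem hx)).tri (R2_ord (fst_mem hy)) with h1 | h1 | h1
      · exact Or.inl (Or.inr ⟨h, Or.inl h1⟩)
      · rcases (R2_ord (snd_mem hx)).tri (R2_ord (snd_mem hy)) with h2 | h2 | h2
        · exact Or.inl (Or.inr ⟨h, Or.inr ⟨h1, h2⟩⟩)
        · right; left
          rw [← pr_fst_snd hx, ← pr_fst_snd hy, h1, h2]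
        · exact Or.inr (Or.inr (Or.inr ⟨h.symm, Or.inr ⟨h1.symm, h2⟩⟩))
      · exact Or.inr (Or.inr (Or.inr ⟨h.symm, Or.inl h1⟩))
    · exact Or.inr (Or.inr (Or.inl h))
  wf := by
    intro a ha hne
    obtain ⟨p0, hp0⟩ := hne
    obtain ⟨α, hα, ⟨p1, hp1, e1⟩, hα2⟩ := Ord.least (fun α : M => ∃ p, p ∈ a ∧ R2_mx p = α)
      ⟨R2_mx p0, R2_ord (R2_mx_mem (ha p0 hp0)), p0, hp0, rfl⟩
    obtain ⟨β, hβ, ⟨p2, hp2, e2, e2'⟩, hβ2⟩ :=
      Ord.least (fun β : M => ∃ p, p ∈ a ∧ R2_mx p = α ∧ fst p = β)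
      ⟨fst p1, R2_ord (fst_mem (ha p1 hp1)), p1, hp1, e1, rfl⟩
    obtain ⟨γ, hγ, ⟨p3, hp3, e3, e3', e3''⟩, hγ2⟩ :=
      Ord.least (fun γ : M => ∃ p, p ∈ a ∧ R2_mx p = α ∧ fst p = β ∧ snd p = γ)
      ⟨snd p2, R2_ord (snd_mem (ha p2 hp2)), p2, hp2, e2, e2', rfl⟩
    refine ⟨p3, hp3, fun y hy h => ?_⟩
    rw [R2_app (ha y hy) (ha p3 hp3)] at h
    rcases h with h | ⟨f1, h⟩
    · rw [e3] at h
      exact hα2 _ h ⟨y, hy, rfl⟩
    · rw [e3] at f1
      rcases h with h | ⟨f2, h⟩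
      · rw [e3'] at h
        exact hβ2 _ h ⟨y, hy, f1, rfl⟩
      · rw [e3'] at f2
        rw [e3''] at h
        exact hγ2 _ h ⟨y, hy, f1, f2, rfl⟩
  ctbl := by
    intro x hx
    have hc : Ctbl (suc (R2_mx x)) := (mem_om1.mp (suc_mem_om1 (R2_mx_mem hx))).2
    have ho : Ord (suc (R2_mx x)) := (R2_ord (R2_mx_mem hx)).suc
    refine (hc.prod hc).sub fun y hy => ?_
    obtain ⟨hy1, hy2⟩ := mem_sep.mp hy
    rw [R2_app hy1 hx] at hy2
    have hm : R2_mx y ∈ suc (R2_mx x) := by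
      rcases hy2 with h | ⟨h, _⟩
      · exact mem_suc.mpr (Or.inl h)
      · exact mem_suc.mpr (Or.inr h)
    have hs : ∀ z, z ∈ suc (R2_mx y) → z ∈ suc (R2_mx x) := by
      intro z hz
      rcases mem_suc.mp hz with h | h
      · exact ho.trans hm h
      · rw [h]; exact hm
    rw [← pr_fst_snd hy1]
    exact pr_mem_prod.mpr ⟨hs _ (R2_fst_mem hy1), hs _ (R2_snd_mem hy1)⟩

/-- Gödel pairing on `ω₁` -/
theorem emb_om1_prod : Emb (prod (om1 M) (om1 M)) (om1 M) := R2_wo.emb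

theorem R2_suc_inj {x y : M} (h : suc x = suc y) : x = y := by
  have h1 : x ∈ suc y := h ▸ mem_suc_self x
  have h2 : y ∈ suc x := h.symm ▸ mem_suc_self y
  rcases mem_suc.mp h1 with h1 | h1
  · rcases mem_suc.mp h2 with h2 | h2
    · exact (not_mem_mem h1 h2).elim
    · exact h2.symm
  · exact h1

theorem emb_om1_fseq : Emb (fseq (om1 M)) (om1 M) := by
  obtain ⟨f, hf, hf'⟩ := (emb_om1_prod : Emb (prod (om1 M) (om1 M)) (om1 M))
  have hg : IsFun (lam (prod (om1 M) (om1 M)) (fun p => suc (ap f p)))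
      (prod (om1 M) (om1 M)) (om1 M) := isFun_lam fun p hp => suc_mem_om1 (hf.ap_mem hp)
  refine emb_fseq (f := lam (prod (om1 M) (om1 M)) (fun p => suc (ap f p))) (e := emp)
    ⟨hg, ?_⟩ (omega_sub_om1 _ emp_mem_omega) ?_
  · intro x hx y hy h
    rw [ap_lam' hx, ap_lam' hy] at h
    exact hf' x hx y hy (R2_suc_inj h)
  · intro p hp h
    rw [ap_lam' hp] at h
    exact not_mem_emp (ap f p) (h ▸ mem_suc_self (ap f p))

/-- the set of all operation symbols `(κ, (n, p))`, `κ, n ∈ ω`, `p` a finite sequence of countable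
ordinals -/
theorem emb_om1_ops :
    Emb (prod (omega M) (prod (omega M) (fseq (om1 M)))) (om1 M) := by
  have h1 : Emb (omega M) (om1 M) := Emb.of_sub omega_sub_om1
  have h2 : Emb (prod (omega M) (fseq (om1 M))) (om1 M) :=
    (Emb.prod h1 emb_om1_fseq).trans emb_om1_prod
  exact (Emb.prod h1 h2).trans emb_om1_prod

/-- the set of countable subsets of `S` -/
noncomputable def Pc (S : M) : M := sep (pow S) (fun a => Ctbl a)

instance DT_Pc (t1 : (ℕ → M) → M) [DT t1] : DT (fun v => Pc (t1 v)) := by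
  refine DT1 (f := Pc) ?_ t1
  unfold Pc
  infer_instance

theorem mem_Pc {S a : M} : a ∈ Pc S ↔ Sub a S ∧ Ctbl a := by
  rw [Pc, mem_sep, mem_pow']

theorem Emb.Pc {a b : M} (h : Emb a b) : Emb (Pc a) (Pc b) := by
  obtain ⟨f, hf, hf'⟩ := h
  refine Emb.of_fun (fun s => img s (fun x => ap f x)) ?_ ?_
  · intro s hs
    obtain ⟨h1, h2⟩ := mem_Pc.mp hs
    refine mem_Pc.mpr ⟨?_, h2.img _⟩
    intro y hy
    obtain ⟨x, hx, rfl⟩ := mem_img.mp hy
    exact hf.ap_mem (h1 x hx)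
  · intro s hs s' hs' h
    have key : ∀ s s' : M, Sub s a → Sub s' a →
        img s (fun x => ap f x) = img s' (fun x => ap f x) → Sub s s' := by
      intro s s' hs hs' h x hx
      have h1 : ap f x ∈ img s' (fun x => ap f x) := h ▸ mem_img.mpr ⟨x, hx, rfl⟩
      obtain ⟨x', hx', e⟩ := mem_img.mp h1
      rwa [hf' x (hs x hx) x' (hs' x' hx') e]
    have h1 := (mem_Pc.mp hs).1
    have h2 := (mem_Pc.mp hs').1
    exact Sub.antisymm (key s s' h1 h2 h) (key s' s h2 h1 h.symm)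

/-- code of a countable ordinal and a countable set of countable ordinals -/
noncomputable def R2_code (f p : M) : M :=
  un (upair (ap f (pr emp (fst p))) (ap f (pr emp (fst p))))
    (img (snd p) (fun x => ap f (pr (suc emp) x)))

instance DT_R2_code (t1 t2 : (ℕ → M) → M) [DT t1] [DT t2] :
    DT (fun v => R2_code (t1 v) (t2 v)) := by
  refine DT2 (f := R2_code) ?_ t1 t2
  unfold R2_code
  infer_instance

theorem R2_mem_code {f p y : M} : y ∈ R2_code f p ↔ y = ap f (pr emp (fst p)) ∨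
    ∃ x, x ∈ snd p ∧ y = ap f (pr (suc emp) x) := by
  rw [R2_code, mem_un, mem_upair, mem_img, or_self_iff]

theorem R2_emb_tab : Emb (prod (om1 M) (Pc (om1 M))) (Pc (om1 M)) := by
  obtain ⟨f, hf, hf'⟩ := (emb_om1_prod : Emb (prod (om1 M) (om1 M)) (om1 M))
  have h0 : (emp : M) ∈ om1 M := omega_sub_om1 _ emp_mem_omega
  have h1 : (suc emp : M) ∈ om1 M := suc_mem_om1 h0
  have hne : (emp : M) ≠ suc emp := by
    intro h
    have h2 : (emp : M) ∈ suc emp := mem_suc_self (emp : M)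
    rw [← h] at h2
    exact not_mem_emp _ h2
  refine Emb.of_fun (fun p => R2_code f p) ?_ ?_
  · intro p hp
    have hs := mem_Pc.mp (snd_mem hp)
    refine mem_Pc.mpr ⟨?_, ?_⟩
    · intro y hy
      rcases R2_mem_code.mp hy with rfl | ⟨x, hx, rfl⟩
      · exact hf.ap_mem (pr_mem_prod.mpr ⟨h0, fst_mem hp⟩)
      · exact hf.ap_mem (pr_mem_prod.mpr ⟨h1, hs.1 x hx⟩)
    · exact (ctbl_upair _ _).un (hs.2.img _)
  · intro p hp q hq h
    have hpf := fst_mem hp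
    have hqf := fst_mem hq
    have hps := (mem_Pc.mp (snd_mem hp)).1
    have hqs := (mem_Pc.mp (snd_mem hq)).1
    have e1 : fst p = fst q := by
      have h2 : ap f (pr emp (fst p)) ∈ R2_code f q := h ▸ R2_mem_code.mpr (Or.inl rfl)
      rcases R2_mem_code.mp h2 with h3 | ⟨x, hx, h3⟩
      · exact (pr_inj (hf' _ (pr_mem_prod.mpr ⟨h0, hpf⟩) _ (pr_mem_prod.mpr ⟨h0, hqf⟩) h3)).2
      · exact absurd (pr_inj (hf' _ (pr_mem_prod.mpr ⟨h0, hpf⟩) _
          (pr_mem_prod.mpr ⟨h1, hqs x hx⟩) h3)).1 hne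
    have key : ∀ p q : M, Sub (snd p) (om1 M) → Sub (snd q) (om1 M) → fst q ∈ om1 M →
        R2_code f p = R2_code f q → Sub (snd p) (snd q) := by
      intro p q hp hq hqf h x hx
      have h2 : ap f (pr (suc emp) x) ∈ R2_code f q :=
        h ▸ R2_mem_code.mpr (Or.inr ⟨x, hx, rfl⟩)
      rcases R2_mem_code.mp h2 with h3 | ⟨x', hx', h3⟩
      · exact absurd (pr_inj (hf' _ (pr_mem_prod.mpr ⟨h1, hp x hx⟩) _
          (pr_mem_prod.mpr ⟨h0, hqf⟩) h3)).1.symm hne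
      · rw [(pr_inj (hf' _ (pr_mem_prod.mpr ⟨h1, hp x hx⟩) _
          (pr_mem_prod.mpr ⟨h1, hq x' hx'⟩) h3)).2]
        exact hx'
    have e2 : snd p = snd q :=
      Sub.antisymm (key p q hps hqs hqf h) (key q p hqs hps hpf h.symm)
    rw [← pr_fst_snd hp, ← pr_fst_snd hq, e1, e2]

/-- tables: countable subsets of `(ω × ω) × (ω₁ × ω₁)`, together with a countable ordinal -/
theorem emb_tables :
    Emb (prod (om1 M) (Pc (prod (prod (omega M) (omega M)) (prod (om1 M) (om1 M)))))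
      (Pc (om1 M)) := by
  have h1 : Emb (omega M) (om1 M) := Emb.of_sub omega_sub_om1
  have h2 : Emb (prod (prod (omega M) (omega M)) (prod (om1 M) (om1 M))) (om1 M) :=
    (Emb.prod ((Emb.prod h1 h1).trans emb_om1_prod) emb_om1_prod).trans emb_om1_prod
  exact (Emb.prod (Emb.refl _) h2.Pc).trans R2_emb_tab

end Pool.Agent.Lib.MP_f5c99b_lc
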