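import Pool.Agent.Lib.MP_7b07e0_lc.Transfer

/-! The two cases and the main theorem for an abstract group with a `σ`-ideal. (ROWS A1, A2) -/

namespace Pool.Agent.Lib.MP_f5c99b_lc

universe u

variable {M : Type u} [Membership M M] [hZF : Fact (IsModelOfZF M)] {d : Dat M}

/-- the orbit equivalence relation is an equivalence relation on `X` (ROW A1) -/
theorem Dat.Good.Er_refl (hd : d.Good) {x : M} (hx : x ∈ d.X) : d.Er x x :=
  ⟨d.e, hd.e_mem, hd.act_e x hx⟩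

theorem Dat.Good.Er_symm (hd : d.Good) {x y : M} (hx : x ∈ d.X) (h : d.Er x y) : d.Er y x := by
  obtain ⟨g, hg, rfl⟩ := h
  obtain ⟨g', hg', _, h2⟩ := hd.inv g hg
  exact ⟨g', hg', by rw [← hd.act_mul g' g x hg' hg hx, h2, hd.act_e x hx]⟩

theorem Dat.Good.Er_trans (hd : d.Good) {x y z : M} (hx : x ∈ d.X) (h : d.Er x y)
    (h' : d.Er y z) : d.Er x z := by
  obtain ⟨g, hg, rfl⟩ := h
  obtain ⟨g', hg', rfl⟩ := h'
  refine ⟨d.mul g' g, hd.m_fn.ap_mem (pr_mem_prod.mpr ⟨hg', hg⟩), ?_⟩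
  rw [hd.act_mul g' g x hg' hg hx]

/-- the orbit relation on the Stone space, as a subset of its square -/
noncomputable def ES (d : Dat M) (c : M) : M :=
  sep (prod (St c) (St c)) (fun p => d.Er (zz c (fst p)) (zz c (snd p)))

instance DT_ES (t1 : (ℕ → M) → M) [DT t1] : DT (fun v => ES d (t1 v)) := by
  refine DT1 (f := ES d) ?_ t1
  unfold ES
  infer_instance

/-- CASE 1 (ROW A1) -/
theorem case1 (hDC : DC M) (hAD : ADR M) (hd : d.Good) {F cd y δ k : M} (hF : UF d F)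
    (hy : y ∈ d.X) (h : Mx d F cd y δ k)
    (hm : Mgr (prodB (BS (tab d y δ k)) (BS (tab d y δ k)))
      (prod (St (tab d y δ k)) (St (tab d y δ k))) (ES d (tab d y δ k))) :
    ∃ f, IsFun f (pow (omega M)) d.X ∧ ∀ x x', x ∈ pow (omega M) → x' ∈ pow (omega M) →
      (E0 x x' ↔ d.Er (ap f x) (ap f x')) := by
  have hne : ∃ i, NZ (tab d y δ k) i := by
    obtain ⟨i, hi⟩ := h.ne
    by_cases h1 : ap k i ∈ d.I
    · obtain ⟨j, hj, h2⟩ := h.cl1 hd hi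
      refine ⟨j, (h.NZ_iff hd hj).mpr fun h3 => hd.I_ne ?_⟩
      refine hd.I_sub _ _ (hd.I_union (hd.I_union h1 h3) h2.2) fun x hx => ?_
      rw [mem_un, mem_un, mem_diff, mem_diff]
      by_cases h4 : x ∈ ap k i
      · exact Or.inl (Or.inl h4)
      · by_cases h5 : x ∈ ap k j
        · exact Or.inl (Or.inr h5)
        · exact Or.inr ⟨⟨hx, h4⟩, h5⟩
    · exact ⟨i, (h.NZ_iff hd hi).mpr h1⟩
  have hc : TabOK (tab d y δ k) := h.tabOK hd
  have hP1 : ∀ a, a ∈ P1 d (tab d y δ k) → a ∈ St (tab d y δ k) ∧ zz (tab d y δ k) a ∈ d.X ∧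
      ∀ n, n ∈ omega M → d.Er (zz (tab d y δ k) a)
        (zz (tab d y δ k) (actS (tab d y δ k) n a)) := by
    intro a ha
    obtain ⟨h1, h2, h3⟩ := mem_sep.mp ha
    exact ⟨h1, h2, fun n hn => (h3 n hn).2⟩
  obtain ⟨f, hf, hfV, hf1, hf2⟩ := e0_scheme hDC (hc.csp hDC) (hc.ne hne) (h.hact hd) hm
    (V := P1 d (tab d y δ k)) (fun a ha => (hP1 a ha).1) (h.P1_all hDC hAD hd hF hy)
  refine ⟨lam (pow (omega M)) (fun x => zz (tab d y δ k) (ap f x)),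
    isFun_lam fun x hx => (hP1 _ (hfV x hx)).2.1, ?_⟩
  intro x x' hx hx'
  rw [ap_lam' hx, ap_lam' hx']
  constructor
  · intro he
    obtain ⟨m, hm1, e⟩ := hf1 x x' hx hx' he
    rw [e, sg_actF hm1 (hf.ap_mem hx)]
    exact (hP1 _ (hfV x hx)).2.2 m hm1
  · intro he
    by_contra hn
    refine hf2 x x' hx hx' hn (mem_sep.mpr ⟨pr_mem_prod.mpr ⟨hf.ap_mem hx, hf.ap_mem hx'⟩, ?_⟩)
    rw [fst_pr, snd_pr]
    exact he

theorem A2_key (hDC : DC M) (hAD : ADR M) {c : M} (hc : TabOK c)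
    (hm : ¬ Mgr (prodB (BS c) (BS c)) (prod (St c) (St c)) (ES d c)) :
    ∃ i, i ∈ OO c (P2 d c) := by
  have hcs := hc.csp hDC
  have hsp : Sp (St c) (BS c) := hcs.sp
  have hE : Sub (ES d c) (prod (St c) (St c)) := sep_sub
  obtain ⟨w, hw, hw2⟩ := (hsp.prod hsp).bp hDC hAD hE hm
  obtain ⟨u, v, hu, hv, rfl⟩ := mem_prodB.mp hw
  obtain ⟨i, hi, rfl⟩ := mem_BS.mp hu
  obtain ⟨j, hj, rfl⟩ := mem_BS.mp hv
  have h1 := Mgr.sections hDC hsp.toBase hsp.toBase hw2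
  refine ⟨i, mem_sep.mpr ⟨hi.1, hi, h1.sub ?_⟩⟩
  intro x hx
  obtain ⟨hx1, hx2⟩ := mem_diff.mp hx
  have hxS := (mem_bas.mp hx1).1
  refine mem_sep.mpr ⟨hxS, fun hmg => hx2 ?_⟩
  refine mem_sep.mpr ⟨hxS, j, hj, hmg.sub ?_⟩
  intro z hz
  obtain ⟨hz1, hz2⟩ := mem_sep.mp hz
  have hzS := (mem_bas.mp hz1).1
  refine mem_sep.mpr ⟨hzS, mem_diff.mpr ⟨pr_mem_prod.mpr ⟨hx1, hz1⟩, fun he => hz2 ?_⟩⟩
  have := (mem_sep.mp he).2
  rwa [fst_pr, snd_pr] at this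

/-- CASE 2 (ROW A2) -/
theorem case2 (hDC : DC M) (hAD : ADR M) (hd : d.Good) {F cd y δ k : M} (hF : UF d F)
    (hy : y ∈ d.X) (h : Mx d F cd y δ k)
    (hm : ¬ Mgr (prodB (BS (tab d y δ k)) (BS (tab d y δ k)))
      (prod (St (tab d y δ k)) (St (tab d y δ k))) (ES d (tab d y δ k))) :
    ∃ j, NZ (tab d y δ k) j ∧ Mgr (BS (tab d y δ k)) (St (tab d y δ k))
      (sep (bas (tab d y δ k) j) (fun h' => ¬ d.Er y (zz (tab d y δ k) h'))) := by
  obtain ⟨i, hi⟩ := A2_key hDC hAD (h.tabOK hd) hm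
  exact h.P2_down hDC hAD hd hF hy hi

/-- two comeager sets of points in two basic sets are linked by an element of the subgroup -/
theorem A2_link (hDC : DC M) (hd : d.Good) {c j j' y y' : M} (hc : TabOK c)
    (ha : HAct (St c) (BS c) (actF c)) (hy : y ∈ d.X) (hy' : y' ∈ d.X)
    (hP : Mgr (BS c) (St c) (diff (St c) (P1 d c)))
    (hj : NZ c j) (hjm : Mgr (BS c) (St c) (sep (bas c j) (fun h' => ¬ d.Er y (zz c h'))))
    (hj' : NZ c j') (hjm' : Mgr (BS c) (St c) (sep (bas c j') (fun h' => ¬ d.Er y' (zz c h')))) :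
    d.Er y y' := by
  have hcs := hc.csp hDC
  have hB : Base (St c) (BS c) := hcs.toBase
  have hu : bas c j' ∈ BS c := mem_BS.mpr ⟨j', hj', rfl⟩
  have hv : bas c j ∈ BS c := mem_BS.mpr ⟨j, hj, rfl⟩
  obtain ⟨m, hm, x, hx, hx2⟩ := ha.trans _ _ hu hv
  have hpre := ha.pre m _ hm hv
  have hxS : x ∈ St c := (mem_bas.mp hx).1
  have hxp : x ∈ sep (St c) (fun x => sg (actF c) m x ∈ bas c j) := mem_sep.mpr ⟨hxS, hx2⟩
  obtain ⟨w, hw, -, hwu, hwp⟩ := hB.base _ _ x hu hpre hx hxp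
  have h1 := HAct.mgr hB ha hm hjm
  have hall : Mgr (BS c) (St c) (sep w (fun x => ¬ (d.Er y' (zz c x) ∧
      d.Er y (zz c (sg (actF c) m x)) ∧ x ∈ P1 d c))) := by
    refine (Mgr.un hB (Mgr.un hB hjm' h1) hP).sub ?_
    intro z hz
    obtain ⟨hz1, hz2⟩ := mem_sep.mp hz
    have hzu := hwu z hz1
    obtain ⟨hzS, hzv⟩ := mem_sep.mp (hwp z hz1)
    by_cases e1 : d.Er y' (zz c z)
    · by_cases e2 : d.Er y (zz c (sg (actF c) m z))
      · by_cases e3 : z ∈ P1 d c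
        · exact absurd ⟨e1, e2, e3⟩ hz2
        · exact mem_un.mpr (Or.inr (mem_diff.mpr ⟨hzS, e3⟩))
      · exact mem_un.mpr (Or.inl (mem_un.mpr (Or.inr (mem_sep.mpr ⟨hzS, mem_sep.mpr ⟨hzv, e2⟩⟩))))
    · exact mem_un.mpr (Or.inl (mem_un.mpr (Or.inl (mem_sep.mpr ⟨hzu, e1⟩))))
  obtain ⟨z, hz, e1, e2, e3⟩ := hcs.exists_of_mgr hDC hw _ hall
  have hzS : z ∈ St c := hB.sub w hw z hz
  rw [sg_actF hm hzS] at e2
  have e4 := ((mem_sep.mp e3).2.2 m hm).2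
  have e5 : d.Er y' (zz c (actS c m z)) := hd.Er_trans hy' e1 e4
  exact hd.Er_symm hy' (hd.Er_trans hy' e5 (hd.Er_symm hy e2))

/-- CASE 2, the table is a complete invariant (ROW A2) -/
theorem case2' (hDC : DC M) (hAD : ADR M) (hd : d.Good) {F cd y δ k y' δ' k' : M} (hF : UF d F)
    (hy : y ∈ d.X) (h : Mx d F cd y δ k) (hy' : y' ∈ d.X) (h' : Mx d F cd y' δ' k')
    (hm : ¬ Mgr (prodB (BS (tab d y δ k)) (BS (tab d y δ k)))
      (prod (St (tab d y δ k)) (St (tab d y δ k))) (ES d (tab d y δ k)))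
    (he : tab d y δ k = tab d y' δ' k') : d.Er y y' := by
  obtain ⟨j, hj, hjm⟩ := case2 hDC hAD hd hF hy h hm
  have hm' := hm
  rw [he] at hm'
  obtain ⟨j', hj', hjm'⟩ := case2 hDC hAD hd hF hy' h' hm'
  rw [← he] at hj' hjm'
  exact A2_link hDC hd (h.tabOK hd) (h.hact hd) hy hy' (h.P1_all hDC hAD hd hF hy) hj hjm hj' hjm'

/-- the table of the canonical sequence of `y` -/
noncomputable def A2_T (d : Dat M) (F cd y : M) : M :=
  iota (fun c => ∃ δ k, Mx d F cd y δ k ∧ c = tab d y δ k)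

instance DT_A2_T (F cd : M) (t1 : (ℕ → M) → M) [DT t1] :
    DT (fun v => A2_T d F cd (t1 v)) := by
  refine DT1 (f := A2_T d F cd) ?_ t1
  unfold A2_T
  infer_instance

theorem A2_T_eq {F cd y δ k : M} (hcd : Inj cd (ops (M := M)) (om1 M)) (h : Mx d F cd y δ k) :
    A2_T d F cd y = tab d y δ k := by
  refine iota_eq ⟨δ, k, h, rfl⟩ ?_
  rintro c ⟨δ', k', h', rfl⟩
  obtain ⟨rfl, rfl⟩ := Mx_unique hcd h h'
  rfl

theorem A2_sub_om1 {x : M} (h : x ∈ om1 M) : Sub x (om1 M) := by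
  intro y hy
  obtain ⟨h1, h2⟩ := mem_om1.mp h
  exact mem_om1.mpr ⟨h1.mem hy, h2.sub (h1.1 y hy)⟩

theorem A2_tab_mem {c : M} (hc : TabOK c) :
    c ∈ prod (om1 M) (Pc (prod (prod (omega M) (omega M)) (prod (om1 M) (om1 M)))) := by
  have h1 := hc.1
  have h2 := hc.2.2.1
  have h3 : Sub (snd c) (prod (prod (omega M) (omega M)) (prod (fst c) (fst c))) :=
    mem_pow'.mp (snd_mem h2)
  rw [← pr_fst_snd h2]
  refine pr_mem_prod.mpr ⟨h1, mem_Pc.mpr ⟨?_, ?_⟩⟩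
  · exact h3.trans (prod_mono (Sub.refl _) (prod_mono (A2_sub_om1 h1) (A2_sub_om1 h1)))
  · have h4 := (mem_om1.mp h1).2
    exact ((ctbl_omega.prod ctbl_omega).prod (h4.prod h4)).sub h3

/-- the main theorem for a group with a `σ`-ideal (ROW A2) -/
theorem core (hDC : DC M) (hAD : ADR M) (hd : d.Good) :
    (∃ f, IsFun f (pow (omega M)) d.X ∧ ∀ x x', x ∈ pow (omega M) → x' ∈ pow (omega M) →
      (E0 x x' ↔ d.Er (ap f x) (ap f x'))) ∨
    ∃ f, IsFun f d.X (Pc (om1 M)) ∧ ∀ x x', x ∈ d.X → x' ∈ d.X →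
      (d.Er x x' ↔ ap f x = ap f x') := by
  obtain ⟨F, hF⟩ := exists_UF hDC hAD d
  obtain ⟨cd, hcd⟩ := emb_om1_ops (M := M)
  have hcd' : Inj cd (ops (M := M)) (om1 M) := hcd
  by_cases hcase : ∃ y δ k, y ∈ d.X ∧ Mx d F cd y δ k ∧
      Mgr (prodB (BS (tab d y δ k)) (BS (tab d y δ k)))
        (prod (St (tab d y δ k)) (St (tab d y δ k))) (ES d (tab d y δ k))
  · obtain ⟨y, δ, k, hy, h, hm⟩ := hcase
    exact Or.inl (case1 hDC hAD hd hF hy h hm)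
  right
  obtain ⟨e, he⟩ := emb_tables (M := M)
  have hT : ∀ y, y ∈ d.X → A2_T d F cd y ∈
      prod (om1 M) (Pc (prod (prod (omega M) (omega M)) (prod (om1 M) (om1 M)))) := by
    intro y _
    obtain ⟨δ, k, h⟩ := exists_Mx hDC hAD hd hcd' (F := F) y
    rw [A2_T_eq hcd' h]
    exact A2_tab_mem (h.tabOK hd)
  refine ⟨lam d.X (fun y => ap e (A2_T d F cd y)),
    isFun_lam fun y hy => he.1.ap_mem (hT y hy), ?_⟩
  intro x x' hx hx'
  rw [ap_lam' hx, ap_lam' hx']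
  obtain ⟨δ, k, h⟩ := exists_Mx hDC hAD hd hcd' (F := F) x
  constructor
  · rintro ⟨g, hg, rfl⟩
    obtain ⟨k', h1, h2⟩ := Mx_act hd hcd' hg hx h
    rw [A2_T_eq hcd' h, A2_T_eq hcd' h1, h2]
  · intro hE
    have hE' := he.2 _ (hT x hx) _ (hT x' hx') hE
    obtain ⟨δ', k', h'⟩ := exists_Mx hDC hAD hd hcd' (F := F) x'
    rw [A2_T_eq hcd' h, A2_T_eq hcd' h'] at hE'
    refine case2' hDC hAD hd hF hx h hx' h' (fun hm => hcase ⟨x, δ, k, hx, h, hm⟩) hE'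

end Pool.Agent.Lib.MP_f5c99b_lc
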