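import Pool.Agent.Lib.MP_7b07e0_lc.Metric
import Pool.Agent.Lib.MP_7b07e0_lc.Cases

/-! From the notions of the final statement to those of the proof, and the final theorem.
(ROWS Z1, Z2, Z3) -/

namespace Pool.Agent.Lib.MP_f5c99b_lc

open Pool.Agent.Lib.MP_7b07e0_lc

universe u

variable {M : Type u} [Membership M M] [hZF : Fact (IsModelOfZF M)]

/-! ### axioms (ROW Z1) -/

theorem isOmega_iff {w : M} : IsOmega w ↔ w = omega M := by
  constructor
  · rintro ⟨h1, h2⟩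
    refine ext fun n => ⟨fun hn => ?_, fun hn => ?_⟩
    · obtain ⟨h3, h4⟩ := ind_iff.mp (ind_omega (M := M))
      exact h2 (omega M) h3 h4 n hn
    · exact mem_omega.mp hn w (ind_iff.mpr h1)
  · rintro rfl
    exact isOmega_omega

theorem isPow_iff {P a : M} : IsPow P a ↔ P = pow a :=
  ⟨fun h => ext fun x => (h x).trans mem_pow.symm, fun h x => by rw [h]; exact mem_pow⟩

theorem isFinSeqs_iff {Q R : M} : IsFinSeqs (omega M) Q R ↔ Q = fseq R :=
  ⟨fun h => ext fun x => (h x).trans mem_fseq.symm, fun h x => by rw [h]; exact mem_fseq⟩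

theorem isRestr_iff {s f a b c : M} (hf : IsFun f b c) : IsRestr s f a ↔ s = restr f a := by
  have key : ∀ p, p ∈ restr f a ↔ p ∈ f ∧ ∃ x y : M, IsPair p x y ∧ x ∈ a := by
    intro p
    rw [restr, mem_sep]
    refine and_congr_right fun hp => ?_
    obtain ⟨x, hx, rfl⟩ := hf.mem_iff.mp hp
    rw [fst_pr]
    constructor
    · intro h
      exact ⟨x, ap f x, isPair_iff.mpr rfl, h⟩
    · rintro ⟨x', y', h1, h2⟩
      rw [isPair_iff] at h1
      rwa [(pr_inj h1).1]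
  exact ⟨fun h => ext fun p => (h p).trans (key p).symm, fun h p => by rw [h]; exact key p⟩

theorem isSuc_iff {m n : M} : IsSuc m n ↔ m = suc n :=
  ⟨fun h => ext fun x => (h x).trans mem_suc.symm, fun h x => by rw [h]; exact mem_suc⟩

/-- the finite paths of the relation `R` starting at `a` -/
noncomputable def Z1_path (S R a : M) : M :=
  sep (fseq S) (fun s => emp ∈ dom s ∧ ap s emp = a ∧
    ∀ i, suc i ∈ dom s → App R (ap s i) (ap s (suc i)))

theorem Z1_mem_path {S R a s : M} : s ∈ Z1_path S R a ↔ s ∈ fseq S ∧ emp ∈ dom s ∧ ap s emp = a ∧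
    ∀ i, suc i ∈ dom s → App R (ap s i) (ap s (suc i)) := by
  rw [Z1_path, mem_sep]

/-- dependent choice in the usual form implies the form with a given first term: apply it to the
finite paths starting at `a` -/
theorem dc_of (h : DependentChoice M) : DC M := by
  intro S R a ha hR
  -- the one step extension
  let R' : M := sep (prod (Z1_path S R a) (Z1_path S R a))
    (fun p => ∃ x, x ∈ S ∧ snd p = snoc (fst p) x)
  have hR' : ∀ s t, App R' s t ↔ s ∈ Z1_path S R a ∧ t ∈ Z1_path S R a ∧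
      ∃ x, x ∈ S ∧ t = snoc s x := by
    intro s t
    rw [app_iff, mem_sep, pr_mem_prod, fst_pr, snd_pr, and_assoc]
  -- a path of length 1
  have h0 : snoc emp a ∈ Z1_path S R a := by
    have hf := isFun_snoc (S := S) emp_mem_omega (isFun_emp S) ha
    refine Z1_mem_path.mpr ⟨snoc_mem (emp_mem_fseq S) ha, ?_, ?_, ?_⟩
    · rw [hf.dom]
      exact mem_suc_self _
    · exact ap_snoc_last emp_mem_omega (isFun_emp S) ha
    · intro i hi
      rw [hf.dom] at hi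
      rcases mem_suc.mp hi with h1 | h1
      · exact (not_mem_emp _ h1).elim
      · exact (suc_ne_emp _ h1).elim
  -- every path can be extended
  have h1 : ∀ s, s ∈ Z1_path S R a → ∃ t, t ∈ Z1_path S R a ∧ App R' s t := by
    intro s hs
    obtain ⟨hs1, hs2, hs3, hs4⟩ := Z1_mem_path.mp hs
    obtain ⟨n, hn, hsf⟩ := mem_fseq.mp hs1
    rw [hsf.dom] at hs2 hs4
    -- the last element
    have hk : ∃ k, k ∈ omega M ∧ n = suc k := by
      have : ∀ n, n ∈ omega M → n = emp ∨ ∃ k, k ∈ omega M ∧ n = suc k :=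
        omega_induction (fun n => n = emp ∨ ∃ k, k ∈ omega M ∧ n = suc k) (Or.inl rfl)
          (fun n hn _ => Or.inr ⟨n, hn, rfl⟩)
      rcases this n hn with h2 | h2
      · rw [h2] at hs2
        exact (not_mem_emp _ hs2).elim
      · exact h2
    obtain ⟨k, hk, rfl⟩ := hk
    obtain ⟨x, hx, hxR⟩ := hR (ap s k) (hsf.ap_mem (mem_suc_self k))
    have hf := isFun_snoc hn hsf hx
    have ht : snoc s x ∈ Z1_path S R a := by
      refine Z1_mem_path.mpr ⟨snoc_mem hs1 hx, ?_, ?_, ?_⟩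
      · rw [hf.dom]
        exact mem_suc.mpr (Or.inl hs2)
      · rw [ap_snoc hn hsf hx hs2, hs3]
      · intro i hi
        rw [hf.dom] at hi
        rcases mem_suc.mp hi with h2 | h2
        · have h3 : i ∈ suc k := omega_mem_trans hn (mem_suc_self i) h2
          rw [ap_snoc hn hsf hx h3, ap_snoc hn hsf hx h2]
          exact hs4 i h2
        · have h3 := suc_inj h2
          subst h3
          rw [ap_snoc_last hn hsf hx, ap_snoc hn hsf hx (mem_suc_self i)]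
          exact hxR
    exact ⟨_, ht, (hR' _ _).mpr ⟨hs, ht, x, hx, rfl⟩⟩
  obtain ⟨f, hf, hf'⟩ := h (omega M) (Z1_path S R a) R' isOmega_omega ⟨_, h0⟩ h1
  have hstep : ∀ n, n ∈ omega M → ∃ x, x ∈ S ∧ ap f (suc n) = snoc (ap f n) x := by
    intro n hn
    exact ((hR' _ _).mp (hf' n (suc n) _ _ hn (isSuc_iff.mpr rfl) (hf.mem hn)
      (hf.mem (suc_mem_omega hn)))).2.2
  have hfm : ∀ n, n ∈ omega M → ap f n ∈ fseq S ∧ emp ∈ dom (ap f n) ∧ ap (ap f n) emp = a ∧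
      ∀ i, suc i ∈ dom (ap f n) → App R (ap (ap f n) i) (ap (ap f n) (suc i)) := fun n hn =>
    Z1_mem_path.mp (hf.ap_mem hn)
  have hdom : ∀ n, n ∈ omega M → n ∈ dom (ap f n) := by
    refine omega_induction (fun n => n ∈ dom (ap f n)) (hfm emp emp_mem_omega).2.1 ?_
    intro n hn ih
    obtain ⟨x, hx, hx'⟩ := hstep n hn
    obtain ⟨k, hk, hkf⟩ := mem_fseq.mp (hfm n hn).1
    rw [hx', (isFun_snoc hk hkf hx).dom]
    rw [hkf.dom] at ih
    exact (suc_mem_suc hn hk).mpr ih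
  refine ⟨lam (omega M) (fun n => ap (ap f n) n), isFun_lam fun n hn => ?_, ?_, fun n hn => ?_⟩
  · obtain ⟨k, hk, hkf⟩ := mem_fseq.mp (hfm n hn).1
    have := hdom n hn
    rw [hkf.dom] at this
    exact hkf.ap_mem this
  · rw [ap_lam' emp_mem_omega]
    exact (hfm emp emp_mem_omega).2.2.1
  · rw [ap_lam' hn, ap_lam' (suc_mem_omega hn)]
    have h2 := (hfm (suc n) (suc_mem_omega hn)).2.2.2 n (hdom (suc n) (suc_mem_omega hn))
    obtain ⟨x, hx, hx'⟩ := hstep n hn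
    obtain ⟨k, hk, hkf⟩ := mem_fseq.mp (hfm n hn).1
    have h3 := hdom n hn
    rw [hkf.dom] at h3
    rw [hx', ap_snoc hk hkf hx h3] at h2
    rwa [← hx'] at h2

theorem adr_of (h : ADReals M) : ADR M := by
  intro A
  rcases h (omega M) (pow (omega M)) (fseq (pow (omega M))) A isOmega_omega
    (isPow_iff.mpr rfl) (isFinSeqs_iff.mpr rfl) with ⟨σ, hσ, h1⟩ | ⟨τ, hτ, h1⟩
  · refine Or.inl ⟨σ, hσ, fun x y hx hy hxy => h1 x y _ hx hy (isPair_iff.mpr rfl) ?_⟩
    intro n s a hn hs ha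
    rw [isRestr_iff hy] at hs
    subst hs
    obtain ⟨_, rfl⟩ := hx.app.mp ha
    exact hσ.app.mpr ⟨restr_mem_fseq hy hn, hxy n hn⟩
  · refine Or.inr ⟨τ, hτ, fun x y hx hy hxy => h1 x y _ hx hy (isPair_iff.mpr rfl) ?_⟩
    intro n m s a hn hm hs ha
    rw [isRestr_iff hx] at hs
    rw [isSuc_iff] at hm
    subst hm
    subst hs
    obtain ⟨_, rfl⟩ := hy.app.mp ha
    exact hτ.app.mpr ⟨restr_mem_fseq hx (suc_mem_omega hn), hxy n hn⟩

/-! ### cardinals (ROW Z2) -/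

theorem cardLE_iff {a b : M} : CardLE a b ↔ Emb a b := by
  constructor
  · rintro ⟨f, hf, h⟩
    refine ⟨f, hf, fun x hx y hy e => ?_⟩
    refine h x y (ap f x) (hf.app.mpr ⟨hx, rfl⟩) (hf.app.mpr ⟨hy, e⟩)
  · rintro ⟨f, hf, h⟩
    refine ⟨f, hf, fun x y z h1 h2 => ?_⟩
    obtain ⟨hx, e1⟩ := hf.app.mp h1
    obtain ⟨hy, e2⟩ := hf.app.mp h2
    exact h x hx y hy (e1.symm.trans e2)

theorem isOrdinal_iff {x : M} : IsOrdinal x ↔ Ord x := Iff.rfl

theorem isOmega1_iff {o : M} : IsOmega1 (omega M) o ↔ o = om1 M := by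
  constructor
  · intro h
    refine ext fun x => ?_
    rw [h x, mem_om1, cardLE_iff]
    exact Iff.rfl
  · rintro rfl x
    rw [mem_om1, cardLE_iff]
    exact Iff.rfl

theorem isCountableSubsets_iff {P a : M} : IsCountableSubsets (omega M) P a ↔ P = Pc a := by
  constructor
  · intro h
    refine ext fun x => ?_
    rw [h x, mem_Pc, cardLE_iff]
    exact Iff.rfl
  · rintro rfl x
    rw [mem_Pc, cardLE_iff]
    exact Iff.rfl

theorem e0Rel_iff {x y : M} : E0Rel (omega M) x y ↔ E0 x y := Iff.rfl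

/-- the class of `x` -/
noncomputable def e0cl (x : M) : M := sep (pow (omega M)) (fun y => E0 x y)

instance DT_e0cl (t1 : (ℕ → M) → M) [DT t1] : DT (fun v => e0cl (t1 v)) := by
  refine DT1 (f := e0cl) ?_ t1
  unfold e0cl
  infer_instance

private theorem Z2e_mem_e0cl {x y : M} : y ∈ e0cl x ↔ Incl y (omega M) ∧ E0Rel (omega M) x y := by
  rw [e0cl, mem_sep, mem_pow]
  exact Iff.rfl

private theorem Z2e_mem_img {c : M} : c ∈ img (pow (omega M)) e0cl ↔
    ∃ x : M, Incl x (omega M) ∧ ∀ y : M, y ∈ c ↔ Incl y (omega M) ∧ E0Rel (omega M) x y := by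
  rw [mem_img]
  constructor
  · rintro ⟨x, hx, rfl⟩
    exact ⟨x, mem_pow.mp hx, fun y => Z2e_mem_e0cl⟩
  · rintro ⟨x, hx, h⟩
    exact ⟨x, mem_pow.mpr hx, ext fun y => (h y).trans Z2e_mem_e0cl.symm⟩

theorem isE0Quotient_iff {Q : M} : IsE0Quotient (omega M) Q ↔ Q = img (pow (omega M)) e0cl := by
  constructor
  · intro h
    exact ext fun c => (h c).trans Z2e_mem_img.symm
  · rintro rfl c
    exact Z2e_mem_img

/-! ### the final theorem (ROW Z3) -/

/-- an injection of classes from a function on points which respects and separates the classes -/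
theorem Z3_quot {A B : M} (t f : M → M) [ht : DT (fun v => t (v 0))] [hf : DT (fun v => f (v 0))]
    (hfB : ∀ x, x ∈ A → f x ∈ B)
    (h : ∀ x x', x ∈ A → x' ∈ A → (t x = t x' ↔ f x = f x')) : Emb (img A t) B := by
  have key : ∀ x, x ∈ A → iota (fun o => ∃ x', x' ∈ A ∧ t x = t x' ∧ o = f x') = f x := by
    intro x hx
    refine iota_eq ⟨x, hx, rfl, rfl⟩ ?_
    rintro y ⟨x', hx', e, rfl⟩
    exact ((h x x' hx hx').mp e).symm
  have hD : DT (fun v : ℕ → M => iota (fun o => ∃ x', x' ∈ A ∧ v 0 = t x' ∧ o = f x')) := by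
    have h1 : DT (fun v : ℕ → M => t (v 0)) := ht
    have h2 : DT (fun v : ℕ → M => f (v 0)) := hf
    infer_instance
  refine Emb.of_fun (fun c => iota (fun o => ∃ x', x' ∈ A ∧ c = t x' ∧ o = f x')) ?_ ?_
  · intro c hc
    obtain ⟨x, hx, rfl⟩ := mem_img.mp hc
    rw [key x hx]
    exact hfB x hx
  · intro c hc c' hc' e
    obtain ⟨x, hx, rfl⟩ := mem_img.mp hc
    obtain ⟨x', hx', rfl⟩ := mem_img.mp hc'
    rw [key x hx, key x' hx'] at e
    exact (h x x' hx hx').mpr e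

theorem Z3_E0_refl (x : M) : E0 x x := ⟨emp, emp_mem_omega, fun _ _ _ => Iff.rfl⟩

theorem Z3_E0_symm {x y : M} (h : E0 x y) : E0 y x := by
  obtain ⟨n, hn, h⟩ := h
  exact ⟨n, hn, fun m hm hs => (h m hm hs).symm⟩

theorem Z3_E0_trans {x y z : M} (h : E0 x y) (h' : E0 y z) : E0 x z := by
  obtain ⟨n, hn, h⟩ := h
  obtain ⟨k, hk, h'⟩ := h'
  have hnk : Sub n k ∨ Sub k n := by
    rcases omega_tri hn hk with h1 | h1 | h1
    · exact Or.inl ((omega_sub_iff hn hk).mpr (Or.inl h1))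
    · exact Or.inl ((omega_sub_iff hn hk).mpr (Or.inr h1))
    · exact Or.inr ((omega_sub_iff hk hn).mpr (Or.inl h1))
  rcases hnk with h1 | h1
  · exact ⟨k, hk, fun m hm hs => (h m hm (h1.trans hs)).trans (h' m hm hs)⟩
  · exact ⟨n, hn, fun m hm hs => (h m hm hs).trans (h' m hm (h1.trans hs))⟩

theorem Z3_e0cl {x y : M} (_hx : x ∈ pow (omega M)) (hy : y ∈ pow (omega M)) :
    e0cl x = e0cl y ↔ E0 x y := by
  constructor
  · intro h
    have h1 : y ∈ e0cl y := mem_sep.mpr ⟨hy, Z3_E0_refl y⟩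
    rw [← h] at h1
    exact (mem_sep.mp h1).2
  · intro h
    refine ext fun z => ?_
    rw [e0cl, e0cl, mem_sep, mem_sep]
    exact and_congr_right fun _ =>
      ⟨fun h1 => Z3_E0_trans (Z3_E0_symm h) h1, fun h1 => Z3_E0_trans h h1⟩

variable (G : PolishGroup M) (S : SepMetricSpace M) (A : Action G S.X)

omit hZF in
theorem Z3_app {g : El G.X} {x y : El S.X} : App2 A.a g.1 x.1 y.1 ↔ A.smul g x = y :=
  A.smul_iff g x y

/-- the action transported to a subset of `P(ω)` -/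
theorem exists_transport : ∃ i X act, Inj i S.X (pow (omega M)) ∧ X = ran i ∧
    IsFun act (prod G.X X) X ∧
    ∀ (g : El G.X) (x : El S.X), ap act (pr g.1 (ap i x.1)) = ap i (A.smul g x).1 := by
  obtain ⟨i, hi⟩ := SepMetricSpace.emb S
  have key : ∀ (g : El G.X) (x : El S.X), iota (fun z => ∃ x', x' ∈ S.X ∧
      snd (pr g.1 (ap i x.1)) = ap i x' ∧ ∃ y, y ∈ S.X ∧
      App2 A.a (fst (pr g.1 (ap i x.1))) x' y ∧ z = ap i y) = ap i (A.smul g x).1 := by
    intro g x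
    rw [fst_pr, snd_pr]
    refine iota_eq ⟨x.1, x.2, rfl, (A.smul g x).1, (A.smul g x).2,
      (Z3_app G S A).mpr rfl, rfl⟩ ?_
    rintro z ⟨x', hx', e, y, hy, h, rfl⟩
    have e1 : x.1 = x' := hi.2 _ x.2 _ hx' e
    subst e1
    have := (Z3_app G S A (g := g) (x := x) (y := ⟨y, hy⟩)).mp h
    rw [this]
  refine ⟨i, ran i, lam (prod G.X (ran i)) (fun p => iota (fun z => ∃ x', x' ∈ S.X ∧
      snd p = ap i x' ∧ ∃ y, y ∈ S.X ∧ App2 A.a (fst p) x' y ∧ z = ap i y)), hi, rfl, ?_, ?_⟩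
  · refine isFun_lam ?_
    intro p hp
    obtain ⟨g, hg, w, hw, rfl⟩ := mem_prod.mp hp
    obtain ⟨x, hx, rfl⟩ := (hi.1.mem_ran).mp hw
    rw [key ⟨g, hg⟩ ⟨x, hx⟩]
    exact (hi.1.mem_ran).mpr ⟨_, (A.smul ⟨g, hg⟩ ⟨x, hx⟩).2, rfl⟩
  · intro g x
    rw [ap_lam' (pr_mem_prod.mpr ⟨g.2, (hi.1.mem_ran).mpr ⟨x.1, x.2, rfl⟩⟩)]
    exact key g x

/-- the orbit of a point -/
noncomputable def Z3_orb (x : M) : M := sep S.X (fun y => ∃ g, g ∈ G.X ∧ App2 A.a g x y)

instance DT_Z3_orb (t1 : (ℕ → M) → M) [DT t1] : DT (fun v => Z3_orb G S A (t1 v)) := by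
  refine DT1 (f := Z3_orb G S A) ?_ t1
  unfold Z3_orb
  infer_instance

/-- the set of orbits -/
noncomputable def orbs : M :=
  img S.X (fun x => sep S.X (fun y => ∃ g, g ∈ G.X ∧ App2 A.a g x y))

theorem Z3_mem_orb {x : El S.X} {y : M} :
    y ∈ Z3_orb G S A x.1 ↔ ∃ g : El G.X, (A.smul g x).1 = y := by
  rw [Z3_orb, mem_sep]
  constructor
  · rintro ⟨hy, g, hg, h⟩
    refine ⟨⟨g, hg⟩, ?_⟩
    rw [(Z3_app G S A (g := ⟨g, hg⟩) (x := x) (y := ⟨y, hy⟩)).mp h]
  · rintro ⟨g, rfl⟩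
    exact ⟨(A.smul g x).2, g.1, g.2, (Z3_app G S A).mpr rfl⟩

theorem Z3_orbs : orbs G S A = img S.X (fun x => Z3_orb G S A x) := rfl

theorem isOrbitSet_iff {O : M} : A.IsOrbitSet O ↔ O = orbs G S A := by
  have key : ∀ o, o ∈ orbs G S A ↔ ∃ x : El S.X, ∀ y : M, y ∈ o ↔ ∃ g : El G.X,
      (A.smul g x).1 = y := by
    intro o
    rw [Z3_orbs, mem_img]
    constructor
    · rintro ⟨x, hx, rfl⟩
      exact ⟨⟨x, hx⟩, fun y => Z3_mem_orb G S A (x := ⟨x, hx⟩)⟩
    · rintro ⟨x, h⟩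
      exact ⟨x.1, x.2, ext fun y => (h y).trans (Z3_mem_orb G S A).symm⟩
  constructor
  · intro h
    exact ext fun o => (h o).trans (key o).symm
  · rintro rfl
    exact key

theorem Z3_orb_eq {x y : El S.X} :
    Z3_orb G S A x.1 = Z3_orb G S A y.1 ↔ ∃ g : El G.X, A.smul g x = y := by
  constructor
  · intro h
    have h1 : y.1 ∈ Z3_orb G S A y.1 := (Z3_mem_orb G S A).mpr ⟨1, by rw [A.one_smul]⟩
    rw [← h] at h1
    obtain ⟨g, hg⟩ := (Z3_mem_orb G S A).mp h1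
    exact ⟨g, Subtype.ext hg⟩
  · rintro ⟨g, rfl⟩
    refine ext fun z => ?_
    rw [Z3_mem_orb, Z3_mem_orb]
    constructor
    · rintro ⟨k, rfl⟩
      exact ⟨k * g⁻¹, by rw [← A.mul_smul, inv_mul_cancel_right]⟩
    · rintro ⟨k, rfl⟩
      exact ⟨k * g, by rw [A.mul_smul]⟩

theorem final (hDC : DC M) (hAD : ADR M) :
    Emb (orbs G S A) (Pc (om1 M)) ∨ Emb (img (pow (omega M)) e0cl) (orbs G S A) := by
  obtain ⟨gam, hgam⟩ := exists_denseSub G
  obtain ⟨i, X, act, hi, rfl, hact, hact'⟩ := exists_transport G S A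
  have hX : ∀ z, z ∈ ran i ↔ ∃ x : El S.X, z = ap i x.1 := by
    intro z
    rw [hi.1.mem_ran]
    exact ⟨fun ⟨x, hx, h⟩ => ⟨⟨x, hx⟩, h⟩, fun ⟨x, h⟩ => ⟨x.1, x.2, h⟩⟩
  have hgood : (gDat G gam (ran i) act).Good := by
    refine gDat_good G hDC hAD hgam ?_ hact ?_ ?_
    · intro z hz
      obtain ⟨x, rfl⟩ := (hX z).mp hz
      exact hi.1.ap_mem x.2
    · intro z hz
      obtain ⟨x, rfl⟩ := (hX z).mp hz
      rw [hact', A.one_smul]
    · intro g h z hz
      obtain ⟨x, rfl⟩ := (hX z).mp hz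
      rw [hact', hact', hact', A.mul_smul]
  have hEr : ∀ x y : El S.X, (gDat G gam (ran i) act).Er (ap i x.1) (ap i y.1) ↔
      Z3_orb G S A x.1 = Z3_orb G S A y.1 := by
    intro x y
    rw [Z3_orb_eq]
    constructor
    · rintro ⟨g, hg, h⟩
      have h1 : ap act (pr g (ap i x.1)) = ap i y.1 := h
      rw [hact' ⟨g, hg⟩ x] at h1
      exact ⟨⟨g, hg⟩, Subtype.ext (hi.2 _ (A.smul ⟨g, hg⟩ x).2 _ y.2 h1)⟩
    · rintro ⟨g, rfl⟩
      exact ⟨g.1, g.2, hact' g x⟩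
  rcases core hDC hAD hgood with ⟨f, hf, hf'⟩ | ⟨f, hf, hf'⟩
  · right
    -- the inverse of `i`
    have hj : ∀ x : El S.X, iota (fun y => y ∈ S.X ∧ ap i y = ap i x.1) = x.1 := by
      intro x
      refine iota_eq ⟨x.2, rfl⟩ ?_
      rintro y ⟨hy, e⟩
      exact hi.2 _ hy _ x.2 e
    have hfx : ∀ x, x ∈ pow (omega M) → ∃ z : El S.X, ap f x = ap i z.1 := by
      intro x hx
      exact (hX _).mp (hf.ap_mem hx)
    refine Z3_quot (t := e0cl)
      (f := fun x => Z3_orb G S A (iota (fun y => y ∈ S.X ∧ ap i y = ap f x))) ?_ ?_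
    · intro x hx
      obtain ⟨z, hz⟩ := hfx x hx
      rw [hz, hj z, Z3_orbs, mem_img]
      exact ⟨z.1, z.2, rfl⟩
    · intro x x' hx hx'
      obtain ⟨z, hz⟩ := hfx x hx
      obtain ⟨z', hz'⟩ := hfx x' hx'
      simp only [hz, hz', hj z, hj z']
      rw [Z3_e0cl hx hx', hf' x x' hx hx', hz, hz', hEr]
  · left
    rw [Z3_orbs]
    refine Z3_quot (t := fun x => Z3_orb G S A x) (f := fun x => ap f (ap i x)) ?_ ?_
    · intro x hx
      exact hf.ap_mem ((hX _).mpr ⟨⟨x, hx⟩, rfl⟩)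
    · intro x x' hx hx'
      rw [← hEr ⟨x, hx⟩ ⟨x', hx'⟩]
      exact hf' _ _ ((hX _).mpr ⟨⟨x, hx⟩, rfl⟩) ((hX _).mpr ⟨⟨x', hx'⟩, rfl⟩)

/-- **Q1.** In every model of `ZF + DC + AD_ℝ`: for every action of a Polish group on a separable
metrizable space, the orbit set injects into the set of countable subsets of `ω₁`, or `2 ^ ω / E₀`
injects into the orbit set. The sets `ω`, `ω₁`, … exist. -/
theorem main7b (hDC : DependentChoice M) (hAD : ADReals M) :
    (∃ w o P E O : M, IsOmega w ∧ IsOmega1 w o ∧ IsCountableSubsets w P o ∧ IsE0Quotient w E ∧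
      A.IsOrbitSet O) ∧
    ∀ w o P E O : M, IsOmega w → IsOmega1 w o → IsCountableSubsets w P o → IsE0Quotient w E →
      A.IsOrbitSet O → CardLE O P ∨ CardLE E O := by
  refine ⟨⟨omega M, om1 M, Pc (om1 M), img (pow (omega M)) e0cl, orbs G S A, isOmega_omega,
    isOmega1_iff.mpr rfl, isCountableSubsets_iff.mpr rfl, isE0Quotient_iff.mpr rfl,
    (isOrbitSet_iff G S A).mpr rfl⟩, ?_⟩
  intro w o P E O hw ho hP hE hO
  obtain rfl := isOmega_iff.mp hw
  obtain rfl := isOmega1_iff.mp ho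
  obtain rfl := isCountableSubsets_iff.mp hP
  obtain rfl := isE0Quotient_iff.mp hE
  obtain rfl := (isOrbitSet_iff G S A).mp hO
  rw [cardLE_iff, cardLE_iff]
  exact final G S A (dc_of hDC) (adr_of hAD)

end Pool.Agent.Lib.MP_f5c99b_lc
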