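import Pool.Agent.Lib.MP_7b07e0_lc.Ord

/-! Determinacy of games with real moves, and its consequences: games on smaller sets,
uniformization, no injection of `ω₁` into the reals. (ROWS AU, AW) The reals are the subsets of
`ω`. -/

namespace Pool.Agent.Lib.MP_f5c99b_lc

universe u

variable {M : Type u} [Membership M M] [hZF : Fact (IsModelOfZF M)]

/-- `σ` is a winning strategy for player I in the game with moves in `S` and payoff set `A`:
I plays `x 0, x 1, …`, II plays `y 0, y 1, …` alternately (`x 0, y 0, x 1, y 1, …`), I wins iff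
`(x, y) ∈ A`. -/
def WinI (S A σ : M) : Prop := IsFun σ (fseq S) S ∧
  ∀ x y, IsFun x (omega M) S → IsFun y (omega M) S →
    (∀ n, n ∈ omega M → ap x n = ap σ (restr y n)) → pr x y ∈ A

/-- `τ` is a winning strategy for player II. -/
def WinII (S A τ : M) : Prop := IsFun τ (fseq S) S ∧
  ∀ x y, IsFun x (omega M) S → IsFun y (omega M) S →
    (∀ n, n ∈ omega M → ap y n = ap τ (restr x (suc n))) → pr x y ∉ A

instance D_WinI (t1 t2 t3 : (ℕ → M) → M) [DT t1] [DT t2] [DT t3] :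
    D (fun v => WinI (t1 v) (t2 v) (t3 v)) := by
  refine D3 (P := WinI) ?_ t1 t2 t3
  unfold WinI
  infer_instance

instance D_WinII (t1 t2 t3 : (ℕ → M) → M) [DT t1] [DT t2] [DT t3] :
    D (fun v => WinII (t1 v) (t2 v) (t3 v)) := by
  refine D3 (P := WinII) ?_ t1 t2 t3
  unfold WinII
  infer_instance

variable (M) in
/-- `AD_ℝ`: all games of length `ω` with moves in `ℝ = P(ω)` are determined. -/
def ADR : Prop := ∀ A : M, (∃ σ, WinI (pow (omega M)) A σ) ∨ ∃ τ, WinII (pow (omega M)) A τ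

/-! ### helper lemmas (ROW AU) -/

theorem AU_restr_emp {f a b : M} (_h : IsFun f a b) : restr f emp = emp := by
  refine eq_emp fun p hp => ?_
  obtain ⟨hp1, hp2⟩ := mem_sep.mp hp
  exact not_mem_emp _ hp2

theorem AU_sub_omega {n : M} (hn : n ∈ omega M) : Sub n (omega M) :=
  fun _ hx => omega_trans hn hx

/-- a left inverse of an injection -/
theorem AU_retract {a b f : M} (hf : Inj f a b) (hne : ∃ x, x ∈ a) :
    ∃ g, IsFun g b a ∧ ∀ x, x ∈ a → ap g (ap f x) = x := by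
  obtain ⟨hf, hf'⟩ := hf
  obtain ⟨x0, hx0⟩ := hne
  let t : M → M := fun y => iota (fun x => (x ∈ a ∧ ap f x = y) ∨
    ((¬ ∃ z, z ∈ a ∧ ap f z = y) ∧ x = x0))
  have ht : ∀ x, x ∈ a → t (ap f x) = x := by
    intro x hx
    refine iota_eq (Or.inl ⟨hx, rfl⟩) ?_
    rintro y (⟨h1, h2⟩ | ⟨h1, _⟩)
    · exact hf' y h1 x hx h2
    · exact absurd ⟨x, hx, rfl⟩ h1
  refine ⟨lam b t, isFun_lam ?_, ?_⟩
  · intro y _
    by_cases h : ∃ z, z ∈ a ∧ ap f z = y
    · obtain ⟨z, hz, rfl⟩ := h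
      rwa [ht z hz]
    · have : t y = x0 := by
        refine iota_eq (Or.inr ⟨h, rfl⟩) ?_
        rintro x (⟨h1, h2⟩ | ⟨_, h2⟩)
        · exact absurd ⟨x, h1, h2⟩ h
        · exact h2
      rwa [this]
  · intro x hx
    rw [ap_lam' (hf.ap_mem hx), ht x hx]

theorem AU_isFun_cmp {a b c f g : M} (hf : IsFun f a b) (hg : IsFun g b c) :
    IsFun (cmp a f g) a c := isFun_lam fun _ hx => hg.ap_mem (hf.ap_mem hx)

theorem AU_ap_cmp {a f g x : M} (hx : x ∈ a) : ap (cmp a f g) x = ap g (ap f x) := by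
  rw [cmp, ap_lam' hx]

/-- composition commutes with restriction -/
theorem AU_cmp_restr {a b c f g n : M} (hf : IsFun f a b) (hg : IsFun g b c) (hn : Sub n a) :
    cmp n (restr f n) g = restr (cmp a f g) n := by
  refine (AU_isFun_cmp (hf.restr hn) hg).ext ((AU_isFun_cmp hf hg).restr hn) fun x hx => ?_
  rw [AU_ap_cmp hx, hf.ap_restr hn hx, (AU_isFun_cmp hf hg).ap_restr hn hx, AU_ap_cmp (hn x hx)]

theorem AU_cmp_mem_fseq {S R s f : M} (hf : IsFun f S R) (hs : s ∈ fseq S) :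
    cmp (dom s) s f ∈ fseq R := by
  obtain ⟨n, hn, hs⟩ := mem_fseq.mp hs
  rw [hs.dom]
  exact mem_fseq.mpr ⟨n, hn, AU_isFun_cmp hs hf⟩

/-- determinacy for games with moves in a nonempty set which injects into the reals (ROW AU) -/
theorem det_emb (hAD : ADR M) {S : M} (hS : Emb S (pow (omega M))) (hne : ∃ x, x ∈ S) (A : M) :
    (∃ σ, WinI S A σ) ∨ ∃ τ, WinII S A τ := by
  obtain ⟨f, hf⟩ := hS
  obtain ⟨g, hg, hgf⟩ := AU_retract hf hne
  have hfF : IsFun f S (pow (omega M)) := hf.1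
  let A' : M := sep (prod (funs (omega M) (pow (omega M))) (funs (omega M) (pow (omega M))))
    (fun p => pr (cmp (omega M) (fst p) g) (cmp (omega M) (snd p) g) ∈ A)
  have hA' : ∀ x y, IsFun x (omega M) (pow (omega M)) → IsFun y (omega M) (pow (omega M)) →
      (pr x y ∈ A' ↔ pr (cmp (omega M) x g) (cmp (omega M) y g) ∈ A) := by
    intro x y hx hy
    change pr x y ∈ sep _ _ ↔ _
    rw [mem_sep, pr_mem_prod, fst_pr, snd_pr, mem_funs, mem_funs]
    exact ⟨fun h => h.2, fun h => ⟨⟨hx, hy⟩, h⟩⟩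
  -- `g ∘ f ∘ y = y`
  have hback : ∀ y, IsFun y (omega M) S →
      cmp (omega M) (cmp (omega M) y f) g = y := by
    intro y hy
    refine (AU_isFun_cmp (AU_isFun_cmp hy hfF) hg).ext hy fun n hn => ?_
    rw [AU_ap_cmp hn, AU_ap_cmp hn, hgf _ (hy.ap_mem hn)]
  -- the transferred strategy
  have hstr : ∀ σ', IsFun σ' (fseq (pow (omega M))) (pow (omega M)) →
      IsFun (lam (fseq S) (fun s => ap g (ap σ' (cmp (dom s) s f)))) (fseq S) S := by
    intro σ' hσ'
    exact isFun_lam fun s hs => hg.ap_mem (hσ'.ap_mem (AU_cmp_mem_fseq hfF hs))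
  have hval : ∀ σ' y n, IsFun y (omega M) S → n ∈ omega M →
      ap (lam (fseq S) (fun s => ap g (ap σ' (cmp (dom s) s f)))) (restr y n) =
        ap g (ap σ' (restr (cmp (omega M) y f) n)) := by
    intro σ' y n hy hn
    rw [ap_lam' (restr_mem_fseq hy hn), (isFun_restr_omega hy hn).dom,
      AU_cmp_restr hy hfF (AU_sub_omega hn)]
  rcases hAD A' with ⟨σ', hσ', hw⟩ | ⟨τ', hτ', hw⟩
  · left
    refine ⟨_, hstr σ' hσ', fun x y hx hy hxy => ?_⟩
    have hy' : IsFun (cmp (omega M) y f) (omega M) (pow (omega M)) := AU_isFun_cmp hy hfF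
    let x' : M := lam (omega M) (fun n => ap σ' (restr (cmp (omega M) y f) n))
    have hx' : IsFun x' (omega M) (pow (omega M)) :=
      isFun_lam fun n hn => hσ'.ap_mem (restr_mem_fseq hy' hn)
    have hapx' : ∀ n, n ∈ omega M → ap x' n = ap σ' (restr (cmp (omega M) y f) n) :=
      fun n hn => ap_lam' hn
    have h1 := (hA' x' _ hx' hy').mp (hw x' _ hx' hy' hapx')
    rw [hback y hy] at h1
    have h2 : cmp (omega M) x' g = x := by
      refine (AU_isFun_cmp hx' hg).ext hx fun n hn => ?_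
      rw [AU_ap_cmp hn, hapx' n hn, hxy n hn, hval σ' y n hy hn]
    rwa [h2] at h1
  · right
    refine ⟨_, hstr τ' hτ', fun x y hx hy hxy => ?_⟩
    have hx' : IsFun (cmp (omega M) x f) (omega M) (pow (omega M)) := AU_isFun_cmp hx hfF
    let y' : M := lam (omega M) (fun n => ap τ' (restr (cmp (omega M) x f) (suc n)))
    have hy' : IsFun y' (omega M) (pow (omega M)) :=
      isFun_lam fun n hn => hτ'.ap_mem (restr_mem_fseq hx' (suc_mem_omega hn))
    have hapy' : ∀ n, n ∈ omega M → ap y' n = ap τ' (restr (cmp (omega M) x f) (suc n)) :=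
      fun n hn => ap_lam' hn
    have h1 := fun h => hw _ y' hx' hy' hapy' ((hA' _ y' hx' hy').mpr h)
    rw [hback x hx] at h1
    have h2 : cmp (omega M) y' g = y := by
      refine (AU_isFun_cmp hy' hg).ext hy fun n hn => ?_
      rw [AU_ap_cmp hn, hapy' n hn, hxy n hn, hval τ' x (suc n) hx (suc_mem_omega hn)]
    rwa [h2] at h1

/-- uniformization (ROW AU) -/
theorem unif (hAD : ADR M) (P : M → M → Prop) [D (fun v => P (v 0) (v 1))]
    (hP : ∀ x, x ∈ pow (omega M) → ∃ y, y ∈ pow (omega M) ∧ P x y) :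
    ∃ F, IsFun F (pow (omega M)) (pow (omega M)) ∧ ∀ x, x ∈ pow (omega M) → P x (ap F x) := by
  have hD : D (fun v : ℕ → M => P (v 0) (v 1)) := inferInstance
  have hDP : ∀ (s t : (ℕ → M) → M) [DT s] [DT t], D (fun v => P (s v) (t v)) :=
    fun s t => D2 hD s t
  let A : M := sep (prod (funs (omega M) (pow (omega M))) (funs (omega M) (pow (omega M))))
    (fun p => ¬ P (ap (fst p) emp) (ap (snd p) emp))
  have hA : ∀ x y, IsFun x (omega M) (pow (omega M)) → IsFun y (omega M) (pow (omega M)) →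
      (pr x y ∈ A ↔ ¬ P (ap x emp) (ap y emp)) := by
    intro x y hx hy
    change pr x y ∈ sep _ _ ↔ _
    rw [mem_sep, pr_mem_prod, fst_pr, snd_pr, mem_funs, mem_funs]
    exact ⟨fun h => h.2, fun h => ⟨⟨hx, hy⟩, h⟩⟩
  have h0 : (emp : M) ∈ omega M := emp_mem_omega
  rcases hAD A with ⟨σ, hσ, hw⟩ | ⟨τ, hτ, hw⟩
  · exfalso
    obtain ⟨y0, hy0, hPy⟩ := hP (ap σ emp) (hσ.ap_mem (emp_mem_fseq _))
    let y : M := lam (omega M) (fun _ => y0)
    have hy : IsFun y (omega M) (pow (omega M)) := isFun_lam fun _ _ => hy0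
    let x : M := lam (omega M) (fun n => ap σ (restr y n))
    have hx : IsFun x (omega M) (pow (omega M)) :=
      isFun_lam fun n hn => hσ.ap_mem (restr_mem_fseq hy hn)
    have hapx : ∀ n, n ∈ omega M → ap x n = ap σ (restr y n) := fun n hn => ap_lam' hn
    have h1 := (hA x y hx hy).mp (hw x y hx hy hapx)
    apply h1
    have h2 : ap y emp = y0 := ap_lam' h0
    rw [hapx emp h0, AU_restr_emp hy, h2]
    exact hPy
  · have hc : ∀ x, x ∈ pow (omega M) →
        IsFun (lam (omega M) (fun _ => x)) (omega M) (pow (omega M)) :=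
      fun x hx => isFun_lam fun _ _ => hx
    refine ⟨lam (pow (omega M)) (fun x => ap τ (restr (lam (omega M) (fun _ => x)) (suc emp))),
      isFun_lam fun x hx => hτ.ap_mem (restr_mem_fseq (hc x hx) (suc_mem_omega h0)),
      fun x hx => ?_⟩
    let y : M := lam (omega M) (fun n => ap τ (restr (lam (omega M) (fun _ => x)) (suc n)))
    have hy : IsFun y (omega M) (pow (omega M)) :=
      isFun_lam fun n hn => hτ.ap_mem (restr_mem_fseq (hc x hx) (suc_mem_omega hn))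
    have hapy : ∀ n, n ∈ omega M →
        ap y n = ap τ (restr (lam (omega M) (fun _ => x)) (suc n)) := fun n hn => ap_lam' hn
    have h1 := hw _ y (hc x hx) hy hapy
    rw [hA _ y (hc x hx) hy, not_not, hapy emp h0] at h1
    have h2 : ap (lam (omega M) (fun _ => x)) emp = x := ap_lam' h0
    rw [h2] at h1
    rw [ap_lam' hx]
    exact h1

/-- uniformization for sets which inject into the reals (ROW AU) -/
theorem unif_emb (hAD : ADR M) {I J : M} (hI : Emb I (pow (omega M))) (hJ : Emb J (pow (omega M)))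
    (P : M → M → Prop) [D (fun v => P (v 0) (v 1))] (hP : ∀ x, x ∈ I → ∃ y, y ∈ J ∧ P x y) :
    ∃ F, IsFun F I J ∧ ∀ x, x ∈ I → P x (ap F x) := by
  have hD : D (fun v : ℕ → M => P (v 0) (v 1)) := inferInstance
  have hDP : ∀ (s t : (ℕ → M) → M) [DT s] [DT t], D (fun v => P (s v) (t v)) :=
    fun s t => D2 hD s t
  obtain ⟨i, hi, hi'⟩ := hI
  obtain ⟨j, hj, hj'⟩ := hJ
  obtain ⟨F', hF', hP'⟩ := unif hAD
    (fun x' y' => ∀ x, x ∈ I → ap i x = x' → ∃ y, y ∈ J ∧ ap j y = y' ∧ P x y) (by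
    intro x' _
    by_cases h : ∃ x, x ∈ I ∧ ap i x = x'
    · obtain ⟨x, hx, rfl⟩ := h
      obtain ⟨y, hy, hxy⟩ := hP x hx
      refine ⟨ap j y, hj.ap_mem hy, fun x2 hx2 e => ?_⟩
      rw [hi' x2 hx2 x hx e]
      exact ⟨y, hy, rfl, hxy⟩
    · exact ⟨emp, mem_pow.mpr fun y hy => (not_mem_emp y hy).elim,
        fun x hx e => absurd ⟨x, hx, e⟩ h⟩)
  have key : ∀ x, x ∈ I → ∃ y, y ∈ J ∧ ap j y = ap F' (ap i x) ∧ P x y :=
    fun x hx => hP' _ (hi.ap_mem hx) x hx rfl
  have hval : ∀ x y, x ∈ I → y ∈ J → ap j y = ap F' (ap i x) →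
      iota (fun y => y ∈ J ∧ ap j y = ap F' (ap i x)) = y := by
    intro x y _ hy e
    refine iota_eq ⟨hy, e⟩ ?_
    rintro z ⟨hz, e2⟩
    exact hj' z hz y hy (e2.trans e.symm)
  refine ⟨lam I (fun x => iota (fun y => y ∈ J ∧ ap j y = ap F' (ap i x))),
    isFun_lam fun x hx => ?_, fun x hx => ?_⟩
  · obtain ⟨y, hy, e, _⟩ := key x hx
    rw [hval x y hx hy e]
    exact hy
  · obtain ⟨y, hy, e, hxy⟩ := key x hx
    rw [ap_lam' hx, hval x y hx hy e]
    exact hxy

/-- the ordinal coded by `x` (row AW) -/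
noncomputable def AW_rho (f x : M) : M :=
  iota (fun a => (a ∈ om1 M ∧ ap f a = x) ∨ ((¬ ∃ b, b ∈ om1 M ∧ ap f b = x) ∧ a = emp))

instance DT_AW_rho (t1 t2 : (ℕ → M) → M) [DT t1] [DT t2] :
    DT (fun v => AW_rho (t1 v) (t2 v)) := by
  refine DT2 (f := AW_rho) ?_ t1 t2
  unfold AW_rho
  infer_instance

theorem AW_rho_ap {f S a : M} (hf : Inj f (om1 M) S) (ha : a ∈ om1 M) :
    AW_rho f (ap f a) = a := by
  refine iota_eq (Or.inl ⟨ha, rfl⟩) ?_
  rintro b (⟨h1, h2⟩ | ⟨h1, _⟩)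
  · exact hf.2 b h1 a ha h2
  · exact absurd ⟨a, ha, rfl⟩ h1

theorem AW_rho_mem {f S : M} (hf : Inj f (om1 M) S) (x : M) : AW_rho f x ∈ om1 M := by
  by_cases h : ∃ b, b ∈ om1 M ∧ ap f b = x
  · obtain ⟨b, hb, rfl⟩ := h
    rwa [AW_rho_ap hf hb]
  · have : AW_rho f x = emp := by
      refine iota_eq (Or.inr ⟨h, rfl⟩) ?_
      rintro y (⟨h1, h2⟩ | ⟨_, h2⟩)
      · exact absurd ⟨y, h1, h2⟩ h
      · exact h2
    rw [this]
    exact omega_sub_om1 _ emp_mem_omega

/-- the supremum of the ordinals coded by the moves of a play -/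
noncomputable def AW_sup (f x y : M) : M :=
  sU (un (img (omega M) (fun i => AW_rho f (ap x i))) (img (omega M) (fun i => AW_rho f (ap y i))))

instance DT_AW_sup (t1 t2 t3 : (ℕ → M) → M) [DT t1] [DT t2] [DT t3] :
    DT (fun v => AW_sup (t1 v) (t2 v) (t3 v)) := by
  refine DT3 (f := AW_sup) ?_ t1 t2 t3
  unfold AW_sup
  infer_instance

theorem AW_sup_eq {f x y a b : M} (ha : Ord a) (hx : ∀ i, i ∈ omega M → AW_rho f (ap x i) ∈ a)
    (hy : ∀ i, i ∈ omega M → AW_rho f (ap y i) ∈ a)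
    (hb : ∀ u, u ∈ a → ∃ k, k ∈ omega M ∧ u ∈ ap b k)
    (hxy : (∀ k, k ∈ omega M → AW_rho f (ap x k) = ap b k) ∨
      ∀ k, k ∈ omega M → AW_rho f (ap y k) = ap b k) : AW_sup f x y = a := by
  refine ext fun u => ?_
  rw [AW_sup, mem_sU]
  constructor
  · rintro ⟨w, hw, hu⟩
    rcases mem_un.mp hw with hw | hw
    · obtain ⟨i, hi, rfl⟩ := mem_img.mp hw
      exact ha.1 _ (hx i hi) u hu
    · obtain ⟨i, hi, rfl⟩ := mem_img.mp hw
      exact ha.1 _ (hy i hi) u hu
  · intro hu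
    obtain ⟨k, hk, hu⟩ := hb u hu
    rcases hxy with h | h
    · exact ⟨_, mem_un.mpr (Or.inl (mem_img.mpr ⟨k, hk, rfl⟩)), by rwa [h k hk]⟩
    · exact ⟨_, mem_un.mpr (Or.inr (mem_img.mpr ⟨k, hk, rfl⟩)), by rwa [h k hk]⟩

/-- the payoff set of the game number `n` -/
noncomputable def AW_A (f n : M) : M :=
  sep (prod (funs (omega M) (pow (omega M))) (funs (omega M) (pow (omega M))))
    (fun p => n ∈ ap f (AW_sup f (fst p) (snd p)))

instance DT_AW_A (t1 t2 : (ℕ → M) → M) [DT t1] [DT t2] :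
    DT (fun v => AW_A (t1 v) (t2 v)) := by
  refine DT2 (f := AW_A) ?_ t1 t2
  unfold AW_A
  infer_instance

theorem AW_mem_A {f n x y : M} (hx : IsFun x (omega M) (pow (omega M)))
    (hy : IsFun y (omega M) (pow (omega M))) :
    pr x y ∈ AW_A f n ↔ n ∈ ap f (AW_sup f x y) := by
  rw [AW_A, mem_sep, fst_pr, snd_pr, pr_mem_prod, mem_funs, mem_funs]
  exact ⟨fun h => h.2, fun h => ⟨⟨hx, hy⟩, h⟩⟩

/-- the sequence of ordinals of the opponent -/
theorem AW_seq (hDC : DC M) {f q S a0 : M} (hf : Inj f (om1 M) S) (ha0 : a0 ∈ om1 M) :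
    ∃ b, IsFun b (omega M) (om1 M) ∧ ∀ k, k ∈ omega M → a0 ∈ ap b k ∧
      (∀ i, i ∈ k → ap b i ∈ ap b k) ∧
      ∀ n, n ∈ omega M → AW_rho f (ap (ap q n) (restr (cmp (omega M) b f) k)) ∈ ap b k := by
  obtain ⟨F, hF, hF0, hF1⟩ := dc_rel hDC (S := fseq (om1 M)) (a := emp) (emp_mem_fseq _)
    (fun s t => ∃ c, c ∈ om1 M ∧ t = snoc s c ∧ a0 ∈ c ∧ (∀ i, i ∈ dom s → ap s i ∈ c) ∧
      ∀ n, n ∈ omega M → AW_rho f (ap (ap q n) (cmp (dom s) s f)) ∈ c) (by
      intro s hs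
      obtain ⟨m, hm, hsm⟩ := mem_fseq.mp hs
      have hcm : Ctbl m := ctbl_omega.sub fun x hx => omega_trans hm hx
      have hd : dom s = m := hsm.dom
      obtain ⟨c, hc, hc'⟩ := om1_bdd hDC
        (a := un (upair a0 a0) (un (img m (fun i => ap s i))
          (img (omega M) (fun n => AW_rho f (ap (ap q n) (cmp m s f)))))) (by
          intro x hx
          rcases mem_un.mp hx with hx | hx
          · rcases mem_upair.mp hx with rfl | rfl <;> exact ha0
          · rcases mem_un.mp hx with hx | hx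
            · obtain ⟨i, hi, rfl⟩ := mem_img.mp hx
              exact hsm.ap_mem hi
            · obtain ⟨i, hi, rfl⟩ := mem_img.mp hx
              exact AW_rho_mem hf _)
        ((ctbl_upair _ _).un ((hcm.img _).un (ctbl_omega.img _)))
      refine ⟨snoc s c, snoc_mem hs hc, c, hc, rfl, ?_, ?_, ?_⟩
      · exact hc' _ (mem_un.mpr (Or.inl (mem_upair.mpr (Or.inl rfl))))
      · intro i hi
        rw [hd] at hi
        exact hc' _ (mem_un.mpr (Or.inr (mem_un.mpr (Or.inl (mem_img.mpr ⟨i, hi, rfl⟩)))))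
      · intro n hn
        rw [hd]
        exact hc' _ (mem_un.mpr (Or.inr (mem_un.mpr (Or.inr (mem_img.mpr ⟨n, hn, rfl⟩))))))
  have hlen : ∀ k, k ∈ omega M → IsFun (ap F k) k (om1 M) := by
    refine omega_induction (fun k => IsFun (ap F k) k (om1 M)) ?_ ?_
    · rw [hF0]
      exact isFun_emp _
    · intro k hk ih
      obtain ⟨c, hc, h1, _⟩ := hF1 k hk
      rw [h1]
      exact isFun_snoc hk ih hc
  have hstep : ∀ n, n ∈ omega M → ∀ i, i ∈ n → ap (ap F (suc n)) i = ap (ap F n) i := by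
    intro k hk i hi
    obtain ⟨c, hc, h1, _⟩ := hF1 k hk
    rw [h1]
    exact ap_snoc hk (hlen k hk) hc hi
  obtain ⟨b, hb, hbF⟩ := exists_limit hlen hstep
  have hsub : ∀ k, k ∈ omega M → Sub k (omega M) := fun k hk x hx => omega_trans hk hx
  refine ⟨b, hb, fun k hk => ?_⟩
  obtain ⟨c, hc, h1, h2, h3, h4⟩ := hF1 k hk
  have hbk : ap b k = c := by
    have e1 : ap (restr b (suc k)) k = ap b k :=
      hb.ap_restr (hsub _ (suc_mem_omega hk)) (mem_suc_self k)
    rw [← e1, hbF _ (suc_mem_omega hk), h1]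
    exact ap_snoc_last hk (hlen k hk) hc
  have hd : dom (ap F k) = k := (hlen k hk).dom
  have hz : IsFun (cmp (omega M) b f) (omega M) S :=
    isFun_lam fun x hx => hf.1.ap_mem (hb.ap_mem hx)
  have hr : restr (cmp (omega M) b f) k = cmp k (ap F k) f := by
    refine (hz.restr (hsub k hk)).ext (b' := S)
      (isFun_lam fun x hx => hf.1.ap_mem ((hlen k hk).ap_mem hx)) fun i hi => ?_
    rw [hz.ap_restr (hsub k hk) hi, cmp, ap_lam' (hsub k hk i hi), cmp, ap_lam' hi, ← hbF k hk,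
      hb.ap_restr (hsub k hk) hi]
  rw [hbk]
  refine ⟨h2, fun i hi => ?_, fun n hn => ?_⟩
  · have := h3 i (by rwa [hd])
    rwa [← hbF k hk, hb.ap_restr (hsub k hk) hi] at this
  · rw [hr]
    have := h4 n hn
    rwa [hd] at this

/-- for arbitrarily large `a` the set `ap f a` is determined by the chosen strategies -/
theorem AW_key (hDC : DC M) {f q a0 : M} (hf : Inj f (om1 M) (pow (omega M)))
    (hq : ∀ n, n ∈ omega M → WinI (pow (omega M)) (AW_A f n) (ap q n) ∨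
      WinII (pow (omega M)) (AW_A f n) (ap q n)) (ha0 : a0 ∈ om1 M) :
    ∃ a, a ∈ om1 M ∧ a0 ∈ a ∧
      ∀ n, n ∈ omega M → (n ∈ ap f a ↔ WinI (pow (omega M)) (AW_A f n) (ap q n)) := by
  obtain ⟨b, hb, hb'⟩ := AW_seq hDC (q := q) hf ha0
  have hz : IsFun (cmp (omega M) b f) (omega M) (pow (omega M)) :=
    isFun_lam fun x hx => hf.1.ap_mem (hb.ap_mem hx)
  have hzk : ∀ k, k ∈ omega M → AW_rho f (ap (cmp (omega M) b f) k) = ap b k := by
    intro k hk
    rw [cmp, ap_lam' hk]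
    exact AW_rho_ap hf (hb.ap_mem hk)
  generalize cmp (omega M) b f = z at hb' hz hzk
  have hA : sU (img (omega M) (fun k => ap b k)) ∈ om1 M := by
    refine om1_sup hDC (fun x hx => ?_) (ctbl_omega.img _)
    obtain ⟨k, hk, rfl⟩ := mem_img.mp hx
    exact hb.ap_mem hk
  have hmem : ∀ u, u ∈ sU (img (omega M) (fun k => ap b k)) ↔ ∃ k, k ∈ omega M ∧ u ∈ ap b k := by
    intro u
    rw [mem_sU]
    constructor
    · rintro ⟨w, hw, hu⟩
      obtain ⟨k, hk, rfl⟩ := mem_img.mp hw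
      exact ⟨k, hk, hu⟩
    · rintro ⟨k, hk, hu⟩
      exact ⟨_, mem_img.mpr ⟨k, hk, rfl⟩, hu⟩
  generalize sU (img (omega M) (fun k => ap b k)) = a at hA hmem
  have hOa : Ord a := (mem_om1.mp hA).1
  have hba : ∀ k, k ∈ omega M → ap b k ∈ a := fun k hk =>
    (hmem _).mpr ⟨suc k, suc_mem_omega hk, (hb' _ (suc_mem_omega hk)).2.1 k (mem_suc_self k)⟩
  refine ⟨a, hA, (hmem _).mpr ⟨emp, emp_mem_omega, (hb' _ emp_mem_omega).1⟩, fun n hn => ?_⟩
  have hans : ∀ k, k ∈ omega M → AW_rho f (ap (ap q n) (restr z k)) ∈ a := fun k hk =>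
    (hmem _).mpr ⟨k, hk, (hb' k hk).2.2 n hn⟩
  have hza : ∀ k, k ∈ omega M → AW_rho f (ap z k) ∈ a := fun k hk => by
    rw [hzk k hk]
    exact hba k hk
  have hI : WinI (pow (omega M)) (AW_A f n) (ap q n) → n ∈ ap f a := by
    intro h
    have hx : IsFun (lam (omega M) (fun k => ap (ap q n) (restr z k))) (omega M)
        (pow (omega M)) := isFun_lam fun k hk => h.1.ap_mem (restr_mem_fseq hz hk)
    have h1 := h.2 _ z hx hz fun k hk => by rw [ap_lam' hk]
    rw [AW_mem_A hx hz, AW_sup_eq (b := b) hOa (fun k hk => by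
      rw [ap_lam' hk]
      exact hans k hk) hza (fun u hu => (hmem u).mp hu) (Or.inr hzk)] at h1
    exact h1
  have hII : WinII (pow (omega M)) (AW_A f n) (ap q n) → n ∉ ap f a := by
    intro h
    have hy : IsFun (lam (omega M) (fun k => ap (ap q n) (restr z (suc k)))) (omega M)
        (pow (omega M)) :=
      isFun_lam fun k hk => h.1.ap_mem (restr_mem_fseq hz (suc_mem_omega hk))
    have h1 := h.2 z _ hz hy fun k hk => by rw [ap_lam' hk]
    rw [AW_mem_A hz hy, AW_sup_eq (b := b) hOa hza (fun k hk => by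
      rw [ap_lam' hk]
      exact hans _ (suc_mem_omega hk)) (fun u hu => (hmem u).mp hu) (Or.inl hzk)] at h1
    exact h1
  exact ⟨fun h => (hq n hn).resolve_right fun h' => hII h' h, hI⟩

/-- there is no injection of `ω₁` into the reals (ROW AW): the sup game -/
theorem no_om1 (hDC : DC M) (hAD : ADR M) : ¬ Emb (om1 M) (pow (omega M)) := by
  rintro ⟨f, hf⟩
  obtain ⟨q, _, hq⟩ := cchoice hDC (S := funs (fseq (pow (omega M))) (pow (omega M)))
    (fun n s => WinI (pow (omega M)) (AW_A f n) s ∨ WinII (pow (omega M)) (AW_A f n) s) (by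
      intro n _
      rcases hAD (AW_A f n) with ⟨s, hs⟩ | ⟨s, hs⟩
      · exact ⟨s, mem_funs.mpr hs.1, Or.inl hs⟩
      · exact ⟨s, mem_funs.mpr hs.1, Or.inr hs⟩)
  obtain ⟨a, ha, _, h1⟩ := AW_key hDC hf hq (omega_sub_om1 _ emp_mem_omega)
  obtain ⟨a', ha', haa, h2⟩ := AW_key hDC hf hq ha
  have hs : ap f a = ap f a' := by
    refine ext fun n => ⟨fun h => ?_, fun h => ?_⟩
    · have hn : n ∈ omega M := mem_pow.mp (hf.1.ap_mem ha) n h
      exact (h2 n hn).mpr ((h1 n hn).mp h)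
    · have hn : n ∈ omega M := mem_pow.mp (hf.1.ap_mem ha') n h
      exact (h1 n hn).mpr ((h2 n hn).mp h)
  have := hf.2 a ha a' ha' hs
  subst this
  exact not_mem_self a haa

end Pool.Agent.Lib.MP_f5c99b_lc
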