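import Pool.Agent.Lib.MP_7b07e0_lc.Sol

/-! The averaged predense sets. (ROW T4) -/

namespace Pool.Agent.Lib.MP_f5c99b_lc

universe u

variable {M : Type u} [Membership M M] [hZF : Fact (IsModelOfZF M)] {d : Dat M}

theorem TT_sub {F c n p : M} : Sub (TT F c n p) (fst c) := sep_sub

theorem T4_ctbl {c : M} (hc : TabOK c) : Ctbl (fst c) := (mem_om1.mp hc.1).2

theorem T4_cone_sub {δ p : M} : Sub (cone δ p) (funs (omega M) δ) := sep_sub

/-- for an enumeration `r`, the set `DD F c r n` is predense -/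
theorem T4_pd {F c r n : M} (hF : UF d F) (hc : TabOK c) (hr : Surj r (omega M) (fst c))
    (hn : n ∈ omega M) : Pd c (DD F c r n) := by
  have h := (hF.sol c r hc hr).2.1 n hn
  rwa [ap_lam' hn] at h

/-- (2): the averaged sets are predense -/
theorem TT_predense (hDC : DC M) {F c n p : M} (hF : UF d F) (hc : TabOK c)
    (hn : n ∈ omega M) (hp : p ∈ fseq (fst c)) : Pd c (TT F c n p) := by
  refine ⟨TT_sub, fun i hi => ?_⟩
  by_contra hcon
  have hsp : CSp (funs (omega M) (fst c)) (coneB (fst c)) := csp_seq (T4_ctbl hc) hc.2.1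
  have hbad : Mgr (coneB (fst c)) (funs (omega M) (fst c))
      (sep (cone (fst c) p) (fun r => Surj r (omega M) (fst c))) := by
    refine Mgr.of_forall hDC (I := fst c) hsp.toBase (sep_sub.trans T4_cone_sub) (T4_ctbl hc)
      (fun j r => ¬ ((r ∈ cone (fst c) p ∧ Cmp c i j) ∧ (Surj r (omega M) (fst c) ∧ j ∈ DD F c r n))) ?_ ?_
    · intro j hj
      by_cases hcmp : Cmp c i j
      · have hjT : j ∉ TT F c n p := fun h => hcon ⟨j, h, hcmp⟩
        have h1 : Mgr (coneB (fst c)) (funs (omega M) (fst c))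
            (sep (cone (fst c) p) (fun r => Surj r (omega M) (fst c) ∧ j ∈ DD F c r n)) := by
          by_contra h2
          exact hjT (mem_sep.mpr ⟨hj, h2⟩)
        refine h1.sub fun r hr => ?_
        have h2 := (mem_sep.mp hr).2
        rw [not_not] at h2
        exact mem_sep.mpr ⟨h2.1.1, h2.2⟩
      · refine (mgr_emp hsp.toBase).sub fun r hr => ?_
        have h2 := (mem_sep.mp hr).2
        rw [not_not] at h2
        exact (hcmp h2.1.2).elim
    · intro r hr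
      have hr1 := (mem_sep.mp hr).1
      have hr2 := (mem_sep.mp hr).2
      obtain ⟨j, hj, hcmp⟩ := (T4_pd hF hc hr2 hn).2 i hi
      exact ⟨j, (T4_pd hF hc hr2 hn).1 j hj, not_not_intro ⟨⟨hr1, hcmp⟩, hr2, hj⟩⟩
  have hall : Mgr (coneB (fst c)) (funs (omega M) (fst c)) (cone (fst c) p) := by
    refine (Mgr.un hsp.toBase hbad (mgr_not_onto hDC (T4_ctbl hc) hc.2.1)).sub fun r hr => ?_
    rw [mem_un]
    by_cases h : Surj r (omega M) (fst c)
    · exact Or.inl (mem_sep.mpr ⟨hr, h⟩)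
    · exact Or.inr (mem_sep.mpr ⟨T4_cone_sub r hr, h⟩)
  exact hsp.baire hDC (mem_coneB.mpr ⟨p, hp, rfl⟩) hall

/-- (3): an ultrafilter which meets all averaged sets meets all sets `DD F c r n` for some
enumeration `r` -/
theorem TT_meet (hDC : DC M) (hAD : ADR M) {F c h : M} (hF : UF d F) (hc : TabOK c)
    (hh : h ∈ St c)
    (hm : ∀ n p, n ∈ omega M → p ∈ fseq (fst c) → ∃ i, i ∈ h ∧ i ∈ TT F c n p) :
    ∃ r, Surj r (omega M) (fst c) ∧ ∀ n, n ∈ omega M → ∃ i, i ∈ h ∧ i ∈ DD F c r n := by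
  have hsp : CSp (funs (omega M) (fst c)) (coneB (fst c)) := csp_seq (T4_ctbl hc) hc.2.1
  have hN : ∀ n, n ∈ omega M → Mgr (coneB (fst c)) (funs (omega M) (fst c))
      (sep (funs (omega M) (fst c)) (fun r => ¬ (Surj r (omega M) (fst c) → ∃ i, i ∈ h ∧ i ∈ DD F c r n))) := by
    intro n hn
    by_contra hcon
    obtain ⟨u, hu, hmu⟩ := hsp.sp.bp hDC hAD sep_sub hcon
    obtain ⟨p, hp, rfl⟩ := mem_coneB.mp hu
    obtain ⟨i, hi, hiT⟩ := hm n p hn hp
    refine (mem_sep.mp hiT).2 (hmu.sub fun r hr => ?_)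
    obtain ⟨hr1, hr2, hr3⟩ := mem_sep.mp hr
    refine mem_diff.mpr ⟨hr1, fun hr4 => ?_⟩
    exact (mem_sep.mp hr4).2 fun _ => ⟨i, hi, hr3⟩
  by_contra hcon
  have hall : Mgr (coneB (fst c)) (funs (omega M) (fst c))
      (sep (funs (omega M) (fst c)) (fun r => Surj r (omega M) (fst c))) := by
    refine Mgr.of_forall hDC (I := omega M) hsp.toBase sep_sub ctbl_omega
      (fun n r => Surj r (omega M) (fst c) → ∃ i, i ∈ h ∧ i ∈ DD F c r n) hN ?_
    intro r hr
    have hr2 := (mem_sep.mp hr).2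
    by_contra h1
    refine hcon ⟨r, hr2, fun n hn => ?_⟩
    by_contra h2
    exact h1 ⟨n, hn, fun h3 => h2 (h3 hr2)⟩
  refine hsp.baire hDC (u := cone (fst c) emp) (mem_coneB.mpr ⟨emp, emp_mem_fseq _, rfl⟩) ?_
  refine (Mgr.un hsp.toBase hall (mgr_not_onto hDC (T4_ctbl hc) hc.2.1)).sub fun r hr => ?_
  rw [mem_un]
  by_cases h : Surj r (omega M) (fst c)
  · exact Or.inl (mem_sep.mpr ⟨T4_cone_sub r hr, h⟩)
  · exact Or.inr (mem_sep.mpr ⟨T4_cone_sub r hr, h⟩)

theorem TT_dec (hDC : DC M) (hAD : ADR M) {F c h : M} (hF : UF d F) (hc : TabOK c)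
    (hh : h ∈ St c)
    (hm : ∀ n p, n ∈ omega M → p ∈ fseq (fst c) → ∃ i, i ∈ h ∧ i ∈ TT F c n p) :
    Dec d c h := by
  obtain ⟨r, hr, h1⟩ := TT_meet hDC hAD hF hc hh hm
  refine (hF.sol c r hc hr).2.2 h hh fun n hn => ?_
  obtain ⟨i, hi, hi'⟩ := h1 n hn
  exact ⟨i, hi, by rwa [ap_lam' hn]⟩

end Pool.Agent.Lib.MP_f5c99b_lc
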