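import Pool.Agent.Lib.MP_7b07e0_lc.Dn

/-! Elementary set theory in a model of `ZF`: replacement, images, pairs, functions. -/

namespace Pool.Agent.Lib.MP_f5c99b_lc

universe u

variable {M : Type u} [Membership M M] [hZF : Fact (IsModelOfZF M)]

/-! ### replacement -/

theorem repl_exists (a : M) (t : M → M) [h : DT (fun v => t (v 0))] :
    ∃ b : M, ∀ y, y ∈ b ↔ ∃ x, x ∈ a ∧ y = t x := by
  have h0 : D (fun v : ℕ → M => v 1 = t (v 0)) := h.out.perm (fun i => 1 - i)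
  obtain ⟨φ, k, h⟩ := h0.out
  have key : ∀ x y : M, y = t x ↔ Sat (ren (fun i => Sum.elim (fun j => if j = 0 then 0 else
      if j = 1 then 1 else i + 2) (fun _ => i + 2) (k i)) φ)
      (push x (push y (fun i => Sum.elim (fun _ => a) id (k i)))) := by
    intro x y
    have h1 : y = t x ↔ _ := h (push x (push y (fun _ => a)))
    rw [h1, sat_ren]
    have : (fun i => vp (push x (push y (fun _ => a))) (k i)) = fun i => push x
        (push y (fun i => Sum.elim (fun _ => a) id (k i)))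
        (Sum.elim (fun j => if j = 0 then 0 else if j = 1 then 1 else i + 2) (fun _ => i + 2) (k i)) := by
      funext i
      rcases hk : k i with j | c
      · rcases j with _ | _ | j
        · rfl
        · rfl
        · simp [vp, push, hk]
      · simp [vp, push, hk]
    rw [this]
  obtain ⟨b, hb⟩ := hZF.out.replacement (ren (fun i => Sum.elim (fun j => if j = 0 then 0 else
      if j = 1 then 1 else i + 2) (fun _ => i + 2) (k i)) φ)
      (fun i => Sum.elim (fun _ => a) id (k i)) a (fun x _ => ⟨t x, (key x _).mp rfl,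
        fun y hy => (key x y).mpr hy⟩)
  obtain ⟨b', hb'⟩ := sep_exists b (fun y => ∃ x, x ∈ a ∧ y = t x)
  refine ⟨b', fun y => (hb' y).trans ⟨fun h => h.2, fun h => ⟨?_, h⟩⟩⟩
  obtain ⟨x, hx, rfl⟩ := h
  obtain ⟨y, hy, h2⟩ := hb x hx
  rwa [← (key x y).mpr h2]

/-- the image `{t x | x ∈ a}` of a set under a definable function -/
noncomputable def img (a : M) (t : M → M) : M := coll (fun y => ∃ x, x ∈ a ∧ y = t x)

theorem mem_img {a : M} {t : M → M} [h : DT (fun v => t (v 0))] {y : M} :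
    y ∈ img a t ↔ ∃ x, x ∈ a ∧ y = t x := mem_coll (repl_exists a t) y

instance DT_img {a : (ℕ → M) → M} {t : (ℕ → M) → M → M} [ha : DT a]
    [h : DT (fun v => t (fun i => v (i + 1)) (v 0))] : DT (fun v => img (a v) (t v)) := by
  have h1 := ha.shift 2
  have h2 : DT (fun v => t (fun i => v (i + 2)) (v 0)) :=
    h.perm (fun i => if i = 0 then 0 else i + 1)
  unfold img
  infer_instance

/-- a definable class which is contained in a set is a set -/
theorem mem_coll_of {P : M → Prop} [D (fun v => P (v 0))] {a : M} (hs : ∀ x, P x → x ∈ a) {x : M} :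
    x ∈ coll P ↔ P x := coll_of_sub a P hs x

theorem mem_lam' {a : M} {t : M → M} [h : DT (fun v => t (v 0))] {p : M} :
    p ∈ lam a t ↔ ∃ x, x ∈ a ∧ p = pr x (t x) :=
  mem_lam (b := img a t) fun x hx => mem_img.mpr ⟨x, hx, rfl⟩

theorem ap_lam' {a : M} {t : M → M} [h : DT (fun v => t (v 0))] {x : M} (hx : x ∈ a) :
    ap (lam a t) x = t x :=
  ap_lam (b := img a t) (fun x hx => mem_img.mpr ⟨x, hx, rfl⟩) hx

/-! ### subsets, extensionality -/

/-- `a ⊆ b` -/
def Sub (a b : M) : Prop := ∀ x, x ∈ a → x ∈ b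

omit hZF in
theorem D_Sub_aux : D (fun v : ℕ → M => Sub (v 0) (v 1)) := by
  unfold Sub
  infer_instance

omit hZF in
instance D_Sub (s t : (ℕ → M) → M) [DT s] [DT t] : D (fun v => Sub (s v) (t v)) :=
  D2 D_Sub_aux s t

omit hZF in
theorem Sub.refl (a : M) : Sub a a := fun _ h => h

omit hZF in
theorem Sub.trans {a b c : M} (h : Sub a b) (h' : Sub b c) : Sub a c := fun x hx => h' x (h x hx)

theorem Sub.antisymm {a b : M} (h : Sub a b) (h' : Sub b a) : a = b :=
  ext fun x => ⟨h x, h' x⟩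

theorem mem_pow' {a x : M} : x ∈ pow a ↔ Sub x a := mem_pow

theorem sep_sub {a : M} {P : M → Prop} [D (fun v => P (v 0))] : Sub (sep a P) a :=
  fun _ h => (mem_sep.mp h).1

theorem sep_mem_pow {a : M} {P : M → Prop} [D (fun v => P (v 0))] : sep a P ∈ pow a :=
  mem_pow.mpr sep_sub

theorem diff_sub {a b : M} : Sub (diff a b) a := fun _ h => (mem_diff.mp h).1

theorem emp_sub (a : M) : Sub emp a := fun x h => (not_mem_emp x h).elim

theorem eq_emp {a : M} (h : ∀ x, x ∉ a) : a = emp := ext fun x => iff_of_false (h x) (not_mem_emp x)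

theorem exists_mem_of_ne {a : M} (h : a ≠ emp) : ∃ x, x ∈ a := by
  by_contra h'
  push Not at h'
  exact h (eq_emp h')

instance DT_emp' : DT (fun _ : ℕ → M => (emp : M)) := DT_const _

instance DT_omega : DT (fun _ : ℕ → M => omega M) := DT_const _

instance DT_funs (s t : (ℕ → M) → M) [DT s] [DT t] : DT (fun v => funs (s v) (t v)) := by
  refine DT2 (f := funs) ?_ s t
  unfold funs
  infer_instance

/-! ### pairs -/

theorem pr_mem_prod {a b x y : M} : pr x y ∈ prod a b ↔ x ∈ a ∧ y ∈ b := by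
  rw [mem_prod]
  constructor
  · rintro ⟨x', hx, y', hy, h⟩
    obtain ⟨rfl, rfl⟩ := pr_inj h
    exact ⟨hx, hy⟩
  · rintro ⟨hx, hy⟩
    exact ⟨x, hx, y, hy, rfl⟩

theorem pr_inj_iff {x y z w : M} : pr x y = pr z w ↔ x = z ∧ y = w :=
  ⟨pr_inj, fun h => by rw [h.1, h.2]⟩

/-- first component of a pair -/
noncomputable def fst (p : M) : M := iota (fun x => ∃ y, p = pr x y)

/-- second component of a pair -/
noncomputable def snd (p : M) : M := iota (fun y => ∃ x, p = pr x y)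

theorem fst_pr (x y : M) : fst (pr x y) = x :=
  iota_eq ⟨y, rfl⟩ (by rintro x' ⟨y', h⟩; exact (pr_inj h).1.symm)

theorem snd_pr (x y : M) : snd (pr x y) = y :=
  iota_eq ⟨x, rfl⟩ (by rintro y' ⟨x', h⟩; exact (pr_inj h).2.symm)

instance DT_fst (t1 : (ℕ → M) → M) [DT t1] : DT (fun v => fst (t1 v)) := by
  refine DT1 (f := fst) ?_ t1
  unfold fst
  infer_instance

instance DT_snd (t1 : (ℕ → M) → M) [DT t1] : DT (fun v => snd (t1 v)) := by
  refine DT1 (f := snd) ?_ t1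
  unfold snd
  infer_instance

theorem fst_mem {a b p : M} (h : p ∈ prod a b) : fst p ∈ a := by
  obtain ⟨x, hx, y, hy, rfl⟩ := mem_prod.mp h
  rwa [fst_pr]

theorem snd_mem {a b p : M} (h : p ∈ prod a b) : snd p ∈ b := by
  obtain ⟨x, hx, y, hy, rfl⟩ := mem_prod.mp h
  rwa [snd_pr]

theorem pr_fst_snd {a b p : M} (h : p ∈ prod a b) : pr (fst p) (snd p) = p := by
  obtain ⟨x, hx, y, hy, rfl⟩ := mem_prod.mp h
  rw [fst_pr, snd_pr]

theorem prod_mono {a b a' b' : M} (h : Sub a a') (h' : Sub b b') : Sub (prod a b) (prod a' b') := by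
  intro p hp
  obtain ⟨x, hx, y, hy, rfl⟩ := mem_prod.mp hp
  exact pr_mem_prod.mpr ⟨h x hx, h' y hy⟩

/-! ### functions -/

theorem isFun_lam' {a b : M} {t : M → M} [h : DT (fun v => t (v 0))] (ht : ∀ x, x ∈ a → t x ∈ b) :
    IsFun (lam a t) a b := isFun_lam ht

theorem IsFun.mem_iff {f a b p : M} (h : IsFun f a b) : p ∈ f ↔ ∃ x, x ∈ a ∧ p = pr x (ap f x) := by
  constructor
  · intro hp
    obtain ⟨x, y, hx, hy, e⟩ := h.1 p hp
    rw [isPair_iff] at e
    subst e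
    obtain ⟨h1, rfl⟩ := h.app.mp (app_iff.mpr hp)
    exact ⟨x, hx, rfl⟩
  · rintro ⟨x, hx, rfl⟩
    exact app_iff.mp (h.mem hx)

theorem IsFun.pr_mem {f a b x y : M} (h : IsFun f a b) : pr x y ∈ f ↔ x ∈ a ∧ y = ap f x := by
  rw [← app_iff]
  exact h.app

theorem IsFun.mono {f a b b' : M} (h : IsFun f a b) (hb : ∀ x, x ∈ a → ap f x ∈ b') :
    IsFun f a b' := by
  refine ⟨fun p hp => ?_, h.2⟩
  obtain ⟨x, hx, rfl⟩ := h.mem_iff.mp hp
  exact ⟨x, ap f x, hx, hb x hx, isPair_iff.mpr rfl⟩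

theorem IsFun.eq_lam {f a b : M} (h : IsFun f a b) : f = lam a (fun x => ap f x) :=
  h.ext (isFun_lam fun _ hx => h.ap_mem hx) fun x hx => (ap_lam' hx).symm

/-- two functions with the same graph have the same domain -/
theorem IsFun.dom_eq {f a b a' b' : M} (h : IsFun f a b) (h' : IsFun f a' b') : a = a' := by
  refine Pool.Agent.Lib.MP_f5c99b_lc.ext fun x => ⟨fun hx => ?_, fun hx => ?_⟩
  · exact (h'.app.mp (h.mem hx)).1
  · exact (h.app.mp (h'.mem hx)).1

/-- domain of a function (or relation) -/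
noncomputable def dom (f : M) : M := img f (fun p => fst p)

instance DT_dom (t1 : (ℕ → M) → M) [DT t1] : DT (fun v => dom (t1 v)) := by
  refine DT1 (f := dom) ?_ t1
  unfold dom
  infer_instance

theorem IsFun.dom {f a b : M} (h : IsFun f a b) : dom f = a := by
  refine Pool.Agent.Lib.MP_f5c99b_lc.ext fun x => ?_
  rw [Pool.Agent.Lib.MP_f5c99b_lc.dom, mem_img]
  constructor
  · rintro ⟨p, hp, rfl⟩
    obtain ⟨x, hx, rfl⟩ := h.mem_iff.mp hp
    rwa [fst_pr]
  · intro hx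
    exact ⟨pr x (ap f x), h.mem_iff.mpr ⟨x, hx, rfl⟩, (fst_pr _ _).symm⟩

/-- range of a function (or relation) -/
noncomputable def ran (f : M) : M := img f (fun p => snd p)

instance DT_ran (t1 : (ℕ → M) → M) [DT t1] : DT (fun v => ran (t1 v)) := by
  refine DT1 (f := ran) ?_ t1
  unfold ran
  infer_instance

theorem IsFun.mem_ran {f a b y : M} (h : IsFun f a b) : y ∈ ran f ↔ ∃ x, x ∈ a ∧ y = ap f x := by
  rw [ran, mem_img]
  constructor
  · rintro ⟨p, hp, rfl⟩
    obtain ⟨x, hx, rfl⟩ := h.mem_iff.mp hp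
    exact ⟨x, hx, by rw [snd_pr]⟩
  · rintro ⟨x, hx, rfl⟩
    exact ⟨pr x (ap f x), h.mem_iff.mpr ⟨x, hx, rfl⟩, (snd_pr _ _).symm⟩

/-- restriction of a function -/
noncomputable def restr (f a : M) : M := sep f (fun p => fst p ∈ a)

instance DT_restr (t1 t2 : (ℕ → M) → M) [DT t1] [DT t2] : DT (fun v => restr (t1 v) (t2 v)) := by
  refine DT2 (f := restr) ?_ t1 t2
  unfold restr
  infer_instance

theorem IsFun.restr_eq {f a b a' : M} (h : IsFun f a b) (ha : Sub a' a) :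
    restr f a' = lam a' (fun x => ap f x) := by
  refine Pool.Agent.Lib.MP_f5c99b_lc.ext fun p => ?_
  rw [restr, mem_sep, mem_lam', h.mem_iff]
  constructor
  · rintro ⟨⟨x, hx, rfl⟩, h2⟩
    rw [fst_pr] at h2
    exact ⟨x, h2, rfl⟩
  · rintro ⟨x, hx, rfl⟩
    exact ⟨⟨x, ha x hx, rfl⟩, by rwa [fst_pr]⟩

theorem IsFun.restr {f a b a' : M} (h : IsFun f a b) (ha : Sub a' a) :
    IsFun (restr f a') a' b := by
  rw [h.restr_eq ha]
  exact isFun_lam fun x hx => h.ap_mem (ha x hx)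

theorem IsFun.ap_restr {f a b a' x : M} (h : IsFun f a b) (ha : Sub a' a) (hx : x ∈ a') :
    ap (Pool.Agent.Lib.MP_f5c99b_lc.restr f a') x = ap f x := by
  rw [h.restr_eq ha, ap_lam' hx]

/-- composition `g ∘ f` of functions, `f` with domain `a` -/
noncomputable def cmp (a f g : M) : M := lam a (fun x => ap g (ap f x))

instance DT_cmp (t1 t2 t3 : (ℕ → M) → M) [DT t1] [DT t2] [DT t3] :
    DT (fun v => cmp (t1 v) (t2 v) (t3 v)) := by
  refine DT3 (f := cmp) ?_ t1 t2 t3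
  unfold cmp
  infer_instance

/-- `f : a → b` is injective -/
def Inj (f a b : M) : Prop := IsFun f a b ∧ ∀ x, x ∈ a → ∀ y, y ∈ a → ap f x = ap f y → x = y

instance D_Inj (t1 t2 t3 : (ℕ → M) → M) [DT t1] [DT t2] [DT t3] :
    D (fun v => Inj (t1 v) (t2 v) (t3 v)) := by
  refine D3 (P := Inj) ?_ t1 t2 t3
  unfold Inj
  infer_instance

/-- `f : a → b` is surjective -/
def Surj (f a b : M) : Prop := IsFun f a b ∧ ∀ y, y ∈ b → ∃ x, x ∈ a ∧ ap f x = y

instance D_Surj (t1 t2 t3 : (ℕ → M) → M) [DT t1] [DT t2] [DT t3] :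
    D (fun v => Surj (t1 v) (t2 v) (t3 v)) := by
  refine D3 (P := Surj) ?_ t1 t2 t3
  unfold Surj
  infer_instance

/-- `a` injects into `b` -/
def Emb (a b : M) : Prop := ∃ f, Inj f a b

instance D_Emb (t1 t2 : (ℕ → M) → M) [DT t1] [DT t2] : D (fun v => Emb (t1 v) (t2 v)) := by
  refine D2 (P := Emb) ?_ t1 t2
  unfold Emb
  infer_instance

theorem Emb.refl (a : M) : Emb a a :=
  ⟨lam a (fun x => x), isFun_lam fun _ h => h, fun x hx y hy h => by
    rwa [ap_lam' hx, ap_lam' hy] at h⟩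

theorem Emb.of_sub {a b : M} (h : Sub a b) : Emb a b :=
  ⟨lam a (fun x => x), isFun_lam fun x hx => h x hx, fun x hx y hy h => by
    rwa [ap_lam' hx, ap_lam' hy] at h⟩

theorem Emb.trans {a b c : M} (h : Emb a b) (h' : Emb b c) : Emb a c := by
  obtain ⟨f, hf, hf'⟩ := h
  obtain ⟨g, hg, hg'⟩ := h'
  refine ⟨cmp a f g, isFun_lam fun x hx => hg.ap_mem (hf.ap_mem hx), fun x hx y hy h => ?_⟩
  rw [cmp, ap_lam' hx, ap_lam' hy] at h
  exact hf' x hx y hy (hg' _ (hf.ap_mem hx) _ (hf.ap_mem hy) h)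

/-- injection given by a definable function -/
theorem Emb.of_fun {a b : M} (t : M → M) [DT (fun v => t (v 0))] (ht : ∀ x, x ∈ a → t x ∈ b)
    (hi : ∀ x, x ∈ a → ∀ y, y ∈ a → t x = t y → x = y) : Emb a b :=
  ⟨lam a t, isFun_lam ht, fun x hx y hy h => hi x hx y hy (by rwa [ap_lam' hx, ap_lam' hy] at h)⟩

theorem Emb.prod {a b a' b' : M} (h : Emb a a') (h' : Emb b b') :
    Emb (prod a b) (Pool.Agent.Lib.MP_f5c99b_lc.prod a' b') := by
  obtain ⟨f, hf, hf'⟩ := h
  obtain ⟨g, hg, hg'⟩ := h'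
  refine Emb.of_fun (fun p => pr (ap f (fst p)) (ap g (snd p))) ?_ ?_
  · intro p hp
    exact pr_mem_prod.mpr ⟨hf.ap_mem (fst_mem hp), hg.ap_mem (snd_mem hp)⟩
  · intro p hp q hq h
    obtain ⟨h1, h2⟩ := pr_inj h
    rw [← pr_fst_snd hp, ← pr_fst_snd hq, hf' _ (fst_mem hp) _ (fst_mem hq) h1,
      hg' _ (snd_mem hp) _ (snd_mem hq) h2]

/-- an injection induces an injection of the power sets -/
theorem Emb.pow {a b : M} (h : Emb a b) : Emb (pow a) (Pool.Agent.Lib.MP_f5c99b_lc.pow b) := by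
  obtain ⟨f, hf, hf'⟩ := h
  refine Emb.of_fun (fun s => img s (fun x => ap f x)) ?_ ?_
  · intro s hs
    rw [mem_pow]
    intro y hy
    obtain ⟨x, hx, rfl⟩ := mem_img.mp hy
    exact hf.ap_mem (mem_pow.mp hs x hx)
  · intro s hs s' hs' h
    have key : ∀ s s' : M, s ∈ Pool.Agent.Lib.MP_f5c99b_lc.pow a →
        s' ∈ Pool.Agent.Lib.MP_f5c99b_lc.pow a →
        img s (fun x => ap f x) = img s' (fun x => ap f x) → Sub s s' := by
      intro s s' hs hs' h x hx
      have : ap f x ∈ img s' (fun x => ap f x) := h ▸ mem_img.mpr ⟨x, hx, rfl⟩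
      obtain ⟨x', hx', e⟩ := mem_img.mp this
      rwa [hf' x (mem_pow.mp hs x hx) x' (mem_pow.mp hs' x' hx') e]
    exact Sub.antisymm (key s s' hs hs' h) (key s' s hs' hs h.symm)

/-- a surjection from a set `b` onto a nonempty set `a` from an injection `a → b` -/
theorem Emb.surj {a b : M} (h : Emb a b) (ha : ∃ x, x ∈ a) : ∃ f, Surj f b a := by
  obtain ⟨f, hf, hf'⟩ := h
  obtain ⟨x0, hx0⟩ := ha
  let t : M → M := fun y => iota (fun x => (x ∈ a ∧ ap f x = y) ∨
    ((¬ ∃ z, z ∈ a ∧ ap f z = y) ∧ x = x0))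
  have ht : ∀ x, x ∈ a → t (ap f x) = x := by
    intro x hx
    refine iota_eq (Or.inl ⟨hx, rfl⟩) ?_
    rintro y (⟨h1, h2⟩ | ⟨h1, _⟩)
    · exact hf' y h1 x hx h2
    · exact absurd ⟨x, hx, rfl⟩ h1
  refine ⟨lam b t, isFun_lam ?_, ?_⟩
  · intro y _
    by_cases h : ∃ z, z ∈ a ∧ ap f z = y
    · obtain ⟨z, hz, rfl⟩ := h
      rwa [ht z hz]
    · have : t y = x0 := by
        refine iota_eq (Or.inr ⟨h, rfl⟩) ?_
        rintro x (⟨h1, h2⟩ | ⟨_, h2⟩)
        · exact absurd ⟨x, h1, h2⟩ h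
        · exact h2
      rwa [this]
  · intro x hx
    exact ⟨ap f x, hf.ap_mem hx, by rw [ap_lam' (hf.ap_mem hx), ht x hx]⟩

/-! ### foundation -/

theorem not_mem_self (x : M) : x ∉ x := by
  intro h
  obtain ⟨y, hy, h2⟩ := hZF.out.foundation (upair x x) ⟨x, mem_upair.mpr (Or.inl rfl)⟩
  rcases mem_upair.mp hy with rfl | rfl <;> exact h2 y h (mem_upair.mpr (Or.inl rfl))

theorem not_mem_mem {x y : M} (h : x ∈ y) : y ∉ x := by
  intro h'
  obtain ⟨z, hz, h2⟩ := hZF.out.foundation (upair x y) ⟨x, mem_upair.mpr (Or.inl rfl)⟩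
  rcases mem_upair.mp hz with rfl | rfl
  · exact h2 y h' (mem_upair.mpr (Or.inr rfl))
  · exact h2 x h (mem_upair.mpr (Or.inl rfl))

/-- `∈`-minimal element of a nonempty definable subclass of a set -/
theorem exists_min {a : M} (P : M → Prop) [D (fun v => P (v 0))] (h : ∃ x, x ∈ a ∧ P x) :
    ∃ x, x ∈ a ∧ P x ∧ ∀ y, y ∈ x → y ∈ a → ¬ P y := by
  obtain ⟨x, hx, hP⟩ := h
  obtain ⟨y, hy, h2⟩ := hZF.out.foundation (sep a P) ⟨x, mem_sep.mpr ⟨hx, hP⟩⟩
  obtain ⟨h3, h4⟩ := mem_sep.mp hy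
  exact ⟨y, h3, h4, fun z hz hza hPz => h2 z hz (mem_sep.mpr ⟨hza, hPz⟩)⟩

end Pool.Agent.Lib.MP_f5c99b_lc
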