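import Pool.Agent.Lib.MP_7b07e0_lc.Nat

/-! Countable sets, finite sequences in a model of `ZF`. (ROW C) -/

namespace Pool.Agent.Lib.MP_f5c99b_lc

universe u

variable {M : Type u} [Membership M M] [hZF : Fact (IsModelOfZF M)]

/-- `a` is countable (finite or infinite) -/
def Ctbl (a : M) : Prop := Emb a (omega M)

instance D_Ctbl (t1 : (ℕ → M) → M) [DT t1] : D (fun v => Ctbl (t1 v)) := by
  refine D1 (P := Ctbl) ?_ t1
  unfold Ctbl
  infer_instance

theorem ctbl_omega : Ctbl (omega M) := Emb.refl _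

theorem Ctbl.sub {a b : M} (h : Ctbl b) (hs : Sub a b) : Ctbl a := (Emb.of_sub hs).trans h

theorem Ctbl.of_emb {a b : M} (h : Ctbl b) (hs : Emb a b) : Ctbl a := hs.trans h

theorem Ctbl.surj {a : M} (h : Ctbl a) (ha : ∃ x, x ∈ a) : ∃ f, Surj f (omega M) a :=
  Emb.surj h ha

theorem Ctbl.of_surj {a b f : M} (h : Ctbl a) (hf : Surj f a b) : Ctbl b := by
  obtain ⟨g, hg, hg'⟩ := h
  have key : ∀ y, y ∈ b → mu (fun n => ∃ x, x ∈ a ∧ ap g x = n ∧ ap f x = y) ∈ omega M ∧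
      ∃ x, x ∈ a ∧ ap g x = mu (fun n => ∃ x, x ∈ a ∧ ap g x = n ∧ ap f x = y) ∧ ap f x = y := by
    intro y hy
    obtain ⟨x, hx, hxy⟩ := hf.2 y hy
    have h1 := mu_spec (P := fun n => ∃ x, x ∈ a ∧ ap g x = n ∧ ap f x = y)
      ⟨ap g x, hg.ap_mem hx, x, hx, rfl, hxy⟩
    exact ⟨h1.1, h1.2.1⟩
  refine Emb.of_fun (fun y => mu (fun n => ∃ x, x ∈ a ∧ ap g x = n ∧ ap f x = y)) ?_ ?_
  · intro y hy
    exact (key y hy).1
  · intro y hy y' hy' e
    obtain ⟨x, hx, h1, h2⟩ := (key y hy).2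
    obtain ⟨x', hx', h1', h2'⟩ := (key y' hy').2
    have h3 : ap g x = ap g x' := by rw [h1, h1']; exact e
    have h4 := hg' x hx x' hx' h3
    rw [← h2, ← h2', h4]

theorem Ctbl.img {a : M} (h : Ctbl a) (t : M → M) [DT (fun v => t (v 0))] :
    Ctbl (img a t) := by
  refine Ctbl.of_surj (f := lam a t) h ⟨isFun_lam' fun x hx => mem_img.mpr ⟨x, hx, rfl⟩, ?_⟩
  intro y hy
  obtain ⟨x, hx, rfl⟩ := mem_img.mp hy
  exact ⟨x, hx, ap_lam' hx⟩

theorem ctbl_emp : Ctbl (emp : M) := Emb.of_sub (emp_sub _)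

/-- value `0` at `x` and `1` elsewhere -/
noncomputable def C_two (x z : M) : M :=
  iota (fun n => (z = x ∧ n = emp) ∨ (z ≠ x ∧ n = suc emp))

instance DT_C_two (t1 t2 : (ℕ → M) → M) [DT t1] [DT t2] :
    DT (fun v => C_two (t1 v) (t2 v)) := by
  refine DT2 (f := C_two) ?_ t1 t2
  unfold C_two
  infer_instance

theorem C_two_self (x : M) : C_two x x = emp := by
  refine iota_eq (Or.inl ⟨rfl, rfl⟩) ?_
  rintro n (⟨_, h⟩ | ⟨h, _⟩)
  · exact h
  · exact absurd rfl h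

theorem C_two_ne {x z : M} (h : z ≠ x) : C_two x z = suc emp := by
  refine iota_eq (Or.inr ⟨h, rfl⟩) ?_
  rintro n (⟨h1, _⟩ | ⟨_, h1⟩)
  · exact absurd h1 h
  · exact h1

theorem ctbl_upair (x y : M) : Ctbl (upair x y) := by
  refine Emb.of_fun (fun z => C_two x z) ?_ ?_
  · intro z _
    by_cases h : z = x
    · rw [h, C_two_self]
      exact emp_mem_omega
    · rw [C_two_ne h]
      exact suc_mem_omega emp_mem_omega
  · intro z hz z' hz' e
    have e' : C_two x z = C_two x z' := e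
    by_cases h : z = x
    · by_cases h' : z' = x
      · rw [h, h']
      · rw [h, C_two_self, C_two_ne h'] at e'
        exact absurd e'.symm (suc_ne_emp _)
    · by_cases h' : z' = x
      · rw [h', C_two_self, C_two_ne h] at e'
        exact absurd e' (suc_ne_emp _)
      · rw [(mem_upair.mp hz).resolve_left h, (mem_upair.mp hz').resolve_left h']

/-- a walk through `ω × ω`: along the sides of the squares -/
noncomputable def C_step (p : M) : M :=
  iota (fun q => (fst p ∈ snd p ∧ q = pr (suc (fst p)) (snd p)) ∨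
    (fst p ∉ snd p ∧ ((snd p = emp ∧ q = pr emp (suc (fst p))) ∨
      ∃ n, snd p = suc n ∧ q = pr (fst p) n)))

instance DT_C_step (t1 : (ℕ → M) → M) [DT t1] : DT (fun v => C_step (t1 v)) := by
  refine DT1 (f := C_step) ?_ t1
  unfold C_step
  infer_instance

theorem C_step_lt {m n : M} (h : m ∈ n) : C_step (pr m n) = pr (suc m) n := by
  unfold C_step
  rw [fst_pr, snd_pr]
  refine iota_eq (Or.inl ⟨h, rfl⟩) ?_
  rintro q (⟨_, h1⟩ | ⟨h1, _⟩)
  · exact h1
  · exact absurd h h1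

theorem C_step_zero {m : M} : C_step (pr m emp) = pr emp (suc m) := by
  unfold C_step
  rw [fst_pr, snd_pr]
  refine iota_eq (Or.inr ⟨not_mem_emp _, Or.inl ⟨rfl, rfl⟩⟩) ?_
  rintro q (⟨h1, _⟩ | ⟨_, ⟨_, h1⟩ | ⟨n, h1, _⟩⟩)
  · exact absurd h1 (not_mem_emp _)
  · exact h1
  · exact absurd h1.symm (suc_ne_emp _)

theorem C_step_suc {m n : M} (h : m ∉ suc n) : C_step (pr m (suc n)) = pr m n := by
  unfold C_step
  rw [fst_pr, snd_pr]
  refine iota_eq (Or.inr ⟨h, Or.inr ⟨n, rfl, rfl⟩⟩) ?_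
  rintro q (⟨h1, _⟩ | ⟨_, ⟨h1, _⟩ | ⟨n', h1, h2⟩⟩)
  · exact absurd h1 h
  · exact absurd h1 (suc_ne_emp _)
  · rw [h2, suc_inj h1]

theorem C_step_mem {p : M} (hp : p ∈ prod (omega M) (omega M)) :
    C_step p ∈ prod (omega M) (omega M) := by
  obtain ⟨m, hm, n, hn, rfl⟩ := mem_prod.mp hp
  by_cases h : m ∈ n
  · rw [C_step_lt h]
    exact pr_mem_prod.mpr ⟨suc_mem_omega hm, hn⟩
  · rcases omega_cases hn with rfl | ⟨n', hn', rfl⟩
    · rw [C_step_zero]
      exact pr_mem_prod.mpr ⟨emp_mem_omega, suc_mem_omega hm⟩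
    · rw [C_step_suc h]
      exact pr_mem_prod.mpr ⟨hm, hn'⟩

/-- a pairing function -/
theorem C_emb_omega_prod : Emb (prod (omega M) (omega M)) (omega M) := by
  obtain ⟨f, hf, hf0, hfs⟩ := omega_rec (S := prod (omega M) (omega M))
    (a := (pr emp emp : M)) (fun _ p => C_step p)
    (pr_mem_prod.mpr ⟨emp_mem_omega, emp_mem_omega⟩) (fun _ _ p hp => C_step_mem hp)
  have step : ∀ p, (∃ k, k ∈ omega M ∧ ap f k = p) → ∃ k, k ∈ omega M ∧ ap f k = C_step p := by
    rintro p ⟨k, hk, rfl⟩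
    exact ⟨suc k, suc_mem_omega hk, hfs k hk⟩
  -- the upper side of a square
  have up : ∀ k, k ∈ omega M → (∃ j, j ∈ omega M ∧ ap f j = pr emp k) →
      ∀ m, m ∈ omega M → (m ∈ k ∨ m = k) → ∃ j, j ∈ omega M ∧ ap f j = pr m k := by
    intro k hk h0
    refine omega_induction (fun m => (m ∈ k ∨ m = k) → ∃ j, j ∈ omega M ∧ ap f j = pr m k)
      (fun _ => h0) ?_
    intro m hm ih h
    have h1 : m ∈ k := by
      rcases h with h | h
      · exact omega_mem_trans hk (mem_suc_self m) h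
      · rw [← h]
        exact mem_suc_self m
    have h2 := step _ (ih (Or.inl h1))
    rwa [C_step_lt h1] at h2
  -- the right side of a square
  have rt : ∀ k, k ∈ omega M → (∃ j, j ∈ omega M ∧ ap f j = pr k k) →
      ∀ n, n ∈ omega M → (n ∈ k ∨ n = k) → ∃ j, j ∈ omega M ∧ ap f j = pr k n := by
    intro k hk h0
    obtain ⟨N, hN, hN1, hN2⟩ := omega_least (fun N => (N ∈ k ∨ N = k) ∧ ∀ n, n ∈ omega M →
      (n ∈ k ∨ n = k) → (N ∈ n ∨ N = n) → ∃ j, j ∈ omega M ∧ ap f j = pr k n) ⟨k, hk, Or.inr rfl, by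
        intro n hn h1 h2
        have : n = k := by
          rcases h1 with h1 | h1
          · rcases h2 with h2 | h2
            · exact absurd h2 (not_mem_mem h1)
            · exact h2.symm
          · exact h1
        rw [this]
        exact h0⟩
    have hN3 : N = emp := by
      rcases omega_cases hN with h | ⟨N', hN', rfl⟩
      · exact h
      exfalso
      refine hN2 N' (mem_suc_self N') ⟨?_, ?_⟩
      · left
        rcases hN1.1 with h | h
        · exact omega_mem_trans hk (mem_suc_self N') h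
        · rw [← h]
          exact mem_suc_self N'
      · intro n hn h1 h2
        rcases h2 with h2 | h2
        · refine hN1.2 n hn h1 ?_
          exact suc_mem_or hn h2
        · rw [← h2]
          have h3 := step _ (hN1.2 (suc N') hN hN1.1 (Or.inr rfl))
          rwa [C_step_suc] at h3
          intro h4
          rcases hN1.1 with h5 | h5
          · exact not_mem_mem h4 h5
          · rw [h5] at h4
            exact not_mem_self k h4
    subst hN3
    intro n hn h1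
    refine hN1.2 n hn h1 ?_
    rcases omega_zero_or hn with h | h
    · exact Or.inr h.symm
    · exact Or.inl h
  have zero : ∀ k, k ∈ omega M → ∃ j, j ∈ omega M ∧ ap f j = pr emp k := by
    refine omega_induction (fun k => ∃ j, j ∈ omega M ∧ ap f j = pr emp k)
      ⟨emp, emp_mem_omega, hf0⟩ ?_
    intro k hk ih
    have h1 := up k hk ih k hk (Or.inr rfl)
    have h2 : emp ∈ k ∨ emp = k := by
      rcases omega_zero_or hk with h | h
      · exact Or.inr h.symm
      · exact Or.inl h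
    have h3 := step _ (rt k hk h1 emp emp_mem_omega h2)
    rwa [C_step_zero] at h3
  refine Ctbl.of_surj (f := f) ctbl_omega ⟨hf, ?_⟩
  intro p hp
  obtain ⟨m, hm, n, hn, rfl⟩ := mem_prod.mp hp
  rcases omega_tri hm hn with h | h | h
  · exact up n hn (zero n hn) m hm (Or.inl h)
  · exact up n hn (zero n hn) m hm (Or.inr h)
  · exact rt m hm (up m hm (zero m hm) m hm (Or.inr rfl)) n hn (Or.inl h)

/-- `pr 0 (f z)` for `z ∈ a` and `pr 1 (g z)` otherwise -/
noncomputable def C_sum (a f g z : M) : M :=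
  iota (fun p => (z ∈ a ∧ p = pr emp (ap f z)) ∨ (z ∉ a ∧ p = pr (suc emp) (ap g z)))

instance DT_C_sum (t1 t2 t3 t4 : (ℕ → M) → M) [DT t1] [DT t2] [DT t3] [DT t4] :
    DT (fun v => C_sum (t1 v) (t2 v) (t3 v) (t4 v)) := by
  refine DT4 (f := C_sum) ?_ t1 t2 t3 t4
  unfold C_sum
  infer_instance

theorem C_sum_in {a f g z : M} (h : z ∈ a) : C_sum a f g z = pr emp (ap f z) := by
  refine iota_eq (Or.inl ⟨h, rfl⟩) ?_
  rintro n (⟨_, h1⟩ | ⟨h1, _⟩)
  · exact h1
  · exact absurd h h1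

theorem C_sum_out {a f g z : M} (h : z ∉ a) : C_sum a f g z = pr (suc emp) (ap g z) := by
  refine iota_eq (Or.inr ⟨h, rfl⟩) ?_
  rintro n (⟨h1, _⟩ | ⟨_, h1⟩)
  · exact absurd h1 h
  · exact h1

theorem Ctbl.un {a b : M} (h : Ctbl a) (h' : Ctbl b) : Ctbl (un a b) := by
  obtain ⟨f, hf, hf'⟩ := h
  obtain ⟨g, hg, hg'⟩ := h'
  refine Emb.trans (b := Pool.Agent.Lib.MP_f5c99b_lc.prod (omega M) (omega M)) ?_ C_emb_omega_prod
  refine Emb.of_fun (fun z => C_sum a f g z) ?_ ?_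
  · intro z hz
    by_cases hza : z ∈ a
    · rw [C_sum_in hza]
      exact pr_mem_prod.mpr ⟨emp_mem_omega, hf.ap_mem hza⟩
    · rw [C_sum_out hza]
      exact pr_mem_prod.mpr ⟨suc_mem_omega emp_mem_omega,
        hg.ap_mem ((mem_un.mp hz).resolve_left hza)⟩
  · intro z hz z' hz' e
    have e' : C_sum a f g z = C_sum a f g z' := e
    by_cases hza : z ∈ a
    · by_cases hza' : z' ∈ a
      · rw [C_sum_in hza, C_sum_in hza'] at e'
        exact hf' z hza z' hza' (pr_inj e').2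
      · rw [C_sum_in hza, C_sum_out hza'] at e'
        exact absurd (pr_inj e').1.symm (suc_ne_emp _)
    · by_cases hza' : z' ∈ a
      · rw [C_sum_out hza, C_sum_in hza'] at e'
        exact absurd (pr_inj e').1 (suc_ne_emp _)
      · rw [C_sum_out hza, C_sum_out hza'] at e'
        exact hg' z ((mem_un.mp hz).resolve_left hza) z' ((mem_un.mp hz').resolve_left hza')
          (pr_inj e').2

/-- a pairing function -/
theorem emb_omega_prod : Emb (prod (omega M) (omega M)) (omega M) := C_emb_omega_prod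

theorem Ctbl.prod {a b : M} (h : Ctbl a) (h' : Ctbl b) : Ctbl (prod a b) :=
  (Emb.prod h h').trans emb_omega_prod

/-- union of countably many countable sets -/
theorem Ctbl.sU (hDC : DC M) {a : M} (h : Ctbl a) (h' : ∀ x, x ∈ a → Ctbl x) : Ctbl (sU a) := by
  by_cases ha : ∃ x, x ∈ a
  swap
  · have : Pool.Agent.Lib.MP_f5c99b_lc.sU a = emp := by
      refine eq_emp fun x hx => ?_
      obtain ⟨y, hy, _⟩ := mem_sU.mp hx
      exact ha ⟨y, hy⟩
    rw [this]
    exact ctbl_emp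
  obtain ⟨g, hg, hg'⟩ := h.surj ha
  obtain ⟨F, hF, hF'⟩ := cchoice hDC
    (S := Pool.Agent.Lib.MP_f5c99b_lc.pow
      (Pool.Agent.Lib.MP_f5c99b_lc.prod (Pool.Agent.Lib.MP_f5c99b_lc.sU a) (omega M)))
    (fun n F => Inj F (ap g n) (omega M)) (by
      intro n hn
      obtain ⟨F, hF⟩ := h' (ap g n) (hg.ap_mem hn)
      refine ⟨F, ?_, hF⟩
      rw [mem_pow']
      intro p hp
      obtain ⟨x, hx, rfl⟩ := hF.1.mem_iff.mp hp
      exact pr_mem_prod.mpr ⟨mem_sU.mpr ⟨_, hg.ap_mem hn, hx⟩, hF.1.ap_mem hx⟩)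
  have key : ∀ z, z ∈ Pool.Agent.Lib.MP_f5c99b_lc.sU a →
      mu (fun n => z ∈ ap g n) ∈ omega M ∧ z ∈ ap g (mu (fun n => z ∈ ap g n)) := by
    intro z hz
    obtain ⟨y, hy, hzy⟩ := mem_sU.mp hz
    obtain ⟨n, hn, rfl⟩ := hg' y hy
    have h1 := mu_spec (P := fun n => z ∈ ap g n) ⟨n, hn, hzy⟩
    exact ⟨h1.1, h1.2.1⟩
  refine Emb.trans (b := Pool.Agent.Lib.MP_f5c99b_lc.prod (omega M) (omega M)) ?_ emb_omega_prod
  refine Emb.of_fun (fun z => pr (mu (fun n => z ∈ ap g n))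
    (ap (ap F (mu (fun n => z ∈ ap g n))) z)) ?_ ?_
  · intro z hz
    obtain ⟨h1, h2⟩ := key z hz
    exact pr_mem_prod.mpr ⟨h1, (hF' _ h1).1.ap_mem h2⟩
  · intro z hz z' hz' e
    obtain ⟨h1, h2⟩ := key z hz
    obtain ⟨h1', h2'⟩ := key z' hz'
    obtain ⟨e1, e2⟩ := pr_inj e
    rw [← e1] at h2' e2
    exact (hF' _ h1).2 z h2 z' h2' e2

/-- choice for a countable index set -/
theorem Ctbl.choice (hDC : DC M) {I S : M} (hI : Ctbl I) (P : M → M → Prop)
    [D (fun v => P (v 0) (v 1))] (hP : ∀ i, i ∈ I → ∃ x, x ∈ S ∧ P i x) :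
    ∃ f, IsFun f I S ∧ ∀ i, i ∈ I → P i (ap f i) := by
  by_cases hne : ∃ i, i ∈ I
  swap
  · exact ⟨lam I (fun x => x), isFun_lam' fun x hx => absurd ⟨x, hx⟩ hne,
      fun i hi => absurd ⟨i, hi⟩ hne⟩
  obtain ⟨i0, hi0⟩ := hne
  obtain ⟨x0, hx0, _⟩ := hP i0 hi0
  obtain ⟨g, hg, hg'⟩ := hI
  haveI hPP : ∀ s t : (ℕ → M) → M, DT s → DT t → D (fun v => P (s v) (t v)) :=
    fun s t hs ht => D2 (P := P) inferInstance s t
  haveI hD : D (fun v : ℕ → M => ∀ i, i ∈ I → ap g i = v 0 → P i (v 1)) := by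
    haveI : D (fun v : ℕ → M => P (v 0) (v 2)) := hPP _ _ inferInstance inferInstance
    infer_instance
  obtain ⟨F, hF, hF'⟩ := cchoice hDC (S := S)
    (fun n x => ∀ i, i ∈ I → ap g i = n → P i x) (by
      intro n hn
      by_cases h : ∃ i, i ∈ I ∧ ap g i = n
      · obtain ⟨i, hi, rfl⟩ := h
        obtain ⟨x, hx, hPx⟩ := hP i hi
        refine ⟨x, hx, fun j hj e => ?_⟩
        rw [hg' j hj i hi e]
        exact hPx
      · exact ⟨x0, hx0, fun i hi e => absurd ⟨i, hi, e⟩ h⟩)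
  refine ⟨lam I (fun i => ap F (ap g i)), isFun_lam' fun i hi => hF.ap_mem (hg.ap_mem hi), ?_⟩
  intro i hi
  rw [ap_lam' hi]
  exact hF' _ (hg.ap_mem hi) i hi rfl

/-! ### finite sequences: functions with domain a natural number -/

/-- the set of finite sequences in `S` -/
noncomputable def fseq (S : M) : M :=
  coll (fun s => ∃ n, n ∈ omega M ∧ IsFun s n S)

instance DT_fseq (t1 : (ℕ → M) → M) [DT t1] : DT (fun v => fseq (t1 v)) := by
  refine DT1 (f := fseq) ?_ t1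
  unfold fseq
  infer_instance

theorem mem_fseq {S s : M} : s ∈ fseq S ↔ ∃ n, n ∈ omega M ∧ IsFun s n S := by
  refine coll_of_sub (pow (Pool.Agent.Lib.MP_f5c99b_lc.prod (omega M) S)) _ ?_ s
  rintro s ⟨n, hn, hs⟩
  rw [mem_pow]
  intro p hp
  obtain ⟨x, hx, rfl⟩ := hs.mem_iff.mp hp
  exact pr_mem_prod.mpr ⟨omega_trans hn hx, hs.ap_mem hx⟩

/-- the sequence `s` followed by `x` (`dom s` is the length of `s`) -/
noncomputable def snoc (s x : M) : M := un s (upair (pr (dom s) x) (pr (dom s) x))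

instance DT_snoc (t1 t2 : (ℕ → M) → M) [DT t1] [DT t2] : DT (fun v => snoc (t1 v) (t2 v)) := by
  refine DT2 (f := snoc) ?_ t1 t2
  unfold snoc
  infer_instance

theorem isFun_emp (S : M) : IsFun (emp : M) emp S :=
  ⟨fun p hp => (not_mem_emp p hp).elim, fun x hx => (not_mem_emp x hx).elim⟩

theorem C2_eq_emp {S s : M} (hs : IsFun s emp S) : s = emp :=
  hs.ext (isFun_emp S) fun x hx => (not_mem_emp x hx).elim

theorem C2_suc_inj {n m : M} (h : suc n = suc m) : n = m := by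
  have h1 : n ∈ suc m := h ▸ mem_suc_self n
  have h2 : m ∈ suc n := h ▸ mem_suc_self m
  rcases mem_suc.mp h1 with h1 | h1
  · rcases mem_suc.mp h2 with h2 | h2
    · exact (not_mem_mem h1 h2).elim
    · exact h2.symm
  · exact h1

theorem C2_sub_omega {n : M} (hn : n ∈ omega M) : Sub n (omega M) := fun _ hx => omega_trans hn hx

theorem C2_sub_suc (n : M) : Sub n (suc n) := fun _ hx => mem_suc.mpr (Or.inl hx)

theorem C2_app_snoc {S s n x : M} (hs : IsFun s n S) {i y : M} :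
    App (snoc s x) i y ↔ (i ∈ n ∧ y = ap s i) ∨ (i = n ∧ y = x) := by
  rw [app_iff, snoc, hs.dom, mem_un, hs.pr_mem, mem_upair, or_self, pr_inj_iff]

theorem emp_mem_fseq (S : M) : (emp : M) ∈ fseq S := mem_fseq.mpr ⟨emp, emp_mem_omega, isFun_emp S⟩

theorem isFun_snoc {S s n x : M} (hn : n ∈ omega M) (hs : IsFun s n S) (hx : x ∈ S) :
    IsFun (snoc s x) (suc n) S := by
  have _ := hn
  constructor
  · intro p hp
    rw [snoc, hs.dom, mem_un, mem_upair, or_self] at hp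
    rcases hp with hp | rfl
    · obtain ⟨i, hi, rfl⟩ := hs.mem_iff.mp hp
      exact ⟨i, ap s i, mem_suc.mpr (Or.inl hi), hs.ap_mem hi, isPair_iff.mpr rfl⟩
    · exact ⟨n, x, mem_suc_self n, hx, isPair_iff.mpr rfl⟩
  · intro i hi
    rcases mem_suc.mp hi with hi | rfl
    · refine ⟨ap s i, (C2_app_snoc hs).mpr (Or.inl ⟨hi, rfl⟩), ?_⟩
      intro y hy
      rcases (C2_app_snoc hs).mp hy with ⟨_, h⟩ | ⟨h, _⟩
      · exact h
      · exact (not_mem_self n (h ▸ hi)).elim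
    · refine ⟨x, (C2_app_snoc hs).mpr (Or.inr ⟨rfl, rfl⟩), ?_⟩
      intro y hy
      rcases (C2_app_snoc hs).mp hy with ⟨h, _⟩ | ⟨_, h⟩
      · exact (not_mem_self _ h).elim
      · exact h

theorem snoc_mem {S s x : M} (hs : s ∈ fseq S) (hx : x ∈ S) : snoc s x ∈ fseq S := by
  obtain ⟨n, hn, hs⟩ := mem_fseq.mp hs
  exact mem_fseq.mpr ⟨suc n, suc_mem_omega hn, isFun_snoc hn hs hx⟩

theorem ap_snoc_last {S s n x : M} (hn : n ∈ omega M) (hs : IsFun s n S) (hx : x ∈ S) :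
    ap (snoc s x) n = x :=
  (((isFun_snoc hn hs hx).app.mp ((C2_app_snoc hs).mpr (Or.inr ⟨rfl, rfl⟩))).2).symm

theorem ap_snoc {S s n x i : M} (hn : n ∈ omega M) (hs : IsFun s n S) (hx : x ∈ S) (hi : i ∈ n) :
    ap (snoc s x) i = ap s i :=
  (((isFun_snoc hn hs hx).app.mp ((C2_app_snoc hs).mpr (Or.inl ⟨hi, rfl⟩))).2).symm

theorem snoc_inj {S s t x y : M} (hs : s ∈ fseq S) (ht : t ∈ fseq S) (hx : x ∈ S) (hy : y ∈ S)
    (h : snoc s x = snoc t y) : s = t ∧ x = y := by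
  obtain ⟨n, hn, hs⟩ := mem_fseq.mp hs
  obtain ⟨m, hm, ht⟩ := mem_fseq.mp ht
  have h1 := isFun_snoc hn hs hx
  have h2 := isFun_snoc hm ht hy
  have h3 : n = m := C2_suc_inj ((h ▸ h1).dom_eq h2)
  subst h3
  refine ⟨hs.ext ht fun i hi => ?_, ?_⟩
  · rw [← ap_snoc hn hs hx hi, ← ap_snoc hn ht hy hi, h]
  · rw [← ap_snoc_last hn hs hx, ← ap_snoc_last hn ht hy, h]

theorem C2_snoc_restr {S s n : M} (hn : n ∈ omega M) (hs : IsFun s (suc n) S) :
    IsFun (restr s n) n S ∧ ap s n ∈ S ∧ s = snoc (restr s n) (ap s n) := by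
  have h1 : IsFun (restr s n) n S := hs.restr (C2_sub_suc n)
  have h2 : ap s n ∈ S := hs.ap_mem (mem_suc_self n)
  refine ⟨h1, h2, hs.ext (isFun_snoc hn h1 h2) fun i hi => ?_⟩
  rcases mem_suc.mp hi with hi | rfl
  · rw [ap_snoc hn h1 h2 hi, hs.ap_restr (C2_sub_suc n) hi]
  · rw [ap_snoc_last hn h1 h2]

theorem fseq_cases {S s : M} (hs : s ∈ fseq S) :
    s = emp ∨ ∃ t x, t ∈ fseq S ∧ x ∈ S ∧ s = snoc t x := by
  obtain ⟨n, hn, hs⟩ := mem_fseq.mp hs
  rcases omega_cases hn with rfl | ⟨m, hm, rfl⟩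
  · exact Or.inl (C2_eq_emp hs)
  · obtain ⟨h1, h2, h3⟩ := C2_snoc_restr hm hs
    exact Or.inr ⟨restr s m, ap s m, mem_fseq.mpr ⟨m, hm, h1⟩, h2, h3⟩

theorem fseq_induct {S : M} (P : M → Prop) [D (fun v => P (v 0))] (h0 : P emp)
    (hs : ∀ s, s ∈ fseq S → ∀ x, x ∈ S → P s → P (snoc s x)) : ∀ s, s ∈ fseq S → P s := by
  have hD : D (fun v : ℕ → M => ∀ s, IsFun s (v 0) S → P s) := by
    have : D (fun v : ℕ → M => P (v 0)) := inferInstance
    infer_instance
  have key : ∀ n, n ∈ omega M → ∀ s, IsFun s n S → P s := by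
    refine omega_induction (fun n => ∀ s, IsFun s n S → P s) ?_ ?_
    · intro s h
      rw [C2_eq_emp h]
      exact h0
    · intro n hn ih s h
      obtain ⟨h1, h2, h3⟩ := C2_snoc_restr hn h
      rw [h3]
      exact hs _ (mem_fseq.mpr ⟨n, hn, h1⟩) _ h2 (ih _ h1)
  intro s h
  obtain ⟨n, hn, h⟩ := mem_fseq.mp h
  exact key n hn s h

theorem restr_mem_fseq {S x n : M} (hx : IsFun x (omega M) S) (hn : n ∈ omega M) :
    restr x n ∈ fseq S :=
  mem_fseq.mpr ⟨n, hn, hx.restr (C2_sub_omega hn)⟩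

theorem isFun_restr_omega {S x n : M} (hx : IsFun x (omega M) S) (hn : n ∈ omega M) :
    IsFun (restr x n) n S := hx.restr (C2_sub_omega hn)

theorem restr_suc {S x n : M} (hx : IsFun x (omega M) S) (hn : n ∈ omega M) :
    restr x (suc n) = snoc (restr x n) (ap x n) := by
  have h1 := isFun_restr_omega hx hn
  have h2 := hx.ap_mem hn
  refine (isFun_restr_omega hx (suc_mem_omega hn)).ext (isFun_snoc hn h1 h2) fun i hi => ?_
  rw [hx.ap_restr (C2_sub_omega (suc_mem_omega hn)) hi]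
  rcases mem_suc.mp hi with hi | rfl
  · rw [ap_snoc hn h1 h2 hi, hx.ap_restr (C2_sub_omega hn) hi]
  · rw [ap_snoc_last hn h1 h2]

/-- an increasing sequence of finite sequences: `f n` has length `n` and is extended by
`f (n + 1)`. The union is a function on `omega`. -/
theorem exists_limit {S f : M} (hf : ∀ n, n ∈ omega M → IsFun (ap f n) n S)
    (hs : ∀ n, n ∈ omega M → ∀ i, i ∈ n → ap (ap f (suc n)) i = ap (ap f n) i) :
    ∃ x, IsFun x (omega M) S ∧ ∀ n, n ∈ omega M → restr x n = ap f n := by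
  have key : ∀ n, n ∈ omega M → ∀ i, i ∈ n → ap (ap f n) i = ap (ap f (suc i)) i := by
    refine omega_induction (fun n => ∀ i, i ∈ n → ap (ap f n) i = ap (ap f (suc i)) i) ?_ ?_
    · intro i hi
      exact (not_mem_emp i hi).elim
    · intro n hn ih i hi
      rcases mem_suc.mp hi with hi | rfl
      · rw [hs n hn i hi, ih i hi]
      · rfl
  have h1 : IsFun (lam (omega M) (fun n => ap (ap f (suc n)) n)) (omega M) S :=
    isFun_lam fun n hn => (hf (suc n) (suc_mem_omega hn)).ap_mem (mem_suc_self n)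
  refine ⟨_, h1, fun n hn => ?_⟩
  refine (isFun_restr_omega h1 hn).ext (hf n hn) fun i hi => ?_
  rw [h1.ap_restr (C2_sub_omega hn) hi, ap_lam' (omega_trans hn hi), key n hn i hi]

/-- the recursion which computes the code of a finite sequence -/
noncomputable def C2_cd (f e s : M) : M :=
  iota (fun h => ∃ b, IsFun h (omega M) b ∧ ap h emp = e ∧
    ∀ n, n ∈ omega M → ap h (suc n) = ap f (pr (ap h n) (ap s n)))

instance DT_C2_cd (t1 t2 t3 : (ℕ → M) → M) [DT t1] [DT t2] [DT t3] :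
    DT (fun v => C2_cd (t1 v) (t2 v) (t3 v)) := by
  refine DT3 (f := C2_cd) ?_ t1 t2 t3
  unfold C2_cd
  infer_instance

theorem C2_cd_spec (f e s : M) : ∃ b, IsFun (C2_cd f e s) (omega M) b ∧ ap (C2_cd f e s) emp = e ∧
    ∀ n, n ∈ omega M → ap (C2_cd f e s) (suc n) = ap f (pr (ap (C2_cd f e s) n) (ap s n)) := by
  refine iota_spec (P := fun h => ∃ b, IsFun h (omega M) b ∧ ap h emp = e ∧
    ∀ n, n ∈ omega M → ap h (suc n) = ap f (pr (ap h n) (ap s n))) ?_
  obtain ⟨h, b, h1, h2, h3⟩ := omega_rec' e (fun n y => ap f (pr y (ap s n)))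
  refine ⟨h, ⟨b, h1, h2, h3⟩, ?_⟩
  rintro g ⟨b', h1', h2', h3'⟩
  exact omega_rec_unique (fun n y => ap f (pr y (ap s n))) h1' h1 (h2'.trans h2.symm) h3' h3

theorem C2_cd_emp (f e s : M) : ap (C2_cd f e s) emp = e := by
  obtain ⟨b, _, h, _⟩ := C2_cd_spec f e s
  exact h

theorem C2_cd_suc (f e s : M) {n : M} (hn : n ∈ omega M) :
    ap (C2_cd f e s) (suc n) = ap f (pr (ap (C2_cd f e s) n) (ap s n)) := by
  obtain ⟨b, _, _, h⟩ := C2_cd_spec f e s
  exact h n hn

/-- the code of a finite sequence -/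
noncomputable def C2_code (f e s : M) : M := ap (C2_cd f e s) (dom s)

instance DT_C2_code (t1 t2 t3 : (ℕ → M) → M) [DT t1] [DT t2] [DT t3] :
    DT (fun v => C2_code (t1 v) (t2 v) (t3 v)) := by
  refine DT3 (f := C2_code) ?_ t1 t2 t3
  unfold C2_code
  infer_instance

theorem C2_code_emp (f e : M) : C2_code f e emp = e := by
  rw [C2_code, (isFun_emp (emp : M)).dom, C2_cd_emp]

theorem C2_code_snoc {S s x : M} (f e : M) (hs : s ∈ fseq S) (hx : x ∈ S) :
    C2_code f e (snoc s x) = ap f (pr (C2_code f e s) x) := by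
  obtain ⟨n, hn, hs⟩ := mem_fseq.mp hs
  have key : ∀ i, i ∈ omega M → Sub i n → ap (C2_cd f e (snoc s x)) i = ap (C2_cd f e s) i := by
    refine omega_induction
      (fun i => Sub i n → ap (C2_cd f e (snoc s x)) i = ap (C2_cd f e s) i) ?_ ?_
    · intro _
      rw [C2_cd_emp, C2_cd_emp]
    · intro i hi ih h
      rw [C2_cd_suc _ _ _ hi, C2_cd_suc _ _ _ hi, ih ((C2_sub_suc i).trans h),
        ap_snoc hn hs hx (h i (mem_suc_self i))]
  rw [C2_code, (isFun_snoc hn hs hx).dom, C2_cd_suc _ _ _ hn, key n hn (Sub.refl n),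
    ap_snoc_last hn hs hx, C2_code, hs.dom]

/-- if `κ` has a pairing function which misses an element `e`, then there are at most `κ` many
finite sequences in `κ` -/
theorem emb_fseq {κ f e : M} (hf : Inj f (prod κ κ) κ) (he : e ∈ κ)
    (hfe : ∀ p, p ∈ prod κ κ → ap f p ≠ e) : Emb (fseq κ) κ := by
  have hmem : ∀ s, s ∈ fseq κ → C2_code f e s ∈ κ := by
    refine fseq_induct (fun s => C2_code f e s ∈ κ) ?_ ?_
    · rw [C2_code_emp]
      exact he
    · intro s hs x hx ih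
      rw [C2_code_snoc f e hs hx]
      exact hf.1.ap_mem (pr_mem_prod.mpr ⟨ih, hx⟩)
  have hne : ∀ s x, s ∈ fseq κ → x ∈ κ → C2_code f e (snoc s x) ≠ C2_code f e emp := by
    intro s x hs hx h
    rw [C2_code_snoc f e hs hx, C2_code_emp] at h
    exact hfe _ (pr_mem_prod.mpr ⟨hmem s hs, hx⟩) h
  have hinj : ∀ s, s ∈ fseq κ → ∀ t, t ∈ fseq κ → C2_code f e s = C2_code f e t → s = t := by
    refine fseq_induct (fun s => ∀ t, t ∈ fseq κ → C2_code f e s = C2_code f e t → s = t) ?_ ?_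
    · intro t ht h
      rcases fseq_cases ht with rfl | ⟨t', y, ht', hy, rfl⟩
      · rfl
      · exact (hne t' y ht' hy h.symm).elim
    · intro s hs x hx ih t ht h
      rcases fseq_cases ht with rfl | ⟨t', y, ht', hy, rfl⟩
      · exact (hne s x hs hx h).elim
      · rw [C2_code_snoc f e hs hx, C2_code_snoc f e ht' hy] at h
        obtain ⟨h1, h2⟩ := pr_inj (hf.2 _ (pr_mem_prod.mpr ⟨hmem s hs, hx⟩) _
          (pr_mem_prod.mpr ⟨hmem t' ht', hy⟩) h)
        rw [ih t' ht' h1, h2]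
  exact Emb.of_fun (fun s => C2_code f e s) hmem fun s hs t ht h => hinj s hs t ht h

theorem Emb.fseq {a b : M} (h : Emb a b) : Emb (fseq a) (fseq b) := by
  obtain ⟨g, hg, hg'⟩ := h
  have key : ∀ s n, n ∈ omega M → IsFun s n a →
      IsFun (cmp (dom s) s g) n b ∧ ∀ i, i ∈ n → ap (cmp (dom s) s g) i = ap g (ap s i) := by
    intro s n _ hs
    rw [hs.dom, cmp]
    exact ⟨isFun_lam fun i hi => hg.ap_mem (hs.ap_mem hi), fun i hi => ap_lam' hi⟩
  refine Emb.of_fun (fun s => cmp (dom s) s g) ?_ ?_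
  · intro s hs
    obtain ⟨n, hn, hs⟩ := mem_fseq.mp hs
    exact mem_fseq.mpr ⟨n, hn, (key s n hn hs).1⟩
  · intro s hs t ht h
    obtain ⟨n, hn, hs⟩ := mem_fseq.mp hs
    obtain ⟨m, hm, ht⟩ := mem_fseq.mp ht
    have h1 := key s n hn hs
    have h2 := key t m hm ht
    have h3 : n = m := (h ▸ h1.1).dom_eq h2.1
    subst h3
    refine hs.ext ht fun i hi => hg' _ (hs.ap_mem hi) _ (ht.ap_mem hi) ?_
    rw [← h1.2 i hi, ← h2.2 i hi]
    exact congrArg (fun z => ap z i) h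

theorem Ctbl.fseq {S : M} (h : Ctbl S) : Ctbl (fseq S) := by
  refine (Emb.fseq h).trans ?_
  obtain ⟨f, hf, hf'⟩ := emb_omega_prod (M := M)
  have h1 : IsFun (lam (Pool.Agent.Lib.MP_f5c99b_lc.prod (omega M) (omega M))
      (fun p => suc (ap f p))) (Pool.Agent.Lib.MP_f5c99b_lc.prod (omega M) (omega M)) (omega M) :=
    isFun_lam fun p hp => suc_mem_omega (hf.ap_mem hp)
  refine emb_fseq (f := lam (Pool.Agent.Lib.MP_f5c99b_lc.prod (omega M) (omega M))
    (fun p => suc (ap f p))) ⟨h1, ?_⟩ emp_mem_omega ?_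
  · intro p hp q hq h
    rw [ap_lam' hp, ap_lam' hq] at h
    exact hf' p hp q hq (C2_suc_inj h)
  · intro p hp h
    rw [ap_lam' hp] at h
    exact not_mem_emp (ap f p) (h ▸ mem_suc_self _)

end Pool.Agent.Lib.MP_f5c99b_lc
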