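import Pool.Agent.Lib.MP_7b07e0_lc.Space

/-! The space `δ ^ ω` for a countable set `δ`. (ROW S) -/

namespace Pool.Agent.Lib.MP_f5c99b_lc

universe u

variable {M : Type u} [Membership M M] [hZF : Fact (IsModelOfZF M)]

/-- the sequences `x ∈ δ ^ ω` which extend the finite sequence `p` -/
noncomputable def cone (δ p : M) : M := sep (funs (omega M) δ) (fun x => Sub p x)

instance DT_cone (t1 t2 : (ℕ → M) → M) [DT t1] [DT t2] : DT (fun v => cone (t1 v) (t2 v)) := by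
  refine DT2 (f := cone) ?_ t1 t2
  unfold cone
  infer_instance

theorem mem_cone {δ p x : M} : x ∈ cone δ p ↔ IsFun x (omega M) δ ∧ Sub p x := by
  rw [cone, mem_sep, mem_funs]

/-- the base of `δ ^ ω` -/
noncomputable def coneB (δ : M) : M := img (fseq δ) (fun p => cone δ p)

instance DT_coneB (t1 : (ℕ → M) → M) [DT t1] : DT (fun v => coneB (t1 v)) := by
  refine DT1 (f := coneB) ?_ t1
  unfold coneB
  infer_instance

theorem mem_coneB {δ u : M} : u ∈ coneB δ ↔ ∃ p, p ∈ fseq δ ∧ u = cone δ p := mem_img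

/-! ### helper lemmas (ROW S) -/

/-- a finite sequence contained in `x : ω → δ` is a restriction of `x` -/
theorem S_ap_eq {a b c p x n i : M} (hp : IsFun p n a) (hx : IsFun x b c) (h : Sub p x)
    (hi : i ∈ n) : ap x i = ap p i := by
  have h1 : pr i (ap p i) ∈ x := h _ (hp.pr_mem.mpr ⟨hi, rfl⟩)
  exact (hx.pr_mem.mp h1).2.symm

theorem S_sub_of {a b c p x n : M} (hp : IsFun p n a) (hx : IsFun x b c) (hn : Sub n b)
    (h : ∀ i, i ∈ n → ap x i = ap p i) : Sub p x := by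
  intro q hq
  obtain ⟨i, hi, rfl⟩ := hp.mem_iff.mp hq
  exact hx.pr_mem.mpr ⟨hn i hi, (h i hi).symm⟩

theorem S_omega_sub {n : M} (hn : n ∈ omega M) : Sub n (omega M) := fun _ h => omega_trans hn h

/-- the finite sequence `p` followed by the constant `x0` -/
noncomputable def S_ext (p x0 : M) : M := lam (omega M) (fun i =>
  iota (fun y => (i ∈ dom p ∧ y = ap p i) ∨ (i ∉ dom p ∧ y = x0)))

theorem S_ext_in {p x0 i : M} (hi : i ∈ omega M) (h : i ∈ dom p) : ap (S_ext p x0) i = ap p i := by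
  rw [S_ext, ap_lam' hi]
  refine iota_eq (Or.inl ⟨h, rfl⟩) ?_
  rintro y (⟨_, h2⟩ | ⟨h2, _⟩)
  · exact h2
  · exact absurd h h2

theorem S_ext_out {p x0 i : M} (hi : i ∈ omega M) (h : i ∉ dom p) : ap (S_ext p x0) i = x0 := by
  rw [S_ext, ap_lam' hi]
  refine iota_eq (Or.inr ⟨h, rfl⟩) ?_
  rintro y (⟨h2, _⟩ | ⟨_, h2⟩)
  · exact absurd h2 h
  · exact h2

theorem S_ext_fun {δ p x0 n : M} (hn : n ∈ omega M) (hp : IsFun p n δ) (hx : x0 ∈ δ) :
    IsFun (S_ext p x0) (omega M) δ := by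
  have h1 : IsFun (S_ext p x0) (omega M) (un δ δ) := by
    unfold S_ext
    refine isFun_lam' fun i hi => ?_
    by_cases h : i ∈ dom p
    · have h2 := S_ext_in (x0 := x0) hi h
      rw [S_ext, ap_lam' hi] at h2
      rw [h2]
      rw [hp.dom] at h
      exact mem_un.mpr (Or.inl (hp.ap_mem h))
    · have h2 := S_ext_out (x0 := x0) hi h
      rw [S_ext, ap_lam' hi] at h2
      rw [h2]
      exact mem_un.mpr (Or.inl hx)
  refine h1.mono fun i hi => ?_
  rcases mem_un.mp (h1.ap_mem hi) with h | h <;> exact h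

theorem S_cone_ne {δ p : M} (hne : ∃ x, x ∈ δ) (hp : p ∈ fseq δ) : ∃ x, x ∈ cone δ p := by
  obtain ⟨x0, hx0⟩ := hne
  obtain ⟨n, hn, hp⟩ := mem_fseq.mp hp
  refine ⟨S_ext p x0, mem_cone.mpr ⟨S_ext_fun hn hp hx0, ?_⟩⟩
  refine S_sub_of hp (S_ext_fun hn hp hx0) (S_omega_sub hn) fun i hi => ?_
  exact S_ext_in (S_omega_sub hn i hi) (by rw [hp.dom]; exact hi)

theorem S_cone_mono {δ p q : M} (h : Sub p q) : Sub (cone δ q) (cone δ p) := by
  intro x hx
  obtain ⟨h1, h2⟩ := mem_cone.mp hx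
  exact mem_cone.mpr ⟨h1, h.trans h2⟩

theorem S_restr_sub {δ x n : M} : Sub (restr x n) x := sep_sub

/-- the cone of a longer restriction is contained in every cone with the same point -/
theorem S_cone_restr {δ p x n N : M} (hn : n ∈ omega M) (hp : IsFun p n δ) (hx : x ∈ cone δ p)
    (hN : N ∈ omega M) (hnN : Sub n N) : Sub (cone δ (restr x N)) (cone δ p) := by
  obtain ⟨hx1, hx2⟩ := mem_cone.mp hx
  refine S_cone_mono ?_
  refine S_sub_of hp (isFun_restr_omega hx1 hN) hnN fun i hi => ?_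
  rw [hx1.ap_restr (S_omega_sub hN) (hnN i hi), S_ap_eq hp hx1 hx2 hi]

theorem S_base {δ : M} (hδ : Ctbl δ) (hne : ∃ x, x ∈ δ) :
    Base (funs (omega M) δ) (coneB δ) := by
  refine ⟨?_, ?_, ?_, ?_, ?_⟩
  · intro u hu
    obtain ⟨p, hp, rfl⟩ := mem_coneB.mp hu
    exact sep_sub
  · intro u hu
    obtain ⟨p, hp, rfl⟩ := mem_coneB.mp hu
    exact S_cone_ne hne hp
  · exact (Ctbl.fseq hδ).img _
  · intro x hx
    exact ⟨cone δ emp, mem_coneB.mpr ⟨emp, emp_mem_fseq δ, rfl⟩,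
      mem_cone.mpr ⟨mem_funs.mp hx, emp_sub x⟩⟩
  · intro u v x hu hv hxu hxv
    obtain ⟨p, hp, rfl⟩ := mem_coneB.mp hu
    obtain ⟨q, hq, rfl⟩ := mem_coneB.mp hv
    obtain ⟨n, hn, hp'⟩ := mem_fseq.mp hp
    obtain ⟨m, hm, hq'⟩ := mem_fseq.mp hq
    obtain ⟨hx, hpx⟩ := mem_cone.mp hxu
    obtain ⟨_, hqx⟩ := mem_cone.mp hxv
    have key : Sub n m ∨ Sub m n := by
      rcases omega_tri hn hm with h | h | h
      · exact Or.inl ((omega_sub_iff hn hm).mpr (Or.inl h))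
      · exact Or.inl ((omega_sub_iff hn hm).mpr (Or.inr h))
      · exact Or.inr ((omega_sub_iff hm hn).mpr (Or.inl h))
    rcases key with h | h
    · refine ⟨cone δ (restr x m), mem_coneB.mpr ⟨_, restr_mem_fseq hx hm, rfl⟩,
        mem_cone.mpr ⟨hx, sep_sub⟩, S_cone_restr hn hp' hxu hm h,
        S_cone_restr hm hq' hxv hm (Sub.refl m)⟩
    · refine ⟨cone δ (restr x n), mem_coneB.mpr ⟨_, restr_mem_fseq hx hn, rfl⟩,
        mem_cone.mpr ⟨hx, sep_sub⟩, S_cone_restr hn hp' hxu hn (Sub.refl n),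
        S_cone_restr hm hq' hxv hn h⟩

/-- the cones of sequences of length `> n` -/
noncomputable def S_fam (δ n : M) : M :=
  img (sep (fseq δ) (fun p => n ∈ dom p)) (fun p => cone δ p)

instance DT_S_fam (t1 t2 : (ℕ → M) → M) [DT t1] [DT t2] :
    DT (fun v => S_fam (t1 v) (t2 v)) := by
  refine DT2 (f := S_fam) ?_ t1 t2
  unfold S_fam
  infer_instance

theorem S_mem_fam {δ n u : M} : u ∈ S_fam δ n ↔ ∃ p l, l ∈ omega M ∧ IsFun p l δ ∧ n ∈ l ∧
    u = cone δ p := by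
  rw [S_fam, mem_img]
  constructor
  · rintro ⟨p, hp, rfl⟩
    obtain ⟨h1, h2⟩ := mem_sep.mp hp
    obtain ⟨l, hl, hpl⟩ := mem_fseq.mp h1
    rw [hpl.dom] at h2
    exact ⟨p, l, hl, hpl, h2, rfl⟩
  · rintro ⟨p, l, hl, hpl, h2, rfl⟩
    refine ⟨p, mem_sep.mpr ⟨mem_fseq.mpr ⟨l, hl, hpl⟩, ?_⟩, rfl⟩
    rw [hpl.dom]
    exact h2

theorem S_shrink {δ : M} :
    Shrink (funs (omega M) δ) (coneB δ) (lam (omega M) (fun n => S_fam δ n)) := by
  refine ⟨?_, ?_, ?_⟩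
  · refine isFun_lam' fun n hn => mem_pow'.mpr fun u hu => ?_
    obtain ⟨p, l, hl, hpl, h2, rfl⟩ := S_mem_fam.mp hu
    exact mem_coneB.mpr ⟨p, mem_fseq.mpr ⟨l, hl, hpl⟩, rfl⟩
  · intro n u x hn hu hxu
    obtain ⟨p, hp, rfl⟩ := mem_coneB.mp hu
    obtain ⟨m, hm, hp'⟩ := mem_fseq.mp hp
    obtain ⟨hx, hpx⟩ := mem_cone.mp hxu
    have key : ∃ N, N ∈ omega M ∧ n ∈ N ∧ Sub m N := by
      rcases omega_tri hn hm with h | h | h
      · exact ⟨m, hm, h, Sub.refl m⟩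
      · subst h
        exact ⟨suc n, suc_mem_omega hn, mem_suc_self n, fun i hi => mem_suc.mpr (Or.inl hi)⟩
      · exact ⟨suc n, suc_mem_omega hn, mem_suc_self n,
          fun i hi => mem_suc.mpr (Or.inl (omega_mem_trans hn hi h))⟩
    obtain ⟨N, hN, hnN, hmN⟩ := key
    refine ⟨cone δ (restr x N), ?_, mem_cone.mpr ⟨hx, sep_sub⟩, S_cone_restr hm hp' hxu hN hmN⟩
    rw [ap_lam' hn]
    exact S_mem_fam.mpr ⟨_, N, hN, isFun_restr_omega hx hN, hnN, rfl⟩
  · intro f x y hf hfS hxy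
    have hx : IsFun x (omega M) δ := by
      obtain ⟨p, l, hl, hpl, h2, e⟩ := S_mem_fam.mp (by
        have := hfS emp emp_mem_omega
        rwa [ap_lam' emp_mem_omega] at this)
      have := (hxy emp emp_mem_omega).1
      rw [e] at this
      exact (mem_cone.mp this).1
    have hy : IsFun y (omega M) δ := by
      obtain ⟨p, l, hl, hpl, h2, e⟩ := S_mem_fam.mp (by
        have := hfS emp emp_mem_omega
        rwa [ap_lam' emp_mem_omega] at this)
      have := (hxy emp emp_mem_omega).2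
      rw [e] at this
      exact (mem_cone.mp this).1
    refine hx.ext hy fun n hn => ?_
    obtain ⟨p, l, hl, hpl, h2, e⟩ := S_mem_fam.mp (by
      have := hfS n hn
      rwa [ap_lam' hn] at this)
    obtain ⟨h3, h4⟩ := hxy n hn
    rw [e] at h3 h4
    rw [S_ap_eq hpl hx (mem_cone.mp h3).2 h2, S_ap_eq hpl hy (mem_cone.mp h4).2 h2]

theorem S_mono {f : M} (h : ∀ n, n ∈ omega M → Sub (ap f (suc n)) (ap f n)) :
    ∀ m, m ∈ omega M → ∀ n, n ∈ m → Sub (ap f m) (ap f n) := by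
  refine omega_induction (fun m => ∀ n, n ∈ m → Sub (ap f m) (ap f n)) ?_ ?_
  · intro n hn
    exact absurd hn (not_mem_emp n)
  · intro m hm ih n hn
    rcases mem_suc.mp hn with h1 | rfl
    · exact (h m hm).trans (ih n h1)
    · exact h n hm

/-- two terms of a decreasing sequence of nonempty sets have a common point -/
theorem S_common {f i n : M} (h : ∀ n, n ∈ omega M → Sub (ap f (suc n)) (ap f n))
    (hne : ∀ n, n ∈ omega M → ∃ z, z ∈ ap f n) (hi : i ∈ omega M) (hn : n ∈ omega M) :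
    ∃ z, z ∈ ap f i ∧ z ∈ ap f n := by
  rcases omega_tri hi hn with h1 | rfl | h1
  · obtain ⟨z, hz⟩ := hne n hn
    exact ⟨z, S_mono h n hn i h1 z hz, hz⟩
  · obtain ⟨z, hz⟩ := hne i hi
    exact ⟨z, hz, hz⟩
  · obtain ⟨z, hz⟩ := hne i hi
    exact ⟨z, hz, S_mono h i hi n h1 z hz⟩

theorem S_compl {δ : M} (hne : ∃ x, x ∈ δ) :
    Compl (coneB δ) (lam (omega M) (fun n => S_fam δ n)) := by
  intro f hf hfS hdec
  have hfS' : ∀ n, n ∈ omega M → ∃ p l, l ∈ omega M ∧ IsFun p l δ ∧ n ∈ l ∧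
      ap f n = cone δ p := by
    intro n hn
    have := hfS n hn
    rw [ap_lam' hn] at this
    exact S_mem_fam.mp this
  have hnef : ∀ n, n ∈ omega M → ∃ z, z ∈ ap f n := by
    intro n hn
    obtain ⟨p, l, hl, hpl, h2, e⟩ := hfS' n hn
    rw [e]
    exact S_cone_ne hne (mem_fseq.mpr ⟨l, hl, hpl⟩)
  let t : M → M := fun n => iota (fun y => ∀ z, z ∈ ap f n → ap z n = y)
  have ht : ∀ n, n ∈ omega M → ∀ z, z ∈ ap f n → ap z n = t n := by
    intro n hn z hz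
    obtain ⟨p, l, hl, hpl, h2, e⟩ := hfS' n hn
    have h3 : ∀ z, z ∈ ap f n → ap z n = ap p n := by
      intro z hz
      rw [e] at hz
      exact S_ap_eq hpl (mem_cone.mp hz).1 (mem_cone.mp hz).2 h2
    have h4 : t n = ap p n := iota_eq h3 fun y hy => by
      rw [← hy z hz, h3 z hz]
    rw [h4, h3 z hz]
  have hzf : ∀ n, n ∈ omega M → ∀ z, z ∈ ap f n → IsFun z (omega M) δ := by
    intro n hn z hz
    obtain ⟨p, l, hl, hpl, h2, e⟩ := hfS' n hn
    rw [e] at hz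
    exact (mem_cone.mp hz).1
  have htδ : ∀ n, n ∈ omega M → t n ∈ δ := by
    intro n hn
    obtain ⟨z, hz⟩ := hnef n hn
    rw [← ht n hn z hz]
    exact (hzf n hn z hz).ap_mem hn
  have hx : IsFun (lam (omega M) t) (omega M) δ := isFun_lam' htδ
  refine ⟨lam (omega M) t, fun n hn => ?_⟩
  obtain ⟨p, l, hl, hpl, h2, e⟩ := hfS' n hn
  rw [e]
  refine mem_cone.mpr ⟨hx, S_sub_of hpl hx (S_omega_sub hl) fun i hi => ?_⟩
  have hi' : i ∈ omega M := S_omega_sub hl i hi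
  obtain ⟨z, hz1, hz2⟩ := S_common hdec hnef hi' hn
  rw [ap_lam' hi', ← ht i hi' z hz1]
  rw [e] at hz2
  exact S_ap_eq hpl (mem_cone.mp hz2).1 (mem_cone.mp hz2).2 hi

theorem csp_seq {δ : M} (hδ : Ctbl δ) (hne : ∃ x, x ∈ δ) :
    CSp (funs (omega M) δ) (coneB δ) :=
  ⟨S_base hδ hne, _, S_shrink, S_compl hne⟩

/-- almost all sequences are onto -/
theorem mgr_not_onto (hDC : DC M) {δ : M} (hδ : Ctbl δ) (hne : ∃ x, x ∈ δ) :
    Mgr (coneB δ) (funs (omega M) δ)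
      (sep (funs (omega M) δ) (fun r => ¬ Surj r (omega M) δ)) := by
  have hb := S_base hδ hne
  refine Mgr.of_forall hDC hb sep_sub hδ (fun y r => ∃ x, x ∈ omega M ∧ ap r x = y) ?_ ?_
  · intro y hy
    refine mgr_of_od hb sep_sub ?_
    intro u hu
    obtain ⟨p, hp, rfl⟩ := mem_coneB.mp hu
    obtain ⟨n, hn, hpn⟩ := mem_fseq.mp hp
    refine ⟨cone δ (snoc p y), mem_coneB.mpr ⟨_, snoc_mem hp hy, rfl⟩, S_cone_mono ?_, ?_⟩
    · intro q hq
      exact mem_un.mpr (Or.inl hq)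
    · intro z hz
      obtain ⟨hz1, hz2⟩ := mem_cone.mp hz
      refine mem_diff.mpr ⟨mem_funs.mpr hz1, fun h => ?_⟩
      refine (mem_sep.mp h).2 ⟨n, hn, ?_⟩
      rw [S_ap_eq (isFun_snoc hn hpn hy) hz1 hz2 (mem_suc_self n), ap_snoc_last hn hpn hy]
  · intro r hr
    obtain ⟨h1, h2⟩ := mem_sep.mp hr
    by_contra h3
    push Not at h3
    refine h2 ⟨mem_funs.mp h1, fun y hy => ?_⟩
    exact h3 y hy

end Pool.Agent.Lib.MP_f5c99b_lc
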