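import Pool.Agent.Lib.MP_7b07e0_lc.Scheme
import Pool.Agent.Lib.MP_7b07e0_lc.Seq
import Pool.Agent.Lib.MP_7b07e0_lc.Rank

/-! Definitions for the main proof: group and action with the ideal of meager sets, tables,
operations, the canonical sequence. All definitions, with their definability instances. -/

namespace Pool.Agent.Lib.MP_f5c99b_lc

universe u

variable {M : Type u} [Membership M M] [hZF : Fact (IsModelOfZF M)]

/-! ### numerals -/

noncomputable def nn0 : M := emp
noncomputable def nn1 : M := suc emp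
noncomputable def nn2 : M := suc (suc emp)
noncomputable def nn3 : M := suc (suc (suc emp))
noncomputable def nn4 : M := suc (suc (suc (suc emp)))

/-! ### the group, the ideal, the action -/

/-- A group `G` (multiplication `m`, unit `e`), a `σ`-ideal `I` of subsets of `G` (the meager sets),
an enumeration `gam` of a countable subgroup, a set `X ⊆ P(ω)` and an action `act` of `G` on `X`. -/
structure Dat (M : Type u) where
  G : M
  m : M
  e : M
  I : M
  gam : M
  X : M
  act : M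

namespace Dat

/-- product in `G` -/
noncomputable def mul (d : Dat M) (g h : M) : M := ap d.m (pr g h)

/-- action of `G` on `X` -/
noncomputable def sm (d : Dat M) (g x : M) : M := ap d.act (pr g x)

/-- the `n`-th element of the countable subgroup -/
noncomputable def gm (d : Dat M) (n : M) : M := ap d.gam n

/-- the orbit equivalence relation -/
def Er (d : Dat M) (x y : M) : Prop := ∃ g, g ∈ d.G ∧ d.sm g x = y

/-- `A ⊆ B` modulo the ideal -/
def leI (d : Dat M) (A B : M) : Prop := diff A B ∈ d.I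

/-- `A = B` modulo the ideal -/
def eqI (d : Dat M) (A B : M) : Prop := diff A B ∈ d.I ∧ diff B A ∈ d.I

/-- the axioms used in the main proof -/
structure Good (d : Dat M) : Prop where
  m_fn : IsFun d.m (prod d.G d.G) d.G
  assoc : ∀ a b c, a ∈ d.G → b ∈ d.G → c ∈ d.G → d.mul (d.mul a b) c = d.mul a (d.mul b c)
  e_mem : d.e ∈ d.G
  e_mul : ∀ g, g ∈ d.G → d.mul d.e g = g
  mul_e : ∀ g, g ∈ d.G → d.mul g d.e = g
  inv : ∀ g, g ∈ d.G → ∃ h, h ∈ d.G ∧ d.mul g h = d.e ∧ d.mul h g = d.e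
  X_sub : Sub d.X (pow (omega M))
  act_fn : IsFun d.act (prod d.G d.X) d.X
  act_mul : ∀ g h x, g ∈ d.G → h ∈ d.G → x ∈ d.X → d.sm (d.mul g h) x = d.sm g (d.sm h x)
  act_e : ∀ x, x ∈ d.X → d.sm d.e x = x
  gam_fn : IsFun d.gam (omega M) d.G
  gam_mul : ∀ m n, m ∈ omega M → n ∈ omega M → ∃ l, l ∈ omega M ∧
    d.gm l = d.mul (d.gm m) (d.gm n)
  gam_inv : ∀ m, m ∈ omega M → ∃ n, n ∈ omega M ∧ d.mul (d.gm m) (d.gm n) = d.e ∧
    d.mul (d.gm n) (d.gm m) = d.e
  gam_e : ∃ n, n ∈ omega M ∧ d.gm n = d.e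
  I_pow : Sub d.I (pow d.G)
  I_emp : emp ∈ d.I
  I_sub : ∀ A B, A ∈ d.I → Sub B A → B ∈ d.I
  I_un : ∀ f, IsFun f (omega M) d.I → sU (ran f) ∈ d.I
  I_ne : d.G ∉ d.I
  I_left : ∀ g A, g ∈ d.G → A ∈ d.I → sep d.G (fun x => d.mul g x ∈ A) ∈ d.I
  I_right : ∀ g A, g ∈ d.G → A ∈ d.I → sep d.G (fun x => d.mul x g ∈ A) ∈ d.I
  I_code : ∃ ρ, IsFun ρ (pow d.G) (pow (omega M)) ∧ ∀ A B, A ∈ pow d.G → B ∈ pow d.G →
    ap ρ A = ap ρ B → diff A B ∈ d.I ∧ diff B A ∈ d.I
  I_trans : ∀ A B, A ∈ pow d.G → B ∈ pow d.G → A ∉ d.I → B ∉ d.I → ∃ n, n ∈ omega M ∧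
    sep A (fun x => d.mul (d.gm n) x ∈ B) ∉ d.I

end Dat

section

variable (d : Dat M)

instance DT_Dat_mul (t1 t2 : (ℕ → M) → M) [DT t1] [DT t2] : DT (fun v => d.mul (t1 v) (t2 v)) := by
  refine DT2 (f := d.mul) ?_ t1 t2
  unfold Dat.mul
  infer_instance

instance DT_Dat_sm (t1 t2 : (ℕ → M) → M) [DT t1] [DT t2] : DT (fun v => d.sm (t1 v) (t2 v)) := by
  refine DT2 (f := d.sm) ?_ t1 t2
  unfold Dat.sm
  infer_instance

instance DT_Dat_gm (t1 : (ℕ → M) → M) [DT t1] : DT (fun v => d.gm (t1 v)) := by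
  refine DT1 (f := d.gm) ?_ t1
  unfold Dat.gm
  infer_instance

instance D_Dat_Er (t1 t2 : (ℕ → M) → M) [DT t1] [DT t2] : D (fun v => d.Er (t1 v) (t2 v)) := by
  refine D2 (P := d.Er) ?_ t1 t2
  unfold Dat.Er
  infer_instance

instance D_Dat_leI (t1 t2 : (ℕ → M) → M) [DT t1] [DT t2] : D (fun v => d.leI (t1 v) (t2 v)) := by
  refine D2 (P := d.leI) ?_ t1 t2
  unfold Dat.leI
  infer_instance

instance D_Dat_eqI (t1 t2 : (ℕ → M) → M) [DT t1] [DT t2] : D (fun v => d.eqI (t1 v) (t2 v)) := by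
  refine D2 (P := d.eqI) ?_ t1 t2
  unfold Dat.eqI
  infer_instance

/-! ### tables

A table is a pair `c = (δ, τ)`, `δ` a countable ordinal, `τ ⊆ (ω × ω) × (δ × δ)`. The element
`((κ, n), (i, j))` of `τ` says: `κ = 0`: `k j` is the set `B_n`; `κ = 1`: `k i ⊆ k j`; `κ = 2`:
`k i` is the translate of `k j` by the `n`-th element of the subgroup; `κ = 3`: `i < j`. -/

/-- `k i ⊆ k j` -/
def LE (c i j : M) : Prop := pr (pr nn1 emp) (pr i j) ∈ snd c

instance D_LE (t1 t2 t3 : (ℕ → M) → M) [DT t1] [DT t2] [DT t3] :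
    D (fun v => LE (t1 v) (t2 v) (t3 v)) := by
  refine D3 (P := LE) ?_ t1 t2 t3
  unfold LE
  infer_instance

/-- `k i` is the set `B_n` -/
def BB (c n i : M) : Prop := pr (pr nn0 n) (pr i i) ∈ snd c

instance D_BB (t1 t2 t3 : (ℕ → M) → M) [DT t1] [DT t2] [DT t3] :
    D (fun v => BB (t1 v) (t2 v) (t3 v)) := by
  refine D3 (P := BB) ?_ t1 t2 t3
  unfold BB
  infer_instance

/-- `k i` is the translate of `k j` by the `n`-th element of the subgroup -/
def AC (c n i j : M) : Prop := pr (pr nn2 n) (pr i j) ∈ snd c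

instance D_AC (t1 t2 t3 t4 : (ℕ → M) → M) [DT t1] [DT t2] [DT t3] [DT t4] :
    D (fun v => AC (t1 v) (t2 v) (t3 v) (t4 v)) := by
  refine D4 (P := AC) ?_ t1 t2 t3 t4
  unfold AC
  infer_instance

/-- `i < j` -/
def OR (c i j : M) : Prop := pr (pr nn3 emp) (pr i j) ∈ snd c

instance D_OR (t1 t2 t3 : (ℕ → M) → M) [DT t1] [DT t2] [DT t3] :
    D (fun v => OR (t1 v) (t2 v) (t3 v)) := by
  refine D3 (P := OR) ?_ t1 t2 t3
  unfold OR
  infer_instance

/-- `i` is not the zero element of the table -/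
def NZ (c i : M) : Prop := i ∈ fst c ∧ ∃ j, j ∈ fst c ∧ ¬ LE c i j

instance D_NZ (t1 t2 : (ℕ → M) → M) [DT t1] [DT t2] : D (fun v => NZ (t1 v) (t2 v)) := by
  refine D2 (P := NZ) ?_ t1 t2
  unfold NZ
  infer_instance

/-- `i` and `j` are compatible -/
def Cmp (c i j : M) : Prop := ∃ l, NZ c l ∧ LE c l i ∧ LE c l j

instance D_Cmp (t1 t2 t3 : (ℕ → M) → M) [DT t1] [DT t2] [DT t3] :
    D (fun v => Cmp (t1 v) (t2 v) (t3 v)) := by
  refine D3 (P := Cmp) ?_ t1 t2 t3
  unfold Cmp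
  infer_instance

/-- `h` is an ultrafilter of the table `c` -/
def UFilt (c h : M) : Prop := (∃ i, i ∈ h) ∧ (∀ i, i ∈ h → NZ c i) ∧
  (∀ i j, i ∈ h → j ∈ fst c → LE c i j → j ∈ h) ∧
  (∀ i j, i ∈ h → j ∈ h → ∃ l, l ∈ h ∧ LE c l i ∧ LE c l j) ∧
  ∀ i, i ∈ fst c → i ∉ h → ∃ j, j ∈ h ∧ ¬ Cmp c i j

instance D_UFilt (t1 t2 : (ℕ → M) → M) [DT t1] [DT t2] : D (fun v => UFilt (t1 v) (t2 v)) := by
  refine D2 (P := UFilt) ?_ t1 t2
  unfold UFilt
  infer_instance

/-- the Stone space of the table `c`: the set of its ultrafilters -/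
noncomputable def St (c : M) : M := sep (pow (fst c)) (fun h => UFilt c h)

instance DT_St (t1 : (ℕ → M) → M) [DT t1] : DT (fun v => St (t1 v)) := by
  refine DT1 (f := St) ?_ t1
  unfold St
  infer_instance

/-- basic open set -/
noncomputable def bas (c i : M) : M := sep (St c) (fun h => i ∈ h)

instance DT_bas (t1 t2 : (ℕ → M) → M) [DT t1] [DT t2] : DT (fun v => bas (t1 v) (t2 v)) := by
  refine DT2 (f := bas) ?_ t1 t2
  unfold bas
  infer_instance

/-- the base of the Stone space -/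
noncomputable def BS (c : M) : M := img (sep (fst c) (fun i => NZ c i)) (fun i => bas c i)

instance DT_BS (t1 : (ℕ → M) → M) [DT t1] : DT (fun v => BS (t1 v)) := by
  refine DT1 (f := BS) ?_ t1
  unfold BS
  infer_instance

/-- the subset of `ω` read off from an ultrafilter -/
noncomputable def zz (c h : M) : M := sep (omega M) (fun n => ∃ i, i ∈ h ∧ BB c n i)

instance DT_zz (t1 t2 : (ℕ → M) → M) [DT t1] [DT t2] : DT (fun v => zz (t1 v) (t2 v)) := by
  refine DT2 (f := zz) ?_ t1 t2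
  unfold zz
  infer_instance

/-- action of the `n`-th element of the subgroup on ultrafilters -/
noncomputable def actS (c n h : M) : M := sep (fst c) (fun i => ∃ j, j ∈ h ∧ AC c n j i)

instance DT_actS (t1 t2 t3 : (ℕ → M) → M) [DT t1] [DT t2] [DT t3] :
    DT (fun v => actS (t1 v) (t2 v) (t3 v)) := by
  refine DT3 (f := actS) ?_ t1 t2 t3
  unfold actS
  infer_instance

/-- the set of ultrafilters `h` with `z_h ∈ X` and `z_h E z_{γ h}` for all `γ` in the subgroup -/
noncomputable def P1 (c : M) : M := sep (St c) (fun h => zz c h ∈ d.X ∧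
  ∀ n, n ∈ omega M → zz c (actS c n h) ∈ d.X ∧ d.Er (zz c h) (zz c (actS c n h)))

instance DT_P1 (t1 : (ℕ → M) → M) [DT t1] : DT (fun v => P1 d (t1 v)) := by
  refine DT1 (f := P1 d) ?_ t1
  unfold P1
  infer_instance

/-- the set of ultrafilters `h` with `z_h E z_h'` for comeager many `h'` in some basic set -/
noncomputable def P2 (c : M) : M := sep (St c) (fun h => ∃ i, NZ c i ∧
  Mgr (BS c) (St c) (sep (bas c i) (fun h' => ¬ d.Er (zz c h) (zz c h'))))

instance DT_P2 (t1 : (ℕ → M) → M) [DT t1] : DT (fun v => P2 d (t1 v)) := by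
  refine DT1 (f := P2 d) ?_ t1
  unfold P2
  infer_instance

/-- the set of nonzero `i` such that `Q` is comeager in the basic set of `i` -/
noncomputable def OO (c Q : M) : M := sep (fst c) (fun i => NZ c i ∧
  Mgr (BS c) (St c) (diff (bas c i) Q))

instance DT_OO (t1 t2 : (ℕ → M) → M) [DT t1] [DT t2] : DT (fun v => OO (t1 v) (t2 v)) := by
  refine DT2 (f := OO) ?_ t1 t2
  unfold OO
  infer_instance

/-- `D` is a predense subset of the table `c` -/
def Pd (c D : M) : Prop := Sub D (fst c) ∧ ∀ i, NZ c i → ∃ j, j ∈ D ∧ Cmp c i j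

instance D_Pd (t1 t2 : (ℕ → M) → M) [DT t1] [DT t2] : D (fun v => Pd (t1 v) (t2 v)) := by
  refine D2 (P := Pd) ?_ t1 t2
  unfold Pd
  infer_instance

/-- membership of the ultrafilter `h` in `P1` and in `P2` is decided by the elements of `h` -/
def Dec (c h : M) : Prop := (h ∈ P1 d c ↔ ∃ i, i ∈ h ∧ i ∈ OO c (P1 d c)) ∧
  (h ∈ P2 d c ↔ ∃ i, i ∈ h ∧ i ∈ OO c (P2 d c))

instance D_Dec (t1 t2 : (ℕ → M) → M) [DT t1] [DT t2] : D (fun v => Dec d (t1 v) (t2 v)) := by
  refine D2 (P := Dec d) ?_ t1 t2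
  unfold Dec
  infer_instance

/-- `D` is a sequence of predense sets such that membership of `h` in `P1` and `P2` is decided by
the elements of `h`, if `h` meets all sets of the sequence -/
def Sol (c D : M) : Prop := IsFun D (omega M) (pow (fst c)) ∧
  (∀ n, n ∈ omega M → Pd c (ap D n)) ∧
  ∀ h, h ∈ St c → (∀ n, n ∈ omega M → ∃ i, i ∈ h ∧ i ∈ ap D n) → Dec d c h

instance D_Sol (t1 t2 : (ℕ → M) → M) [DT t1] [DT t2] : D (fun v => Sol d (t1 v) (t2 v)) := by
  refine D2 (P := Sol d) ?_ t1 t2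
  unfold Sol
  infer_instance

/-- `c` is a table: separative, with a countable ordinal as underlying set, and every nonzero
element lies in an ultrafilter -/
def TabOK (c : M) : Prop := fst c ∈ om1 M ∧ (∃ i, i ∈ fst c) ∧
  c ∈ prod (om1 M) (pow (prod (prod (omega M) (omega M)) (prod (fst c) (fst c)))) ∧
  (∀ i j, i ∈ fst c → j ∈ fst c → (OR c i j ↔ i ∈ j)) ∧
  (∀ i, NZ c i → ∃ h, h ∈ St c ∧ i ∈ h) ∧
  ∀ i j, NZ c i → j ∈ fst c → Sub (bas c i) (bas c j) → LE c i j

instance D_TabOK (t1 : (ℕ → M) → M) [DT t1] : D (fun v => TabOK (t1 v)) := by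
  refine D1 (P := TabOK) ?_ t1
  unfold TabOK
  infer_instance

/-! ### codes of tables, the uniformizing function, averaging -/

/-- the real code of the table `c` with respect to the enumeration `r : ω → fst c` -/
noncomputable def cod (c r : M) : M := sep (prod (prod (omega M) (omega M))
  (prod (omega M) (omega M)))
  (fun p => pr (fst p) (pr (ap r (fst (snd p))) (ap r (snd (snd p)))) ∈ snd c)

instance DT_cod (t1 t2 : (ℕ → M) → M) [DT t1] [DT t2] : DT (fun v => cod (t1 v) (t2 v)) := by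
  refine DT2 (f := cod) ?_ t1 t2
  unfold cod
  infer_instance

/-- the `n`-th predense set chosen by the function `F` for the enumeration `r` of the table `c` -/
noncomputable def DD (F c r n : M) : M := img (ap (ap F (cod c r)) n) (fun m => ap r m)

instance DT_DD (t1 t2 t3 t4 : (ℕ → M) → M) [DT t1] [DT t2] [DT t3] [DT t4] :
    DT (fun v => DD (t1 v) (t2 v) (t3 v) (t4 v)) := by
  refine DT4 (f := DD) ?_ t1 t2 t3 t4
  unfold DD
  infer_instance

/-- the averaged sets: all `i` which lie in the `n`-th predense set for nonmeager many enumerations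
`r` extending `p` -/
noncomputable def TT (F c n p : M) : M := sep (fst c) (fun i =>
  ¬ Mgr (coneB (fst c)) (funs (omega M) (fst c))
    (sep (cone (fst c) p) (fun r => Surj r (omega M) (fst c) ∧ i ∈ DD F c r n)))

instance DT_TT (t1 t2 t3 t4 : (ℕ → M) → M) [DT t1] [DT t2] [DT t3] [DT t4] :
    DT (fun v => TT (t1 v) (t2 v) (t3 v) (t4 v)) := by
  refine DT4 (f := TT) ?_ t1 t2 t3 t4
  unfold TT
  infer_instance

/-- `F` is a good uniformizing function -/
structure UF (F : M) : Prop where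
  fn : IsFun F (pow (prod (prod (omega M) (omega M)) (prod (omega M) (omega M))))
    (funs (omega M) (pow (omega M)))
  sol : ∀ c r, TabOK c → Surj r (omega M) (fst c) → Sol d c (lam (omega M) (fun n => DD F c r n))

/-! ### sequences of sets and their tables -/

/-- `{g ∈ G | n ∈ g y}` -/
noncomputable def Bset (y n : M) : M := sep d.G (fun g => n ∈ d.sm g y)

instance DT_Bset (t1 t2 : (ℕ → M) → M) [DT t1] [DT t2] : DT (fun v => Bset d (t1 v) (t2 v)) := by
  refine DT2 (f := Bset d) ?_ t1 t2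
  unfold Bset
  infer_instance

/-- `{g ∈ G | γ_n g ∈ A}` -/
noncomputable def Aset (n A : M) : M := sep d.G (fun g => d.mul (d.gm n) g ∈ A)

instance DT_Aset (t1 t2 : (ℕ → M) → M) [DT t1] [DT t2] : DT (fun v => Aset d (t1 v) (t2 v)) := by
  refine DT2 (f := Aset d) ?_ t1 t2
  unfold Aset
  infer_instance

/-- the table of the sequence `k : δ → P(G)` of sets, for the point `y` -/
noncomputable def tab (y δ k : M) : M := pr δ (sep (prod (prod (omega M) (omega M)) (prod δ δ))
  (fun p => (fst (fst p) = nn0 ∧ d.eqI (ap k (snd (snd p))) (Bset d y (snd (fst p)))) ∨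
    (fst (fst p) = nn1 ∧ d.leI (ap k (fst (snd p))) (ap k (snd (snd p)))) ∨
    (fst (fst p) = nn2 ∧ d.eqI (ap k (fst (snd p))) (Aset d (snd (fst p)) (ap k (snd (snd p))))) ∨
    (fst (fst p) = nn3 ∧ fst (snd p) ∈ snd (snd p))))

instance DT_tab (t1 t2 t3 : (ℕ → M) → M) [DT t1] [DT t2] [DT t3] :
    DT (fun v => tab d (t1 v) (t2 v) (t3 v)) := by
  refine DT3 (f := tab d) ?_ t1 t2 t3
  unfold tab
  infer_instance

/-- `op = (κ, (n, p))` is an operation at stage `δ`: `p` is a finite sequence in `δ`, and it has at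
least two terms if `κ` is `1`, `2` or `3` -/
def Valid (δ op : M) : Prop := op ∈ prod (omega M) (prod (omega M) (fseq δ)) ∧
  (fst op = nn0 ∨ fst op = nn4 ∨ nn1 ∈ dom (snd (snd op)))

instance D_Valid (t1 t2 : (ℕ → M) → M) [DT t1] [DT t2] : D (fun v => Valid (t1 v) (t2 v)) := by
  refine D2 (P := Valid) ?_ t1 t2
  unfold Valid
  infer_instance

/-- value of the operation `op = (κ, (n, p))` for the sequence `k : δ → P(G)`: `κ = 0`: `B_n`;
`κ = 1`: complement; `κ = 2`: intersection; `κ = 3`: translate; `κ = 4`: the complement of the union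
of the `k i` with `i` in the averaged set `T (n, p)` -/
noncomputable def Val (F y δ k op : M) : M := sep d.G (fun g =>
  (fst op = nn0 ∧ fst (snd op) ∈ d.sm g y) ∨
  (fst op = nn1 ∧ g ∉ ap k (ap (snd (snd op)) nn0)) ∨
  (fst op = nn2 ∧ g ∈ ap k (ap (snd (snd op)) nn0) ∧ g ∈ ap k (ap (snd (snd op)) nn1)) ∨
  (fst op = nn3 ∧ d.mul (d.gm (fst (snd op))) g ∈ ap k (ap (snd (snd op)) nn0)) ∨
  (fst op = nn4 ∧ ∀ i, i ∈ TT F (tab d y δ k) (fst (snd op)) (snd (snd op)) → g ∉ ap k i))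

instance DT_Val (F : M) (t1 t2 t3 t4 : (ℕ → M) → M) [DT t1] [DT t2] [DT t3] [DT t4] :
    DT (fun v => Val d F (t1 v) (t2 v) (t3 v) (t4 v)) := by
  refine DT4 (f := Val d F) ?_ t1 t2 t3 t4
  unfold Val
  infer_instance

/-- the operation `op` gives a new value (modulo the ideal) -/
def New (F y δ k op : M) : Prop := Valid δ op ∧
  ∀ i, i ∈ δ → ¬ d.eqI (Val d F y δ k op) (ap k i)

instance D_New (F : M) (t1 t2 t3 t4 : (ℕ → M) → M) [DT t1] [DT t2] [DT t3] [DT t4] :
    D (fun v => New d F (t1 v) (t2 v) (t3 v) (t4 v)) := by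
  refine D4 (P := New d F) ?_ t1 t2 t3 t4
  unfold New
  infer_instance

/-- `op` is the first operation (in the well-order given by the injection `cd` into `ω₁`) that
gives a new value -/
def Fst (F cd y δ k op : M) : Prop := New d F y δ k op ∧
  ∀ op', New d F y δ k op' → ap cd op' ∉ ap cd op

instance D_Fst (F cd : M) (t1 t2 t3 t4 : (ℕ → M) → M) [DT t1] [DT t2] [DT t3] [DT t4] :
    D (fun v => Fst d F cd (t1 v) (t2 v) (t3 v) (t4 v)) := by
  refine D4 (P := Fst d F cd) ?_ t1 t2 t3 t4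
  unfold Fst
  infer_instance

/-- `k : δ → P(G)` is an initial piece of the canonical sequence of `y` -/
def Apx (F cd y δ k : M) : Prop := δ ∈ om1 M ∧ IsFun k δ (pow d.G) ∧
  ∀ i, i ∈ δ → ∃ op, Fst d F cd y i (restr k i) op ∧ ap k i = Val d F y i (restr k i) op

instance D_Apx (F cd : M) (t1 t2 t3 : (ℕ → M) → M) [DT t1] [DT t2] [DT t3] :
    D (fun v => Apx d F cd (t1 v) (t2 v) (t3 v)) := by
  refine D3 (P := Apx d F cd) ?_ t1 t2 t3
  unfold Apx
  infer_instance

/-- `k : δ → P(G)` is the canonical sequence of `y` -/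
def Mx (F cd y δ k : M) : Prop := Apx d F cd y δ k ∧ ∀ op, ¬ New d F y δ k op

instance D_Mx (F cd : M) (t1 t2 t3 : (ℕ → M) → M) [DT t1] [DT t2] [DT t3] :
    D (fun v => Mx d F cd (t1 v) (t2 v) (t3 v)) := by
  refine D3 (P := Mx d F cd) ?_ t1 t2 t3
  unfold Mx
  infer_instance

/-- the ultrafilter of the point `g ∈ G` -/
noncomputable def hg (δ k g : M) : M := sep δ (fun i => g ∈ ap k i)

instance DT_hg (t1 t2 t3 : (ℕ → M) → M) [DT t1] [DT t2] [DT t3] :
    DT (fun v => hg (t1 v) (t2 v) (t3 v)) := by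
  refine DT3 (f := hg) ?_ t1 t2 t3
  unfold hg
  infer_instance

/-- the set of operation symbols -/
noncomputable def ops : M := prod (omega M) (prod (omega M) (fseq (om1 M)))

end

end Pool.Agent.Lib.MP_f5c99b_lc
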