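import Pool.Agent.Lib.MP_f5c99b_lc.Core

/-! Definability calculus in a model of `ZF`: more arguments. -/

namespace Pool.Agent.Lib.MP_f5c99b_lc

universe u

variable {M : Type u} [Membership M M]

theorem D6 {P : M → M → M → M → M → M → Prop}
    (h : D (fun v => P (v 0) (v 1) (v 2) (v 3) (v 4) (v 5)))
    (t1 t2 t3 t4 t5 t6 : (ℕ → M) → M) [h1 : DT t1] [h2 : DT t2] [h3 : DT t3] [h4 : DT t4] [h5 : DT t5] [h6 : DT t6] :
    D (fun v => P (t1 v) (t2 v) (t3 v) (t4 v) (t5 v) (t6 v)) := by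
  have k0 : D (fun v => P (v 5) (v 4) (v 3) (v 2) (v 1) (v 0)) := h.perm (fun i => 5 - i)
  have k1 : D (fun v => P (v 4) (v 3) (v 2) (v 1) (v 0) (t6 (fun i => v (i + 5)))) :=
    D.subst (Q := fun v x => P (v 4) (v 3) (v 2) (v 1) (v 0) x) k0 (h6.shift 5)
  have k2 : D (fun v => P (v 3) (v 2) (v 1) (v 0) (t5 (fun i => v (i + 4))) (t6 (fun i => v (i + 4)))) :=
    D.subst (Q := fun v x => P (v 3) (v 2) (v 1) (v 0) x (t6 (fun i => v (i + 4)))) k1 (h5.shift 4)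
  have k3 : D (fun v => P (v 2) (v 1) (v 0) (t4 (fun i => v (i + 3))) (t5 (fun i => v (i + 3))) (t6 (fun i => v (i + 3)))) :=
    D.subst (Q := fun v x => P (v 2) (v 1) (v 0) x (t5 (fun i => v (i + 3))) (t6 (fun i => v (i + 3)))) k2 (h4.shift 3)
  have k4 : D (fun v => P (v 1) (v 0) (t3 (fun i => v (i + 2))) (t4 (fun i => v (i + 2))) (t5 (fun i => v (i + 2))) (t6 (fun i => v (i + 2)))) :=
    D.subst (Q := fun v x => P (v 1) (v 0) x (t4 (fun i => v (i + 2))) (t5 (fun i => v (i + 2))) (t6 (fun i => v (i + 2)))) k3 (h3.shift 2)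
  have k5 : D (fun v => P (v 0) (t2 (fun i => v (i + 1))) (t3 (fun i => v (i + 1))) (t4 (fun i => v (i + 1))) (t5 (fun i => v (i + 1))) (t6 (fun i => v (i + 1)))) :=
    D.subst (Q := fun v x => P (v 0) x (t3 (fun i => v (i + 1))) (t4 (fun i => v (i + 1))) (t5 (fun i => v (i + 1))) (t6 (fun i => v (i + 1)))) k4 (h2.shift 1)
  exact D.subst (Q := fun v x => P x (t2 v) (t3 v) (t4 v) (t5 v) (t6 v)) k5 h1

theorem D7 {P : M → M → M → M → M → M → M → Prop}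
    (h : D (fun v => P (v 0) (v 1) (v 2) (v 3) (v 4) (v 5) (v 6)))
    (t1 t2 t3 t4 t5 t6 t7 : (ℕ → M) → M) [h1 : DT t1] [h2 : DT t2] [h3 : DT t3] [h4 : DT t4] [h5 : DT t5] [h6 : DT t6] [h7 : DT t7] :
    D (fun v => P (t1 v) (t2 v) (t3 v) (t4 v) (t5 v) (t6 v) (t7 v)) := by
  have k0 : D (fun v => P (v 6) (v 5) (v 4) (v 3) (v 2) (v 1) (v 0)) := h.perm (fun i => 6 - i)
  have k1 : D (fun v => P (v 5) (v 4) (v 3) (v 2) (v 1) (v 0) (t7 (fun i => v (i + 6)))) :=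
    D.subst (Q := fun v x => P (v 5) (v 4) (v 3) (v 2) (v 1) (v 0) x) k0 (h7.shift 6)
  have k2 : D (fun v => P (v 4) (v 3) (v 2) (v 1) (v 0) (t6 (fun i => v (i + 5))) (t7 (fun i => v (i + 5)))) :=
    D.subst (Q := fun v x => P (v 4) (v 3) (v 2) (v 1) (v 0) x (t7 (fun i => v (i + 5)))) k1 (h6.shift 5)
  have k3 : D (fun v => P (v 3) (v 2) (v 1) (v 0) (t5 (fun i => v (i + 4))) (t6 (fun i => v (i + 4))) (t7 (fun i => v (i + 4)))) :=
    D.subst (Q := fun v x => P (v 3) (v 2) (v 1) (v 0) x (t6 (fun i => v (i + 4))) (t7 (fun i => v (i + 4)))) k2 (h5.shift 4)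
  have k4 : D (fun v => P (v 2) (v 1) (v 0) (t4 (fun i => v (i + 3))) (t5 (fun i => v (i + 3))) (t6 (fun i => v (i + 3))) (t7 (fun i => v (i + 3)))) :=
    D.subst (Q := fun v x => P (v 2) (v 1) (v 0) x (t5 (fun i => v (i + 3))) (t6 (fun i => v (i + 3))) (t7 (fun i => v (i + 3)))) k3 (h4.shift 3)
  have k5 : D (fun v => P (v 1) (v 0) (t3 (fun i => v (i + 2))) (t4 (fun i => v (i + 2))) (t5 (fun i => v (i + 2))) (t6 (fun i => v (i + 2))) (t7 (fun i => v (i + 2)))) :=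
    D.subst (Q := fun v x => P (v 1) (v 0) x (t4 (fun i => v (i + 2))) (t5 (fun i => v (i + 2))) (t6 (fun i => v (i + 2))) (t7 (fun i => v (i + 2)))) k4 (h3.shift 2)
  have k6 : D (fun v => P (v 0) (t2 (fun i => v (i + 1))) (t3 (fun i => v (i + 1))) (t4 (fun i => v (i + 1))) (t5 (fun i => v (i + 1))) (t6 (fun i => v (i + 1))) (t7 (fun i => v (i + 1)))) :=
    D.subst (Q := fun v x => P (v 0) x (t3 (fun i => v (i + 1))) (t4 (fun i => v (i + 1))) (t5 (fun i => v (i + 1))) (t6 (fun i => v (i + 1))) (t7 (fun i => v (i + 1)))) k5 (h2.shift 1)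
  exact D.subst (Q := fun v x => P x (t2 v) (t3 v) (t4 v) (t5 v) (t6 v) (t7 v)) k6 h1

theorem D8 {P : M → M → M → M → M → M → M → M → Prop}
    (h : D (fun v => P (v 0) (v 1) (v 2) (v 3) (v 4) (v 5) (v 6) (v 7)))
    (t1 t2 t3 t4 t5 t6 t7 t8 : (ℕ → M) → M) [h1 : DT t1] [h2 : DT t2] [h3 : DT t3] [h4 : DT t4] [h5 : DT t5] [h6 : DT t6] [h7 : DT t7] [h8 : DT t8] :
    D (fun v => P (t1 v) (t2 v) (t3 v) (t4 v) (t5 v) (t6 v) (t7 v) (t8 v)) := by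
  have k0 : D (fun v => P (v 7) (v 6) (v 5) (v 4) (v 3) (v 2) (v 1) (v 0)) := h.perm (fun i => 7 - i)
  have k1 : D (fun v => P (v 6) (v 5) (v 4) (v 3) (v 2) (v 1) (v 0) (t8 (fun i => v (i + 7)))) :=
    D.subst (Q := fun v x => P (v 6) (v 5) (v 4) (v 3) (v 2) (v 1) (v 0) x) k0 (h8.shift 7)
  have k2 : D (fun v => P (v 5) (v 4) (v 3) (v 2) (v 1) (v 0) (t7 (fun i => v (i + 6))) (t8 (fun i => v (i + 6)))) :=
    D.subst (Q := fun v x => P (v 5) (v 4) (v 3) (v 2) (v 1) (v 0) x (t8 (fun i => v (i + 6)))) k1 (h7.shift 6)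
  have k3 : D (fun v => P (v 4) (v 3) (v 2) (v 1) (v 0) (t6 (fun i => v (i + 5))) (t7 (fun i => v (i + 5))) (t8 (fun i => v (i + 5)))) :=
    D.subst (Q := fun v x => P (v 4) (v 3) (v 2) (v 1) (v 0) x (t7 (fun i => v (i + 5))) (t8 (fun i => v (i + 5)))) k2 (h6.shift 5)
  have k4 : D (fun v => P (v 3) (v 2) (v 1) (v 0) (t5 (fun i => v (i + 4))) (t6 (fun i => v (i + 4))) (t7 (fun i => v (i + 4))) (t8 (fun i => v (i + 4)))) :=
    D.subst (Q := fun v x => P (v 3) (v 2) (v 1) (v 0) x (t6 (fun i => v (i + 4))) (t7 (fun i => v (i + 4))) (t8 (fun i => v (i + 4)))) k3 (h5.shift 4)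
  have k5 : D (fun v => P (v 2) (v 1) (v 0) (t4 (fun i => v (i + 3))) (t5 (fun i => v (i + 3))) (t6 (fun i => v (i + 3))) (t7 (fun i => v (i + 3))) (t8 (fun i => v (i + 3)))) :=
    D.subst (Q := fun v x => P (v 2) (v 1) (v 0) x (t5 (fun i => v (i + 3))) (t6 (fun i => v (i + 3))) (t7 (fun i => v (i + 3))) (t8 (fun i => v (i + 3)))) k4 (h4.shift 3)
  have k6 : D (fun v => P (v 1) (v 0) (t3 (fun i => v (i + 2))) (t4 (fun i => v (i + 2))) (t5 (fun i => v (i + 2))) (t6 (fun i => v (i + 2))) (t7 (fun i => v (i + 2))) (t8 (fun i => v (i + 2)))) :=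
    D.subst (Q := fun v x => P (v 1) (v 0) x (t4 (fun i => v (i + 2))) (t5 (fun i => v (i + 2))) (t6 (fun i => v (i + 2))) (t7 (fun i => v (i + 2))) (t8 (fun i => v (i + 2)))) k5 (h3.shift 2)
  have k7 : D (fun v => P (v 0) (t2 (fun i => v (i + 1))) (t3 (fun i => v (i + 1))) (t4 (fun i => v (i + 1))) (t5 (fun i => v (i + 1))) (t6 (fun i => v (i + 1))) (t7 (fun i => v (i + 1))) (t8 (fun i => v (i + 1)))) :=
    D.subst (Q := fun v x => P (v 0) x (t3 (fun i => v (i + 1))) (t4 (fun i => v (i + 1))) (t5 (fun i => v (i + 1))) (t6 (fun i => v (i + 1))) (t7 (fun i => v (i + 1))) (t8 (fun i => v (i + 1)))) k6 (h2.shift 1)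
  exact D.subst (Q := fun v x => P x (t2 v) (t3 v) (t4 v) (t5 v) (t6 v) (t7 v) (t8 v)) k7 h1

theorem D9 {P : M → M → M → M → M → M → M → M → M → Prop}
    (h : D (fun v => P (v 0) (v 1) (v 2) (v 3) (v 4) (v 5) (v 6) (v 7) (v 8)))
    (t1 t2 t3 t4 t5 t6 t7 t8 t9 : (ℕ → M) → M) [h1 : DT t1] [h2 : DT t2] [h3 : DT t3] [h4 : DT t4] [h5 : DT t5] [h6 : DT t6] [h7 : DT t7] [h8 : DT t8] [h9 : DT t9] :
    D (fun v => P (t1 v) (t2 v) (t3 v) (t4 v) (t5 v) (t6 v) (t7 v) (t8 v) (t9 v)) := by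
  have k0 : D (fun v => P (v 8) (v 7) (v 6) (v 5) (v 4) (v 3) (v 2) (v 1) (v 0)) := h.perm (fun i => 8 - i)
  have k1 : D (fun v => P (v 7) (v 6) (v 5) (v 4) (v 3) (v 2) (v 1) (v 0) (t9 (fun i => v (i + 8)))) :=
    D.subst (Q := fun v x => P (v 7) (v 6) (v 5) (v 4) (v 3) (v 2) (v 1) (v 0) x) k0 (h9.shift 8)
  have k2 : D (fun v => P (v 6) (v 5) (v 4) (v 3) (v 2) (v 1) (v 0) (t8 (fun i => v (i + 7))) (t9 (fun i => v (i + 7)))) :=
    D.subst (Q := fun v x => P (v 6) (v 5) (v 4) (v 3) (v 2) (v 1) (v 0) x (t9 (fun i => v (i + 7)))) k1 (h8.shift 7)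
  have k3 : D (fun v => P (v 5) (v 4) (v 3) (v 2) (v 1) (v 0) (t7 (fun i => v (i + 6))) (t8 (fun i => v (i + 6))) (t9 (fun i => v (i + 6)))) :=
    D.subst (Q := fun v x => P (v 5) (v 4) (v 3) (v 2) (v 1) (v 0) x (t8 (fun i => v (i + 6))) (t9 (fun i => v (i + 6)))) k2 (h7.shift 6)
  have k4 : D (fun v => P (v 4) (v 3) (v 2) (v 1) (v 0) (t6 (fun i => v (i + 5))) (t7 (fun i => v (i + 5))) (t8 (fun i => v (i + 5))) (t9 (fun i => v (i + 5)))) :=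
    D.subst (Q := fun v x => P (v 4) (v 3) (v 2) (v 1) (v 0) x (t7 (fun i => v (i + 5))) (t8 (fun i => v (i + 5))) (t9 (fun i => v (i + 5)))) k3 (h6.shift 5)
  have k5 : D (fun v => P (v 3) (v 2) (v 1) (v 0) (t5 (fun i => v (i + 4))) (t6 (fun i => v (i + 4))) (t7 (fun i => v (i + 4))) (t8 (fun i => v (i + 4))) (t9 (fun i => v (i + 4)))) :=
    D.subst (Q := fun v x => P (v 3) (v 2) (v 1) (v 0) x (t6 (fun i => v (i + 4))) (t7 (fun i => v (i + 4))) (t8 (fun i => v (i + 4))) (t9 (fun i => v (i + 4)))) k4 (h5.shift 4)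
  have k6 : D (fun v => P (v 2) (v 1) (v 0) (t4 (fun i => v (i + 3))) (t5 (fun i => v (i + 3))) (t6 (fun i => v (i + 3))) (t7 (fun i => v (i + 3))) (t8 (fun i => v (i + 3))) (t9 (fun i => v (i + 3)))) :=
    D.subst (Q := fun v x => P (v 2) (v 1) (v 0) x (t5 (fun i => v (i + 3))) (t6 (fun i => v (i + 3))) (t7 (fun i => v (i + 3))) (t8 (fun i => v (i + 3))) (t9 (fun i => v (i + 3)))) k5 (h4.shift 3)
  have k7 : D (fun v => P (v 1) (v 0) (t3 (fun i => v (i + 2))) (t4 (fun i => v (i + 2))) (t5 (fun i => v (i + 2))) (t6 (fun i => v (i + 2))) (t7 (fun i => v (i + 2))) (t8 (fun i => v (i + 2))) (t9 (fun i => v (i + 2)))) :=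
    D.subst (Q := fun v x => P (v 1) (v 0) x (t4 (fun i => v (i + 2))) (t5 (fun i => v (i + 2))) (t6 (fun i => v (i + 2))) (t7 (fun i => v (i + 2))) (t8 (fun i => v (i + 2))) (t9 (fun i => v (i + 2)))) k6 (h3.shift 2)
  have k8 : D (fun v => P (v 0) (t2 (fun i => v (i + 1))) (t3 (fun i => v (i + 1))) (t4 (fun i => v (i + 1))) (t5 (fun i => v (i + 1))) (t6 (fun i => v (i + 1))) (t7 (fun i => v (i + 1))) (t8 (fun i => v (i + 1))) (t9 (fun i => v (i + 1)))) :=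
    D.subst (Q := fun v x => P (v 0) x (t3 (fun i => v (i + 1))) (t4 (fun i => v (i + 1))) (t5 (fun i => v (i + 1))) (t6 (fun i => v (i + 1))) (t7 (fun i => v (i + 1))) (t8 (fun i => v (i + 1))) (t9 (fun i => v (i + 1)))) k7 (h2.shift 1)
  exact D.subst (Q := fun v x => P x (t2 v) (t3 v) (t4 v) (t5 v) (t6 v) (t7 v) (t8 v) (t9 v)) k8 h1

theorem DT4 {f : M → M → M → M → M}
    (h : DT (fun v => f (v 0) (v 1) (v 2) (v 3)))
    (t1 t2 t3 t4 : (ℕ → M) → M) [h1 : DT t1] [h2 : DT t2] [h3 : DT t3] [h4 : DT t4] :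
    DT (fun v => f (t1 v) (t2 v) (t3 v) (t4 v)) := by
  have k0 : D (fun v : ℕ → M => v 0 = f (v 1) (v 2) (v 3) (v 4)) := h.out
  exact ⟨(D5 (P := fun x y1 y2 y3 y4 => x = f y1 y2 y3 y4) k0 (fun v => v 0)
    (fun v => t1 (fun i => v (i + 1))) (fun v => t2 (fun i => v (i + 1))) (fun v => t3 (fun i => v (i + 1))) (fun v => t4 (fun i => v (i + 1)))
    (h2 := h1.shift 1) (h3 := h2.shift 1) (h4 := h3.shift 1) (h5 := h4.shift 1))⟩

theorem DT5 {f : M → M → M → M → M → M}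
    (h : DT (fun v => f (v 0) (v 1) (v 2) (v 3) (v 4)))
    (t1 t2 t3 t4 t5 : (ℕ → M) → M) [h1 : DT t1] [h2 : DT t2] [h3 : DT t3] [h4 : DT t4] [h5 : DT t5] :
    DT (fun v => f (t1 v) (t2 v) (t3 v) (t4 v) (t5 v)) := by
  have k0 : D (fun v : ℕ → M => v 0 = f (v 1) (v 2) (v 3) (v 4) (v 5)) := h.out
  exact ⟨(D6 (P := fun x y1 y2 y3 y4 y5 => x = f y1 y2 y3 y4 y5) k0 (fun v => v 0)
    (fun v => t1 (fun i => v (i + 1))) (fun v => t2 (fun i => v (i + 1))) (fun v => t3 (fun i => v (i + 1))) (fun v => t4 (fun i => v (i + 1))) (fun v => t5 (fun i => v (i + 1)))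
    (h2 := h1.shift 1) (h3 := h2.shift 1) (h4 := h3.shift 1) (h5 := h4.shift 1) (h6 := h5.shift 1))⟩

theorem DT6 {f : M → M → M → M → M → M → M}
    (h : DT (fun v => f (v 0) (v 1) (v 2) (v 3) (v 4) (v 5)))
    (t1 t2 t3 t4 t5 t6 : (ℕ → M) → M) [h1 : DT t1] [h2 : DT t2] [h3 : DT t3] [h4 : DT t4] [h5 : DT t5] [h6 : DT t6] :
    DT (fun v => f (t1 v) (t2 v) (t3 v) (t4 v) (t5 v) (t6 v)) := by
  have k0 : D (fun v : ℕ → M => v 0 = f (v 1) (v 2) (v 3) (v 4) (v 5) (v 6)) := h.out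
  exact ⟨(D7 (P := fun x y1 y2 y3 y4 y5 y6 => x = f y1 y2 y3 y4 y5 y6) k0 (fun v => v 0)
    (fun v => t1 (fun i => v (i + 1))) (fun v => t2 (fun i => v (i + 1))) (fun v => t3 (fun i => v (i + 1))) (fun v => t4 (fun i => v (i + 1))) (fun v => t5 (fun i => v (i + 1))) (fun v => t6 (fun i => v (i + 1)))
    (h2 := h1.shift 1) (h3 := h2.shift 1) (h4 := h3.shift 1) (h5 := h4.shift 1) (h6 := h5.shift 1) (h7 := h6.shift 1))⟩

theorem DT7 {f : M → M → M → M → M → M → M → M}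
    (h : DT (fun v => f (v 0) (v 1) (v 2) (v 3) (v 4) (v 5) (v 6)))
    (t1 t2 t3 t4 t5 t6 t7 : (ℕ → M) → M) [h1 : DT t1] [h2 : DT t2] [h3 : DT t3] [h4 : DT t4] [h5 : DT t5] [h6 : DT t6] [h7 : DT t7] :
    DT (fun v => f (t1 v) (t2 v) (t3 v) (t4 v) (t5 v) (t6 v) (t7 v)) := by
  have k0 : D (fun v : ℕ → M => v 0 = f (v 1) (v 2) (v 3) (v 4) (v 5) (v 6) (v 7)) := h.out
  exact ⟨(D8 (P := fun x y1 y2 y3 y4 y5 y6 y7 => x = f y1 y2 y3 y4 y5 y6 y7) k0 (fun v => v 0)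
    (fun v => t1 (fun i => v (i + 1))) (fun v => t2 (fun i => v (i + 1))) (fun v => t3 (fun i => v (i + 1))) (fun v => t4 (fun i => v (i + 1))) (fun v => t5 (fun i => v (i + 1))) (fun v => t6 (fun i => v (i + 1))) (fun v => t7 (fun i => v (i + 1)))
    (h2 := h1.shift 1) (h3 := h2.shift 1) (h4 := h3.shift 1) (h5 := h4.shift 1) (h6 := h5.shift 1) (h7 := h6.shift 1) (h8 := h7.shift 1))⟩

theorem DT8 {f : M → M → M → M → M → M → M → M → M}
    (h : DT (fun v => f (v 0) (v 1) (v 2) (v 3) (v 4) (v 5) (v 6) (v 7)))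
    (t1 t2 t3 t4 t5 t6 t7 t8 : (ℕ → M) → M) [h1 : DT t1] [h2 : DT t2] [h3 : DT t3] [h4 : DT t4] [h5 : DT t5] [h6 : DT t6] [h7 : DT t7] [h8 : DT t8] :
    DT (fun v => f (t1 v) (t2 v) (t3 v) (t4 v) (t5 v) (t6 v) (t7 v) (t8 v)) := by
  have k0 : D (fun v : ℕ → M => v 0 = f (v 1) (v 2) (v 3) (v 4) (v 5) (v 6) (v 7) (v 8)) := h.out
  exact ⟨(D9 (P := fun x y1 y2 y3 y4 y5 y6 y7 y8 => x = f y1 y2 y3 y4 y5 y6 y7 y8) k0 (fun v => v 0)
    (fun v => t1 (fun i => v (i + 1))) (fun v => t2 (fun i => v (i + 1))) (fun v => t3 (fun i => v (i + 1))) (fun v => t4 (fun i => v (i + 1))) (fun v => t5 (fun i => v (i + 1))) (fun v => t6 (fun i => v (i + 1))) (fun v => t7 (fun i => v (i + 1))) (fun v => t8 (fun i => v (i + 1)))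
    (h2 := h1.shift 1) (h3 := h2.shift 1) (h4 := h3.shift 1) (h5 := h4.shift 1) (h6 := h5.shift 1) (h7 := h6.shift 1) (h8 := h7.shift 1) (h9 := h8.shift 1))⟩

end Pool.Agent.Lib.MP_f5c99b_lc
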