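import Pool.Agent.Lib.MP_7b07e0_lc.Data

/-! The Stone space of a table. (ROW T1) -/

namespace Pool.Agent.Lib.MP_f5c99b_lc

universe u

variable {M : Type u} [Membership M M] [hZF : Fact (IsModelOfZF M)]

theorem mem_St {c h : M} : h ∈ St c ↔ Sub h (fst c) ∧ UFilt c h := by
  rw [St, mem_sep, mem_pow']

theorem mem_bas {c i h : M} : h ∈ bas c i ↔ h ∈ St c ∧ i ∈ h := mem_sep

theorem mem_BS {c u : M} : u ∈ BS c ↔ ∃ i, NZ c i ∧ u = bas c i := by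
  rw [BS, mem_img]
  constructor
  · rintro ⟨i, hi, rfl⟩
    exact ⟨i, (mem_sep.mp hi).2, rfl⟩
  · rintro ⟨i, hi, rfl⟩
    exact ⟨i, mem_sep.mpr ⟨hi.1, hi⟩, rfl⟩

theorem T1_up {c i j : M} (hj : j ∈ fst c) (h : LE c i j) : Sub (bas c i) (bas c j) := by
  intro x hx
  obtain ⟨h1, h2⟩ := mem_bas.mp hx
  exact mem_bas.mpr ⟨h1, (mem_St.mp h1).2.2.2.1 i j h2 hj h⟩

theorem T1_nz {c h i : M} (hh : h ∈ St c) (hi : i ∈ h) : NZ c i := (mem_St.mp hh).2.2.1 i hi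

/-- the order of a table is inclusion of basic sets -/
theorem TabOK.le_iff {c i j : M} (hc : TabOK c) (hi : NZ c i) (hj : j ∈ fst c) :
    LE c i j ↔ Sub (bas c i) (bas c j) :=
  ⟨fun h => T1_up hj h, fun h => hc.2.2.2.2.2 i j hi hj h⟩

theorem TabOK.le_trans {c i j l : M} (hc : TabOK c) (hi : i ∈ fst c) (hj : j ∈ fst c)
    (hl : l ∈ fst c) (h : LE c i j) (h' : LE c j l) : LE c i l := by
  by_cases hn : NZ c i
  · exact (hc.le_iff hn hl).mpr ((T1_up hj h).trans (T1_up hl h'))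
  · by_contra h2
    exact hn ⟨hi, l, hl, h2⟩

/-- `i` and `j` are compatible iff some ultrafilter contains both -/
theorem TabOK.cmp_iff {c i j : M} (hc : TabOK c) (hi : i ∈ fst c) (hj : j ∈ fst c) :
    Cmp c i j ↔ ∃ h, h ∈ St c ∧ i ∈ h ∧ j ∈ h := by
  constructor
  · rintro ⟨l, hl, h1, h2⟩
    obtain ⟨h, hh, hlh⟩ := hc.2.2.2.2.1 l hl
    have hu := (mem_St.mp hh).2.2.2.1
    exact ⟨h, hh, hu l i hlh hi h1, hu l j hlh hj h2⟩
  · rintro ⟨h, hh, h1, h2⟩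
    obtain ⟨l, hl, h3, h4⟩ := (mem_St.mp hh).2.2.2.2.1 i j h1 h2
    exact ⟨l, T1_nz hh hl, h3, h4⟩

theorem T1_bas_mem {c i : M} (hi : NZ c i) : bas c i ∈ BS c := mem_BS.mpr ⟨i, hi, rfl⟩

theorem T1_base {c : M} (hc : TabOK c) : Base (St c) (BS c) where
  sub := by
    intro u hu
    obtain ⟨i, _, rfl⟩ := mem_BS.mp hu
    intro x hx
    exact (mem_bas.mp hx).1
  ne := by
    intro u hu
    obtain ⟨i, hi, rfl⟩ := mem_BS.mp hu
    obtain ⟨h, hh, hih⟩ := hc.2.2.2.2.1 i hi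
    exact ⟨h, mem_bas.mpr ⟨hh, hih⟩⟩
  ctbl := by
    have h1 : Ctbl (fst c) := (mem_om1.mp hc.1).2
    have h2 : Ctbl (sep (fst c) (fun i => NZ c i)) := h1.sub sep_sub
    exact h2.img (fun i => bas c i)
  cover := by
    intro x hx
    obtain ⟨i, hi⟩ := (mem_St.mp hx).2.1
    exact ⟨bas c i, T1_bas_mem (T1_nz hx hi), mem_bas.mpr ⟨hx, hi⟩⟩
  base := by
    intro u v x hu hv hxu hxv
    obtain ⟨i, hi, rfl⟩ := mem_BS.mp hu
    obtain ⟨j, hj, rfl⟩ := mem_BS.mp hv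
    obtain ⟨hx, h1⟩ := mem_bas.mp hxu
    obtain ⟨_, h2⟩ := mem_bas.mp hxv
    obtain ⟨l, hl, h3, h4⟩ := (mem_St.mp hx).2.2.2.2.1 i j h1 h2
    exact ⟨bas c l, T1_bas_mem (T1_nz hx hl), mem_bas.mpr ⟨hx, hl⟩, T1_up hi.1 h3, T1_up hj.1 h4⟩

/-- the small sets of order `n`: the basic sets of the elements below or incompatible with `e n` -/
noncomputable def T1_S (c e : M) : M := lam (omega M) (fun n => sep (BS c) (fun u =>
  ∃ i, NZ c i ∧ u = bas c i ∧ (LE c i (ap e n) ∨ ¬ Cmp c i (ap e n))))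

theorem T1_mem_S {c e n u : M} (hn : n ∈ omega M) : u ∈ ap (T1_S c e) n ↔
    ∃ i, NZ c i ∧ u = bas c i ∧ (LE c i (ap e n) ∨ ¬ Cmp c i (ap e n)) := by
  rw [T1_S, ap_lam' hn, mem_sep]
  constructor
  · exact fun h => h.2
  · intro h
    refine ⟨?_, h⟩
    obtain ⟨i, hi, rfl, _⟩ := h
    exact T1_bas_mem hi

theorem T1_not_cmp {c i j l : M} (hc : TabOK c) (hi : i ∈ fst c) (hj : j ∈ fst c)
    (hl : l ∈ fst c) (h : LE c l j) (h' : ¬ Cmp c i j) : ¬ Cmp c l i := by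
  rintro ⟨m, hm, h1, h2⟩
  exact h' ⟨m, hm, h2, hc.le_trans hm.1 hl hj h1 h⟩

theorem T1_cmp_symm {c i j : M} (h : Cmp c i j) : Cmp c j i := by
  obtain ⟨l, hl, h1, h2⟩ := h
  exact ⟨l, hl, h2, h1⟩

theorem T1_shrink {c e : M} (hc : TabOK c) (he : Surj e (omega M) (fst c)) :
    Shrink (St c) (BS c) (T1_S c e) where
  fn := by
    refine isFun_lam' fun n _ => ?_
    exact mem_pow'.mpr sep_sub
  small := by
    intro n u x hn hu hxu
    obtain ⟨i, hi, rfl⟩ := mem_BS.mp hu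
    obtain ⟨hx, hix⟩ := mem_bas.mp hxu
    have hen : ap e n ∈ fst c := he.1.ap_mem hn
    have hU := (mem_St.mp hx).2
    by_cases h : ap e n ∈ x
    · obtain ⟨l, hl, h1, h2⟩ := hU.2.2.2.1 i (ap e n) hix h
      exact ⟨bas c l, (T1_mem_S hn).mpr ⟨l, T1_nz hx hl, rfl, Or.inl h2⟩, mem_bas.mpr ⟨hx, hl⟩,
        T1_up hi.1 h1⟩
    · obtain ⟨j, hj, hij⟩ := hU.2.2.2.2 (ap e n) hen h
      obtain ⟨l, hl, h1, h2⟩ := hU.2.2.2.1 i j hix hj
      refine ⟨bas c l, (T1_mem_S hn).mpr ⟨l, T1_nz hx hl, rfl, Or.inr ?_⟩, mem_bas.mpr ⟨hx, hl⟩,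
        T1_up hi.1 h1⟩
      exact T1_not_cmp hc hen (T1_nz hx hj).1 (T1_nz hx hl).1 h2 hij
  sep := by
    intro f x y hf hS hxy
    have key : ∀ x y : M, (∀ n, n ∈ omega M → x ∈ ap f n ∧ y ∈ ap f n) → Sub x y := by
      intro x y hxy j hj
      have hx0 : x ∈ St c := by
        obtain ⟨i, _, h0⟩ := mem_BS.mp (hf.ap_mem emp_mem_omega)
        have h1 := (hxy emp emp_mem_omega).1
        rw [h0] at h1
        exact (mem_bas.mp h1).1
      have hjd : j ∈ fst c := (T1_nz hx0 hj).1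
      obtain ⟨n, hn, hnj⟩ := he.2 j hjd
      obtain ⟨i, hi, h0, h1⟩ := (T1_mem_S hn).mp (hS n hn)
      obtain ⟨h2, h3⟩ := hxy n hn
      rw [h0] at h2 h3
      obtain ⟨hx, hix⟩ := mem_bas.mp h2
      obtain ⟨hy, hiy⟩ := mem_bas.mp h3
      rw [hnj] at h1
      rcases h1 with h1 | h1
      · exact (mem_St.mp hy).2.2.2.1 i j hiy hjd h1
      · exact absurd ((hc.cmp_iff hi.1 hjd).mpr ⟨x, hx, hix, hj⟩) h1
    exact Sub.antisymm (key x y hxy) (key y x fun n hn => ⟨(hxy n hn).2, (hxy n hn).1⟩)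

theorem T1_anti {f : M} (h : ∀ n, n ∈ omega M → Sub (ap f (suc n)) (ap f n)) :
    ∀ n, n ∈ omega M → ∀ m, m ∈ n → Sub (ap f n) (ap f m) := by
  refine omega_induction (fun n => ∀ m, m ∈ n → Sub (ap f n) (ap f m)) ?_ ?_
  · intro m hm
    exact absurd hm (not_mem_emp m)
  · intro n hn ih m hm
    rcases mem_suc.mp hm with hm | rfl
    · exact (h n hn).trans (ih m hm)
    · exact h _ hn

theorem T1_lower {f : M} (h : ∀ n, n ∈ omega M → Sub (ap f (suc n)) (ap f n)) {m n : M}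
    (hm : m ∈ omega M) (hn : n ∈ omega M) :
    ∃ N, N ∈ omega M ∧ Sub (ap f N) (ap f m) ∧ Sub (ap f N) (ap f n) := by
  rcases omega_tri hm hn with h1 | rfl | h1
  · exact ⟨n, hn, T1_anti h n hn m h1, Sub.refl _⟩
  · exact ⟨m, hm, Sub.refl _, Sub.refl _⟩
  · exact ⟨m, hm, Sub.refl _, T1_anti h m hm n h1⟩

/-- the filter generated by a decreasing sequence of basic sets -/
noncomputable def T1_h (c f : M) : M :=
  sep (fst c) (fun j => ∃ n, n ∈ omega M ∧ Sub (ap f n) (bas c j))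

theorem T1_mem_h {c f j : M} : j ∈ T1_h c f ↔
    j ∈ fst c ∧ ∃ n, n ∈ omega M ∧ Sub (ap f n) (bas c j) := mem_sep

theorem T1_compl {c e : M} (hc : TabOK c) (he : Surj e (omega M) (fst c)) :
    Compl (BS c) (T1_S c e) := by
  intro f hf hS hd
  have hi : ∀ n, n ∈ omega M → ∃ i, NZ c i ∧ ap f n = bas c i ∧
      (LE c i (ap e n) ∨ ¬ Cmp c i (ap e n)) := fun n hn => (T1_mem_S hn).mp (hS n hn)
  have hmem : ∀ n, n ∈ omega M → ∀ i, NZ c i → ap f n = bas c i → i ∈ T1_h c f := by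
    intro n hn i hi h0
    refine T1_mem_h.mpr ⟨hi.1, n, hn, ?_⟩
    rw [h0]
    exact Sub.refl _
  have hU : T1_h c f ∈ St c := by
    refine mem_St.mpr ⟨sep_sub, ?_, ?_, ?_, ?_, ?_⟩
    · obtain ⟨i, h1, h2, _⟩ := hi emp emp_mem_omega
      exact ⟨i, hmem emp emp_mem_omega i h1 h2⟩
    · intro j hj
      obtain ⟨_, n, hn, h1⟩ := T1_mem_h.mp hj
      obtain ⟨i, h2, h3, _⟩ := hi n hn
      obtain ⟨x, hx, hix⟩ := hc.2.2.2.2.1 i h2
      have h4 : x ∈ ap f n := by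
        rw [h3]
        exact mem_bas.mpr ⟨hx, hix⟩
      exact T1_nz hx (mem_bas.mp (h1 x h4)).2
    · intro j j' hj hj' hle
      obtain ⟨_, n, hn, h1⟩ := T1_mem_h.mp hj
      exact T1_mem_h.mpr ⟨hj', n, hn, h1.trans (T1_up hj' hle)⟩
    · intro j j' hj hj'
      obtain ⟨hjc, n, hn, h1⟩ := T1_mem_h.mp hj
      obtain ⟨hjc', m, hm, h1'⟩ := T1_mem_h.mp hj'
      obtain ⟨N, hN, h2, h3⟩ := T1_lower hd hn hm
      obtain ⟨i, h4, h5, _⟩ := hi N hN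
      rw [h5] at h2 h3
      exact ⟨i, hmem N hN i h4 h5, (hc.le_iff h4 hjc).mpr (h2.trans h1),
        (hc.le_iff h4 hjc').mpr (h3.trans h1')⟩
    · intro j hj hjn
      obtain ⟨n, hn, hnj⟩ := he.2 j hj
      obtain ⟨i, h1, h2, h3⟩ := hi n hn
      rw [hnj] at h3
      refine ⟨i, hmem n hn i h1 h2, fun h4 => ?_⟩
      rcases h3 with h3 | h3
      · refine hjn (T1_mem_h.mpr ⟨hj, n, hn, ?_⟩)
        rw [h2]
        exact T1_up hj h3
      · exact h3 (T1_cmp_symm h4)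
  refine ⟨T1_h c f, fun n hn => ?_⟩
  obtain ⟨i, h1, h2, _⟩ := hi n hn
  rw [h2]
  exact mem_bas.mpr ⟨hU, hmem n hn i h1 h2⟩

/-- The Stone space of a table is complete.
`S n` = the basic sets of `i` with `i ≤ e_n` or `i` incompatible with `e_n`, `e : ω → δ` onto. -/
theorem TabOK.csp (hDC : DC M) {c : M} (hc : TabOK c) : CSp (St c) (BS c) := by
  obtain ⟨e, he⟩ := (mem_om1.mp hc.1).2.surj hc.2.1
  exact { toBase := T1_base hc, shrink := ⟨T1_S c e, T1_shrink hc he, T1_compl hc he⟩ }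

theorem TabOK.ne {c : M} (hc : TabOK c) (h : ∃ i, NZ c i) : ∃ u, u ∈ BS c := by
  obtain ⟨i, hi⟩ := h
  exact ⟨_, mem_BS.mpr ⟨i, hi, rfl⟩⟩

end Pool.Agent.Lib.MP_f5c99b_lc
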