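import Pool.Agent.Lib.MP_7b07e0_lc.Rec
import Pool.Agent.Lib.MP_7b07e0_lc.Stone

/-! The table of a canonical sequence. (ROWS L1, L2, L3) -/

namespace Pool.Agent.Lib.MP_f5c99b_lc

universe u

variable {M : Type u} [Membership M M] [hZF : Fact (IsModelOfZF M)] {d : Dat M}

theorem L1_fam (hd : d.Good) {J : M} (hJ : Ctbl J) (t : M → M) [ht : DT (fun v => t (v 0))]
    (h : ∀ i, i ∈ J → t i ∈ d.I) : sU (img J t) ∈ d.I := by
  by_cases hne : ∃ i, i ∈ J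
  · obtain ⟨f, hf, hs⟩ := hJ.surj hne
    have ht' : DT (fun v => t (ap f (v 0))) := DT1 (f := t) ht (fun v => ap f (v 0))
    have hfun : IsFun (lam (omega M) (fun n => t (ap f n))) (omega M) d.I :=
      isFun_lam fun n hn => h _ (hf.ap_mem hn)
    refine hd.I_sub _ _ (hd.I_un _ hfun) ?_
    intro x hx
    obtain ⟨y, hy, hxy⟩ := mem_sU.mp hx
    obtain ⟨i, hi, rfl⟩ := mem_img.mp hy
    obtain ⟨n, hn, rfl⟩ := hs i hi
    exact mem_sU.mpr ⟨_, hfun.mem_ran.mpr ⟨n, hn, (ap_lam' hn).symm⟩, hxy⟩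
  · have : sU (img J t) = emp := by
      refine eq_emp fun x hx => ?_
      obtain ⟨y, hy, _⟩ := mem_sU.mp hx
      obtain ⟨i, hi, _⟩ := mem_img.mp hy
      exact hne ⟨i, hi⟩
    rw [this]
    exact hd.I_emp

theorem L1_mul (hd : d.Good) {g h : M} (hg : g ∈ d.G) (hh : h ∈ d.G) : d.mul g h ∈ d.G :=
  hd.m_fn.ap_mem (pr_mem_prod.mpr ⟨hg, hh⟩)

theorem L1_union (hd : d.Good) {A B : M} (hA : A ∈ d.I) (hB : B ∈ d.I) : un A B ∈ d.I := by
  refine hd.I_sub _ _ (L1_fam hd (ctbl_upair A B) (fun x => x) ?_) ?_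
  · intro i hi
    rcases mem_upair.mp hi with rfl | rfl
    · exact hA
    · exact hB
  · intro x hx
    rcases mem_un.mp hx with h | h
    · exact mem_sU.mpr ⟨A, mem_img.mpr ⟨A, mem_upair.mpr (Or.inl rfl), rfl⟩, h⟩
    · exact mem_sU.mpr ⟨B, mem_img.mpr ⟨B, mem_upair.mpr (Or.inr rfl), rfl⟩, h⟩

theorem L1_forall (hd : d.Good) {J : M} (hJ : Ctbl J) (Q : M → M → Prop)
    [hQ : D (fun v => Q (v 0) (v 1))] (h : ∀ i, i ∈ J → sep d.G (fun g => ¬ Q i g) ∈ d.I) :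
    sep d.G (fun g => ¬ ∀ i, i ∈ J → Q i g) ∈ d.I := by
  have hQ' : ∀ (t1 t2 : (ℕ → M) → M) [DT t1] [DT t2], D (fun v => Q (t1 v) (t2 v)) :=
    fun t1 t2 _ _ => D2 (P := Q) hQ t1 t2
  refine hd.I_sub _ _ (L1_fam hd hJ (fun i => sep d.G (fun g => ¬ Q i g)) h) ?_
  intro g hg
  obtain ⟨hgG, hg2⟩ := mem_sep.mp hg
  push Not at hg2
  obtain ⟨i, hi, hq⟩ := hg2
  exact mem_sU.mpr ⟨_, mem_img.mpr ⟨i, hi, rfl⟩, mem_sep.mpr ⟨hgG, hq⟩⟩

theorem L1_shift (hd : d.Good) {h : M} (hh : h ∈ d.G) (Q : M → Prop) [hQ : D (fun v => Q (v 0))]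
    (hq : sep d.G (fun g => ¬ Q g) ∈ d.I) : sep d.G (fun g => ¬ Q (d.mul h g)) ∈ d.I := by
  have hQ' : ∀ (t1 : (ℕ → M) → M) [DT t1], D (fun v => Q (t1 v)) :=
    fun t1 _ => D1 (P := Q) hQ t1
  refine hd.I_sub _ _ (hd.I_left h _ hh hq) ?_
  intro g hg
  obtain ⟨hgG, hg2⟩ := mem_sep.mp hg
  exact mem_sep.mpr ⟨hgG, mem_sep.mpr ⟨L1_mul hd hh hgG, hg2⟩⟩

theorem L1_refl (hd : d.Good) (A : M) : d.eqI A A := by
  have : diff A A ∈ d.I := hd.I_sub _ _ hd.I_emp (by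
    intro x hx
    obtain ⟨h1, h2⟩ := mem_diff.mp hx
    exact absurd h1 h2)
  exact ⟨this, this⟩

theorem L1_le_trans (hd : d.Good) {A B C : M} (h : d.leI A B) (h' : d.leI B C) : d.leI A C := by
  refine hd.I_sub _ _ (L1_union hd h h') ?_
  intro x hx
  obtain ⟨h1, h2⟩ := mem_diff.mp hx
  by_cases hB : x ∈ B
  · exact mem_un.mpr (Or.inr (mem_diff.mpr ⟨hB, h2⟩))
  · exact mem_un.mpr (Or.inl (mem_diff.mpr ⟨h1, hB⟩))

theorem L1_eq_trans (hd : d.Good) {A B C : M} (h : d.eqI A B) (h' : d.eqI B C) : d.eqI A C :=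
  ⟨L1_le_trans hd h.1 h'.1, L1_le_trans hd h'.2 h.2⟩

theorem L1_eq_iff (hd : d.Good) {A B : M} (hA : Sub A d.G) (hB : Sub B d.G) :
    d.eqI A B ↔ sep d.G (fun g => ¬ (g ∈ A ↔ g ∈ B)) ∈ d.I := by
  constructor
  · intro h
    refine hd.I_sub _ _ (L1_union hd h.1 h.2) ?_
    intro x hx
    obtain ⟨_, h2⟩ := mem_sep.mp hx
    by_cases hxA : x ∈ A
    · by_cases hxB : x ∈ B
      · exact absurd (iff_of_true hxA hxB) h2
      · exact mem_un.mpr (Or.inl (mem_diff.mpr ⟨hxA, hxB⟩))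
    · by_cases hxB : x ∈ B
      · exact mem_un.mpr (Or.inr (mem_diff.mpr ⟨hxB, hxA⟩))
      · exact absurd (iff_of_false hxA hxB) h2
  · intro h
    refine ⟨hd.I_sub _ _ h ?_, hd.I_sub _ _ h ?_⟩
    · intro x hx
      obtain ⟨h1, h2⟩ := mem_diff.mp hx
      exact mem_sep.mpr ⟨hA x h1, fun h3 => h2 (h3.mp h1)⟩
    · intro x hx
      obtain ⟨h1, h2⟩ := mem_diff.mp hx
      exact mem_sep.mpr ⟨hB x h1, fun h3 => h2 (h3.mpr h1)⟩

/-! numerals -/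

theorem L1_nn0 : (nn0 : M) ∈ omega M := emp_mem_omega
theorem L1_nn1 : (nn1 : M) ∈ omega M := suc_mem_omega emp_mem_omega
theorem L1_nn2 : (nn2 : M) ∈ omega M := suc_mem_omega L1_nn1
theorem L1_nn3 : (nn3 : M) ∈ omega M := suc_mem_omega L1_nn2

theorem L1_01 : (nn0 : M) ≠ nn1 := fun h => suc_ne_emp _ h.symm
theorem L1_02 : (nn0 : M) ≠ nn2 := fun h => suc_ne_emp _ h.symm
theorem L1_03 : (nn0 : M) ≠ nn3 := fun h => suc_ne_emp _ h.symm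
theorem L1_12 : (nn1 : M) ≠ nn2 := fun h => L1_01 (suc_inj h)
theorem L1_13 : (nn1 : M) ≠ nn3 := fun h => L1_02 (suc_inj h)
theorem L1_23 : (nn2 : M) ≠ nn3 := fun h => L1_12 (suc_inj h)

theorem L1_snd {y δ k a n i j : M} : pr (pr a n) (pr i j) ∈ snd (tab d y δ k) ↔
    (((a ∈ omega M ∧ n ∈ omega M) ∧ i ∈ δ ∧ j ∈ δ) ∧
    ((a = nn0 ∧ d.eqI (ap k j) (Bset d y n)) ∨ (a = nn1 ∧ d.leI (ap k i) (ap k j)) ∨
    (a = nn2 ∧ d.eqI (ap k i) (Aset d n (ap k j))) ∨ (a = nn3 ∧ i ∈ j))) := by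
  rw [tab, snd_pr, mem_sep, pr_mem_prod, pr_mem_prod, pr_mem_prod, snd_pr, snd_pr, fst_pr, fst_pr,
    fst_pr, snd_pr]

theorem L1_LE {y δ k i j : M} (hi : i ∈ δ) (hj : j ∈ δ) :
    LE (tab d y δ k) i j ↔ d.leI (ap k i) (ap k j) := by
  rw [LE, L1_snd]
  constructor
  · rintro ⟨_, h | h | h | h⟩
    · exact absurd h.1.symm L1_01
    · exact h.2
    · exact absurd h.1 L1_12
    · exact absurd h.1 L1_13
  · intro h
    exact ⟨⟨⟨L1_nn1, emp_mem_omega⟩, hi, hj⟩, Or.inr (Or.inl ⟨rfl, h⟩)⟩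

theorem L1_BB {y δ k n i : M} : BB (tab d y δ k) n i ↔
    n ∈ omega M ∧ i ∈ δ ∧ d.eqI (ap k i) (Bset d y n) := by
  rw [BB, L1_snd]
  constructor
  · rintro ⟨h0, h | h | h | h⟩
    · exact ⟨h0.1.2, h0.2.1, h.2⟩
    · exact absurd h.1 L1_01
    · exact absurd h.1 L1_02
    · exact absurd h.1 L1_03
  · intro h
    exact ⟨⟨⟨L1_nn0, h.1⟩, h.2.1, h.2.1⟩, Or.inl ⟨rfl, h.2.2⟩⟩

theorem L1_AC {y δ k n i j : M} : AC (tab d y δ k) n i j ↔
    n ∈ omega M ∧ i ∈ δ ∧ j ∈ δ ∧ d.eqI (ap k i) (Aset d n (ap k j)) := by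
  rw [AC, L1_snd]
  constructor
  · rintro ⟨h0, h | h | h | h⟩
    · exact absurd h.1.symm L1_02
    · exact absurd h.1.symm L1_12
    · exact ⟨h0.1.2, h0.2.1, h0.2.2, h.2⟩
    · exact absurd h.1 L1_23
  · intro h
    exact ⟨⟨⟨L1_nn2, h.1⟩, h.2.1, h.2.2.1⟩, Or.inr (Or.inr (Or.inl ⟨rfl, h.2.2.2⟩))⟩

theorem L1_OR {y δ k i j : M} (hi : i ∈ δ) (hj : j ∈ δ) : OR (tab d y δ k) i j ↔ i ∈ j := by
  rw [OR, L1_snd]
  constructor
  · rintro ⟨_, h | h | h | h⟩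
    · exact absurd h.1.symm L1_03
    · exact absurd h.1.symm L1_13
    · exact absurd h.1.symm L1_23
    · exact h.2
  · intro h
    exact ⟨⟨⟨L1_nn3, emp_mem_omega⟩, hi, hj⟩, Or.inr (Or.inr (Or.inr ⟨rfl, h⟩))⟩

/-! ### the ideal (ROW L1) -/

namespace Dat.Good

theorem I_union (hd : d.Good) {A B : M} (hA : A ∈ d.I) (hB : B ∈ d.I) : un A B ∈ d.I :=
  L1_union hd hA hB

/-- countable unions of a definable family -/
theorem I_fam (hd : d.Good) {J : M} (hJ : Ctbl J) (t : M → M) [DT (fun v => t (v 0))]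
    (h : ∀ i, i ∈ J → t i ∈ d.I) : sU (img J t) ∈ d.I :=
  L1_fam hd hJ t h

/-- almost all `g` satisfy `Q i g` for all `i` in a countable set -/
theorem I_forall (hd : d.Good) {J : M} (hJ : Ctbl J) (Q : M → M → Prop)
    [D (fun v => Q (v 0) (v 1))] (h : ∀ i, i ∈ J → sep d.G (fun g => ¬ Q i g) ∈ d.I) :
    sep d.G (fun g => ¬ ∀ i, i ∈ J → Q i g) ∈ d.I :=
  L1_forall hd hJ Q h

/-- almost all `g` satisfy `Q g` implies: almost all `g` satisfy `Q (γ_n g)` -/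
theorem I_shift (hd : d.Good) {h : M} (hh : h ∈ d.G) (Q : M → Prop) [D (fun v => Q (v 0))]
    (hq : sep d.G (fun g => ¬ Q g) ∈ d.I) : sep d.G (fun g => ¬ Q (d.mul h g)) ∈ d.I :=
  L1_shift hd hh Q hq

end Dat.Good

theorem leI_iff {A B : M} : d.leI A B ↔ diff A B ∈ d.I := Iff.rfl

theorem eqI_refl (hd : d.Good) (A : M) : d.eqI A A :=
  L1_refl hd A

theorem eqI_symm {A B : M} (h : d.eqI A B) : d.eqI B A := ⟨h.2, h.1⟩

theorem leI_trans (hd : d.Good) {A B C : M} (h : d.leI A B) (h' : d.leI B C) : d.leI A C :=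
  L1_le_trans hd h h'

theorem eqI_trans (hd : d.Good) {A B C : M} (h : d.eqI A B) (h' : d.eqI B C) : d.eqI A C :=
  L1_eq_trans hd h h'

/-- `A =* B` means: almost all `g` lie in both or in none -/
theorem eqI_iff (hd : d.Good) {A B : M} (hA : Sub A d.G) (hB : Sub B d.G) :
    d.eqI A B ↔ sep d.G (fun g => ¬ (g ∈ A ↔ g ∈ B)) ∈ d.I :=
  L1_eq_iff hd hA hB

/-! ### meaning of the entries of a table (ROW L1) -/

theorem fst_tab {y δ k : M} : fst (tab d y δ k) = δ := fst_pr _ _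

theorem LE_tab {y δ k i j : M} (hi : i ∈ δ) (hj : j ∈ δ) :
    LE (tab d y δ k) i j ↔ d.leI (ap k i) (ap k j) :=
  L1_LE hi hj

theorem BB_tab {y δ k n i : M} : BB (tab d y δ k) n i ↔
    n ∈ omega M ∧ i ∈ δ ∧ d.eqI (ap k i) (Bset d y n) :=
  L1_BB

theorem AC_tab {y δ k n i j : M} : AC (tab d y δ k) n i j ↔
    n ∈ omega M ∧ i ∈ δ ∧ j ∈ δ ∧ d.eqI (ap k i) (Aset d n (ap k j)) :=
  L1_AC

theorem OR_tab {y δ k i j : M} (hi : i ∈ δ) (hj : j ∈ δ) : OR (tab d y δ k) i j ↔ i ∈ j :=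
  L1_OR hi hj

/-! ### closure of the canonical sequence (ROW L1) -/

theorem Mx.fn {F cd y δ k : M} (h : Mx d F cd y δ k) : IsFun k δ (pow d.G) := h.1.2.1

theorem Mx.sub {F cd y δ k i : M} (h : Mx d F cd y δ k) (hi : i ∈ δ) : Sub (ap k i) d.G :=
  mem_pow.mp (h.fn.ap_mem hi)

theorem L1b_nn0 : (nn0 : M) ∈ omega M := emp_mem_omega
theorem L1b_nn1 : (nn1 : M) ∈ omega M := suc_mem_omega L1b_nn0
theorem L1b_nn2 : (nn2 : M) ∈ omega M := suc_mem_omega L1b_nn1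
theorem L1b_nn3 : (nn3 : M) ∈ omega M := suc_mem_omega L1b_nn2
theorem L1b_nn4 : (nn4 : M) ∈ omega M := suc_mem_omega L1b_nn3

theorem L1b_10 : (nn1 : M) ≠ nn0 := suc_ne_emp _
theorem L1b_20 : (nn2 : M) ≠ nn0 := suc_ne_emp _
theorem L1b_30 : (nn3 : M) ≠ nn0 := suc_ne_emp _
theorem L1b_40 : (nn4 : M) ≠ nn0 := suc_ne_emp _
theorem L1b_21 : (nn2 : M) ≠ nn1 := fun h => L1b_10 (suc_inj h)
theorem L1b_31 : (nn3 : M) ≠ nn1 := fun h => L1b_20 (suc_inj h)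
theorem L1b_41 : (nn4 : M) ≠ nn1 := fun h => L1b_30 (suc_inj h)
theorem L1b_32 : (nn3 : M) ≠ nn2 := fun h => L1b_21 (suc_inj h)
theorem L1b_42 : (nn4 : M) ≠ nn2 := fun h => L1b_31 (suc_inj h)
theorem L1b_43 : (nn4 : M) ≠ nn3 := fun h => L1b_32 (suc_inj h)

theorem L1b_fun {δ i j : M} (hi : i ∈ δ) (hj : j ∈ δ) :
    IsFun (snoc (snoc emp i) j) nn2 δ :=
  isFun_snoc L1b_nn1 (isFun_snoc L1b_nn0 (isFun_emp δ) hi) hj

theorem L1b_ap0 {δ i j : M} (hi : i ∈ δ) (hj : j ∈ δ) :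
    ap (snoc (snoc emp i) j) nn0 = i := by
  have h1 : IsFun (snoc (emp : M) i) nn1 δ := isFun_snoc L1b_nn0 (isFun_emp δ) hi
  have h2 := ap_snoc (S := δ) (i := (nn0 : M)) L1b_nn1 h1 hj (mem_suc_self _)
  rw [h2]
  exact ap_snoc_last (S := δ) L1b_nn0 (isFun_emp δ) hi

theorem L1b_ap1 {δ i j : M} (hi : i ∈ δ) (hj : j ∈ δ) :
    ap (snoc (snoc emp i) j) nn1 = j :=
  ap_snoc_last (S := δ) L1b_nn1 (isFun_snoc L1b_nn0 (isFun_emp δ) hi) hj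

theorem L1b_val {F y δ k op g : M} : g ∈ Val d F y δ k op ↔ g ∈ d.G ∧
    ((fst op = nn0 ∧ fst (snd op) ∈ d.sm g y) ∨
    (fst op = nn1 ∧ g ∉ ap k (ap (snd (snd op)) nn0)) ∨
    (fst op = nn2 ∧ g ∈ ap k (ap (snd (snd op)) nn0) ∧ g ∈ ap k (ap (snd (snd op)) nn1)) ∨
    (fst op = nn3 ∧ d.mul (d.gm (fst (snd op))) g ∈ ap k (ap (snd (snd op)) nn0)) ∨
    (fst op = nn4 ∧ ∀ i, i ∈ TT F (tab d y δ k) (fst (snd op)) (snd (snd op)) → g ∉ ap k i)) := by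
  unfold Val
  exact mem_sep

theorem L1b_valid04 {δ κ n p : M} (hκ : κ = nn0 ∨ κ = nn4) (hn : n ∈ omega M) (hp : p ∈ fseq δ) :
    Valid δ (pr κ (pr n p)) := by
  refine ⟨pr_mem_prod.mpr ⟨?_, pr_mem_prod.mpr ⟨hn, hp⟩⟩, ?_⟩
  · rcases hκ with rfl | rfl
    · exact L1b_nn0
    · exact L1b_nn4
  · rw [fst_pr]
    rcases hκ with h | h
    · exact Or.inl h
    · exact Or.inr (Or.inl h)

theorem L1b_valid {δ κ n i j : M} (hκ : κ ∈ omega M) (hn : n ∈ omega M) (hi : i ∈ δ)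
    (hj : j ∈ δ) : Valid δ (pr κ (pr n (snoc (snoc emp i) j))) := by
  refine ⟨pr_mem_prod.mpr ⟨hκ, pr_mem_prod.mpr ⟨hn, mem_fseq.mpr ⟨_, L1b_nn2, L1b_fun hi hj⟩⟩⟩, ?_⟩
  right
  right
  rw [snd_pr, snd_pr, (L1b_fun hi hj).dom]
  exact mem_suc_self _

theorem Mx.ne {F cd y δ k : M} (h : Mx d F cd y δ k) : ∃ i, i ∈ δ := by
  obtain ⟨i, hi, _⟩ := h.closed (L1b_valid04 (Or.inl rfl) L1b_nn0 (emp_mem_fseq δ))
  exact ⟨i, hi⟩

theorem Mx.cl0 {F cd y δ k n : M} (hd : d.Good) (h : Mx d F cd y δ k) (hn : n ∈ omega M) :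
    ∃ i, i ∈ δ ∧ d.eqI (ap k i) (Bset d y n) := by
  obtain ⟨i, hi, he⟩ := h.closed (L1b_valid04 (Or.inl rfl) hn (emp_mem_fseq δ))
  refine ⟨i, hi, ?_⟩
  have e : Val d F y δ k (pr nn0 (pr n emp)) = Bset d y n := by
    refine ext fun g => ?_
    rw [L1b_val]
    unfold Bset
    rw [mem_sep, fst_pr, snd_pr, fst_pr, snd_pr]
    refine and_congr_right fun _ => ?_
    constructor
    · rintro (h1 | h1 | h1 | h1 | h1)
      · exact h1.2
      · exact absurd h1.1.symm L1b_10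
      · exact absurd h1.1.symm L1b_20
      · exact absurd h1.1.symm L1b_30
      · exact absurd h1.1.symm L1b_40
    · intro h1
      exact Or.inl ⟨rfl, h1⟩
  rw [e] at he
  exact eqI_symm he

theorem Mx.cl1 {F cd y δ k i : M} (hd : d.Good) (h : Mx d F cd y δ k) (hi : i ∈ δ) :
    ∃ j, j ∈ δ ∧ d.eqI (ap k j) (diff d.G (ap k i)) := by
  obtain ⟨j, hj, he⟩ := h.closed (L1b_valid L1b_nn1 L1b_nn0 hi hi)
  refine ⟨j, hj, ?_⟩
  have e : Val d F y δ k (pr nn1 (pr nn0 (snoc (snoc emp i) i))) = diff d.G (ap k i) := by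
    refine ext fun g => ?_
    rw [L1b_val, mem_diff, fst_pr, snd_pr, fst_pr, snd_pr, L1b_ap0 hi hi]
    refine and_congr_right fun _ => ?_
    constructor
    · rintro (h1 | h1 | h1 | h1 | h1)
      · exact absurd h1.1 L1b_10
      · exact h1.2
      · exact absurd h1.1.symm L1b_21
      · exact absurd h1.1.symm L1b_31
      · exact absurd h1.1.symm L1b_41
    · intro h1
      exact Or.inr (Or.inl ⟨rfl, h1⟩)
  rw [e] at he
  exact eqI_symm he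

theorem Mx.cl2 {F cd y δ k i j : M} (hd : d.Good) (h : Mx d F cd y δ k) (hi : i ∈ δ)
    (hj : j ∈ δ) : ∃ l, l ∈ δ ∧ d.eqI (ap k l) (inter (ap k i) (ap k j)) := by
  obtain ⟨l, hl, he⟩ := h.closed (L1b_valid L1b_nn2 L1b_nn0 hi hj)
  refine ⟨l, hl, ?_⟩
  have e : Val d F y δ k (pr nn2 (pr nn0 (snoc (snoc emp i) j))) = inter (ap k i) (ap k j) := by
    refine ext fun g => ?_
    rw [L1b_val, mem_inter, fst_pr, snd_pr, fst_pr, snd_pr, L1b_ap0 hi hj, L1b_ap1 hi hj]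
    constructor
    · rintro ⟨_, h1 | h1 | h1 | h1 | h1⟩
      · exact absurd h1.1 L1b_20
      · exact absurd h1.1 L1b_21
      · exact h1.2
      · exact absurd h1.1.symm L1b_32
      · exact absurd h1.1.symm L1b_42
    · intro h1
      exact ⟨h.sub hi _ h1.1, Or.inr (Or.inr (Or.inl ⟨rfl, h1⟩))⟩
  rw [e] at he
  exact eqI_symm he

theorem Mx.cl3 {F cd y δ k n i : M} (hd : d.Good) (h : Mx d F cd y δ k) (hn : n ∈ omega M)
    (hi : i ∈ δ) : ∃ j, j ∈ δ ∧ d.eqI (ap k j) (Aset d n (ap k i)) := by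
  obtain ⟨j, hj, he⟩ := h.closed (L1b_valid L1b_nn3 hn hi hi)
  refine ⟨j, hj, ?_⟩
  have e : Val d F y δ k (pr nn3 (pr n (snoc (snoc emp i) i))) = Aset d n (ap k i) := by
    refine ext fun g => ?_
    rw [L1b_val]
    unfold Aset
    rw [mem_sep, fst_pr, snd_pr, fst_pr, snd_pr, L1b_ap0 hi hi]
    refine and_congr_right fun _ => ?_
    constructor
    · rintro (h1 | h1 | h1 | h1 | h1)
      · exact absurd h1.1 L1b_30
      · exact absurd h1.1 L1b_31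
      · exact absurd h1.1 L1b_32
      · exact h1.2
      · exact absurd h1.1.symm L1b_43
    · intro h1
      exact Or.inr (Or.inr (Or.inr (Or.inl ⟨rfl, h1⟩)))
  rw [e] at he
  exact eqI_symm he

theorem Mx.cl4 {F cd y δ k n p : M} (hd : d.Good) (h : Mx d F cd y δ k) (hn : n ∈ omega M)
    (hp : p ∈ fseq δ) : ∃ j, j ∈ δ ∧ d.eqI (ap k j)
      (sep d.G (fun g => ∀ i, i ∈ TT F (tab d y δ k) n p → g ∉ ap k i)) := by
  obtain ⟨j, hj, he⟩ := h.closed (L1b_valid04 (Or.inr rfl) hn hp)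
  refine ⟨j, hj, ?_⟩
  have e : Val d F y δ k (pr nn4 (pr n p)) =
      sep d.G (fun g => ∀ i, i ∈ TT F (tab d y δ k) n p → g ∉ ap k i) := by
    refine ext fun g => ?_
    rw [L1b_val, mem_sep, fst_pr, snd_pr, fst_pr, snd_pr]
    refine and_congr_right fun _ => ?_
    constructor
    · rintro (h1 | h1 | h1 | h1 | h1)
      · exact absurd h1.1 L1b_40
      · exact absurd h1.1 L1b_41
      · exact absurd h1.1 L1b_42
      · exact absurd h1.1 L1b_43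
      · exact h1.2
    · intro h1
      exact Or.inr (Or.inr (Or.inr (Or.inr ⟨rfl, h1⟩)))
  rw [e] at he
  exact eqI_symm he

theorem Mx.NZ_iff {F cd y δ k i : M} (hd : d.Good) (h : Mx d F cd y δ k) (hi : i ∈ δ) :
    NZ (tab d y δ k) i ↔ ap k i ∉ d.I := by
  constructor
  · rintro ⟨_, j, hj, hn⟩ hI
    rw [fst_tab] at hj
    apply hn
    rw [LE_tab hi hj, leI_iff]
    exact hd.I_sub _ _ hI diff_sub
  · intro hI
    refine ⟨by rw [fst_tab]; exact hi, ?_⟩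
    obtain ⟨j, hj, he⟩ := h.cl1 hd hi
    refine ⟨j, by rw [fst_tab]; exact hj, ?_⟩
    rw [LE_tab hi hj, leI_iff]
    intro h1
    refine hI (hd.I_sub _ _ (hd.I_union h1 he.1) ?_)
    intro x hx
    rw [mem_un, mem_diff, mem_diff, mem_diff]
    by_cases h2 : x ∈ ap k j
    · exact Or.inr ⟨h2, fun h3 => h3.2 hx⟩
    · exact Or.inl ⟨hx, h2⟩

theorem Mx.Cmp_iff {F cd y δ k i j : M} (hd : d.Good) (h : Mx d F cd y δ k) (hi : i ∈ δ)
    (hj : j ∈ δ) : Cmp (tab d y δ k) i j ↔ inter (ap k i) (ap k j) ∉ d.I := by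
  constructor
  · rintro ⟨l, hl, h1, h2⟩ hI
    have hlδ : l ∈ δ := by
      have := hl.1
      rwa [fst_tab] at this
    rw [h.NZ_iff hd hlδ] at hl
    rw [LE_tab hlδ hi, leI_iff] at h1
    rw [LE_tab hlδ hj, leI_iff] at h2
    refine hl (hd.I_sub _ _ (hd.I_union (hd.I_union h1 h2) hI) ?_)
    intro x hx
    rw [mem_un, mem_un, mem_diff, mem_diff, mem_inter]
    by_cases h3 : x ∈ ap k i
    · by_cases h4 : x ∈ ap k j
      · exact Or.inr ⟨h3, h4⟩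
      · exact Or.inl (Or.inr ⟨hx, h4⟩)
    · exact Or.inl (Or.inl ⟨hx, h3⟩)
  · intro hI
    obtain ⟨l, hl, he⟩ := h.cl2 hd hi hj
    refine ⟨l, ?_, ?_, ?_⟩
    · rw [h.NZ_iff hd hl]
      intro h1
      refine hI (hd.I_sub _ _ (hd.I_union he.2 h1) ?_)
      intro x hx
      rw [mem_un, mem_diff]
      by_cases h3 : x ∈ ap k l
      · exact Or.inr h3
      · exact Or.inl ⟨hx, h3⟩
    · rw [LE_tab hl hi, leI_iff]
      refine hd.I_sub _ _ he.1 ?_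
      intro x hx
      rw [mem_diff] at hx
      rw [mem_diff, mem_inter]
      exact ⟨hx.1, fun h3 => hx.2 h3.1⟩
    · rw [LE_tab hl hj, leI_iff]
      refine hd.I_sub _ _ he.1 ?_
      intro x hx
      rw [mem_diff] at hx
      rw [mem_diff, mem_inter]
      exact ⟨hx.1, fun h3 => hx.2 h3.2⟩


/-! ### ultrafilters of points of `G` (ROW L2) -/

theorem L2_mono (hd : d.Good) (P Q : M → Prop) [D (fun v => P (v 0))] [D (fun v => Q (v 0))]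
    (hP : sep d.G (fun g => ¬ P g) ∈ d.I) (h : ∀ g, g ∈ d.G → P g → Q g) :
    sep d.G (fun g => ¬ Q g) ∈ d.I := by
  refine hd.I_sub _ _ hP ?_
  intro g hg
  obtain ⟨h1, h2⟩ := mem_sep.mp hg
  exact mem_sep.mpr ⟨h1, fun h3 => h2 (h g h1 h3)⟩

theorem L2_and (hd : d.Good) (P Q : M → Prop) [D (fun v => P (v 0))] [D (fun v => Q (v 0))]
    (hP : sep d.G (fun g => ¬ P g) ∈ d.I) (hQ : sep d.G (fun g => ¬ Q g) ∈ d.I) :
    sep d.G (fun g => ¬ (P g ∧ Q g)) ∈ d.I := by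
  refine hd.I_sub _ _ (hd.I_union hP hQ) ?_
  intro g hg
  obtain ⟨h1, h2⟩ := mem_sep.mp hg
  by_cases h3 : P g
  · exact mem_un.mpr (Or.inr (mem_sep.mpr ⟨h1, fun h4 => h2 ⟨h3, h4⟩⟩))
  · exact mem_un.mpr (Or.inl (mem_sep.mpr ⟨h1, h3⟩))

theorem L2_forall (hd : d.Good) {J : M} (hJ : Ctbl J) (A B : M → M) [DT (fun v => A (v 0))]
    [DT (fun v => B (v 0))] (hA : ∀ i, i ∈ J → Sub (A i) d.G) (hB : ∀ i, i ∈ J → Sub (B i) d.G) :
    sep d.G (fun g => ¬ ∀ i, i ∈ J → (d.eqI (A i) (B i) → (g ∈ A i ↔ g ∈ B i))) ∈ d.I := by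
  refine hd.I_forall hJ (fun i g => d.eqI (A i) (B i) → (g ∈ A i ↔ g ∈ B i)) ?_
  intro i hi
  by_cases h : d.eqI (A i) (B i)
  · have h1 := (eqI_iff hd (hA i hi) (hB i hi)).mp h
    refine hd.I_sub _ _ h1 ?_
    intro g hg
    obtain ⟨h2, h3⟩ := mem_sep.mp hg
    exact mem_sep.mpr ⟨h2, fun h4 => h3 (fun _ => h4)⟩
  · have : sep d.G (fun g => ¬ (d.eqI (A i) (B i) → (g ∈ A i ↔ g ∈ B i))) = emp := by
      refine eq_emp ?_
      intro g hg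
      exact (mem_sep.mp hg).2 (fun h' => absurd h' h)
    rw [this]
    exact hd.I_emp


theorem L2_ctbl {F cd y δ k : M} (h : Mx d F cd y δ k) : Ctbl δ := (mem_om1.mp h.1.1).2

theorem L2_Bset_sub {y n : M} : Sub (Bset d y n) d.G := sep_sub

theorem L2_Aset_sub {n A : M} : Sub (Aset d n A) d.G := sep_sub

theorem L2_mem_Bset {y n g : M} : g ∈ Bset d y n ↔ g ∈ d.G ∧ n ∈ d.sm g y := mem_sep

theorem L2_mem_Aset {n A g : M} : g ∈ Aset d n A ↔ g ∈ d.G ∧ d.mul (d.gm n) g ∈ A := mem_sep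

theorem L2_mem_hg {δ k g i : M} : i ∈ hg δ k g ↔ i ∈ δ ∧ g ∈ ap k i := mem_sep

theorem L2_mem_zz {c h n : M} : n ∈ zz c h ↔ n ∈ omega M ∧ ∃ i, i ∈ h ∧ BB c n i := mem_sep

theorem L2_mem_actS {c n h i : M} : i ∈ actS c n h ↔ i ∈ fst c ∧ ∃ j, j ∈ h ∧ AC c n j i := mem_sep

/-- the conditions on `g` -/
theorem L2_B (hd : d.Good) {F cd y δ k : M} (h : Mx d F cd y δ k) :
    sep d.G (fun g => ¬ ∀ p, p ∈ prod (omega M) δ → (d.eqI (ap k (snd p)) (Bset d y (fst p)) →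
      (g ∈ ap k (snd p) ↔ g ∈ Bset d y (fst p)))) ∈ d.I :=
  L2_forall hd (ctbl_omega.prod (L2_ctbl h)) (fun p => ap k (snd p)) (fun p => Bset d y (fst p))
    (fun _ hp => h.sub (snd_mem hp)) (fun _ _ => L2_Bset_sub)

theorem L2_A (hd : d.Good) {F cd y δ k : M} (h : Mx d F cd y δ k) :
    sep d.G (fun g => ¬ ∀ p, p ∈ prod (omega M) (prod δ δ) →
      (d.eqI (ap k (fst (snd p))) (Aset d (fst p) (ap k (snd (snd p)))) →
      (g ∈ ap k (fst (snd p)) ↔ g ∈ Aset d (fst p) (ap k (snd (snd p)))))) ∈ d.I :=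
  L2_forall hd (ctbl_omega.prod ((L2_ctbl h).prod (L2_ctbl h))) (fun p => ap k (fst (snd p)))
    (fun p => Aset d (fst p) (ap k (snd (snd p))))
    (fun _ hp => h.sub (fst_mem (snd_mem hp))) (fun _ _ => L2_Aset_sub)

theorem L2_C (hd : d.Good) {F cd y δ k : M} (h : Mx d F cd y δ k) :
    sep d.G (fun g => ¬ ∀ p, p ∈ prod δ δ →
      (d.eqI (ap k (fst p)) (diff d.G (ap k (snd p))) →
      (g ∈ ap k (fst p) ↔ g ∈ diff d.G (ap k (snd p))))) ∈ d.I :=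
  L2_forall hd ((L2_ctbl h).prod (L2_ctbl h)) (fun p => ap k (fst p))
    (fun p => diff d.G (ap k (snd p)))
    (fun _ hp => h.sub (fst_mem hp)) (fun _ _ => diff_sub)

theorem L2_N (hd : d.Good) {F cd y δ k : M} (h : Mx d F cd y δ k) :
    sep d.G (fun g => ¬ ∀ p, p ∈ prod δ (prod δ δ) →
      (d.eqI (ap k (fst p)) (inter (ap k (fst (snd p))) (ap k (snd (snd p)))) →
      (g ∈ ap k (fst p) ↔ g ∈ inter (ap k (fst (snd p))) (ap k (snd (snd p)))))) ∈ d.I :=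
  L2_forall hd ((L2_ctbl h).prod ((L2_ctbl h).prod (L2_ctbl h))) (fun p => ap k (fst p))
    (fun p => inter (ap k (fst (snd p))) (ap k (snd (snd p))))
    (fun _ hp => h.sub (fst_mem hp))
    (fun _ hp x hx => h.sub (fst_mem (snd_mem hp)) x (mem_inter.mp hx).1)

theorem L2_E (hd : d.Good) {F cd y δ k : M} (h : Mx d F cd y δ k) :
    sep d.G (fun g => ¬ ∀ i, i ∈ δ → (d.eqI (ap k i) emp → (g ∈ ap k i ↔ g ∈ (emp : M)))) ∈ d.I :=
  L2_forall hd (L2_ctbl h) (fun i => ap k i) (fun _ => emp)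
    (fun _ hp => h.sub hp) (fun _ _ => emp_sub _)

/-- its real is `g y` -/
theorem Mx.hg_zz (hd : d.Good) {F cd y δ k : M} (h : Mx d F cd y δ k) (hy : y ∈ d.X) :
    sep d.G (fun g => ¬ zz (tab d y δ k) (hg δ k g) = d.sm g y) ∈ d.I := by
  refine L2_mono hd _ (fun g => zz (tab d y δ k) (hg δ k g) = d.sm g y) (L2_B hd h) ?_
  intro g hg hB
  have hsm : d.sm g y ∈ d.X := hd.act_fn.ap_mem (pr_mem_prod.mpr ⟨hg, hy⟩)
  have hsub : Sub (d.sm g y) (omega M) := mem_pow'.mp (hd.X_sub _ hsm)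
  refine ext fun n => ?_
  constructor
  · intro hn
    obtain ⟨h1, i, hi, hBB⟩ := L2_mem_zz.mp hn
    obtain ⟨_, hi2, he⟩ := BB_tab.mp hBB
    have := hB (pr n i) (pr_mem_prod.mpr ⟨h1, hi2⟩)
    rw [fst_pr, snd_pr] at this
    exact (L2_mem_Bset.mp ((this he).mp (L2_mem_hg.mp hi).2)).2
  · intro hn
    have h1 := hsub n hn
    obtain ⟨i, hi, he⟩ := h.cl0 hd h1
    have := hB (pr n i) (pr_mem_prod.mpr ⟨h1, hi⟩)
    rw [fst_pr, snd_pr] at this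
    exact L2_mem_zz.mpr ⟨h1, i, L2_mem_hg.mpr ⟨hi, (this he).mpr (L2_mem_Bset.mpr ⟨hg, hn⟩)⟩,
      BB_tab.mpr ⟨h1, hi, he⟩⟩

/-- the action of the countable subgroup -/
theorem Mx.hg_act (hd : d.Good) {F cd y δ k : M} (h : Mx d F cd y δ k) :
    sep d.G (fun g => ¬ ∀ n, n ∈ omega M →
      actS (tab d y δ k) n (hg δ k g) = hg δ k (d.mul (d.gm n) g)) ∈ d.I := by
  refine L2_mono hd _ (fun g => ∀ n, n ∈ omega M →
      actS (tab d y δ k) n (hg δ k g) = hg δ k (d.mul (d.gm n) g)) (L2_A hd h) ?_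
  intro g hg hA n hn
  refine ext fun i => ?_
  constructor
  · intro hi
    obtain ⟨h1, j, hj, hAC⟩ := L2_mem_actS.mp hi
    obtain ⟨_, hj2, hi2, he⟩ := AC_tab.mp hAC
    have := hA (pr n (pr j i)) (pr_mem_prod.mpr ⟨hn, pr_mem_prod.mpr ⟨hj2, hi2⟩⟩)
    rw [fst_pr, snd_pr, fst_pr, snd_pr] at this
    exact L2_mem_hg.mpr ⟨hi2, (L2_mem_Aset.mp ((this he).mp (L2_mem_hg.mp hj).2)).2⟩
  · intro hi
    obtain ⟨hi2, h2⟩ := L2_mem_hg.mp hi
    obtain ⟨j, hj, he⟩ := h.cl3 hd hn hi2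
    have := hA (pr n (pr j i)) (pr_mem_prod.mpr ⟨hn, pr_mem_prod.mpr ⟨hj, hi2⟩⟩)
    rw [fst_pr, snd_pr, fst_pr, snd_pr] at this
    refine L2_mem_actS.mpr ⟨?_, j, L2_mem_hg.mpr ⟨hj, (this he).mpr (L2_mem_Aset.mpr ⟨hg, h2⟩)⟩,
      AC_tab.mpr ⟨hn, hj, hi2, he⟩⟩
    rw [fst_tab]
    exact hi2

/-- almost all `g ∈ G` define an ultrafilter of the table -/
theorem Mx.hg_mem (hd : d.Good) {F cd y δ k : M} (h : Mx d F cd y δ k) :
    sep d.G (fun g => ¬ hg δ k g ∈ St (tab d y δ k)) ∈ d.I := by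
  refine L2_mono hd _ (fun g => hg δ k g ∈ St (tab d y δ k))
    (L2_and hd _ _ (L2_C hd h) (L2_and hd _ _ (L2_N hd h) (L2_E hd h))) ?_
  rintro g hg ⟨hC, hN, hE⟩
  have hC' : ∀ i, i ∈ δ → ∀ j, j ∈ δ → d.eqI (ap k j) (diff d.G (ap k i)) →
      (g ∈ ap k j ↔ g ∉ ap k i) := by
    intro i hi j hj he
    have := hC (pr j i) (pr_mem_prod.mpr ⟨hj, hi⟩)
    rw [fst_pr, snd_pr] at this
    rw [this he, mem_diff]
    exact ⟨fun h => h.2, fun h => ⟨hg, h⟩⟩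
  have hN' : ∀ i, i ∈ δ → ∀ j, j ∈ δ → ∀ l, l ∈ δ → d.eqI (ap k l) (inter (ap k i) (ap k j)) →
      (g ∈ ap k l ↔ (g ∈ ap k i ∧ g ∈ ap k j)) := by
    intro i hi j hj l hl he
    have := hN (pr l (pr i j)) (pr_mem_prod.mpr ⟨hl, pr_mem_prod.mpr ⟨hi, hj⟩⟩)
    rw [fst_pr, snd_pr, fst_pr, snd_pr] at this
    rw [this he, mem_inter]
  have hsub : ∀ A B : M, (∀ x, x ∈ A → x ∈ B → False) → Sub A d.G → diff A (diff d.G B) ∈ d.I := by
    intro A B hAB hA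
    have : diff A (diff d.G B) = emp := by
      refine eq_emp ?_
      intro x hx
      obtain ⟨h1, h2⟩ := mem_diff.mp hx
      exact h2 (mem_diff.mpr ⟨hA x h1, fun h3 => hAB x h1 h3⟩)
    rw [this]
    exact hd.I_emp
  refine mem_St.mpr ⟨?_, ?_, ?_, ?_, ?_, ?_⟩
  · rw [fst_tab]
    exact sep_sub
  · obtain ⟨i, hi⟩ := h.ne
    by_cases hgi : g ∈ ap k i
    · exact ⟨i, L2_mem_hg.mpr ⟨hi, hgi⟩⟩
    · obtain ⟨j, hj, he⟩ := h.cl1 hd hi
      exact ⟨j, L2_mem_hg.mpr ⟨hj, (hC' i hi j hj he).mpr hgi⟩⟩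
  · intro i hi
    obtain ⟨hi, hgi⟩ := L2_mem_hg.mp hi
    refine (h.NZ_iff hd hi).mpr ?_
    intro hI
    refine not_mem_emp g ((hE i hi ⟨?_, ?_⟩).mp hgi)
    · exact hd.I_sub _ _ hI diff_sub
    · exact hd.I_sub _ _ hd.I_emp diff_sub
  · intro i j hi hj hle
    rw [fst_tab] at hj
    obtain ⟨hi, hgi⟩ := L2_mem_hg.mp hi
    have hle := (LE_tab hi hj).mp hle
    refine L2_mem_hg.mpr ⟨hj, ?_⟩
    refine ((hN' i hi j hj i hi ⟨?_, ?_⟩).mp hgi).2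
    · refine hd.I_sub _ _ hle ?_
      intro x hx
      obtain ⟨h1, h2⟩ := mem_diff.mp hx
      exact mem_diff.mpr ⟨h1, fun h3 => h2 (mem_inter.mpr ⟨h1, h3⟩)⟩
    · refine hd.I_sub _ _ hd.I_emp ?_
      intro x hx
      obtain ⟨h1, h2⟩ := mem_diff.mp hx
      exact absurd (mem_inter.mp h1).1 h2
  · intro i j hi hj
    obtain ⟨hi, hgi⟩ := L2_mem_hg.mp hi
    obtain ⟨hj, hgj⟩ := L2_mem_hg.mp hj
    obtain ⟨l, hl, he⟩ := h.cl2 hd hi hj
    refine ⟨l, L2_mem_hg.mpr ⟨hl, (hN' i hi j hj l hl he).mpr ⟨hgi, hgj⟩⟩, ?_, ?_⟩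
    · refine (LE_tab hl hi).mpr (hd.I_sub _ _ he.1 ?_)
      intro x hx
      obtain ⟨h1, h2⟩ := mem_diff.mp hx
      exact mem_diff.mpr ⟨h1, fun h3 => h2 (mem_inter.mp h3).1⟩
    · refine (LE_tab hl hj).mpr (hd.I_sub _ _ he.1 ?_)
      intro x hx
      obtain ⟨h1, h2⟩ := mem_diff.mp hx
      exact mem_diff.mpr ⟨h1, fun h3 => h2 (mem_inter.mp h3).2⟩
  · intro i hi hni
    rw [fst_tab] at hi
    have hgi : g ∉ ap k i := fun h' => hni (L2_mem_hg.mpr ⟨hi, h'⟩)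
    obtain ⟨j, hj, he⟩ := h.cl1 hd hi
    refine ⟨j, L2_mem_hg.mpr ⟨hj, (hC' i hi j hj he).mpr hgi⟩, ?_⟩
    rw [h.Cmp_iff hd hi hj, not_not]
    refine hd.I_sub _ _ he.1 ?_
    intro x hx
    obtain ⟨h1, h2⟩ := mem_inter.mp hx
    exact mem_diff.mpr ⟨h2, fun h3 => (mem_diff.mp h3).2 h1⟩

/-- the table of a canonical sequence is a table -/
theorem Mx.tabOK (hd : d.Good) {F cd y δ k : M} (h : Mx d F cd y δ k) :
    TabOK (tab d y δ k) := by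
  have hex : ∀ A : M, Sub A d.G → A ∉ d.I → ∃ g, g ∈ A ∧ hg δ k g ∈ St (tab d y δ k) := by
    intro A hA hAI
    by_contra hcon
    push Not at hcon
    refine hAI (hd.I_sub _ _ (h.hg_mem hd) ?_)
    intro g hg
    exact mem_sep.mpr ⟨hA g hg, hcon g hg⟩
  refine ⟨?_, ?_, ?_, ?_, ?_, ?_⟩
  · rw [fst_tab]
    exact h.1.1
  · rw [fst_tab]
    exact h.ne
  · rw [fst_tab]
    exact pr_mem_prod.mpr ⟨h.1.1, sep_mem_pow⟩
  · intro i j hi hj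
    rw [fst_tab] at hi hj
    exact OR_tab hi hj
  · intro i hi
    have hi1 : i ∈ δ := by
      have := hi.1
      rwa [fst_tab] at this
    obtain ⟨g, hg, hS⟩ := hex _ (h.sub hi1) ((h.NZ_iff hd hi1).mp hi)
    exact ⟨_, hS, L2_mem_hg.mpr ⟨hi1, hg⟩⟩
  · intro i j hi hj hs
    have hi1 : i ∈ δ := by
      have := hi.1
      rwa [fst_tab] at this
    rw [fst_tab] at hj
    refine (LE_tab hi1 hj).mpr ?_
    by_contra hcon
    obtain ⟨g, hg, hS⟩ := hex _ (fun x hx => h.sub hi1 x (mem_diff.mp hx).1) hcon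
    obtain ⟨h1, h2⟩ := mem_diff.mp hg
    have := hs _ (mem_bas.mpr ⟨hS, L2_mem_hg.mpr ⟨hi1, h1⟩⟩)
    exact h2 (L2_mem_hg.mp (mem_bas.mp this).2).2

/-! ### the action on the Stone space (ROW L3) -/

/-- the action of the subgroup on the Stone space as a function -/
noncomputable def actF (c : M) : M :=
  lam (prod (omega M) (St c)) (fun p => actS c (fst p) (snd p))

instance DT_actF (t1 : (ℕ → M) → M) [DT t1] : DT (fun v => actF (t1 v)) := by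
  refine DT1 (f := actF) ?_ t1
  unfold actF
  infer_instance

theorem sg_actF {c m x : M} (hm : m ∈ omega M) (hx : x ∈ St c) :
    sg (actF c) m x = actS c m x := by
  rw [sg, actF, ap_lam' (pr_mem_prod.mpr ⟨hm, hx⟩), fst_pr, snd_pr]

theorem L3_Aset_le (hd : d.Good) {n A B : M} (hn : n ∈ omega M) (h : d.leI A B) :
    d.leI (Aset d n A) (Aset d n B) := by
  refine hd.I_sub _ _ (hd.I_left (d.gm n) (diff A B) (hd.gam_fn.ap_mem hn) h) ?_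
  intro g hg
  obtain ⟨h1, h2⟩ := mem_diff.mp hg
  obtain ⟨h3, h4⟩ := mem_sep.mp h1
  refine mem_sep.mpr ⟨h3, mem_diff.mpr ⟨h4, fun h5 => h2 (mem_sep.mpr ⟨h3, h5⟩)⟩⟩

theorem L3_Aset_eq (hd : d.Good) {n A B : M} (hn : n ∈ omega M) (h : d.eqI A B) :
    d.eqI (Aset d n A) (Aset d n B) :=
  ⟨L3_Aset_le hd hn h.1, L3_Aset_le hd hn h.2⟩

theorem L3_mul_mem (hd : d.Good) {g h : M} (hg : g ∈ d.G) (hh : h ∈ d.G) : d.mul g h ∈ d.G :=
  hd.m_fn.ap_mem (pr_mem_prod.mpr ⟨hg, hh⟩)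

theorem L3_Aset_comp (hd : d.Good) {m n l A : M} (hm : m ∈ omega M) (hn : n ∈ omega M)
    (hl : d.gm l = d.mul (d.gm m) (d.gm n)) : Aset d n (Aset d m A) = Aset d l A := by
  refine ext fun g => ?_
  constructor
  · intro hg
    obtain ⟨h1, h2⟩ := mem_sep.mp hg
    obtain ⟨h3, h4⟩ := mem_sep.mp h2
    refine mem_sep.mpr ⟨h1, ?_⟩
    rw [hl, hd.assoc (d.gm m) (d.gm n) g (hd.gam_fn.ap_mem hm) (hd.gam_fn.ap_mem hn) h1]
    exact h4
  · intro hg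
    obtain ⟨h1, h2⟩ := mem_sep.mp hg
    rw [hl, hd.assoc (d.gm m) (d.gm n) g (hd.gam_fn.ap_mem hm) (hd.gam_fn.ap_mem hn) h1] at h2
    exact mem_sep.mpr ⟨h1, mem_sep.mpr ⟨L3_mul_mem hd (hd.gam_fn.ap_mem hn) h1, h2⟩⟩

theorem L3_Aset_one (hd : d.Good) {n A : M} (hn : d.gm n = d.e) (hA : Sub A d.G) :
    Aset d n A = A := by
  refine ext fun g => ?_
  constructor
  · intro hg
    obtain ⟨h1, h2⟩ := mem_sep.mp hg
    rwa [hn, hd.e_mul g h1] at h2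
  · intro hg
    refine mem_sep.mpr ⟨hA g hg, ?_⟩
    rw [hn, hd.e_mul g (hA g hg)]
    exact hg

theorem L3_Aset_inter {n A B : M} :
    Sub (inter (Aset d n A) (Aset d n B)) (Aset d n (inter A B)) := by
  intro g hg
  obtain ⟨h1, h2⟩ := mem_inter.mp hg
  exact mem_sep.mpr ⟨(mem_sep.mp h1).1, mem_inter.mpr ⟨(mem_sep.mp h1).2, (mem_sep.mp h2).2⟩⟩

theorem L3_Aset_I (hd : d.Good) {n A : M} (hn : n ∈ omega M) (hA : A ∈ d.I) :
    Aset d n A ∈ d.I :=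
  hd.I_left (d.gm n) A (hd.gam_fn.ap_mem hn) hA

theorem L3_I_of_le (hd : d.Good) {A B : M} (h : d.leI A B) (hB : B ∈ d.I) : A ∈ d.I := by
  refine hd.I_sub _ _ (Dat.Good.I_union hd h hB) ?_
  intro x hx
  by_cases hxB : x ∈ B
  · exact mem_un.mpr (Or.inr hxB)
  · exact mem_un.mpr (Or.inl (mem_diff.mpr ⟨hx, hxB⟩))

theorem L3_inter_le (hd : d.Good) {A A' B B' : M} (h : d.leI A A') (h' : d.leI B B') :
    d.leI (inter A B) (inter A' B') := by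
  refine hd.I_sub _ _ (Dat.Good.I_union hd h h') ?_
  intro x hx
  obtain ⟨h1, h2⟩ := mem_diff.mp hx
  obtain ⟨h3, h4⟩ := mem_inter.mp h1
  by_cases hxA : x ∈ A'
  · refine mem_un.mpr (Or.inr (mem_diff.mpr ⟨h4, fun h5 => h2 (mem_inter.mpr ⟨hxA, h5⟩)⟩))
  · exact mem_un.mpr (Or.inl (mem_diff.mpr ⟨h3, hxA⟩))

section

variable {F cd y δ k : M}

theorem L3_AC_comp (hd : d.Good) {m n l i j a : M} (hm : m ∈ omega M)
    (hn : n ∈ omega M) (hl : l ∈ omega M) (he : d.gm l = d.mul (d.gm m) (d.gm n))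
    (h1 : AC (tab d y δ k) n j i) (h2 : AC (tab d y δ k) m i a) : AC (tab d y δ k) l j a := by
  rw [AC_tab] at h1 h2 ⊢
  obtain ⟨_, hj, hi, e1⟩ := h1
  obtain ⟨_, _, ha, e2⟩ := h2
  refine ⟨hl, hj, ha, ?_⟩
  have e3 := L3_Aset_eq hd hn e2
  rw [L3_Aset_comp hd hm hn he] at e3
  exact eqI_trans hd e1 e3

theorem L3_AC_uniq (hd : d.Good) (h : Mx d F cd y δ k) {n i j j' : M}
    (h1 : AC (tab d y δ k) n j i) (h2 : AC (tab d y δ k) n j' i) : j = j' := by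
  rw [AC_tab] at h1 h2
  obtain ⟨_, hj, _, e1⟩ := h1
  obtain ⟨_, hj', _, e2⟩ := h2
  exact h.1.inj hj hj' (eqI_trans hd e1 (eqI_symm e2))

theorem L3_AC_ex (hd : d.Good) (h : Mx d F cd y δ k) {n i : M} (hn : n ∈ omega M) (hi : i ∈ δ) :
    ∃ j, j ∈ δ ∧ AC (tab d y δ k) n j i := by
  obtain ⟨j, hj, e⟩ := h.cl3 hd hn hi
  exact ⟨j, hj, AC_tab.mpr ⟨hn, hj, hi, e⟩⟩

theorem L3_AC_one (hd : d.Good) (h : Mx d F cd y δ k) {e i : M} (he : e ∈ omega M)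
    (he' : d.gm e = d.e) (hi : i ∈ δ) : AC (tab d y δ k) e i i := by
  rw [AC_tab, L3_Aset_one hd he' (h.sub hi)]
  exact ⟨he, hi, hi, eqI_refl hd _⟩

theorem L3_AC_inv (hd : d.Good) (h : Mx d F cd y δ k) {n n' i j : M} (hn : n ∈ omega M)
    (hn' : n' ∈ omega M) (he : d.mul (d.gm n) (d.gm n') = d.e)
    (h1 : AC (tab d y δ k) n j i) : AC (tab d y δ k) n' i j := by
  obtain ⟨e, he1, he2⟩ := hd.gam_e
  have hj : j ∈ δ := (AC_tab.mp h1).2.1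
  have hi : i ∈ δ := (AC_tab.mp h1).2.2.1
  obtain ⟨j', hj', h2⟩ := L3_AC_ex hd h hn' hj
  have h3 : AC (tab d y δ k) e j' i := L3_AC_comp hd hn hn' he1 (he2.trans he.symm) h2 h1
  have h4 : j' = i := L3_AC_uniq hd h h3 (L3_AC_one hd h he1 he2 hi)
  rwa [h4] at h2

theorem L3_AC_le (hd : d.Good) {n i j i' j' : M}
    (h1 : AC (tab d y δ k) n j i) (h2 : AC (tab d y δ k) n j' i')
    (hle : LE (tab d y δ k) i i') : LE (tab d y δ k) j j' := by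
  rw [AC_tab] at h1 h2
  obtain ⟨hn, hj, hi, e1⟩ := h1
  obtain ⟨_, hj', hi', e2⟩ := h2
  rw [LE_tab hi hi'] at hle
  rw [LE_tab hj hj']
  exact leI_trans hd e1.1 (leI_trans hd (L3_Aset_le hd hn hle) e2.2)

theorem L3_AC_NZ (hd : d.Good) (h : Mx d F cd y δ k) {n i j : M}
    (h1 : AC (tab d y δ k) n j i) (hj : NZ (tab d y δ k) j) : NZ (tab d y δ k) i := by
  rw [AC_tab] at h1
  obtain ⟨hn, hj', hi, e1⟩ := h1
  rw [h.NZ_iff hd hi]
  rw [h.NZ_iff hd hj'] at hj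
  exact fun hI => hj (L3_I_of_le hd e1.1 (L3_Aset_I hd hn hI))

theorem L3_AC_Cmp (hd : d.Good) (h : Mx d F cd y δ k) {n i j i' j' : M}
    (h1 : AC (tab d y δ k) n j i) (h2 : AC (tab d y δ k) n j' i')
    (hc : Cmp (tab d y δ k) j j') : Cmp (tab d y δ k) i i' := by
  rw [AC_tab] at h1 h2
  obtain ⟨hn, hj, hi, e1⟩ := h1
  obtain ⟨_, hj', hi', e2⟩ := h2
  rw [h.Cmp_iff hd hi hi']
  rw [h.Cmp_iff hd hj hj'] at hc
  intro hI
  refine hc (L3_I_of_le hd (L3_inter_le hd e1.1 e2.1) ?_)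
  exact hd.I_sub _ _ (L3_Aset_I hd hn hI) L3_Aset_inter

theorem L3_mem_actS {n x i : M} :
    i ∈ actS (tab d y δ k) n x ↔ ∃ j, j ∈ x ∧ AC (tab d y δ k) n j i := by
  rw [actS, mem_sep, fst_tab]
  constructor
  · exact fun h => h.2
  · rintro ⟨j, hj, h1⟩
    exact ⟨(AC_tab.mp h1).2.2.1, j, hj, h1⟩

theorem L3_mem_actS_iff (hd : d.Good) (h : Mx d F cd y δ k) {n x i j : M}
    (h1 : AC (tab d y δ k) n j i) : i ∈ actS (tab d y δ k) n x ↔ j ∈ x := by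
  rw [L3_mem_actS]
  constructor
  · rintro ⟨j', hj', h2⟩
    rwa [L3_AC_uniq hd h h1 h2]
  · exact fun hj => ⟨j, hj, h1⟩

theorem L3_actS_mem (hd : d.Good) (h : Mx d F cd y δ k) {n x : M} (hn : n ∈ omega M)
    (hx : x ∈ St (tab d y δ k)) : actS (tab d y δ k) n x ∈ St (tab d y δ k) := by
  obtain ⟨n', hn', he, he'⟩ := hd.gam_inv n hn
  rw [mem_St, fst_tab] at hx ⊢
  obtain ⟨hxδ, u1, u2, u3, u4, u5⟩ := hx
  rw [fst_tab] at u3 u5
  -- every `j ∈ δ` is `A_n i` for some `i`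
  have hs : ∀ j, j ∈ δ → ∃ i, i ∈ δ ∧ AC (tab d y δ k) n j i := by
    intro j hj
    obtain ⟨i, hi, h1⟩ := L3_AC_ex hd h hn' hj
    exact ⟨i, hi, L3_AC_inv hd h hn' hn he' h1⟩
  refine ⟨fun i hi => ?_, ?_, ?_, ?_, ?_, ?_⟩
  · obtain ⟨j, _, h1⟩ := L3_mem_actS.mp hi
    exact (AC_tab.mp h1).2.2.1
  · obtain ⟨j, hj⟩ := u1
    obtain ⟨i, _, h1⟩ := hs j (hxδ j hj)
    exact ⟨i, L3_mem_actS.mpr ⟨j, hj, h1⟩⟩
  · intro i hi
    obtain ⟨j, hj, h1⟩ := L3_mem_actS.mp hi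
    exact L3_AC_NZ hd h h1 (u2 j hj)
  · intro i i' hi hi' hle
    rw [fst_tab] at hi'
    obtain ⟨j, hj, h1⟩ := L3_mem_actS.mp hi
    obtain ⟨j', hj', h2⟩ := L3_AC_ex hd h hn hi'
    exact L3_mem_actS.mpr ⟨j', u3 j j' hj hj' (L3_AC_le hd h1 h2 hle), h2⟩
  · intro i i' hi hi'
    obtain ⟨j, hj, h1⟩ := L3_mem_actS.mp hi
    obtain ⟨j', hj', h2⟩ := L3_mem_actS.mp hi'
    obtain ⟨l, hl, h3, h4⟩ := u4 j j' hj hj'
    obtain ⟨a, _, h5⟩ := hs l (hxδ l hl)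
    have g1 := L3_AC_inv hd h hn hn' he h1
    have g2 := L3_AC_inv hd h hn hn' he h2
    have g3 := L3_AC_inv hd h hn hn' he h5
    exact ⟨a, L3_mem_actS.mpr ⟨l, hl, h5⟩, L3_AC_le hd g3 g1 h3, L3_AC_le hd g3 g2 h4⟩
  · intro i hi hi'
    rw [fst_tab] at hi
    obtain ⟨j, hj, h1⟩ := L3_AC_ex hd h hn hi
    obtain ⟨j', hj', h2⟩ := u5 j hj fun hjx => hi' (L3_mem_actS.mpr ⟨j, hjx, h1⟩)
    obtain ⟨i', _, h3⟩ := hs j' (hxδ j' hj')
    refine ⟨i', L3_mem_actS.mpr ⟨j', hj', h3⟩, fun hc => h2 ?_⟩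
    exact L3_AC_Cmp hd h (L3_AC_inv hd h hn hn' he h1) (L3_AC_inv hd h hn hn' he h3) hc

theorem L3_actS_comp (hd : d.Good) (h : Mx d F cd y δ k) {m n l x : M} (hm : m ∈ omega M)
    (hn : n ∈ omega M) (hl : l ∈ omega M) (he : d.gm l = d.mul (d.gm m) (d.gm n)) :
    actS (tab d y δ k) l x = actS (tab d y δ k) m (actS (tab d y δ k) n x) := by
  refine ext fun a => ?_
  constructor
  · intro ha
    obtain ⟨j, hj, h1⟩ := L3_mem_actS.mp ha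
    have haδ : a ∈ δ := (AC_tab.mp h1).2.2.1
    obtain ⟨i, hi, h2⟩ := L3_AC_ex hd h hm haδ
    obtain ⟨j', hj', h3⟩ := L3_AC_ex hd h hn hi
    have h4 := L3_AC_comp hd hm hn hl he h3 h2
    rw [← L3_AC_uniq hd h h1 h4] at h3
    exact L3_mem_actS.mpr ⟨i, L3_mem_actS.mpr ⟨j, hj, h3⟩, h2⟩
  · intro ha
    obtain ⟨i, hi, h1⟩ := L3_mem_actS.mp ha
    obtain ⟨j, hj, h2⟩ := L3_mem_actS.mp hi
    exact L3_mem_actS.mpr ⟨j, hj, L3_AC_comp hd hm hn hl he h2 h1⟩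

theorem L3_actS_one (hd : d.Good) (h : Mx d F cd y δ k) {e x : M} (he : e ∈ omega M)
    (he' : d.gm e = d.e) (hx : Sub x δ) : actS (tab d y δ k) e x = x := by
  refine ext fun i => ?_
  constructor
  · intro hi
    obtain ⟨j, hj, h1⟩ := L3_mem_actS.mp hi
    have hiδ : i ∈ δ := (AC_tab.mp h1).2.2.1
    rwa [L3_AC_uniq hd h h1 (L3_AC_one hd h he he' hiδ)] at hj
  · intro hi
    exact L3_mem_actS.mpr ⟨i, hi, L3_AC_one hd h he he' (hx i hi)⟩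

end

theorem Mx.hact (hd : d.Good) {F cd y δ k : M} (h : Mx d F cd y δ k) :
    HAct (St (tab d y δ k)) (BS (tab d y δ k)) (actF (tab d y δ k)) := by
  have hsub : ∀ x, x ∈ St (tab d y δ k) → Sub x δ := by
    intro x hx
    have := (mem_St.mp hx).1
    rwa [fst_tab] at this
  obtain ⟨e, he1, he2⟩ := hd.gam_e
  refine ⟨?_, ?_, ?_, ?_, ?_, ?_⟩
  · exact isFun_lam' fun p hp => L3_actS_mem hd h (fst_mem hp) (snd_mem hp)
  · intro m u hm hu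
    obtain ⟨i, hi, rfl⟩ := mem_BS.mp hu
    have hiδ : i ∈ δ := by
      have := hi.1
      rwa [fst_tab] at this
    obtain ⟨j, hj, h1⟩ := L3_AC_ex hd h hm hiδ
    obtain ⟨m', hm', he, he'⟩ := hd.gam_inv m hm
    refine mem_BS.mpr ⟨j, L3_AC_NZ hd h (L3_AC_inv hd h hm hm' he h1) hi, ?_⟩
    refine ext fun x => ?_
    refine mem_sep.trans (Iff.trans ?_ mem_bas.symm)
    refine and_congr_right fun hx => ?_
    rw [sg_actF hm hx, mem_bas]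
    exact ⟨fun hh => (L3_mem_actS_iff hd h h1).mp hh.2,
      fun hh => ⟨L3_actS_mem hd h hm hx, (L3_mem_actS_iff hd h h1).mpr hh⟩⟩
  · refine ⟨e, he1, fun x hx => ?_⟩
    rw [sg_actF he1 hx, L3_actS_one hd h he1 he2 (hsub x hx)]
  · intro m n hm hn
    obtain ⟨l, hl, he⟩ := hd.gam_mul m n hm hn
    refine ⟨l, hl, fun x hx => ?_⟩
    rw [sg_actF hl hx, sg_actF hn hx, sg_actF hm (L3_actS_mem hd h hn hx),
      L3_actS_comp hd h hm hn hl he]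
  · intro m hm
    obtain ⟨n, hn, he, he'⟩ := hd.gam_inv m hm
    refine ⟨n, hn, fun x hx => ⟨?_, ?_⟩⟩
    · rw [sg_actF hm hx, sg_actF hn (L3_actS_mem hd h hm hx),
        ← L3_actS_comp hd h hn hm he1 (he2.trans he'.symm), L3_actS_one hd h he1 he2 (hsub x hx)]
    · rw [sg_actF hn hx, sg_actF hm (L3_actS_mem hd h hn hx),
        ← L3_actS_comp hd h hm hn he1 (he2.trans he.symm), L3_actS_one hd h he1 he2 (hsub x hx)]
  · intro u v hu hv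
    obtain ⟨i, hi, rfl⟩ := mem_BS.mp hu
    obtain ⟨j, hj, rfl⟩ := mem_BS.mp hv
    have hiδ : i ∈ δ := by
      have := hi.1
      rwa [fst_tab] at this
    have hjδ : j ∈ δ := by
      have := hj.1
      rwa [fst_tab] at this
    obtain ⟨n, hn, hI⟩ := hd.I_trans (ap k i) (ap k j) (h.fn.ap_mem hiδ) (h.fn.ap_mem hjδ)
      ((h.NZ_iff hd hiδ).mp hi) ((h.NZ_iff hd hjδ).mp hj)
    obtain ⟨a, ha, h1⟩ := L3_AC_ex hd h hn hjδ
    have hcm : Cmp (tab d y δ k) i a := by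
      rw [h.Cmp_iff hd hiδ ha]
      intro hI'
      apply hI
      have h2 := (AC_tab.mp h1).2.2.2
      have h3 : inter (ap k i) (Aset d n (ap k j)) ∈ d.I := by
        refine L3_I_of_le hd (L3_inter_le hd (eqI_refl hd _).1 h2.2) hI'
      refine hd.I_sub _ _ h3 ?_
      intro g hg
      obtain ⟨h4, h5⟩ := mem_sep.mp hg
      exact mem_inter.mpr ⟨h4, mem_sep.mpr ⟨h.sub hiδ g h4, h5⟩⟩
    have hc := h.tabOK hd
    obtain ⟨x, hx, hix, hax⟩ := (hc.cmp_iff (by rwa [fst_tab]) (by rwa [fst_tab])).mp hcm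
    refine ⟨n, hn, x, mem_bas.mpr ⟨hx, hix⟩, ?_⟩
    rw [sg_actF hn hx]
    exact mem_bas.mpr ⟨L3_actS_mem hd h hn hx, (L3_mem_actS_iff hd h h1).mpr hax⟩

/-- preimages of meager sets under the action are meager -/
theorem HAct.mgr {P B act A m : M} (hB : Base P B) (h : HAct P B act) (hm : m ∈ omega M)
    (hA : Mgr B P A) : Mgr B P (sep P (fun x => sg act m x ∈ A)) := by
  obtain ⟨_, O, hO, hod, hAO⟩ := hA
  obtain ⟨m', hm', hinv⟩ := h.inv m hm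
  refine ⟨sep_sub, lam (omega M) (fun n => sep P (fun x => sg act m x ∈ ap O n)),
    isFun_lam' fun n _ => sep_mem_pow, ?_, ?_⟩
  · intro n hn
    rw [ap_lam' hn]
    intro u hu
    obtain ⟨v', hv', h1, h2⟩ := hod n hn _ (h.pre m' u hm' hu)
    refine ⟨_, h.pre m v' hm hv', ?_, ?_⟩
    · intro x hx
      obtain ⟨hxP, hx'⟩ := mem_sep.mp hx
      have h3 := (mem_sep.mp (h1 _ hx')).2
      rwa [(hinv x hxP).1] at h3
    · intro x hx
      obtain ⟨hxP, hx'⟩ := mem_sep.mp hx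
      exact mem_sep.mpr ⟨hxP, h2 _ hx'⟩
  · intro x hx
    obtain ⟨hxP, hx'⟩ := mem_sep.mp hx
    obtain ⟨n, hn, h1⟩ := hAO _ hx'
    refine ⟨n, hn, ?_⟩
    rw [ap_lam' hn]
    exact fun h2 => h1 (mem_sep.mp h2).2

end Pool.Agent.Lib.MP_f5c99b_lc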