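import Pool.Agent.Lib.MP_7b07e0_lc.Stmt
import Pool.Agent.Lib.MP_7b07e0_lc.Data

/-! Separable metric spaces of the model as spaces with a countable base. (ROWS G1, G2, G3, G4)

Facts on the real field `K` of the model: `toF`, `DR`, `nu` (the embedding of the natural numbers),
`archimedean`, see `MP_f5c99b_lc/Core.lean`, lines 850-1340. -/

namespace Pool.Agent.Lib.MP_f5c99b_lc

open Pool.Agent.Lib.MP_7b07e0_lc

universe u

variable {M : Type u} [Membership M M] [hZF : Fact (IsModelOfZF M)]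

section metric

variable (S : SepMetricSpace M)

/-- the distance, as a set of `M` -/
noncomputable def dstv (x y : M) : M := iota (fun r => r ∈ S.K.R ∧ pr (pr x y) r ∈ S.ρ)

instance DT_dstv (t1 t2 : (ℕ → M) → M) [DT t1] [DT t2] :
    DT (fun v => dstv S (t1 v) (t2 v)) := by
  refine DT2 (f := dstv S) ?_ t1 t2
  unfold dstv
  infer_instance

/-- the distance, as a total function on `M` -/
noncomputable def dst (x y : M) : El S.K.R := toF S.K (dstv S x y)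

instance DR_dst (t1 t2 : (ℕ → M) → M) [DT t1] [DT t2] :
    DR S.K (fun v => dst S (t1 v) (t2 v)) := by
  unfold dst
  infer_instance

theorem dst_eq (x y : El S.X) : dst S x.1 y.1 = S.dist x y := by
  have h : dstv S x.1 y.1 = (S.dist x y).1 := by
    unfold dstv
    refine iota_eq ⟨(S.dist x y).2, ?_⟩ ?_
    · exact app2_iff.mp ((S.dist_iff x y (S.dist x y)).mpr rfl)
    · rintro r ⟨hr, hp⟩
      have h1 := (S.dist_iff x y ⟨r, hr⟩).mp (app2_iff.mpr hp)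
      rw [h1]
  unfold dst
  rw [h, toF_val]

/-- the open ball of radius `1 / (n + 1)` -/
noncomputable def ball (x n : M) : M := sep S.X (fun y => dst S x y * (nu S.K n + 1) < 1)

theorem DT_ball_aux : DT (fun v : ℕ → M => ball S (v 0) (v 1)) := by
  have : DR S.K (fun _ : ℕ → M => (1 : El S.K.R)) := inferInstance
  unfold ball
  infer_instance

instance DT_ball (t1 t2 : (ℕ → M) → M) [DT t1] [DT t2] :
    DT (fun v => ball S (t1 v) (t2 v)) := DT2 (f := ball S) (DT_ball_aux S) t1 t2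

/-- the base of balls of radius `1 / (n + 1)` with centre in the sequence `D` -/
noncomputable def mB (D : M) : M :=
  img (prod (omega M) (omega M)) (fun p => ball S (ap D (fst p)) (snd p))

instance DT_mB (t1 : (ℕ → M) → M) [DT t1] : DT (fun v => mB S (t1 v)) := by
  refine DT1 (f := mB S) ?_ t1
  unfold mB
  infer_instance

/-- the sequence `D` is dense in `S` -/
structure Dense (D : M) : Prop where
  fn : IsFun D (omega M) S.X
  dense : ∀ x n, x ∈ S.X → n ∈ omega M → ∃ m, m ∈ omega M ∧ ap D m ∈ ball S x n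

/-- `φ` is a homeomorphism of `S` onto itself with inverse `ψ` -/
structure Homeo (φ ψ : M) : Prop where
  fn : IsFun φ S.X S.X
  fn' : IsFun ψ S.X S.X
  left : ∀ x, x ∈ S.X → ap ψ (ap φ x) = x
  right : ∀ x, x ∈ S.X → ap φ (ap ψ x) = x
  cts : ∀ x n, x ∈ S.X → n ∈ omega M → ∃ m, m ∈ omega M ∧
    ∀ y, y ∈ ball S x m → ap φ y ∈ ball S (ap φ x) n
  cts' : ∀ x n, x ∈ S.X → n ∈ omega M → ∃ m, m ∈ omega M ∧
    ∀ y, y ∈ ball S x m → ap ψ y ∈ ball S (ap ψ x) n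

end metric

variable {S : SepMetricSpace M}

theorem G1_eq {x y : M} (hx : x ∈ S.X) (hy : y ∈ S.X) : dst S x y = S.dist ⟨x, hx⟩ ⟨y, hy⟩ :=
  dst_eq S ⟨x, hx⟩ ⟨y, hy⟩

theorem G1_self {x : M} (hx : x ∈ S.X) : dst S x x = 0 := by
  rw [G1_eq hx hx]
  exact (S.dist_eq_zero _ _).mpr rfl

theorem G1_comm {x y : M} (hx : x ∈ S.X) (hy : y ∈ S.X) : dst S x y = dst S y x := by
  rw [G1_eq hx hy, G1_eq hy hx]
  exact S.dist_comm _ _

theorem G1_tri {x y z : M} (hx : x ∈ S.X) (hy : y ∈ S.X) (hz : z ∈ S.X) :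
    dst S x z ≤ dst S x y + dst S y z := by
  rw [G1_eq hx hz, G1_eq hx hy, G1_eq hy hz]
  exact S.dist_triangle _ _ _

theorem G1_nonneg {x y : M} (hx : x ∈ S.X) (hy : y ∈ S.X) : 0 ≤ dst S x y := by
  have h := G1_tri hx hy hx
  rw [G1_self hx, G1_comm hy hx] at h
  linarith

theorem G1_eq_of {x y : M} (hx : x ∈ S.X) (hy : y ∈ S.X) (h : dst S x y = 0) : x = y := by
  rw [G1_eq hx hy] at h
  exact congrArg Subtype.val ((S.dist_eq_zero _ _).mp h)

theorem G1_mem_ball {x n y : M} : y ∈ ball S x n ↔ y ∈ S.X ∧ dst S x y * (nu S.K n + 1) < 1 := by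
  have h1 : DR S.K (fun _ : ℕ → M => (1 : El S.K.R)) := inferInstance
  unfold ball
  exact mem_sep

theorem G1_ball_sub {x n : M} : Sub (ball S x n) S.X := fun _ hy => (G1_mem_ball.mp hy).1

theorem G1_pos {n : M} (hn : n ∈ omega M) : 0 < nu S.K n + 1 := by
  have := nu_nonneg (K := S.K) n hn
  linarith

theorem G1_self_mem {x n : M} (hx : x ∈ S.X) : x ∈ ball S x n := by
  rw [G1_mem_ball, G1_self hx, zero_mul]
  exact ⟨hx, zero_lt_one⟩

theorem G1_ball_comm {x y n : M} (hx : x ∈ S.X) (h : y ∈ ball S x n) : x ∈ ball S y n := by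
  rw [G1_mem_ball] at h ⊢
  rw [G1_comm h.1 hx]
  exact ⟨hx, h.2⟩

theorem G1_mem_mB {D u : M} : u ∈ mB S D ↔ ∃ m n, m ∈ omega M ∧ n ∈ omega M ∧
    u = ball S (ap D m) n := by
  unfold mB
  rw [mem_img]
  constructor
  · rintro ⟨p, hp, rfl⟩
    exact ⟨fst p, snd p, fst_mem hp, snd_mem hp, rfl⟩
  · rintro ⟨m, n, hm, hn, rfl⟩
    exact ⟨pr m n, pr_mem_prod.mpr ⟨hm, hn⟩, by rw [fst_pr, snd_pr]⟩

/-- balls of small radius around points near `x` are contained in a given ball with `x` in it -/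
theorem G1_small {a x n : M} (ha : a ∈ S.X) (hn : n ∈ omega M) (hx : x ∈ ball S a n) :
    ∃ N, N ∈ omega M ∧ ∀ N' c, N' ∈ omega M → c ∈ S.X → nu S.K N ≤ nu S.K N' → x ∈ ball S c N' →
      Sub (ball S c N') (ball S a n) := by
  obtain ⟨hxX, hx1⟩ := G1_mem_ball.mp hx
  have hn1 := G1_pos (S := S) hn
  have hε : 0 < 1 - dst S a x * (nu S.K n + 1) := by linarith
  obtain ⟨N, hN, hN1⟩ := archimedean (K := S.K)
    (2 * (nu S.K n + 1) / (1 - dst S a x * (nu S.K n + 1)))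
  refine ⟨N, hN, fun N' c hN' hc hle hxc y hy => ?_⟩
  obtain ⟨hyX, hy1⟩ := G1_mem_ball.mp hy
  obtain ⟨_, hx2⟩ := G1_mem_ball.mp hxc
  rw [G1_mem_ball]
  refine ⟨hyX, ?_⟩
  have hN'1 := G1_pos (S := S) hN'
  have t1 := G1_tri ha hxX hyX
  have t2 := G1_tri hxX hc hyX
  rw [G1_comm hxX hc] at t2
  rw [div_lt_iff₀ hε] at hN1
  have h3 : 2 * (nu S.K n + 1) < (nu S.K N' + 1) * (1 - dst S a x * (nu S.K n + 1)) := by
    have h4 : nu S.K N * (1 - dst S a x * (nu S.K n + 1)) ≤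
        (nu S.K N' + 1) * (1 - dst S a x * (nu S.K n + 1)) :=
      mul_le_mul_of_nonneg_right (by linarith) hε.le
    linarith
  have h5 : dst S x y * (nu S.K N' + 1) < 2 := by
    have h6 : dst S x y * (nu S.K N' + 1) ≤ (dst S c x + dst S c y) * (nu S.K N' + 1) :=
      mul_le_mul_of_nonneg_right t2 hN'1.le
    linarith [h6, add_mul (dst S c x) (dst S c y) (nu S.K N' + 1)]
  -- multiply everything by nu N' + 1
  have h7 : dst S x y * (nu S.K n + 1) * (nu S.K N' + 1) < (1 - dst S a x * (nu S.K n + 1)) * (nu S.K N' + 1) := by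
    have h8 : dst S x y * (nu S.K N' + 1) * (nu S.K n + 1) < 2 * (nu S.K n + 1) :=
      mul_lt_mul_of_pos_right h5 hn1
    linarith [mul_right_comm (dst S x y) (nu S.K N' + 1) (nu S.K n + 1),
      mul_comm (nu S.K N' + 1) (1 - dst S a x * (nu S.K n + 1))]
  have h9 : dst S x y * (nu S.K n + 1) < 1 - dst S a x * (nu S.K n + 1) :=
    lt_of_mul_lt_mul_right h7 hN'1.le
  have h10 : dst S a y * (nu S.K n + 1) ≤ (dst S a x + dst S x y) * (nu S.K n + 1) :=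
    mul_le_mul_of_nonneg_right t1 hn1.le
  rw [add_mul] at h10
  linarith

theorem G1_max {m n : M} (hm : m ∈ omega M) (hn : n ∈ omega M) :
    ∃ l, l ∈ omega M ∧ nu S.K m ≤ nu S.K l ∧ nu S.K n ≤ nu S.K l := by
  rcases le_total (nu S.K m) (nu S.K n) with h | h
  · exact ⟨n, hn, h, le_refl _⟩
  · exact ⟨m, hm, le_refl _, h⟩

/-- (ROW G1) -/
theorem Dense.sp {D : M} (hD : Dense S D) : Sp S.X (mB S D) := by
  have hDm : ∀ m, m ∈ omega M → ap D m ∈ S.X := fun m hm => hD.fn.ap_mem hm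
  have hnu : DR S.K (fun v : ℕ → M => nu S.K (snd (v 0))) := inferInstance
  let Sf : M := lam (omega M) (fun n => img (sep (prod (omega M) (omega M))
    (fun p => nu S.K n ≤ nu S.K (snd p))) (fun p => ball S (ap D (fst p)) (snd p)))
  have hS : ∀ n v, n ∈ omega M → (v ∈ ap Sf n ↔ ∃ m l, m ∈ omega M ∧ l ∈ omega M ∧
      nu S.K n ≤ nu S.K l ∧ v = ball S (ap D m) l) := by
    intro n v hn
    rw [ap_lam' hn, mem_img]
    constructor
    · rintro ⟨p, hp, rfl⟩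
      obtain ⟨h1, h2⟩ := mem_sep.mp hp
      exact ⟨fst p, snd p, fst_mem h1, snd_mem h1, h2, rfl⟩
    · rintro ⟨m, l, hm, hl, h2, rfl⟩
      refine ⟨pr m l, mem_sep.mpr ⟨pr_mem_prod.mpr ⟨hm, hl⟩, ?_⟩, ?_⟩
      · rw [snd_pr]; exact h2
      · rw [fst_pr, snd_pr]
  have hbase : Base S.X (mB S D) := by
    refine ⟨?_, ?_, ?_, ?_, ?_⟩
    · intro u hu
      obtain ⟨m, n, hm, hn, rfl⟩ := G1_mem_mB.mp hu
      exact G1_ball_sub
    · intro u hu
      obtain ⟨m, n, hm, hn, rfl⟩ := G1_mem_mB.mp hu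
      exact ⟨_, G1_self_mem (hDm m hm)⟩
    · exact (ctbl_omega.prod ctbl_omega).img _
    · intro x hx
      obtain ⟨m, hm, h1⟩ := hD.dense x emp hx ind_omega.1
      exact ⟨_, G1_mem_mB.mpr ⟨m, emp, hm, ind_omega.1, rfl⟩, G1_ball_comm hx h1⟩
    · intro u v x hu hv hxu hxv
      obtain ⟨m, n, hm, hn, rfl⟩ := G1_mem_mB.mp hu
      obtain ⟨m', n', hm', hn', rfl⟩ := G1_mem_mB.mp hv
      have hx := G1_ball_sub _ hxu
      obtain ⟨N, hN, h1⟩ := G1_small (hDm m hm) hn hxu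
      obtain ⟨N', hN', h2⟩ := G1_small (hDm m' hm') hn' hxv
      obtain ⟨l, hl, hl1, hl2⟩ := G1_max (S := S) hN hN'
      obtain ⟨c, hc, h3⟩ := hD.dense x l hx hl
      have h4 := G1_ball_comm hx h3
      exact ⟨_, G1_mem_mB.mpr ⟨c, l, hc, hl, rfl⟩, h4, h1 l _ hl (hDm c hc) hl1 h4,
        h2 l _ hl (hDm c hc) hl2 h4⟩
  refine ⟨hbase, Sf, ?_, ?_, ?_⟩
  · refine isFun_lam' fun n hn => ?_
    rw [mem_pow]
    intro v hv
    have hv' : v ∈ ap Sf n := by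
      show v ∈ ap (lam (omega M) (fun n => img (sep (prod (omega M) (omega M))
        (fun p => nu S.K n ≤ nu S.K (snd p))) (fun p => ball S (ap D (fst p)) (snd p)))) n
      rw [ap_lam' hn]
      exact hv
    obtain ⟨m, l, hm, hl, _, rfl⟩ := (hS n v hn).mp hv'
    exact G1_mem_mB.mpr ⟨m, l, hm, hl, rfl⟩
  · intro n u x hn hu hx
    obtain ⟨m, k, hm, hk, rfl⟩ := G1_mem_mB.mp hu
    have hxX := G1_ball_sub _ hx
    obtain ⟨N, hN, h1⟩ := G1_small (hDm m hm) hk hx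
    obtain ⟨l, hl, hl1, hl2⟩ := G1_max (S := S) hN hn
    obtain ⟨c, hc, h3⟩ := hD.dense x l hxX hl
    have h4 := G1_ball_comm hxX h3
    exact ⟨_, (hS n _ hn).mpr ⟨c, l, hc, hl, hl2, rfl⟩, h4, h1 l _ hl (hDm c hc) hl1 h4⟩
  · intro f x y hf hfS hxy
    have hX : x ∈ S.X ∧ y ∈ S.X := by
      have h0 := hxy emp ind_omega.1
      have h1 := hbase.sub _ (hf.ap_mem ind_omega.1)
      exact ⟨h1 _ h0.1, h1 _ h0.2⟩
    obtain ⟨hx, hy⟩ := hX
    by_contra hne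
    have hpos : 0 < dst S x y := lt_of_le_of_ne (G1_nonneg hx hy)
      (fun h => hne (G1_eq_of hx hy h.symm))
    obtain ⟨n, hn, h1⟩ := archimedean (K := S.K) (2 / dst S x y)
    rw [div_lt_iff₀ hpos] at h1
    obtain ⟨m, l, hm, hl, hnl, he⟩ := (hS n _ hn).mp (hfS n hn)
    obtain ⟨h2, h3⟩ := hxy n hn
    rw [he] at h2 h3
    obtain ⟨_, h4⟩ := G1_mem_ball.mp h2
    obtain ⟨_, h5⟩ := G1_mem_ball.mp h3
    have hc := hDm m hm
    have t := G1_tri hx hc hy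
    rw [G1_comm hx hc] at t
    have hl1 := G1_pos (S := S) hl
    have h6 : dst S x y * (nu S.K l + 1) ≤ (dst S (ap D m) x + dst S (ap D m) y) * (nu S.K l + 1) :=
      mul_le_mul_of_nonneg_right t hl1.le
    rw [add_mul] at h6
    have h7 : nu S.K n * dst S x y ≤ (nu S.K l + 1) * dst S x y :=
      mul_le_mul_of_nonneg_right (by linarith) hpos.le
    linarith [mul_comm (nu S.K l + 1) (dst S x y)]

theorem G2_nonneg {x y : M} (hx : x ∈ S.X) (hy : y ∈ S.X) : 0 ≤ dst S x y := by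
  have e1 := dst_eq S ⟨x, hx⟩ ⟨y, hy⟩
  have h1 := S.dist_triangle ⟨x, hx⟩ ⟨y, hy⟩ ⟨x, hx⟩
  have h2 := (S.dist_eq_zero ⟨x, hx⟩ ⟨x, hx⟩).mpr rfl
  have h3 := S.dist_comm ⟨x, hx⟩ ⟨y, hy⟩
  rw [h2, ← h3] at h1
  have e1' : dst S x y = S.dist ⟨x, hx⟩ ⟨y, hy⟩ := e1
  rw [e1']
  linarith

theorem G2_self {x : M} (hx : x ∈ S.X) : dst S x x = 0 := by
  have e1 : dst S x x = S.dist ⟨x, hx⟩ ⟨x, hx⟩ := dst_eq S ⟨x, hx⟩ ⟨x, hx⟩
  rw [e1]
  exact (S.dist_eq_zero ⟨x, hx⟩ ⟨x, hx⟩).mpr rfl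

theorem G2_comm {x y : M} (hx : x ∈ S.X) (hy : y ∈ S.X) : dst S x y = dst S y x := by
  have e1 : dst S x y = S.dist ⟨x, hx⟩ ⟨y, hy⟩ := dst_eq S ⟨x, hx⟩ ⟨y, hy⟩
  have e2 : dst S y x = S.dist ⟨y, hy⟩ ⟨x, hx⟩ := dst_eq S ⟨y, hy⟩ ⟨x, hx⟩
  rw [e1, e2]
  exact S.dist_comm _ _

theorem G2_tri {x y z : M} (hx : x ∈ S.X) (hy : y ∈ S.X) (hz : z ∈ S.X) :
    dst S x z ≤ dst S x y + dst S y z := by
  have e1 : dst S x y = S.dist ⟨x, hx⟩ ⟨y, hy⟩ := dst_eq S ⟨x, hx⟩ ⟨y, hy⟩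
  have e2 : dst S y z = S.dist ⟨y, hy⟩ ⟨z, hz⟩ := dst_eq S ⟨y, hy⟩ ⟨z, hz⟩
  have e3 : dst S x z = S.dist ⟨x, hx⟩ ⟨z, hz⟩ := dst_eq S ⟨x, hx⟩ ⟨z, hz⟩
  rw [e1, e2, e3]
  exact S.dist_triangle _ _ _

theorem G2_mem_ball {x n y : M} :
    y ∈ ball S x n ↔ y ∈ S.X ∧ dst S x y * (nu S.K n + 1) < 1 := by
  have : DR S.K (fun _ : ℕ → M => (1 : El S.K.R)) := inferInstance
  exact mem_sep

theorem G2_mem_mB {D u : M} : u ∈ mB S D ↔
    ∃ i n, i ∈ omega M ∧ n ∈ omega M ∧ u = ball S (ap D i) n := by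
  rw [mB, mem_img]
  constructor
  · rintro ⟨p, hp, rfl⟩
    exact ⟨fst p, snd p, fst_mem hp, snd_mem hp, rfl⟩
  · rintro ⟨i, n, hi, hn, rfl⟩
    exact ⟨pr i n, pr_mem_prod.mpr ⟨hi, hn⟩, by rw [fst_pr, snd_pr]⟩

theorem G2_center {x n : M} (hx : x ∈ S.X) : x ∈ ball S x n := by
  rw [G2_mem_ball, G2_self hx]
  exact ⟨hx, by simp⟩

theorem G2_nu_mono {K : RealField M} {m n : M} (hm : m ∈ omega M) (hn : n ∈ omega M)
    (h : Sub m n) : nu K m ≤ nu K n := by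
  refine omega_induction (fun n => ∀ m, m ∈ omega M → Sub m n → nu K m ≤ nu K n) ?_ ?_ n hn m hm h
  · intro m hm h
    rcases omega_zero_or hm with rfl | h1
    · exact le_refl _
    · exact (not_mem_emp _ (h _ h1)).elim
  · intro n hn ih m hm h
    rcases (omega_sub_iff hm (suc_mem_omega hn)).mp h with h1 | rfl
    · rcases mem_suc.mp h1 with h2 | rfl
      · have := ih m hm ((omega_sub_iff hm hn).mpr (Or.inl h2))
        rw [nu_suc hn]
        linarith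
      · rw [nu_suc hn]
        linarith
    · exact le_refl _

theorem G2_max {m n : M} (hm : m ∈ omega M) (hn : n ∈ omega M) :
    ∃ k, k ∈ omega M ∧ Sub m k ∧ Sub n k := by
  rcases omega_tri hm hn with h | h | h
  · exact ⟨n, hn, (omega_sub_iff hm hn).mpr (Or.inl h), Sub.refl _⟩
  · exact ⟨n, hn, (omega_sub_iff hm hn).mpr (Or.inr h), Sub.refl _⟩
  · exact ⟨m, hm, Sub.refl _, (omega_sub_iff hn hm).mpr (Or.inl h)⟩

/-- closed balls of large index are contained in an open ball -/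
theorem G2_shrink {c x j : M} (hc : c ∈ S.X) (hj : j ∈ omega M) (hx : x ∈ ball S c j) (a : El S.K.R) :
    ∃ k, k ∈ omega M ∧ a ≤ nu S.K k ∧
      ∀ y, y ∈ S.X → dst S x y * (nu S.K k + 1) ≤ 1 → dst S c y * (nu S.K j + 1) < 1 := by
  obtain ⟨hxX, h1⟩ := G2_mem_ball.mp hx
  have hj0 := nu_nonneg (K := S.K) j hj
  -- the rest
  obtain ⟨r, hr⟩ : ∃ r : El S.K.R, r = 1 - dst S c x * (nu S.K j + 1) := ⟨_, rfl⟩
  have hr0 : 0 < r := by rw [hr]; linarith
  obtain ⟨k, hk, h2⟩ := archimedean (K := S.K) (max a ((nu S.K j + 1) / r))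
  have h3 : a < nu S.K k := lt_of_le_of_lt (le_max_left _ _) h2
  have h4 : (nu S.K j + 1) / r < nu S.K k := lt_of_le_of_lt (le_max_right _ _) h2
  rw [div_lt_iff₀ hr0] at h4
  refine ⟨k, hk, h3.le, fun y hy h5 => ?_⟩
  have h6 := G2_tri hc hxX hy
  have h7 := G2_nonneg hxX hy
  have h8 := nu_nonneg (K := S.K) k hk
  -- dst x y * (nu j + 1) < r
  have h9 : dst S x y * (nu S.K j + 1) < r := by
    have h10 : dst S x y * (nu S.K j + 1) ≤ dst S x y * (nu S.K k * r) :=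
      mul_le_mul_of_nonneg_left h4.le h7
    have h11 : dst S x y * nu S.K k ≤ 1 := by
      have : dst S x y * (nu S.K k + 1) = dst S x y * nu S.K k + dst S x y := by ring
      linarith
    rcases eq_or_lt_of_le h7 with h12 | h12
    · rw [← h12]
      simpa using hr0
    · have h13 : dst S x y * nu S.K k < 1 := by
        have : dst S x y * (nu S.K k + 1) = dst S x y * nu S.K k + dst S x y := by ring
        linarith
      have h14 : dst S x y * (nu S.K k * r) = (dst S x y * nu S.K k) * r := by ring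
      have h15 : (dst S x y * nu S.K k) * r < 1 * r := mul_lt_mul_of_pos_right h13 hr0
      linarith
  have h16 : dst S c y * (nu S.K j + 1) ≤ (dst S c x + dst S x y) * (nu S.K j + 1) :=
    mul_le_mul_of_nonneg_right h6 (by linarith)
  have h17 : (dst S c x + dst S x y) * (nu S.K j + 1) =
      dst S c x * (nu S.K j + 1) + dst S x y * (nu S.K j + 1) := by ring
  rw [hr] at h9
  linarith

/-- a basic set contains a ball around each of its points -/
theorem G2_open {D u x : M} (hD : Dense S D) (hu : u ∈ mB S D) (hx : x ∈ u) :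
    ∃ k, k ∈ omega M ∧ Sub (ball S x k) u := by
  obtain ⟨i, n, hi, hn, rfl⟩ := G2_mem_mB.mp hu
  obtain ⟨k, hk, _, h⟩ := G2_shrink (hD.fn.ap_mem hi) hn hx 0
  refine ⟨k, hk, fun y hy => ?_⟩
  obtain ⟨hy1, hy2⟩ := G2_mem_ball.mp hy
  exact G2_mem_ball.mpr ⟨hy1, h y hy1 hy2.le⟩

theorem G2_sub_X {D u : M} (hu : u ∈ mB S D) : Sub u S.X := by
  obtain ⟨i, n, hi, hn, rfl⟩ := G2_mem_mB.mp hu
  exact fun y hy => (G2_mem_ball.mp hy).1

theorem G2_ball_mono {x m n : M} (hm : m ∈ omega M) (hn : n ∈ omega M) (hx : x ∈ S.X) (h : Sub m n) :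
    Sub (ball S x n) (ball S x m) := by
  intro y hy
  obtain ⟨h1, h2⟩ := G2_mem_ball.mp hy
  refine G2_mem_ball.mpr ⟨h1, lt_of_le_of_lt ?_ h2⟩
  exact mul_le_mul_of_nonneg_left (by linarith [G2_nu_mono (K := S.K) hm hn h]) (G2_nonneg hx h1)

/-- basic sets form a neighbourhood base -/
theorem G2_base {D x k : M} (hD : Dense S D) (hx : x ∈ S.X) (hk : k ∈ omega M) :
    ∃ w, w ∈ mB S D ∧ x ∈ w ∧ Sub w (ball S x k) := by
  obtain ⟨l, hl, h1⟩ := archimedean (K := S.K) (2 * (nu S.K k + 1))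
  obtain ⟨j, hj, h2⟩ := hD.dense x l hx hl
  obtain ⟨h3, h4⟩ := G2_mem_ball.mp h2
  have hDj := hD.fn.ap_mem hj
  have hk0 := nu_nonneg (K := S.K) k hk
  have hl0 := nu_nonneg (K := S.K) l hl
  refine ⟨ball S (ap D j) l, G2_mem_mB.mpr ⟨j, l, hj, hl, rfl⟩, ?_, ?_⟩
  · refine G2_mem_ball.mpr ⟨hx, ?_⟩
    rw [G2_comm hDj hx]
    exact h4
  · intro y hy
    obtain ⟨h5, h6⟩ := G2_mem_ball.mp hy
    refine G2_mem_ball.mpr ⟨h5, ?_⟩
    have h7 := G2_tri hx hDj h5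
    have h8 := G2_nonneg hx h5
    have h9 : dst S x y * (nu S.K l + 1) ≤ (dst S x (ap D j) + dst S (ap D j) y) * (nu S.K l + 1) :=
      mul_le_mul_of_nonneg_right h7 (by linarith)
    have h10 : (dst S x (ap D j) + dst S (ap D j) y) * (nu S.K l + 1) =
      dst S x (ap D j) * (nu S.K l + 1) + dst S (ap D j) y * (nu S.K l + 1) := by ring
    have h11 : dst S x y * (2 * (nu S.K k + 1)) ≤ dst S x y * (nu S.K l + 1) :=
      mul_le_mul_of_nonneg_left (by linarith) h8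
    have h12 : dst S x y * (2 * (nu S.K k + 1)) = 2 * (dst S x y * (nu S.K k + 1)) := by ring
    linarith

/-- Baire category theorem (ROW G2) -/
theorem Dense.baire (hDC : DC M) {D u : M} (hD : Dense S D) (hc : S.Complete)
    (hu : u ∈ mB S D) : ¬ Mgr (mB S D) S.X u := by
  rintro ⟨_, O, hO, hOD, hmiss⟩
  have hone : DR S.K (fun _ : ℕ → M => (1 : El S.K.R)) := inferInstance
  obtain ⟨i, j, hi, hj, rfl⟩ := G2_mem_mB.mp hu
  have hDi := hD.fn.ap_mem hi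
  obtain ⟨k0, hk0, _, hstart⟩ := G2_shrink hDi hj (G2_center hDi) 0
  -- dependent choice
  obtain ⟨f, hf, hf0, hfs⟩ := dc_rel' (S := prod S.X (omega M)) (a := pr (ap D i) k0) hDC
    (pr_mem_prod.mpr ⟨hDi, hk0⟩)
    (fun n p q => nu S.K n ≤ nu S.K (snd q) ∧
      ∀ y, y ∈ S.X → dst S (fst q) y * (nu S.K (snd q) + 1) ≤ 1 →
        dst S (fst p) y * (nu S.K (snd p) + 1) < 1 ∧ y ∈ ap O n)
    (by
      intro n hn p hp
      obtain ⟨c, hcX, k, hk, rfl⟩ := mem_prod.mp hp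
      simp only [fst_pr, snd_pr]
      obtain ⟨w, hw, hcw, hws⟩ := G2_base hD hcX hk
      obtain ⟨v, hv, hvw, hvO⟩ := hOD n hn w hw
      obtain ⟨i', j', hi', hj', rfl⟩ := G2_mem_mB.mp hv
      have hDi' := hD.fn.ap_mem hi'
      obtain ⟨k', hk', h1, h2⟩ := G2_shrink hDi' hj' (G2_center hDi') (nu S.K n)
      refine ⟨pr (ap D i') k', pr_mem_prod.mpr ⟨hDi', hk'⟩, ?_⟩
      simp only [fst_pr, snd_pr]
      refine ⟨h1, fun y hy h3 => ?_⟩
      have h4 : y ∈ ball S (ap D i') j' := G2_mem_ball.mpr ⟨hy, h2 y hy h3⟩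
      exact ⟨(G2_mem_ball.mp (hws y (hvw y h4))).2, hvO y h4⟩)
  have hcn : ∀ n, n ∈ omega M → fst (ap f n) ∈ S.X := fun n hn => fst_mem (hf.ap_mem hn)
  have hkn : ∀ n, n ∈ omega M → snd (ap f n) ∈ omega M := fun n hn => snd_mem (hf.ap_mem hn)
  -- nested closed balls
  have hnest : ∀ m, m ∈ omega M → ∀ N, N ∈ omega M → Sub N m → ∀ y, y ∈ S.X →
      dst S (fst (ap f m)) y * (nu S.K (snd (ap f m)) + 1) ≤ 1 →
      dst S (fst (ap f N)) y * (nu S.K (snd (ap f N)) + 1) ≤ 1 := by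
    refine omega_induction (fun m => ∀ N, N ∈ omega M → Sub N m → ∀ y, y ∈ S.X →
      dst S (fst (ap f m)) y * (nu S.K (snd (ap f m)) + 1) ≤ 1 →
      dst S (fst (ap f N)) y * (nu S.K (snd (ap f N)) + 1) ≤ 1) ?_ ?_
    · intro N hN h y _ h1
      rcases omega_zero_or hN with rfl | h2
      · exact h1
      · exact (not_mem_emp _ (h _ h2)).elim
    · intro m hm ih N hN h y hy h1
      rcases (omega_sub_iff hN (suc_mem_omega hm)).mp h with h2 | rfl
      · have h3 : Sub N m := (omega_sub_iff hN hm).mpr (mem_suc.mp h2)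
        exact ih N hN h3 y hy ((hfs m hm).2 y hy h1).1.le
      · exact h1
  have hclose : ∀ N, N ∈ omega M → ∀ m, m ∈ omega M → Sub N m →
      dst S (fst (ap f N)) (fst (ap f m)) * (nu S.K (snd (ap f N)) + 1) ≤ 1 := by
    intro N hN m hm h
    refine hnest m hm N hN h _ (hcn m hm) ?_
    rw [G2_self (hcn m hm), zero_mul]
    exact zero_le_one
  -- the limit
  have hs : IsFun (lam (omega M) (fun n => fst (ap f n))) (omega M) S.X :=
    isFun_lam' fun n hn => hcn n hn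
  have hApp : ∀ n x, App (lam (omega M) (fun n => fst (ap f n))) n x →
      n ∈ omega M ∧ x = fst (ap f n) := by
    intro n x h
    obtain ⟨h1, h2⟩ := hs.app.mp h
    rw [ap_lam' h1] at h2
    exact ⟨h1, h2⟩
  obtain ⟨z, hz⟩ := hc (omega M) _ isOmega_omega hs (by
    intro ε hε
    obtain ⟨N0, hN0, h1⟩ := archimedean (K := S.K) (2 / ε)
    rw [div_lt_iff₀ hε] at h1
    refine ⟨suc N0, suc_mem_omega hN0, ?_⟩
    intro m n x y hm hn hNm hNn hax hay
    obtain ⟨_, hx⟩ := hApp _ _ hax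
    obtain ⟨_, hy⟩ := hApp _ _ hay
    have h2 := hclose _ (suc_mem_omega hN0) m hm hNm
    have h3 := hclose _ (suc_mem_omega hN0) n hn hNn
    have h4 := (hfs N0 hN0).1
    have hcN := hcn _ (suc_mem_omega hN0)
    have h5 := G2_tri (hcn m hm) hcN (hcn n hn)
    rw [G2_comm (hcn m hm) hcN] at h5
    have e : S.dist x y = dst S (fst (ap f m)) (fst (ap f n)) := by
      rw [← dst_eq, hx, hy]
    rw [e]
    obtain ⟨κ, hκ⟩ : ∃ κ : El S.K.R, κ = nu S.K (snd (ap f (suc N0))) + 1 := ⟨_, rfl⟩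
    rw [← hκ] at h2 h3
    have hN00 := nu_nonneg (K := S.K) N0 hN0
    have hκ0 : 0 < κ := by rw [hκ]; linarith
    have h6 : dst S (fst (ap f m)) (fst (ap f n)) * κ ≤
        (dst S (fst (ap f (suc N0))) (fst (ap f m)) + dst S (fst (ap f (suc N0))) (fst (ap f n))) * κ :=
      mul_le_mul_of_nonneg_right h5 hκ0.le
    have h7 : nu S.K N0 * ε ≤ κ * ε := mul_le_mul_of_nonneg_right (by rw [hκ]; linarith) hε.le
    have h8 : dst S (fst (ap f m)) (fst (ap f n)) * κ < ε * κ := by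
      rw [add_mul] at h6
      rw [mul_comm κ ε] at h7
      linarith
    exact lt_of_mul_lt_mul_right h8 hκ0.le)
  -- the limit lies in all closed balls
  have hzin : ∀ N, N ∈ omega M →
      dst S (fst (ap f N)) z.1 * (nu S.K (snd (ap f N)) + 1) ≤ 1 := by
    intro N hN
    by_contra hcon
    push Not at hcon
    obtain ⟨κ, hκ⟩ : ∃ κ : El S.K.R, κ = nu S.K (snd (ap f N)) + 1 := ⟨_, rfl⟩
    have hκ0 : 0 < κ := by
      have := nu_nonneg (K := S.K) _ (hkn N hN)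
      rw [hκ]; linarith
    rw [← hκ] at hcon
    obtain ⟨N1, hN1, h1⟩ := hz ((dst S (fst (ap f N)) z.1 * κ - 1) / κ)
      (div_pos (by linarith) hκ0)
    obtain ⟨n, hn, h2, h3⟩ := G2_max hN hN1
    have h4 := h1 n ⟨fst (ap f n), hcn n hn⟩ hn h3 (hs.app.mpr ⟨hn, (ap_lam' (t := fun n => fst (ap f n)) hn).symm⟩)
    have e : S.dist ⟨fst (ap f n), hcn n hn⟩ z = dst S (fst (ap f n)) z.1 :=
      (dst_eq S ⟨fst (ap f n), hcn n hn⟩ z).symm
    rw [e, lt_div_iff₀ hκ0] at h4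
    have h5 := hclose N hN n hn h2
    rw [← hκ] at h5
    have h6 := G2_tri (hcn N hN) (hcn n hn) z.2
    have h7 : dst S (fst (ap f N)) z.1 * κ ≤
        (dst S (fst (ap f N)) (fst (ap f n)) + dst S (fst (ap f n)) z.1) * κ :=
      mul_le_mul_of_nonneg_right h6 hκ0.le
    rw [add_mul] at h7
    linarith
  have hzu : z.1 ∈ ball S (ap D i) j := by
    have h1 := hzin emp emp_mem_omega
    rw [hf0, fst_pr, snd_pr] at h1
    exact G2_mem_ball.mpr ⟨z.2, hstart _ z.2 h1⟩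
  obtain ⟨n, hn, h1⟩ := hmiss z.1 hzu
  exact h1 ((hfs n hn).2 z.1 z.2 (hzin _ (suc_mem_omega hn))).2

theorem G2_openmap {D φ ψ u v x : M} (hD : Dense S D) (h : Homeo S φ ψ) (hu : u ∈ mB S D)
    (hv : v ∈ mB S D) (hx : x ∈ u) (hxv : ap φ x ∈ v) :
    ∃ w, w ∈ mB S D ∧ x ∈ w ∧ Sub w u ∧ ∀ y, y ∈ w → ap φ y ∈ v := by
  have hxX := G2_sub_X hu x hx
  obtain ⟨n, hn, h1⟩ := G2_open hD hv hxv
  obtain ⟨m, hm, h2⟩ := h.cts x n hxX hn
  obtain ⟨k, hk, h3⟩ := G2_open hD hu hx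
  obtain ⟨l, hl, h4, h5⟩ := G2_max hm hk
  obtain ⟨w, hw, hxw, hws⟩ := G2_base hD hxX hl
  refine ⟨w, hw, hxw, fun y hy => h3 y (G2_ball_mono hk hl hxX h5 y (hws y hy)), fun y hy => ?_⟩
  exact h1 _ (h2 y (G2_ball_mono hm hl hxX h4 y (hws y hy)))

theorem G2_symm {φ ψ : M} (h : Homeo S φ ψ) : Homeo S ψ φ :=
  ⟨h.fn', h.fn, h.right, h.left, h.cts', h.cts⟩

/-- (ROW G2) -/
theorem Homeo.mgr {D φ ψ A : M} (hD : Dense S D) (h : Homeo S φ ψ)
    (hA : Mgr (mB S D) S.X A) : Mgr (mB S D) S.X (sep S.X (fun x => ap φ x ∈ A)) := by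
  obtain ⟨_, O, hO, hOD, hmiss⟩ := hA
  refine ⟨sep_sub, lam (omega M) (fun n => sep S.X (fun x => ap φ x ∈ ap O n)),
    isFun_lam' fun n _ => sep_mem_pow, ?_, ?_⟩
  · intro n hn u hu
    rw [ap_lam' hn]
    obtain ⟨i, j, hi, hj, hue⟩ := G2_mem_mB.mp hu
    have hDi := hD.fn.ap_mem hi
    have hxu : ap D i ∈ u := by rw [hue]; exact G2_center hDi
    have hz := h.fn.ap_mem hDi
    obtain ⟨w0, hw0, hzw0, _⟩ := G2_base hD hz emp_mem_omega
    obtain ⟨w, hw, _, _, hwψ⟩ := G2_openmap hD (G2_symm h) hw0 hu hzw0 (by rw [h.left _ hDi]; exact hxu)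
    obtain ⟨v, hv, hvw, hvO⟩ := hOD n hn w hw
    obtain ⟨i', j', hi', hj', hve⟩ := G2_mem_mB.mp hv
    have hDi' := hD.fn.ap_mem hi'
    have hyv : ap D i' ∈ v := by rw [hve]; exact G2_center hDi'
    obtain ⟨w', hw', _, hw'u, hw'v⟩ := G2_openmap hD h hu hv (hwψ _ (hvw _ hyv))
      (by rw [h.right _ hDi']; exact hyv)
    exact ⟨w', hw', hw'u, fun y hy => mem_sep.mpr ⟨G2_sub_X hw' y hy, hvO _ (hw'v y hy)⟩⟩
  · intro x hx
    obtain ⟨hxX, hxA⟩ := mem_sep.mp hx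
    obtain ⟨n, hn, h1⟩ := hmiss _ hxA
    refine ⟨n, hn, fun h2 => h1 ?_⟩
    rw [ap_lam' hn] at h2
    exact (mem_sep.mp h2).2

/-- an open set that meets a preimage: if `φ x ∈ v`, `x ∈ u`, then a basic set `w ⊆ u` is mapped
into `v` (ROW G2) -/
theorem Homeo.open {D φ ψ u v x : M} (hD : Dense S D) (h : Homeo S φ ψ) (hu : u ∈ mB S D)
    (hv : v ∈ mB S D) (hx : x ∈ u) (hxv : ap φ x ∈ v) :
    ∃ w, w ∈ mB S D ∧ x ∈ w ∧ Sub w u ∧ ∀ y, y ∈ w → ap φ y ∈ v := G2_openmap hD h hu hv hx hxv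

theorem G3_omega {w : M} (hw : IsOmega w) : w = omega M := by
  refine Pool.Agent.Lib.MP_f5c99b_lc.ext fun n => ⟨fun hn => ?_, fun hn => ?_⟩
  · have h := ind_iff.mp (ind_omega (M := M))
    exact hw.2 (omega M) h.1 h.2 n hn
  · exact mem_omega.mp hn w (ind_iff.mpr hw.1)

theorem G3_dist_nonneg (S : SepMetricSpace M) (x y : El S.X) : 0 ≤ S.dist x y := by
  have h1 := S.dist_triangle x y x
  rw [(S.dist_eq_zero x x).mpr rfl, S.dist_comm y x] at h1
  linarith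

theorem G3_mem_ball (S : SepMetricSpace M) (x y : El S.X) {k : M} :
    y.1 ∈ ball S x.1 k ↔ S.dist x y * (nu S.K k + 1) < 1 := by
  have : DR S.K (fun _ : ℕ → M => (1 : El S.K.R)) := inferInstance
  unfold ball
  rw [mem_sep, dst_eq]
  exact and_iff_right y.2

/-- the code of the point `x` -/
noncomputable def G3_cod (S : SepMetricSpace M) (D f x : M) : M :=
  sep (omega M) (fun n => ∃ m k, m ∈ omega M ∧ k ∈ omega M ∧ n = ap f (pr m k) ∧
    ap D m ∈ ball S x k)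

theorem G3_mem_cod (S : SepMetricSpace M) {D f x n : M} : n ∈ G3_cod S D f x ↔ n ∈ omega M ∧
    ∃ m k, m ∈ omega M ∧ k ∈ omega M ∧ n = ap f (pr m k) ∧ ap D m ∈ ball S x k := mem_sep

instance DT_G3_cod (S : SepMetricSpace M) (t1 t2 t3 : (ℕ → M) → M) [DT t1] [DT t2] [DT t3] :
    DT (fun v => G3_cod S (t1 v) (t2 v) (t3 v)) := by
  refine DT3 (f := G3_cod S) ?_ t1 t2 t3
  unfold G3_cod
  infer_instance

theorem G3_near (S : SepMetricSpace M) {x y z : El S.X} {k : M} (hk : k ∈ omega M)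
    (h1 : S.dist x z * (nu S.K k + 1) < 1) (h2 : S.dist y z * (nu S.K k + 1) < 1)
    (h3 : x ≠ y → 2 < S.dist x y * nu S.K k) : x = y := by
  by_contra hne
  have h4 := h3 hne
  have h5 := S.dist_triangle x z y
  rw [S.dist_comm z y] at h5
  have h6 := G3_dist_nonneg S x y
  have h7 := nu_nonneg (K := S.K) k hk
  have h8 : S.dist x y * (nu S.K k + 1) ≤ (S.dist x z + S.dist y z) * (nu S.K k + 1) :=
    mul_le_mul_of_nonneg_right h5 (by linarith)
  have h9 : (S.dist x z + S.dist y z) * (nu S.K k + 1) =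
    S.dist x z * (nu S.K k + 1) + S.dist y z * (nu S.K k + 1) := by ring
  have h10 : S.dist x y * (nu S.K k + 1) = S.dist x y * nu S.K k + S.dist x y := by ring
  linarith

/-- a separable metric space injects into the reals (ROW G3) -/
theorem SepMetricSpace.emb (S : SepMetricSpace M) : Emb S.X (pow (omega M)) := by
  by_cases hne : ∃ x, x ∈ S.X
  · obtain ⟨w, D, hw, hD, hdense⟩ := S.separable hne
    obtain rfl := G3_omega hw
    obtain ⟨f, hf, hfi⟩ := emb_omega_prod (M := M)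
    refine Emb.of_fun (fun x => G3_cod S D f x) (fun x _ => sep_mem_pow) ?_
    intro x hx y hy hxy
    have key : (⟨x, hx⟩ : El S.X) = ⟨y, hy⟩ := by
      by_cases hxy' : (⟨x, hx⟩ : El S.X) = ⟨y, hy⟩
      · exact hxy'
      have hd0 : 0 < S.dist ⟨x, hx⟩ ⟨y, hy⟩ :=
        lt_of_le_of_ne (G3_dist_nonneg S _ _) fun h => hxy' ((S.dist_eq_zero _ _).mp h.symm)
      obtain ⟨k, hk, hk2⟩ := archimedean (2 / S.dist ⟨x, hx⟩ ⟨y, hy⟩)
      have hk3 : 2 < S.dist ⟨x, hx⟩ ⟨y, hy⟩ * nu S.K k := by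
        rw [div_lt_iff₀ hd0] at hk2
        linarith
      have hk0 := nu_nonneg (K := S.K) k hk
      have hpos : 0 < nu S.K k + 1 := by linarith
      obtain ⟨n, z, hn, hDn, hz⟩ := hdense ⟨x, hx⟩ (1 / (nu S.K k + 1)) (by positivity)
      have hz' : S.dist ⟨x, hx⟩ z * (nu S.K k + 1) < 1 := by
        rwa [lt_div_iff₀ hpos] at hz
      have hDz : ap D n = z.1 := ((hD.app.mp hDn).2).symm
      have hmem : ap f (pr n k) ∈ G3_cod S D f x := by
        rw [G3_mem_cod]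
        refine ⟨hf.ap_mem (pr_mem_prod.mpr ⟨hn, hk⟩), n, k, hn, hk, rfl, ?_⟩
        rw [hDz]
        exact (G3_mem_ball S ⟨x, hx⟩ z).mpr hz'
      rw [hxy, G3_mem_cod] at hmem
      obtain ⟨_, m', k', hm', hk', he, hb⟩ := hmem
      have h1 := hfi _ (pr_mem_prod.mpr ⟨hn, hk⟩) _ (pr_mem_prod.mpr ⟨hm', hk'⟩) he
      obtain ⟨rfl, rfl⟩ := pr_inj h1
      rw [hDz] at hb
      have hb' := (G3_mem_ball S ⟨y, hy⟩ z).mp hb
      exact G3_near S hk hz' hb' fun _ => hk3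
    exact congrArg Subtype.val key
  · push Not at hne
    exact Emb.of_fun (fun x => x) (fun x hx => absurd hx (hne x))
      fun x hx => absurd hx (hne x)

/-! ### the group -/

section group

variable (G : PolishGroup M)

/-- the product, as a total function on `M` -/
noncomputable def gmul (g h : M) : M := iota (fun z => z ∈ G.X ∧ pr (pr g h) z ∈ G.m)

instance DT_gmul (t1 t2 : (ℕ → M) → M) [DT t1] [DT t2] :
    DT (fun v => gmul G (t1 v) (t2 v)) := by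
  refine DT2 (f := gmul G) ?_ t1 t2
  unfold gmul
  infer_instance

theorem gmul_eq (g h : El G.X) : gmul G g.1 h.1 = (g * h).1 := by
  unfold gmul
  refine iota_eq (P := fun z => z ∈ G.X ∧ pr (pr g.1 h.1) z ∈ G.m)
    ⟨(g * h).2, app2_iff.mp ((G.mul_iff g h (g * h)).mpr rfl)⟩ ?_
  rintro y ⟨hy, h1⟩
  have h2 := (G.mul_iff g h ⟨y, hy⟩).mp (app2_iff.mpr h1)
  rw [h2]

/-- `gam` enumerates a countable dense subgroup of `G` -/
structure DenseSub (gam : M) : Prop extends Dense G.toSepMetricSpace gam where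
  mul : ∀ m n, m ∈ omega M → n ∈ omega M → ∃ l, l ∈ omega M ∧
    ap gam l = gmul G (ap gam m) (ap gam n)
  inv : ∀ m, m ∈ omega M → ∃ n, n ∈ omega M ∧ gmul G (ap gam m) (ap gam n) = (1 : El G.X).1 ∧
    gmul G (ap gam n) (ap gam m) = (1 : El G.X).1
  one : ∃ n, n ∈ omega M ∧ ap gam n = (1 : El G.X).1

section metric

end metric

section group

theorem G4_isOmega {w : M} (hw : IsOmega w) : w = omega M := by
  refine Pool.Agent.Lib.MP_f5c99b_lc.ext fun x => ⟨fun hx => ?_, fun hx => ?_⟩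
  · exact hw.2 (omega M) (ind_iff.mp ind_omega).1 (ind_iff.mp ind_omega).2 x hx
  · exact mem_omega.mp hx w (ind_iff.mpr hw.1)

theorem G4_mem_ball (S : SepMetricSpace M) (x y : El S.X) (n : M) :
    y.1 ∈ ball S x.1 n ↔ S.dist x y * (nu S.K n + 1) < 1 := by
  have h1 : DR S.K (fun _ : ℕ → M => (1 : El S.K.R)) := inferInstance
  rw [ball, mem_sep, dst_eq]
  exact ⟨fun h => h.2, fun h => ⟨y.2, h⟩⟩

theorem G4_ball_sub (S : SepMetricSpace M) {x n y : M} (h : y ∈ ball S x n) : y ∈ S.X := by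
  have h1 : DR S.K (fun _ : ℕ → M => (1 : El S.K.R)) := inferInstance
  exact (mem_sep.mp h).1

omit hZF in
theorem G4_dist_nonneg (S : SepMetricSpace M) (x y : El S.X) : 0 ≤ S.dist x y := by
  have h1 := S.dist_triangle x y x
  rw [(S.dist_eq_zero x x).mpr rfl, S.dist_comm y x] at h1
  linarith

theorem G4_small (K : RealField M) {ε : El K.R} (hε : 0 < ε) : ∃ m, m ∈ omega M ∧
    ∀ d : El K.R, 0 ≤ d → d * (nu K m + 1) < 1 → d < ε := by
  obtain ⟨m, hm, h⟩ := archimedean (K := K) (1 / ε)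
  refine ⟨m, hm, fun d hd hdm => ?_⟩
  by_contra hc
  rw [not_lt] at hc
  rw [div_lt_iff₀ hε] at h
  have h2 := nu_nonneg (K := K) m hm
  have h3 : ε * (nu K m + 1) ≤ d * (nu K m + 1) := mul_le_mul_of_nonneg_right hc (by linarith)
  have h4 : ε * (nu K m + 1) = nu K m * ε + ε := by ring
  linarith

theorem G4_big (K : RealField M) {n : M} (hn : n ∈ omega M) : ∃ ε : El K.R, 0 < ε ∧
    ∀ d : El K.R, d < ε → d * (nu K n + 1) < 1 := by
  have h2 := nu_nonneg (K := K) n hn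
  have h3 : 0 < nu K n + 1 := by linarith
  refine ⟨1 / (nu K n + 1), by positivity, fun d hd => ?_⟩
  rwa [lt_div_iff₀ h3] at hd

theorem G4_cts (S : SepMetricSpace M) {φ : M} (f : El S.X → El S.X)
    (hφ : ∀ x : El S.X, ap φ x.1 = (f x).1)
    (hf : ∀ (x : El S.X) (ε : El S.K.R), 0 < ε → ∃ δ : El S.K.R, 0 < δ ∧
      ∀ y : El S.X, S.dist x y < δ → S.dist (f x) (f y) < ε) :
    ∀ x n, x ∈ S.X → n ∈ omega M → ∃ m, m ∈ omega M ∧
      ∀ y, y ∈ ball S x m → ap φ y ∈ ball S (ap φ x) n := by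
  intro x n hx hn
  obtain ⟨ε, hε, h1⟩ := G4_big S.K hn
  obtain ⟨δ, hδ, h2⟩ := hf ⟨x, hx⟩ ε hε
  obtain ⟨m, hm, h3⟩ := G4_small S.K hδ
  refine ⟨m, hm, fun y hy => ?_⟩
  have hyX : y ∈ S.X := G4_ball_sub S hy
  have h4 := (G4_mem_ball S ⟨x, hx⟩ ⟨y, hyX⟩ m).mp hy
  have h5 := h2 ⟨y, hyX⟩ (h3 _ (G4_dist_nonneg S _ _) h4)
  have h6 := (G4_mem_ball S (f ⟨x, hx⟩) (f ⟨y, hyX⟩) n).mpr (h1 _ h5)
  rw [← hφ, ← hφ] at h6
  exact h6

theorem G4_gmul_mem {g h : M} (hg : g ∈ G.X) (hh : h ∈ G.X) : gmul G g h ∈ G.X := by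
  rw [gmul_eq G ⟨g, hg⟩ ⟨h, hh⟩]
  exact (_ : El G.X).2

/-- the inverse, as a total function on `M` -/
noncomputable def G4_inv (g : M) : M :=
  iota (fun z => z ∈ G.X ∧ gmul G g z = (1 : El G.X).1)

instance G4_DT_inv (t1 : (ℕ → M) → M) [DT t1] : DT (fun v => G4_inv G (t1 v)) := by
  refine DT1 (f := G4_inv G) ?_ t1
  unfold G4_inv
  infer_instance

theorem G4_inv_eq (g : El G.X) : G4_inv G g.1 = (g⁻¹).1 := by
  refine iota_eq ⟨(g⁻¹).2, ?_⟩ ?_
  · rw [gmul_eq, mul_inv_cancel]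
  · rintro z ⟨hz, h⟩
    rw [gmul_eq G g ⟨z, hz⟩] at h
    have h2 : g * ⟨z, hz⟩ = 1 := Subtype.ext h
    rw [← eq_inv_of_mul_eq_one_right h2]

/-- (ROW G4): values of words (finite sequences of numbers, coding the elements of a dense
sequence and their inverses) -/
theorem exists_denseSub : ∃ gam, DenseSub G gam := by
  -- a dense sequence
  obtain ⟨w, D, hw, hD, hdense⟩ := G.separable ⟨_, (1 : El G.X).2⟩
  obtain rfl := G4_isOmega hw
  -- the set of letters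
  have hDs : Surj D (omega M) (ran D) :=
    ⟨hD.mono fun x hx => hD.mem_ran.mpr ⟨x, hx, rfl⟩, fun y hy => by
      obtain ⟨x, hx, e⟩ := hD.mem_ran.mp hy
      exact ⟨x, hx, e.symm⟩⟩
  have hDc : Ctbl (ran D) := Ctbl.of_surj ctbl_omega hDs
  have hDX : ∀ x, x ∈ ran D → x ∈ G.X := by
    intro x hx
    obtain ⟨n, hn, rfl⟩ := hD.mem_ran.mp hx
    exact hD.ap_mem hn
  let L : M := un (ran D) (img (ran D) (fun x => G4_inv G x))
  have hLc : Ctbl L := Ctbl.un hDc (Ctbl.img hDc _)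
  have hLX : ∀ x, x ∈ L → x ∈ G.X := by
    intro x hx
    rcases mem_un.mp hx with hx | hx
    · exact hDX x hx
    · obtain ⟨y, hy, rfl⟩ := mem_img.mp hx
      rw [G4_inv_eq G ⟨y, hDX y hy⟩]
      exact (_ : El G.X).2
  have hLinv : ∀ x : El G.X, x.1 ∈ L → (x⁻¹).1 ∈ L := by
    intro x hx
    rcases mem_un.mp hx with hx | hx
    · refine mem_un.mpr (Or.inr (mem_img.mpr ⟨x.1, hx, ?_⟩))
      rw [G4_inv_eq]
    · obtain ⟨y, hy, e⟩ := mem_img.mp hx
      rw [G4_inv_eq G ⟨y, hDX y hy⟩] at e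
      have e2 : x = (⟨y, hDX y hy⟩ : El G.X)⁻¹ := Subtype.ext e
      rw [e2, inv_inv]
      exact mem_un.mpr (Or.inl hy)
  have hDL : ∀ n, n ∈ omega M → ap D n ∈ L := fun n hn =>
    mem_un.mpr (Or.inl (hD.mem_ran.mpr ⟨n, hn, rfl⟩))
  obtain ⟨d, hd, hds⟩ := hLc.surj ⟨_, hDL emp emp_mem_omega⟩
  have hdX : ∀ n, n ∈ omega M → ap d n ∈ G.X := fun n hn => hLX _ (hd.ap_mem hn)
  -- a surjection onto the pairs of numbers
  obtain ⟨u, hu, hus⟩ := (emb_omega_prod (M := M)).surj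
    ⟨_, pr_mem_prod.mpr ⟨emp_mem_omega, emp_mem_omega⟩⟩
  have hu1 : ∀ n, n ∈ omega M → fst (ap u n) ∈ omega M := fun n hn => fst_mem (hu.ap_mem hn)
  have hu2 : ∀ n, n ∈ omega M → snd (ap u n) ∈ omega M := fun n hn => snd_mem (hu.ap_mem hn)
  -- `R n` enumerates the values of the words of length `n`
  obtain ⟨R, hR, hR0, hR1⟩ := omega_rec (S := funs (omega M) G.X)
    (a := lam (omega M) (fun _ => (1 : El G.X).1))
    (fun _ r => lam (omega M) (fun j => gmul G (ap r (fst (ap u j))) (ap d (snd (ap u j)))))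
    (mem_funs.mpr (isFun_lam fun _ _ => (1 : El G.X).2))
    (fun _ _ r hr => mem_funs.mpr (isFun_lam fun j hj =>
      G4_gmul_mem G ((mem_funs.mp hr).ap_mem (hu1 j hj)) (hdX _ (hu2 j hj))))
  have hRf : ∀ n, n ∈ omega M → IsFun (ap R n) (omega M) G.X :=
    fun n hn => mem_funs.mp (hR.ap_mem hn)
  let H : M := sep G.X (fun x => ∃ n, n ∈ omega M ∧ ∃ i, i ∈ omega M ∧ x = ap (ap R n) i)
  have hH : ∀ x, x ∈ H ↔ ∃ n, n ∈ omega M ∧ ∃ i, i ∈ omega M ∧ x = ap (ap R n) i := by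
    intro x
    change x ∈ sep _ _ ↔ _
    rw [mem_sep]
    refine ⟨fun h => h.2, fun h => ⟨?_, h⟩⟩
    obtain ⟨n, hn, i, hi, rfl⟩ := h
    exact (hRf n hn).ap_mem hi
  have hHX : ∀ x, x ∈ H → x ∈ G.X := fun x hx => (mem_sep.mp hx).1
  have h1H : (1 : El G.X).1 ∈ H :=
    (hH _).mpr ⟨emp, emp_mem_omega, emp, emp_mem_omega, by rw [hR0, ap_lam' emp_mem_omega]⟩
  have hmulL : ∀ x, x ∈ H → ∀ l, l ∈ L → gmul G x l ∈ H := by
    intro x hx l hl
    obtain ⟨n, hn, i, hi, rfl⟩ := (hH x).mp hx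
    obtain ⟨k, hk, rfl⟩ := hds l hl
    obtain ⟨j, hj, e⟩ := hus _ (pr_mem_prod.mpr ⟨hi, hk⟩)
    refine (hH _).mpr ⟨suc n, suc_mem_omega hn, j, hj, ?_⟩
    rw [hR1 n hn, ap_lam' hj, e, fst_pr, snd_pr]
  have hmul0 : ∀ n, n ∈ omega M → ∀ i, i ∈ omega M → ∀ x, x ∈ H →
      gmul G x (ap (ap R n) i) ∈ H := by
    refine omega_induction (fun n => ∀ i, i ∈ omega M → ∀ x, x ∈ H →
      gmul G x (ap (ap R n) i) ∈ H) ?_ ?_
    · intro i hi x hx
      rw [hR0, ap_lam' hi, gmul_eq G ⟨x, hHX x hx⟩, mul_one]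
      exact hx
    · intro n hn ih j hj x hx
      rw [hR1 n hn, ap_lam' hj]
      have h1 := ih _ (hu1 j hj) x hx
      have h2 := hmulL _ h1 _ (hd.ap_mem (hu2 j hj))
      have hy : ap (ap R n) (fst (ap u j)) ∈ G.X := (hRf n hn).ap_mem (hu1 j hj)
      have hl : ap d (snd (ap u j)) ∈ G.X := hdX _ (hu2 j hj)
      rw [gmul_eq G ⟨x, hHX x hx⟩ ⟨_, hy⟩, gmul_eq G _ ⟨_, hl⟩, mul_assoc] at h2
      rw [gmul_eq G ⟨_, hy⟩ ⟨_, hl⟩, gmul_eq G ⟨x, hHX x hx⟩]
      exact h2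
  have hmul : ∀ x, x ∈ H → ∀ y, y ∈ H → gmul G x y ∈ H := by
    intro x hx y hy
    obtain ⟨n, hn, i, hi, rfl⟩ := (hH y).mp hy
    exact hmul0 n hn i hi x hx
  have hLH : ∀ l, l ∈ L → l ∈ H := by
    intro l hl
    have := hmulL _ h1H l hl
    rwa [gmul_eq G 1 ⟨l, hLX l hl⟩, one_mul] at this
  have hinv0 : ∀ n, n ∈ omega M → ∀ i, i ∈ omega M → G4_inv G (ap (ap R n) i) ∈ H := by
    refine omega_induction (fun n => ∀ i, i ∈ omega M → G4_inv G (ap (ap R n) i) ∈ H) ?_ ?_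
    · intro i hi
      rw [hR0, ap_lam' hi, G4_inv_eq, inv_one]
      exact h1H
    · intro n hn ih j hj
      rw [hR1 n hn, ap_lam' hj]
      have h1 := ih _ (hu1 j hj)
      have hy : ap (ap R n) (fst (ap u j)) ∈ G.X := (hRf n hn).ap_mem (hu1 j hj)
      have hl : ap d (snd (ap u j)) ∈ G.X := hdX _ (hu2 j hj)
      have h2 := hLH _ (hLinv ⟨_, hl⟩ (hd.ap_mem (hu2 j hj)))
      rw [gmul_eq G ⟨_, hy⟩ ⟨_, hl⟩, G4_inv_eq, mul_inv_rev, ← gmul_eq]
      rw [G4_inv_eq G ⟨_, hy⟩] at h1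
      exact hmul _ h2 _ h1
  have hinv : ∀ x : El G.X, x.1 ∈ H → (x⁻¹).1 ∈ H := by
    intro x hx
    obtain ⟨n, hn, i, hi, e⟩ := (hH x.1).mp hx
    have := hinv0 n hn i hi
    rwa [← e, G4_inv_eq] at this
  -- the enumeration
  let gam : M := lam (omega M) (fun j => ap (ap R (fst (ap u j))) (snd (ap u j)))
  have hgam : IsFun gam (omega M) G.X :=
    isFun_lam fun j hj => (hRf _ (hu1 j hj)).ap_mem (hu2 j hj)
  have hgH : ∀ x, x ∈ H ↔ ∃ j, j ∈ omega M ∧ ap gam j = x := by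
    intro x
    rw [hH]
    constructor
    · rintro ⟨n, hn, i, hi, rfl⟩
      obtain ⟨j, hj, e⟩ := hus _ (pr_mem_prod.mpr ⟨hn, hi⟩)
      refine ⟨j, hj, ?_⟩
      change ap (lam _ _) j = _
      rw [ap_lam' hj, e, fst_pr, snd_pr]
    · rintro ⟨j, hj, rfl⟩
      refine ⟨_, hu1 j hj, _, hu2 j hj, ?_⟩
      change ap (lam _ _) j = _
      rw [ap_lam' hj]
  refine ⟨gam, ⟨hgam, ?_⟩, ?_, ?_, ?_⟩
  · intro x n hx hn
    obtain ⟨ε, hε, h1⟩ := G4_big G.K hn
    obtain ⟨k, y, hk, hky, h2⟩ := hdense ⟨x, hx⟩ ε hε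
    obtain ⟨_, e⟩ := hD.app.mp hky
    have h3 : y.1 ∈ H := by
      rw [e]
      exact hLH _ (hDL k hk)
    obtain ⟨j, hj, e2⟩ := (hgH y.1).mp h3
    refine ⟨j, hj, ?_⟩
    rw [e2]
    exact (G4_mem_ball G.toSepMetricSpace ⟨x, hx⟩ y n).mpr (h1 _ h2)
  · intro m n hm hn
    obtain ⟨j, hj, e⟩ := (hgH _).mp (hmul _ ((hgH _).mpr ⟨m, hm, rfl⟩) _
      ((hgH _).mpr ⟨n, hn, rfl⟩))
    exact ⟨j, hj, e⟩
  · intro m hm
    have h1 := hinv ⟨_, hgam.ap_mem hm⟩ ((hgH _).mpr ⟨m, hm, rfl⟩)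
    obtain ⟨j, hj, e⟩ := (hgH _).mp h1
    refine ⟨j, hj, ?_, ?_⟩
    · rw [e, gmul_eq G ⟨_, hgam.ap_mem hm⟩, mul_inv_cancel]
    · rw [e, gmul_eq G _ ⟨_, hgam.ap_mem hm⟩, inv_mul_cancel]
  · obtain ⟨j, hj, e⟩ := (hgH _).mp h1H
    exact ⟨j, hj, e⟩

theorem G4_cts_left (g : El G.X) : ∀ x n, x ∈ G.X → n ∈ omega M → ∃ m, m ∈ omega M ∧
    ∀ y, y ∈ ball G.toSepMetricSpace x m → ap (lam G.X (fun x => gmul G g.1 x)) y ∈
      ball G.toSepMetricSpace (ap (lam G.X (fun x => gmul G g.1 x)) x) n := by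
  refine G4_cts G.toSepMetricSpace (fun x => g * x) (fun x => ?_) (fun x ε hε => ?_)
  · rw [ap_lam' x.2, gmul_eq]
  · obtain ⟨δ, hδ, h⟩ := G.continuous_mul g x ε hε
    refine ⟨δ, hδ, fun y hy => h g y ?_ hy⟩
    rwa [(G.dist_eq_zero g g).mpr rfl]

theorem G4_cts_right (g : El G.X) : ∀ x n, x ∈ G.X → n ∈ omega M → ∃ m, m ∈ omega M ∧
    ∀ y, y ∈ ball G.toSepMetricSpace x m → ap (lam G.X (fun x => gmul G x g.1)) y ∈
      ball G.toSepMetricSpace (ap (lam G.X (fun x => gmul G x g.1)) x) n := by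
  refine G4_cts G.toSepMetricSpace (fun x => x * g) (fun x => ?_) (fun x ε hε => ?_)
  · rw [ap_lam' x.2, gmul_eq]
  · obtain ⟨δ, hδ, h⟩ := G.continuous_mul x g ε hε
    refine ⟨δ, hδ, fun y hy => h y g hy ?_⟩
    rwa [(G.dist_eq_zero g g).mpr rfl]

theorem G4_left_cancel (g h : El G.X) (hgh : g * h = 1) {x : M} (hx : x ∈ G.X) :
    ap (lam G.X (fun x => gmul G g.1 x)) (ap (lam G.X (fun x => gmul G h.1 x)) x) = x := by
  rw [ap_lam' hx, gmul_eq G h ⟨x, hx⟩, ap_lam' (h * ⟨x, hx⟩ : El G.X).2, gmul_eq, ← mul_assoc,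
    hgh, one_mul]

theorem G4_right_cancel (g h : El G.X) (hgh : h * g = 1) {x : M} (hx : x ∈ G.X) :
    ap (lam G.X (fun x => gmul G x g.1)) (ap (lam G.X (fun x => gmul G x h.1)) x) = x := by
  rw [ap_lam' hx, gmul_eq G ⟨x, hx⟩ h, ap_lam' (⟨x, hx⟩ * h : El G.X).2, gmul_eq, mul_assoc,
    hgh, mul_one]

/-- left and right translations are homeomorphisms (ROW G4) -/
theorem homeo_left (g : El G.X) : Homeo G.toSepMetricSpace
    (lam G.X (fun x => gmul G g.1 x)) (lam G.X (fun x => gmul G (g⁻¹).1 x)) where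
  fn := isFun_lam fun _ hx => G4_gmul_mem G g.2 hx
  fn' := isFun_lam fun _ hx => G4_gmul_mem G (g⁻¹).2 hx
  left _ hx := G4_left_cancel G g⁻¹ g (inv_mul_cancel g) hx
  right _ hx := G4_left_cancel G g g⁻¹ (mul_inv_cancel g) hx
  cts := G4_cts_left G g
  cts' := G4_cts_left G g⁻¹

theorem homeo_right (g : El G.X) : Homeo G.toSepMetricSpace
    (lam G.X (fun x => gmul G x g.1)) (lam G.X (fun x => gmul G x (g⁻¹).1)) where
  fn := isFun_lam fun _ hx => G4_gmul_mem G hx g.2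
  fn' := isFun_lam fun _ hx => G4_gmul_mem G hx (g⁻¹).2
  left _ hx := G4_right_cancel G g⁻¹ g (mul_inv_cancel g) hx
  right _ hx := G4_right_cancel G g g⁻¹ (inv_mul_cancel g) hx
  cts := G4_cts_right G g
  cts' := G4_cts_right G g⁻¹

end group

/-- the data for the abstract main theorem -/
noncomputable def gDat (gam X act : M) : Dat M where
  G := G.X
  m := lam (prod G.X G.X) (fun p => gmul G (fst p) (snd p))
  e := (1 : El G.X).1
  I := sep (pow G.X) (fun A => Mgr (mB G.toSepMetricSpace gam) G.X A)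
  gam := gam
  X := X
  act := act

theorem G5_gmul_mem {g h : M} (hg : g ∈ G.X) (hh : h ∈ G.X) : gmul G g h ∈ G.X := by
  have h1 := gmul_eq G ⟨g, hg⟩ ⟨h, hh⟩
  rw [h1]
  exact Subtype.property _

theorem G5_mul {gam X act g h : M} (hg : g ∈ G.X) (hh : h ∈ G.X) :
    (gDat G gam X act).mul g h = gmul G g h := by
  have h1 : ap (lam (prod G.X G.X) (fun p => gmul G (fst p) (snd p))) (pr g h) =
      gmul G (fst (pr g h)) (snd (pr g h)) := ap_lam' (pr_mem_prod.mpr ⟨hg, hh⟩)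
  rw [fst_pr, snd_pr] at h1
  exact h1

theorem G5_mem_I {gam X act A : M} : A ∈ (gDat G gam X act).I ↔
    Mgr (mB G.toSepMetricSpace gam) G.X A := by
  constructor
  · intro h
    exact (mem_sep.mp h).2
  · intro h
    exact mem_sep.mpr ⟨mem_pow.mpr h.1, h⟩

theorem G5_left {gam X act g A : M} (hg : DenseSub G gam) (hgG : g ∈ G.X)
    (hA : Mgr (mB G.toSepMetricSpace gam) G.X A) :
    Mgr (mB G.toSepMetricSpace gam) G.X
      (sep G.X (fun x => (gDat G gam X act).mul g x ∈ A)) := by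
  refine (Homeo.mgr hg.toDense (homeo_left G ⟨g, hgG⟩) hA).sub ?_
  intro x hx
  obtain ⟨h1, h2⟩ := mem_sep.mp hx
  refine mem_sep.mpr ⟨h1, ?_⟩
  rw [ap_lam' h1]
  rw [G5_mul G hgG h1] at h2
  exact h2

theorem G5_right {gam X act g A : M} (hg : DenseSub G gam) (hgG : g ∈ G.X)
    (hA : Mgr (mB G.toSepMetricSpace gam) G.X A) :
    Mgr (mB G.toSepMetricSpace gam) G.X
      (sep G.X (fun x => (gDat G gam X act).mul x g ∈ A)) := by
  refine (Homeo.mgr hg.toDense (homeo_right G ⟨g, hgG⟩) hA).sub ?_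
  intro x hx
  obtain ⟨h1, h2⟩ := mem_sep.mp hx
  refine mem_sep.mpr ⟨h1, ?_⟩
  rw [ap_lam' h1]
  rw [G5_mul G h1 hgG] at h2
  exact h2

theorem G5_center {S : SepMetricSpace M} {x n : M} (hx : x ∈ S.X) : x ∈ ball S x n := by
  have hD : D (fun v : ℕ → M => dst S x (v 0) * (nu S.K n + 1) < 1) := by
    have : DR S.K (fun _ : ℕ → M => (1 : El S.K.R)) := inferInstance
    infer_instance
  refine mem_sep.mpr ⟨hx, ?_⟩
  have h1 : dst S x x = 0 := by
    rw [dst_eq S ⟨x, hx⟩ ⟨x, hx⟩]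
    exact (S.dist_eq_zero _ _).mpr rfl
  rw [h1, zero_mul]
  have := S.K.ordered
  exact zero_lt_one

theorem G5_cover (hDC : DC M) {gam u a b c : M} (hg : DenseSub G gam)
    (hu : u ∈ mB G.toSepMetricSpace gam) (ha : Mgr (mB G.toSepMetricSpace gam) G.X a)
    (hb : Mgr (mB G.toSepMetricSpace gam) G.X b) (hc : Mgr (mB G.toSepMetricSpace gam) G.X c)
    (h : ∀ x, x ∈ u → x ∈ a ∨ x ∈ b ∨ x ∈ c) : False := by
  have hB := hg.toDense.sp.toBase
  refine hg.toDense.baire hDC G.complete hu ((Mgr.un hB ha (Mgr.un hB hb hc)).sub ?_)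
  intro x hx
  rw [mem_un, mem_un]
  exact h x hx

/-- the code of a set modulo the ideal -/
noncomputable def G5_rho (gam f A : M) : M :=
  sep (omega M) (fun n => Mgr (mB G.toSepMetricSpace gam) G.X (diff (ap f n) A))

instance DT_G5_rho (gam f : M) (t1 : (ℕ → M) → M) [DT t1] :
    DT (fun v => G5_rho G gam f (t1 v)) := by
  refine DT1 (f := G5_rho G gam f) ?_ t1
  unfold G5_rho
  infer_instance

theorem G5_code (hDC : DC M) (hAD : ADR M) {gam f A A' : M} (hg : DenseSub G gam)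
    (hf : Surj f (omega M) (mB G.toSepMetricSpace gam)) (hA : Sub A G.X)
    (h : G5_rho G gam f A = G5_rho G gam f A') :
    Mgr (mB G.toSepMetricSpace gam) G.X (diff A A') := by
  by_contra hn
  obtain ⟨u, hu, hm⟩ := hg.toDense.sp.bp hDC hAD (diff_sub.trans hA) hn
  obtain ⟨n, hn', rfl⟩ := hf.2 u hu
  have h1 : n ∈ G5_rho G gam f A := by
    refine mem_sep.mpr ⟨hn', hm.sub ?_⟩
    intro x hx
    obtain ⟨h3, h4⟩ := mem_diff.mp hx
    exact mem_diff.mpr ⟨h3, fun h5 => h4 (mem_diff.mp h5).1⟩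
  rw [h] at h1
  have h2 := (mem_sep.mp h1).2
  refine G5_cover G hDC hg hu h2 hm hm fun x hx => ?_
  by_cases hxA : x ∈ A'
  · exact Or.inr (Or.inl (mem_diff.mpr ⟨hx, fun h5 => (mem_diff.mp h5).2 hxA⟩))
  · exact Or.inl (mem_diff.mpr ⟨hx, hxA⟩)

theorem G5_trans (hDC : DC M) (hAD : ADR M) {gam X act A A' : M} (hg : DenseSub G gam)
    (hA : Sub A G.X) (hA' : Sub A' G.X) (hn : ¬ Mgr (mB G.toSepMetricSpace gam) G.X A)
    (hn' : ¬ Mgr (mB G.toSepMetricSpace gam) G.X A') :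
    ∃ n, n ∈ omega M ∧ ¬ Mgr (mB G.toSepMetricSpace gam) G.X
      (sep A (fun x => (gDat G gam X act).mul (ap gam n) x ∈ A')) := by
  have hB := hg.toDense.sp.toBase
  obtain ⟨u, hu, hum⟩ := hg.toDense.sp.bp hDC hAD hA hn
  obtain ⟨v, hv, hvm⟩ := hg.toDense.sp.bp hDC hAD hA' hn'
  obtain ⟨x, hx⟩ := hB.ne u hu
  obtain ⟨y, hy⟩ := hB.ne v hv
  have hxG := hB.sub u hu x hx
  have hyG := hB.sub v hv y hy
  let x' : El G.X := ⟨x, hxG⟩
  let y' : El G.X := ⟨y, hyG⟩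
  let g0 : El G.X := y' * x'⁻¹
  obtain ⟨u0, hu0, hgu0⟩ := hB.cover g0.1 g0.2
  have h1 : ap (lam G.X (fun z => gmul G z x'.1)) g0.1 ∈ v := by
    rw [ap_lam' g0.2, gmul_eq]
    have : g0 * x' = y' := by
      simp [g0]
    rw [this]
    exact hy
  obtain ⟨w, hw, _, _, hwv⟩ := Homeo.open hg.toDense (homeo_right G x') hu0 hv hgu0 h1
  obtain ⟨p, hp, rfl⟩ := mem_img.mp hw
  have hi := fst_mem hp
  have hgi := hg.toDense.fn.ap_mem hi
  have h2 := hwv _ (G5_center (S := G.toSepMetricSpace) (n := snd p) hgi)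
  rw [ap_lam' hgi] at h2
  refine ⟨fst p, hi, fun hm => ?_⟩
  have h3 : ap (lam G.X (fun z => gmul G (⟨ap gam (fst p), hgi⟩ : El G.X).1 z)) x ∈ v := by
    rw [ap_lam' hxG]
    exact h2
  obtain ⟨w', hw', _, hwu, hwv'⟩ := Homeo.open hg.toDense (homeo_left G ⟨ap gam (fst p), hgi⟩)
    hu hv hx h3
  refine G5_cover G hDC hg hw' hm hum (G5_left G (X := X) (act := act) hg hgi hvm) fun z hz => ?_
  have hzG := hB.sub w' hw' z hz
  by_cases hzA : z ∈ A
  · by_cases hzA' : (gDat G gam X act).mul (ap gam (fst p)) z ∈ A'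
    · exact Or.inl (mem_sep.mpr ⟨hzA, hzA'⟩)
    · refine Or.inr (Or.inr (mem_sep.mpr ⟨hzG, mem_diff.mpr ⟨?_, hzA'⟩⟩))
      have h4 := hwv' z hz
      rw [ap_lam' hzG] at h4
      rw [G5_mul G hgi hzG]
      exact h4
  · exact Or.inr (Or.inl (mem_diff.mpr ⟨hwu z hz, hzA⟩))

/-- (ROW G5) -/
theorem gDat_good (hDC : DC M) (hAD : ADR M) {gam X act : M} (hg : DenseSub G gam)
    (hX : Sub X (pow (omega M))) (ha : IsFun act (prod G.X X) X)
    (ha1 : ∀ x, x ∈ X → ap act (pr (1 : El G.X).1 x) = x)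
    (ham : ∀ (g h : El G.X) x, x ∈ X →
      ap act (pr (g * h).1 x) = ap act (pr g.1 (ap act (pr h.1 x)))) :
    (gDat G gam X act).Good := by
  have hB := hg.toDense.sp.toBase
  have hmul : ∀ g h, g ∈ G.X → h ∈ G.X → (gDat G gam X act).mul g h = gmul G g h :=
    fun g h hg hh => G5_mul G hg hh
  have hmul' : ∀ g h : El G.X, (gDat G gam X act).mul g.1 h.1 = (g * h).1 := fun g h => by
    rw [hmul _ _ g.2 h.2, gmul_eq]
  constructor
  · exact isFun_lam fun p hp => G5_gmul_mem G (fst_mem hp) (snd_mem hp)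
  · intro a b c ha hb hc
    have := congrArg Subtype.val (mul_assoc (⟨a, ha⟩ : El G.X) ⟨b, hb⟩ ⟨c, hc⟩)
    rw [← hmul', ← hmul', ← hmul', ← hmul'] at this
    exact this
  · exact Subtype.property _
  · intro g hgG
    have := congrArg Subtype.val (one_mul (⟨g, hgG⟩ : El G.X))
    rw [← hmul'] at this
    exact this
  · intro g hgG
    have := congrArg Subtype.val (mul_one (⟨g, hgG⟩ : El G.X))
    rw [← hmul'] at this
    exact this
  · intro g hgG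
    refine ⟨((⟨g, hgG⟩ : El G.X)⁻¹).1, Subtype.property _, ?_, ?_⟩
    · have := congrArg Subtype.val (mul_inv_cancel (⟨g, hgG⟩ : El G.X))
      rw [← hmul'] at this
      exact this
    · have := congrArg Subtype.val (inv_mul_cancel (⟨g, hgG⟩ : El G.X))
      rw [← hmul'] at this
      exact this
  · exact hX
  · exact ha
  · intro g h x hgG hhG hx
    have := ham ⟨g, hgG⟩ ⟨h, hhG⟩ x hx
    rw [← hmul'] at this
    exact this
  · exact ha1
  · exact hg.fn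
  · intro m n hm hn
    obtain ⟨l, hl, e⟩ := hg.mul m n hm hn
    refine ⟨l, hl, ?_⟩
    exact e.trans (hmul _ _ (hg.fn.ap_mem hm) (hg.fn.ap_mem hn)).symm
  · intro m hm
    obtain ⟨n, hn, e1, e2⟩ := hg.inv m hm
    refine ⟨n, hn, ?_, ?_⟩
    · exact (hmul _ _ (hg.fn.ap_mem hm) (hg.fn.ap_mem hn)).trans e1
    · exact (hmul _ _ (hg.fn.ap_mem hn) (hg.fn.ap_mem hm)).trans e2
  · exact hg.one
  · exact sep_sub
  · exact (G5_mem_I G).mpr (mgr_emp hB)
  · intro A A' hA hs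
    exact (G5_mem_I G).mpr (((G5_mem_I G).mp hA).sub hs)
  · intro f hf
    have hm : ∀ n, n ∈ omega M → Mgr (mB G.toSepMetricSpace gam) G.X (ap f n) :=
      fun n hn => (G5_mem_I G).mp (hf.ap_mem hn)
    exact (G5_mem_I G).mpr (Mgr.iUnion hDC hB ctbl_omega
      (hf.mono fun n hn => mem_pow.mpr (hm n hn).1) hm)
  · intro h
    have h1 := (G5_mem_I G).mp h
    obtain ⟨u, hu, _⟩ := hB.cover (1 : El G.X).1 (Subtype.property _)
    exact hg.toDense.baire hDC G.complete hu (h1.sub (hB.sub u hu))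
  · intro g A hgG hA
    exact (G5_mem_I G).mpr (G5_left G hg hgG ((G5_mem_I G).mp hA))
  · intro g A hgG hA
    exact (G5_mem_I G).mpr (G5_right G hg hgG ((G5_mem_I G).mp hA))
  · obtain ⟨u, hu, _⟩ := hB.cover (1 : El G.X).1 (Subtype.property _)
    obtain ⟨f, hf⟩ := hB.ctbl.surj ⟨u, hu⟩
    refine ⟨lam (pow G.X) (fun A => G5_rho G gam f A),
      isFun_lam fun A _ => mem_pow.mpr sep_sub, ?_⟩
    intro A A' hA hA' h
    have h1 : G5_rho G gam f A = G5_rho G gam f A' := by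
      have e1 : ap (lam (pow G.X) (fun A => G5_rho G gam f A)) A = G5_rho G gam f A := ap_lam' hA
      have e2 : ap (lam (pow G.X) (fun A => G5_rho G gam f A)) A' = G5_rho G gam f A' :=
        ap_lam' hA'
      rw [← e1, ← e2]
      exact h
    exact ⟨(G5_mem_I G).mpr (G5_code G hDC hAD hg hf (mem_pow.mp hA) h1),
      (G5_mem_I G).mpr (G5_code G hDC hAD hg hf (mem_pow.mp hA') h1.symm)⟩
  · intro A A' hA hA' hn hn'
    obtain ⟨n, hn1, h1⟩ := G5_trans G (X := X) (act := act) hDC hAD hg (mem_pow.mp hA)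
      (mem_pow.mp hA') (fun h => hn ((G5_mem_I G).mpr h)) (fun h => hn' ((G5_mem_I G).mpr h))
    exact ⟨n, hn1, fun h => h1 ((G5_mem_I G).mp h)⟩

end group

end Pool.Agent.Lib.MP_f5c99b_lc
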