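import Pool.Agent.Lib.MP_7b07e0_lc.Basic

/-! Natural numbers, recursion, dependent choice in a model of `ZF`. (ROW N) -/

namespace Pool.Agent.Lib.MP_f5c99b_lc

universe u

variable {M : Type u} [Membership M M] [hZF : Fact (IsModelOfZF M)]

/-! ### order of the natural numbers: `m < n` is `m ∈ n` -/

theorem emp_mem_omega : (emp : M) ∈ omega M := ind_omega.1

theorem suc_mem_omega {n : M} (hn : n ∈ omega M) : suc n ∈ omega M := ind_omega.2 n hn

theorem mem_suc_self (n : M) : n ∈ suc n := mem_suc.mpr (Or.inr rfl)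

theorem omega_trans {n m : M} (hn : n ∈ omega M) (hm : m ∈ n) : m ∈ omega M := by
  refine omega_induction (fun n => ∀ m, m ∈ n → m ∈ omega M) ?_ ?_ n hn m hm
  · intro m hm
    exact (not_mem_emp m hm).elim
  · intro n hn ih m hm
    rcases mem_suc.mp hm with h | rfl
    · exact ih m h
    · exact hn

theorem omega_mem_trans {k m n : M} (hn : n ∈ omega M) (h : k ∈ m) (h' : m ∈ n) : k ∈ n := by
  refine omega_induction (fun n => ∀ m, m ∈ n → ∀ k, k ∈ m → k ∈ n) ?_ ?_ n hn m h' k h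
  · intro m hm
    exact (not_mem_emp m hm).elim
  · intro n hn ih m hm k hk
    rcases mem_suc.mp hm with h | rfl
    · exact mem_suc.mpr (Or.inl (ih m h k hk))
    · exact mem_suc.mpr (Or.inl hk)

theorem N_zero_or {n : M} (hn : n ∈ omega M) : n = emp ∨ emp ∈ n := by
  refine omega_induction (fun n => n = emp ∨ emp ∈ n) (Or.inl rfl) ?_ n hn
  rintro n _ (rfl | h)
  · exact Or.inr (mem_suc_self _)
  · exact Or.inr (mem_suc.mpr (Or.inl h))

theorem N_suc_mem_or {m n : M} (hn : n ∈ omega M) (h : m ∈ n) : suc m ∈ n ∨ suc m = n := by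
  refine omega_induction (fun n => ∀ m, m ∈ n → suc m ∈ n ∨ suc m = n) ?_ ?_ n hn m h
  · intro m hm
    exact (not_mem_emp m hm).elim
  · intro n _ ih m hm
    rcases mem_suc.mp hm with h | rfl
    · rcases ih m h with h1 | h1
      · exact Or.inl (mem_suc.mpr (Or.inl h1))
      · exact Or.inl (mem_suc.mpr (Or.inr h1))
    · exact Or.inr rfl

theorem omega_tri {m n : M} (hm : m ∈ omega M) (hn : n ∈ omega M) : m ∈ n ∨ m = n ∨ n ∈ m := by
  refine omega_induction (fun m => ∀ n, n ∈ omega M → m ∈ n ∨ m = n ∨ n ∈ m) ?_ ?_ m hm n hn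
  · intro n hn
    rcases N_zero_or hn with h | h
    · exact Or.inr (Or.inl h.symm)
    · exact Or.inl h
  · intro m _ ih n hn
    rcases ih n hn with h | h | h
    · rcases N_suc_mem_or hn h with h1 | h1
      · exact Or.inl h1
      · exact Or.inr (Or.inl h1)
    · exact Or.inr (Or.inr (mem_suc.mpr (Or.inr h.symm)))
    · exact Or.inr (Or.inr (mem_suc.mpr (Or.inl h)))

theorem omega_zero_or {n : M} (hn : n ∈ omega M) : n = emp ∨ emp ∈ n := N_zero_or hn

theorem suc_mem_suc {m n : M} (hm : m ∈ omega M) (hn : n ∈ omega M) : suc m ∈ suc n ↔ m ∈ n := by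
  constructor
  · intro h
    rcases mem_suc.mp h with h1 | h1
    · exact omega_mem_trans hn (mem_suc_self m) h1
    · rw [← h1]
      exact mem_suc_self m
  · intro h
    exact mem_suc.mpr (N_suc_mem_or hn h)

theorem suc_mem_or {m n : M} (hn : n ∈ omega M) (h : m ∈ n) : suc m ∈ n ∨ suc m = n :=
  N_suc_mem_or hn h

/-- `m ≤ n` is `m ⊆ n` -/
theorem omega_sub_iff {m n : M} (hm : m ∈ omega M) (hn : n ∈ omega M) :
    Sub m n ↔ m ∈ n ∨ m = n := by
  constructor
  · intro h
    rcases omega_tri hm hn with h1 | h1 | h1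
    · exact Or.inl h1
    · exact Or.inr h1
    · exact (not_mem_self n (h n h1)).elim
  · rintro (h | rfl)
    · exact fun x hx => omega_mem_trans hn hx h
    · exact Sub.refl _

theorem omega_strong (P : M → Prop) [D (fun v => P (v 0))]
    (h : ∀ n, n ∈ omega M → (∀ m, m ∈ n → P m) → P n) : ∀ n, n ∈ omega M → P n := by
  have key : ∀ n, n ∈ omega M → ∀ m, m ∈ n → P m := by
    refine omega_induction (fun n => ∀ m, m ∈ n → P m) ?_ ?_
    · intro m hm
      exact (not_mem_emp m hm).elim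
    · intro n hn ih m hm
      rcases mem_suc.mp hm with h1 | rfl
      · exact ih m h1
      · exact h _ hn ih
  exact fun n hn => h n hn (key n hn)

theorem omega_least (P : M → Prop) [D (fun v => P (v 0))] (h : ∃ n, n ∈ omega M ∧ P n) :
    ∃ n, n ∈ omega M ∧ P n ∧ ∀ m, m ∈ n → ¬ P m := by
  obtain ⟨n, hn, hP, h2⟩ := exists_min P h
  exact ⟨n, hn, hP, fun m hm => h2 m hm (omega_trans hn hm)⟩

/-- the least natural number with a property (as a definable term) -/
noncomputable def mu (P : M → Prop) : M := iota (fun n => n ∈ omega M ∧ P n ∧ ∀ m, m ∈ n → ¬ P m)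

instance DT_mu {P : (ℕ → M) → M → Prop} [h : D (fun v => P (fun i => v (i + 1)) (v 0))] :
    DT (fun v => mu (P v)) := by
  have h2 : D (fun v => P (fun i => v (i + 2)) (v 0)) :=
    h.perm (fun i => if i = 0 then 0 else i + 1)
  unfold mu
  infer_instance

theorem mu_spec {P : M → Prop} [D (fun v => P (v 0))] (h : ∃ n, n ∈ omega M ∧ P n) :
    mu P ∈ omega M ∧ P (mu P) ∧ ∀ m, m ∈ mu P → ¬ P m := by
  obtain ⟨n, hn, hP, h2⟩ := omega_least P h
  refine iota_spec (P := fun n => n ∈ omega M ∧ P n ∧ ∀ m, m ∈ n → ¬ P m) ⟨n, ⟨hn, hP, h2⟩, ?_⟩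
  rintro k ⟨hk, hPk, h3⟩
  rcases omega_tri hk hn with h1 | h1 | h1
  · exact (h2 k h1 hPk).elim
  · exact h1
  · exact (h3 n h1 hP).elim

/-- a function from a natural number to the natural numbers is bounded -/
theorem omega_bdd {n f : M} (hn : n ∈ omega M) (hf : IsFun f n (omega M)) :
    ∃ N, N ∈ omega M ∧ ∀ m, m ∈ n → ap f m ∈ N := by
  refine omega_induction (fun n => ∀ f, IsFun f n (omega M) →
    ∃ N, N ∈ omega M ∧ ∀ m, m ∈ n → ap f m ∈ N) ?_ ?_ n hn f hf
  · intro f _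
    exact ⟨emp, emp_mem_omega, fun m hm => (not_mem_emp m hm).elim⟩
  · intro n hn ih f hf
    have hsub : Sub n (suc n) := fun x hx => mem_suc.mpr (Or.inl hx)
    obtain ⟨N, hN, h1⟩ := ih (restr f n) (hf.restr hsub)
    have h2 : ∀ m, m ∈ n → ap f m ∈ N := by
      intro m hm
      have h3 := h1 m hm
      rwa [hf.ap_restr hsub hm] at h3
    have hk : ap f n ∈ omega M := hf.ap_mem (mem_suc_self n)
    rcases omega_tri hk hN with h3 | h3 | h3
    · refine ⟨N, hN, fun m hm => ?_⟩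
      rcases mem_suc.mp hm with h4 | rfl
      · exact h2 m h4
      · exact h3
    · refine ⟨suc N, suc_mem_omega hN, fun m hm => ?_⟩
      rcases mem_suc.mp hm with h4 | rfl
      · exact mem_suc.mpr (Or.inl (h2 m h4))
      · exact mem_suc.mpr (Or.inr h3)
    · refine ⟨suc (ap f n), suc_mem_omega hk, fun m hm => ?_⟩
      rcases mem_suc.mp hm with h4 | rfl
      · exact mem_suc.mpr (Or.inl (omega_mem_trans hk (h2 m h4) h3))
      · exact mem_suc_self _

/-! ### recursion -/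

theorem N_rec_aux (a : M) (t : M → M → M) [h : DT (fun v => t (v 0) (v 1))] :
    ∀ n, n ∈ omega M → ∃! x, ∃ g, ap g emp = a ∧ (∀ m, m ∈ n → ap g (suc m) = t m (ap g m)) ∧
      ap g n = x := by
  have ht2 : ∀ s1 s2 : (ℕ → M) → M, [DT s1] → [DT s2] → DT (fun v => t (s1 v) (s2 v)) :=
    fun s1 s2 _ _ => DT2 h s1 s2
  have huniq : ∀ n, n ∈ omega M → ∀ g g', ap g emp = a → ap g' emp = a →
      (∀ m, m ∈ n → ap g (suc m) = t m (ap g m)) →
      (∀ m, m ∈ n → ap g' (suc m) = t m (ap g' m)) → ap g n = ap g' n := by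
    intro n hn g g' h0 h0' h1 h1'
    have key : ∀ m, m ∈ omega M → (m ∈ suc n → ap g m = ap g' m) := by
      refine omega_induction (fun m => m ∈ suc n → ap g m = ap g' m) (fun _ => by rw [h0, h0']) ?_
      intro m hm ih hs
      have h2 : m ∈ n := (suc_mem_suc hm hn).mp hs
      rw [h1 m h2, h1' m h2, ih (mem_suc.mpr (Or.inl h2))]
    exact key n hn (mem_suc_self n)
  intro n hn
  refine existsUnique_of_exists_of_unique ?_ ?_
  · refine omega_induction (fun n => ∃ x, ∃ g, ap g emp = a ∧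
      (∀ m, m ∈ n → ap g (suc m) = t m (ap g m)) ∧ ap g n = x) ?_ ?_ n hn
    · refine ⟨a, lam (suc emp) (fun _ => a), ap_lam' (mem_suc_self emp), ?_,
        ap_lam' (mem_suc_self emp)⟩
      intro m hm
      exact (not_mem_emp m hm).elim
    · rintro n hn ⟨x, g, h0, h1, h2⟩
      let F : M → M := fun m => iota (fun z => (m ∈ suc n ∧ z = ap g m) ∨
        (m ∉ suc n ∧ z = t n (ap g n)))
      have hF : DT (fun v : ℕ → M => F (v 0)) := by
        show DT (fun v : ℕ → M => iota (fun z => (v 0 ∈ suc n ∧ z = ap g (v 0)) ∨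
          (v 0 ∉ suc n ∧ z = t n (ap g n))))
        infer_instance
      have hF1 : ∀ m, m ∈ suc n → F m = ap g m := by
        intro m hm
        refine iota_eq (Or.inl ⟨hm, rfl⟩) ?_
        rintro y (⟨_, h⟩ | ⟨h, _⟩)
        · exact h
        · exact absurd hm h
      have hF2 : F (suc n) = t n (ap g n) := by
        have hns : suc n ∉ suc n := not_mem_self _
        refine iota_eq (Or.inr ⟨hns, rfl⟩) ?_
        rintro y (⟨h, _⟩ | ⟨_, h⟩)
        · exact absurd h hns
        · exact h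
      have h3 : ∀ m, m ∈ suc n → ap (lam (suc (suc n)) F) m = ap g m := fun m hm => by
        rw [ap_lam' (mem_suc.mpr (Or.inl hm)), hF1 m hm]
      have h4 : ap (lam (suc (suc n)) F) (suc n) = t n (ap g n) := by
        rw [ap_lam' (mem_suc_self _), hF2]
      have h5 : (emp : M) ∈ suc n := by
        rcases omega_zero_or (suc_mem_omega hn) with h | h
        · exact absurd (h ▸ mem_suc_self n) (not_mem_emp n)
        · exact h
      refine ⟨_, lam (suc (suc n)) F, ?_, ?_, rfl⟩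
      · rw [h3 _ h5, h0]
      · intro m hm
        have hm' : m ∈ omega M := omega_trans (suc_mem_omega hn) hm
        rw [h3 m hm]
        rcases mem_suc.mp hm with h6 | rfl
        · rw [h3 (suc m) ((suc_mem_suc hm' hn).mpr h6), h1 m h6]
        · rw [h4]
  · rintro x y ⟨g, h0, h1, rfl⟩ ⟨g', h0', h1', rfl⟩
    exact huniq n hn g g' h0 h0' h1 h1'

/-- the same without a set `S` of values -/
theorem omega_rec' (a : M) (t : M → M → M) [DT (fun v => t (v 0) (v 1))] :
    ∃ f b, IsFun f (omega M) b ∧ ap f emp = a ∧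
      ∀ n, n ∈ omega M → ap f (suc n) = t n (ap f n) := by
  rename_i h
  have ht2 : ∀ s1 s2 : (ℕ → M) → M, [DT s1] → [DT s2] → DT (fun v => t (s1 v) (s2 v)) :=
    fun s1 s2 _ _ => DT2 h s1 s2
  let F : M → M := fun n => iota (fun x => ∃ g, ap g emp = a ∧
    (∀ m, m ∈ n → ap g (suc m) = t m (ap g m)) ∧ ap g n = x)
  have hF : DT (fun v : ℕ → M => F (v 0)) := by
    show DT (fun v : ℕ → M => iota (fun x => ∃ g, ap g emp = a ∧
      (∀ m, m ∈ v 0 → ap g (suc m) = t m (ap g m)) ∧ ap g (v 0) = x))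
    infer_instance
  have hspec : ∀ n, n ∈ omega M → ∃ g, ap g emp = a ∧
      (∀ m, m ∈ n → ap g (suc m) = t m (ap g m)) ∧ ap g n = F n :=
    fun n hn => iota_spec (N_rec_aux a t n hn)
  have heq : ∀ n, n ∈ omega M → ∀ g, ap g emp = a →
      (∀ m, m ∈ n → ap g (suc m) = t m (ap g m)) → F n = ap g n := by
    intro n hn g h0 h1
    exact (N_rec_aux a t n hn).unique (hspec n hn) ⟨g, h0, h1, rfl⟩
  refine ⟨lam (omega M) F, img (omega M) F, isFun_lam fun x hx => mem_img.mpr ⟨x, hx, rfl⟩, ?_, ?_⟩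
  · rw [ap_lam' emp_mem_omega]
    obtain ⟨g, h0, _, h2⟩ := hspec emp emp_mem_omega
    rw [← h2, h0]
  · intro n hn
    rw [ap_lam' (suc_mem_omega hn), ap_lam' hn]
    obtain ⟨g, h0, h1, h2⟩ := hspec (suc n) (suc_mem_omega hn)
    rw [← h2, h1 n (mem_suc_self n), heq n hn g h0 fun m hm => h1 m (mem_suc.mpr (Or.inl hm))]

/-- recursion on the natural numbers, for a definable step function -/
theorem omega_rec {S a : M} (t : M → M → M) [DT (fun v => t (v 0) (v 1))] (ha : a ∈ S)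
    (ht : ∀ n, n ∈ omega M → ∀ x, x ∈ S → t n x ∈ S) :
    ∃ f, IsFun f (omega M) S ∧ ap f emp = a ∧ ∀ n, n ∈ omega M → ap f (suc n) = t n (ap f n) := by
  obtain ⟨f, b, hf, h0, h1⟩ := omega_rec' a t
  refine ⟨f, hf.mono ?_, h0, h1⟩
  refine omega_induction (fun n => ap f n ∈ S) (by rw [h0]; exact ha) ?_
  intro n hn ih
  rw [h1 n hn]
  exact ht n hn _ ih

/-- two functions with the same recursion are equal -/
theorem omega_rec_unique {f g b b' : M} (t : M → M → M) [DT (fun v => t (v 0) (v 1))]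
    (hf : IsFun f (omega M) b) (hg : IsFun g (omega M) b') (h0 : ap f emp = ap g emp)
    (h1 : ∀ n, n ∈ omega M → ap f (suc n) = t n (ap f n))
    (h2 : ∀ n, n ∈ omega M → ap g (suc n) = t n (ap g n)) : f = g := by
  refine hf.ext hg ?_
  refine omega_induction (fun n => ap f n = ap g n) h0 ?_
  intro n hn ih
  rw [h1 n hn, h2 n hn, ih]

/-! ### choice -/

variable (M) in
/-- the axiom of dependent choice (with a given first term) -/
def DC : Prop := ∀ S R a : M, a ∈ S → (∀ x, x ∈ S → ∃ y, y ∈ S ∧ App R x y) →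
  ∃ f, IsFun f (omega M) S ∧ ap f emp = a ∧
    ∀ n, n ∈ omega M → App R (ap f n) (ap f (suc n))

theorem dc_rel (hDC : DC M) {S a : M} (ha : a ∈ S) (P : M → M → Prop)
    [D (fun v => P (v 0) (v 1))] (hP : ∀ x, x ∈ S → ∃ y, y ∈ S ∧ P x y) :
    ∃ f, IsFun f (omega M) S ∧ ap f emp = a ∧
      ∀ n, n ∈ omega M → P (ap f n) (ap f (suc n)) := by
  rename_i h
  have hD : D (fun v : ℕ → M => P (fst (v 0)) (snd (v 0))) := D2 h _ _
  have hR : ∀ x y, App (sep (prod S S) (fun p => P (fst p) (snd p))) x y ↔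
      (x ∈ S ∧ y ∈ S) ∧ P x y := by
    intro x y
    rw [app_iff, mem_sep, pr_mem_prod, fst_pr, snd_pr]
  obtain ⟨f, hf, h0, h1⟩ := hDC S (sep (prod S S) (fun p => P (fst p) (snd p))) a ha (by
    intro x hx
    obtain ⟨y, hy, hxy⟩ := hP x hx
    exact ⟨y, hy, (hR x y).mpr ⟨⟨hx, hy⟩, hxy⟩⟩)
  exact ⟨f, hf, h0, fun n hn => ((hR _ _).mp (h1 n hn)).2⟩

/-- dependent choice, the relation may depend on the number of the step -/
theorem dc_rel' (hDC : DC M) {S a : M} (ha : a ∈ S) (P : M → M → M → Prop)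
    [D (fun v => P (v 0) (v 1) (v 2))]
    (hP : ∀ n, n ∈ omega M → ∀ x, x ∈ S → ∃ y, y ∈ S ∧ P n x y) :
    ∃ f, IsFun f (omega M) S ∧ ap f emp = a ∧
      ∀ n, n ∈ omega M → P n (ap f n) (ap f (suc n)) := by
  rename_i h
  have hD1 : D (fun v : ℕ → M => P (fst (v 0)) (snd (v 0)) (snd (v 1))) := D3 h _ _ _
  have hD : D (fun v : ℕ → M => fst (v 1) = suc (fst (v 0)) ∧
      P (fst (v 0)) (snd (v 0)) (snd (v 1))) := inferInstance
  obtain ⟨f, hf, h0, h1⟩ := dc_rel hDC (S := prod (omega M) S) (a := pr emp a)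
    (pr_mem_prod.mpr ⟨emp_mem_omega, ha⟩)
    (fun p q => fst q = suc (fst p) ∧ P (fst p) (snd p) (snd q)) (by
      intro p hp
      obtain ⟨y, hy, hPy⟩ := hP (fst p) (fst_mem hp) (snd p) (snd_mem hp)
      refine ⟨pr (suc (fst p)) y, pr_mem_prod.mpr ⟨suc_mem_omega (fst_mem hp), hy⟩, ?_, ?_⟩
      · rw [fst_pr]
      · rw [snd_pr]; exact hPy)
  have hfst : ∀ n, n ∈ omega M → fst (ap f n) = n := by
    refine omega_induction (fun n => fst (ap f n) = n) (by rw [h0, fst_pr]) ?_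
    intro n hn ih
    rw [(h1 n hn).1, ih]
  refine ⟨lam (omega M) (fun n => snd (ap f n)), isFun_lam fun n hn => snd_mem (hf.ap_mem hn),
    ?_, ?_⟩
  · rw [ap_lam' emp_mem_omega, h0, snd_pr]
  · intro n hn
    rw [ap_lam' hn, ap_lam' (suc_mem_omega hn)]
    have := (h1 n hn).2
    rwa [hfst n hn] at this

/-- countable choice -/
theorem cchoice (hDC : DC M) {S : M} (P : M → M → Prop) [D (fun v => P (v 0) (v 1))]
    (hP : ∀ n, n ∈ omega M → ∃ x, x ∈ S ∧ P n x) :
    ∃ f, IsFun f (omega M) S ∧ ∀ n, n ∈ omega M → P n (ap f n) := by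
  rename_i h
  have hD : D (fun v : ℕ → M => P (suc (v 0)) (v 2)) := D2 h _ _
  obtain ⟨x0, hx0, hx0'⟩ := hP emp emp_mem_omega
  obtain ⟨f, hf, h0, h1⟩ := dc_rel' hDC hx0 (fun n _ y => P (suc n) y)
    (fun n hn _ _ => hP (suc n) (suc_mem_omega hn))
  refine ⟨f, hf, fun n hn => ?_⟩
  rcases omega_cases hn with rfl | ⟨m, hm, rfl⟩
  · rw [h0]; exact hx0'
  · exact h1 m hm

end Pool.Agent.Lib.MP_f5c99b_lc
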