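import Pool.Agent.Lib.MP_7b07e0_lc.Ctbl

/-! Ordinals and `ω₁` in a model of `ZF`. (ROW O) -/

namespace Pool.Agent.Lib.MP_f5c99b_lc

universe u

variable {M : Type u} [Membership M M] [hZF : Fact (IsModelOfZF M)]

/-- `x` is transitive -/
def Tr (x : M) : Prop := ∀ y, y ∈ x → Sub y x

omit hZF in
theorem D_Tr_aux : D (fun v : ℕ → M => Tr (v 0)) := by
  unfold Tr
  infer_instance

omit hZF in
instance D_Tr (t1 : (ℕ → M) → M) [DT t1] : D (fun v => Tr (t1 v)) := D1 D_Tr_aux t1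

/-- `x` is an ordinal: a transitive set of transitive sets -/
def Ord (x : M) : Prop := Tr x ∧ ∀ y, y ∈ x → Tr y

omit hZF in
theorem D_Ord_aux : D (fun v : ℕ → M => Ord (v 0)) := by
  unfold Ord
  infer_instance

omit hZF in
instance D_Ord (t1 : (ℕ → M) → M) [DT t1] : D (fun v => Ord (t1 v)) := D1 D_Ord_aux t1

omit hZF in
theorem Ord.mem {x y : M} (h : Ord x) (hy : y ∈ x) : Ord y :=
  ⟨h.2 y hy, fun z hz => h.2 z (h.1 y hy z hz)⟩

omit hZF in
theorem Ord.trans {x y z : M} (h : Ord x) (hy : y ∈ x) (hz : z ∈ y) : z ∈ x := h.1 y hy z hz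

theorem O1d_suc_sub {x z : M} (hx : Ord x) (hz : z ∈ suc x) : Ord z ∧ ∀ w, w ∈ z → w ∈ suc x := by
  rcases mem_suc.mp hz with h | rfl
  · exact ⟨hx.mem h, fun w hw => mem_suc.mpr (Or.inl (hx.trans h hw))⟩
  · exact ⟨hx, fun w hw => mem_suc.mpr (Or.inl hw)⟩

theorem Ord.tri {x y : M} (hx : Ord x) (hy : Ord y) : x ∈ y ∨ x = y ∨ y ∈ x := by
  by_contra hne
  obtain ⟨a, ha, ⟨b0, hb0, hab0⟩, hmin⟩ := exists_min (a := suc x)
    (fun a => ∃ b, b ∈ suc y ∧ ¬ (a ∈ b ∨ a = b ∨ b ∈ a))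
    ⟨x, mem_suc_self x, y, mem_suc_self y, hne⟩
  obtain ⟨b, hb, hab, hmin2⟩ := exists_min (a := suc y)
    (fun b => ¬ (a ∈ b ∨ a = b ∨ b ∈ a)) ⟨b0, hb0, hab0⟩
  obtain ⟨hao, ha2⟩ := O1d_suc_sub hx ha
  obtain ⟨hbo, hb2⟩ := O1d_suc_sub hy hb
  apply hab
  right; left
  refine Pool.Agent.Lib.MP_f5c99b_lc.ext fun u => ⟨fun hu => ?_, fun hu => ?_⟩
  · have h1 := hmin u hu (ha2 u hu)
    push Not at h1
    rcases h1 b hb with h | rfl | h
    · exact h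
    · exact absurd (Or.inr (Or.inr hu)) hab
    · exact absurd (Or.inr (Or.inr (hao.trans hu h))) hab
  · have h1 := hmin2 u hu (hb2 u hu)
    rw [not_not] at h1
    rcases h1 with h | rfl | h
    · exact absurd (Or.inl (hbo.trans hu h)) hab
    · exact absurd (Or.inl hu) hab
    · exact h

theorem Ord.sub_iff {x y : M} (hx : Ord x) (hy : Ord y) : Sub x y ↔ x ∈ y ∨ x = y := by
  constructor
  · intro h
    rcases hx.tri hy with h1 | h1 | h1
    · exact Or.inl h1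
    · exact Or.inr h1
    · exact absurd (h y h1) (not_mem_self y)
  · rintro (h | rfl)
    · exact hy.1 x h
    · exact Sub.refl x

theorem ord_emp : Ord (emp : M) :=
  ⟨fun y hy => (not_mem_emp y hy).elim, fun y hy => (not_mem_emp y hy).elim⟩

theorem Ord.suc {x : M} (hx : Ord x) : Ord (suc x) :=
  ⟨fun _ hy => (O1d_suc_sub hx hy).2, fun _ hy => (O1d_suc_sub hx hy).1.1⟩

/-- the union of a set of ordinals is an ordinal -/
theorem Ord.sU {a : M} (h : ∀ x, x ∈ a → Ord x) : Ord (sU a) := by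
  constructor
  · intro y hy z hz
    obtain ⟨x, hx, hyx⟩ := mem_sU.mp hy
    exact mem_sU.mpr ⟨x, hx, (h x hx).trans hyx hz⟩
  · intro y hy
    obtain ⟨x, hx, hyx⟩ := mem_sU.mp hy
    exact (h x hx).2 y hyx

theorem Ord.least (P : M → Prop) [D (fun v => P (v 0))] (h : ∃ x, Ord x ∧ P x) :
    ∃ x, Ord x ∧ P x ∧ ∀ y, y ∈ x → ¬ P y := by
  obtain ⟨x, hx, hP⟩ := h
  obtain ⟨z, hz, hPz, hmin⟩ := exists_min (a := Pool.Agent.Lib.MP_f5c99b_lc.suc x) P
    ⟨x, mem_suc_self x, hP⟩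
  obtain ⟨h1, h2⟩ := O1d_suc_sub hx hz
  exact ⟨z, h1, hPz, fun y hy => hmin y hy (h2 y hy)⟩

theorem ord_induct (P : M → Prop) [D (fun v => P (v 0))]
    (h : ∀ x, Ord x → (∀ y, y ∈ x → P y) → P x) : ∀ x, Ord x → P x := by
  intro x hx
  by_contra hP
  obtain ⟨z, hz, hPz, hmin⟩ := Ord.least (fun x => ¬ P x) ⟨x, hx, hP⟩
  exact hPz (h z hz fun y hy => not_not.mp (hmin y hy))

theorem ord_of_omega {n : M} (hn : n ∈ omega M) : Ord n :=
  omega_induction (fun n => Ord n) ord_emp (fun _ _ h => h.suc) n hn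

theorem ord_omega : Ord (omega M) :=
  ⟨fun _ hn _ hm => omega_trans hn hm, fun _ hn => (ord_of_omega hn).1⟩

/-- one half of `ord_rigid`: the two surjections agree -/
theorem O2d_agree {r r' δ δ' : M} (hδ : Ord δ) (hδ' : Ord δ') (hr : Surj r (omega M) δ)
    (hr' : Surj r' (omega M) δ')
    (h : ∀ m, m ∈ omega M → ∀ n, n ∈ omega M → (ap r m ∈ ap r n ↔ ap r' m ∈ ap r' n)) :
    ∀ m, m ∈ omega M → ap r m = ap r' m := by
  by_contra hcon
  push Not at hcon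
  obtain ⟨m0, hm0, hne0⟩ := hcon
  obtain ⟨x, hx, ⟨m, hm, hmx, hne⟩, hmin⟩ := exists_min (a := δ)
    (fun x => ∃ m, m ∈ omega M ∧ ap r m = x ∧ ap r' m ≠ x)
    ⟨ap r m0, hr.1.ap_mem hm0, m0, hm0, rfl, fun e => hne0 e.symm⟩
  subst hmx
  have key : ∀ n, n ∈ omega M → ap r n ∈ ap r m → ap r' n = ap r n := by
    intro n hn hnm
    by_contra hne2
    exact hmin (ap r n) hnm (hr.1.ap_mem hn) ⟨n, hn, rfl, hne2⟩
  apply hne
  refine Pool.Agent.Lib.MP_f5c99b_lc.ext fun u => ⟨fun hu => ?_, fun hu => ?_⟩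
  · have hu' : u ∈ δ' := hδ'.trans (hr'.1.ap_mem hm) hu
    obtain ⟨n, hn, rfl⟩ := hr'.2 u hu'
    have h1 := (h n hn m hm).mpr hu
    rw [key n hn h1]
    exact h1
  · have hu' : u ∈ δ := hδ.trans hx hu
    obtain ⟨n, hn, rfl⟩ := hr.2 u hu'
    have h1 := (h n hn m hm).mp hu
    rwa [key n hn hu] at h1

/-- two surjections from `ω` onto ordinals which induce the same order on `ω` are equal -/
theorem ord_rigid {r r' δ δ' : M} (hδ : Ord δ) (hδ' : Ord δ') (hr : Surj r (omega M) δ)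
    (hr' : Surj r' (omega M) δ')
    (h : ∀ m, m ∈ omega M → ∀ n, n ∈ omega M → (ap r m ∈ ap r n ↔ ap r' m ∈ ap r' n)) :
    r = r' ∧ δ = δ' := by
  have h1 := O2d_agree hδ hδ' hr hr' h
  refine ⟨hr.1.ext hr'.1 h1, ?_⟩
  refine Pool.Agent.Lib.MP_f5c99b_lc.ext fun u => ⟨fun hu => ?_, fun hu => ?_⟩
  · obtain ⟨n, hn, rfl⟩ := hr.2 u hu
    rw [h1 n hn]
    exact hr'.1.ap_mem hn
  · obtain ⟨n, hn, rfl⟩ := hr'.2 u hu
    rw [← h1 n hn]
    exact hr.1.ap_mem hn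

variable (M) in
/-- the set of countable ordinals -/
noncomputable def om1 : M := coll (fun x : M => Ord x ∧ Ctbl x)

/-- `w` is the order on `ω` induced by a surjection onto the ordinal `δ` -/
def O2dCode (w δ : M) : Prop := Ord δ ∧ ∃ r, Surj r (omega M) δ ∧
  ∀ m, m ∈ omega M → ∀ n, n ∈ omega M → (pr m n ∈ w ↔ ap r m ∈ ap r n)

instance D_O2dCode (t1 t2 : (ℕ → M) → M) [DT t1] [DT t2] :
    D (fun v => O2dCode (t1 v) (t2 v)) := by
  refine D2 (P := O2dCode) ?_ t1 t2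
  unfold O2dCode
  infer_instance

/-- the ordinal coded by `w` -/
noncomputable def O2dVal (w : M) : M := iota (fun δ => O2dCode w δ)

instance DT_O2dVal (t1 : (ℕ → M) → M) [DT t1] : DT (fun v => O2dVal (t1 v)) := by
  refine DT1 (f := O2dVal) ?_ t1
  unfold O2dVal
  infer_instance

theorem O2dVal_eq {w δ : M} (h : O2dCode w δ) : O2dVal w = δ := by
  refine iota_eq h ?_
  intro δ' h'
  obtain ⟨hδ, r, hr, h1⟩ := h
  obtain ⟨hδ', r', hr', h1'⟩ := h'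
  exact (ord_rigid hδ' hδ hr' hr fun m hm n hn => (h1' m hm n hn).symm.trans (h1 m hm n hn)).2

/-- the countable ordinals form a set -/
theorem mem_om1 {x : M} : x ∈ om1 M ↔ Ord x ∧ Ctbl x := by
  unfold om1
  refine mem_coll_of (P := fun x : M => Ord x ∧ Ctbl x)
    (a := un (img (pow (prod (omega M) (omega M))) (fun w => O2dVal w)) (upair emp emp)) ?_
  rintro x ⟨hx, hc⟩
  rw [mem_un]
  by_cases hne : ∃ y, y ∈ x
  · left
    obtain ⟨r, hr⟩ := hc.surj hne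
    rw [mem_img]
    refine ⟨sep (prod (omega M) (omega M)) (fun p => ap r (fst p) ∈ ap r (snd p)),
      sep_mem_pow, ?_⟩
    refine (O2dVal_eq ⟨hx, r, hr, ?_⟩).symm
    intro m hm n hn
    rw [mem_sep, fst_pr, snd_pr, pr_mem_prod]
    exact ⟨fun h => h.2, fun h => ⟨⟨hm, hn⟩, h⟩⟩
  · right
    rw [mem_upair]
    left
    exact eq_emp fun y hy => hne ⟨y, hy⟩

instance DT_om1 : DT (fun _ : ℕ → M => om1 M) := DT_const _

theorem ord_om1 : Ord (om1 M) := by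
  constructor
  · intro y hy z hz
    obtain ⟨h1, h2⟩ := mem_om1.mp hy
    exact mem_om1.mpr ⟨h1.mem hz, h2.sub (h1.1 z hz)⟩
  · intro y hy
    exact (mem_om1.mp hy).1.1

theorem not_ctbl_om1 : ¬ Ctbl (om1 M) :=
  fun h => not_mem_self _ (mem_om1.mpr ⟨ord_om1, h⟩)

theorem omega_mem_om1 : omega M ∈ om1 M := mem_om1.mpr ⟨ord_omega, ctbl_omega⟩

theorem omega_sub_om1 : Sub (omega M) (om1 M) := ord_om1.1 _ omega_mem_om1

theorem suc_mem_om1 {x : M} (h : x ∈ om1 M) : suc x ∈ om1 M := by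
  obtain ⟨h1, h2⟩ := mem_om1.mp h
  refine mem_om1.mpr ⟨h1.suc, (h2.un (ctbl_upair x x)).sub ?_⟩
  intro y hy
  rw [mem_un]
  rcases mem_suc.mp hy with hy | rfl
  · exact Or.inl hy
  · exact Or.inr (mem_upair.mpr (Or.inl rfl))

theorem om1_trans {x y : M} (h : x ∈ om1 M) (hy : y ∈ x) : y ∈ om1 M := ord_om1.1 x h y hy

/-- regularity of `ω₁` -/
theorem om1_sup (hDC : DC M) {a : M} (ha : Sub a (om1 M)) (hc : Ctbl a) : sU a ∈ om1 M :=
  mem_om1.mpr ⟨Ord.sU fun x hx => (mem_om1.mp (ha x hx)).1,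
    hc.sU hDC fun x hx => (mem_om1.mp (ha x hx)).2⟩

/-- regularity of `ω₁`: countable sets of countable ordinals are bounded -/
theorem om1_bdd (hDC : DC M) {a : M} (ha : Sub a (om1 M)) (hc : Ctbl a) :
    ∃ α, α ∈ om1 M ∧ ∀ x, x ∈ a → x ∈ α := by
  have h := om1_sup hDC ha hc
  refine ⟨suc (sU a), suc_mem_om1 h, fun x hx => mem_suc.mpr ?_⟩
  exact ((mem_om1.mp (ha x hx)).1.sub_iff (mem_om1.mp h).1).mp
    fun y hy => mem_sU.mpr ⟨x, hx, hy⟩

end Pool.Agent.Lib.MP_f5c99b_lc
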