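import Pool.Agent.Lib.MP_7b07e0_lc.RecAct

/-! The canonical sequence of a point. (ROW K)

`F` is an arbitrary set (later a uniformizing function). -/

namespace Pool.Agent.Lib.MP_f5c99b_lc

universe u

variable {M : Type u} [Membership M M] [hZF : Fact (IsModelOfZF M)] {d : Dat M}

theorem Val_sub {F y δ k op : M} : Sub (Val d F y δ k op) d.G := sep_sub

theorem K1_sub_of_mem {δ i : M} (hδ : Ord δ) (hi : i ∈ δ) : Sub i δ := hδ.1 i hi

theorem K1_restr_restr {k i j : M} (h : Sub j i) : restr (restr k i) j = restr k j := by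
  refine Pool.Agent.Lib.MP_f5c99b_lc.ext fun p => ?_
  rw [restr, mem_sep, restr, mem_sep, restr, mem_sep]
  exact ⟨fun hp => ⟨hp.1.1, hp.2⟩, fun hp => ⟨⟨hp.1, h _ hp.2⟩, hp.2⟩⟩

theorem K1_restr_self {k δ b : M} (h : IsFun k δ b) : restr k δ = k := by
  rw [h.restr_eq (Sub.refl δ)]
  exact h.eq_lam.symm

theorem K1_eqI_symm {A B : M} (h : d.eqI A B) : d.eqI B A := ⟨h.2, h.1⟩

theorem K1_ops {δ op : M} (hδ : δ ∈ om1 M) (h : Valid δ op) : op ∈ ops (M := M) := by
  have h1 : Sub δ (om1 M) := fun x hx => om1_trans hδ hx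
  have h2 : Sub (fseq δ) (fseq (om1 M)) := by
    intro s hs
    obtain ⟨n, hn, hf⟩ := mem_fseq.mp hs
    exact mem_fseq.mpr ⟨n, hn, hf.mono fun x hx => h1 _ (hf.ap_mem hx)⟩
  exact prod_mono (Sub.refl _) (prod_mono (Sub.refl _) h2) _ h.1

/-- the first new operation is unique -/
theorem K1_Fst_unique {F cd y δ k op op' : M} (hcd : Inj cd (ops (M := M)) (om1 M)) (hδ : δ ∈ om1 M)
    (h : Fst d F cd y δ k op) (h' : Fst d F cd y δ k op') : op = op' := by
  have o1 := K1_ops hδ h.1.1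
  have o2 := K1_ops hδ h'.1.1
  have a1 := (mem_om1.mp (hcd.1.ap_mem o1)).1
  have a2 := (mem_om1.mp (hcd.1.ap_mem o2)).1
  rcases a1.tri a2 with h1 | h1 | h1
  · exact absurd h1 (h'.2 op h.1)
  · exact hcd.2 op o1 op' o2 h1
  · exact absurd h1 (h.2 op' h'.1)

theorem Apx.restr {F cd y δ k i : M} (h : Apx d F cd y δ k) (hi : i ∈ δ) :
    Apx d F cd y i (restr k i) := by
  obtain ⟨h1, h2, h3⟩ := h
  have hO := (mem_om1.mp h1).1
  have hs : Sub i δ := K1_sub_of_mem hO hi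
  have hOi : Ord i := (mem_om1.mp (om1_trans h1 hi)).1
  refine ⟨om1_trans h1 hi, h2.restr hs, fun j hj => ?_⟩
  obtain ⟨op, ho, hv⟩ := h3 j (hs j hj)
  rw [K1_restr_restr (K1_sub_of_mem hOi hj), h2.ap_restr hs hj]
  exact ⟨op, ho, hv⟩

/-- the values of a canonical sequence are pairwise different modulo the ideal -/
theorem Apx.inj {F cd y δ k i j : M} (h : Apx d F cd y δ k) (hi : i ∈ δ) (hj : j ∈ δ)
    (he : d.eqI (ap k i) (ap k j)) : i = j := by
  obtain ⟨h1, h2, h3⟩ := h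
  have hO := (mem_om1.mp h1).1
  have key : ∀ a b, a ∈ δ → b ∈ δ → d.eqI (ap k a) (ap k b) → a ∉ b := by
    intro a b ha hb hab hc
    obtain ⟨op, ho, hv⟩ := h3 b hb
    have h4 := ho.1.2 a hc
    rw [← hv, h2.ap_restr (K1_sub_of_mem hO hb) hc] at h4
    exact h4 (K1_eqI_symm hab)
  have hOi : Ord i := (mem_om1.mp (om1_trans h1 hi)).1
  have hOj : Ord j := (mem_om1.mp (om1_trans h1 hj)).1
  rcases hOi.tri hOj with h4 | h4 | h4
  · exact absurd h4 (key i j hi hj he)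
  · exact h4
  · exact absurd h4 (key j i hj hi (K1_eqI_symm he))

/-- canonical sequences are unique -/
theorem Apx.unique {F cd y δ k δ' k' : M} (hcd : Inj cd (ops (M := M)) (om1 M))
    (h : Apx d F cd y δ k) (h' : Apx d F cd y δ' k') (hs : Sub δ δ') : k = Pool.Agent.Lib.MP_f5c99b_lc.restr k' δ := by
  obtain ⟨h1, h2, h3⟩ := h
  obtain ⟨h1', h2', h3'⟩ := h'
  have hO := (mem_om1.mp h1).1
  have hO' := (mem_om1.mp h1').1
  refine h2.ext (h2'.restr hs) fun i hi => ?_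
  rw [h2'.ap_restr hs hi]
  by_contra hne
  obtain ⟨x, hx, hP, hmin⟩ := exists_min (a := δ) (fun x => ap k x ≠ ap k' x) ⟨i, hi, hne⟩
  have hx' : x ∈ δ' := hs x hx
  have hsx : Sub x δ := K1_sub_of_mem hO hx
  have hsx' : Sub x δ' := K1_sub_of_mem hO' hx'
  have hr : Pool.Agent.Lib.MP_f5c99b_lc.restr k x = Pool.Agent.Lib.MP_f5c99b_lc.restr k' x := by
    refine (h2.restr hsx).ext (h2'.restr hsx') fun j hj => ?_
    rw [h2.ap_restr hsx hj, h2'.ap_restr hsx' hj]
    exact not_not.mp (hmin j hj (hsx j hj))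
  obtain ⟨op, ho, hv⟩ := h3 x hx
  obtain ⟨op', ho', hv'⟩ := h3' x hx'
  rw [← hr] at ho' hv'
  have he := K1_Fst_unique hcd (om1_trans h1 hx) ho ho'
  rw [← he] at hv'
  exact hP (hv.trans hv'.symm)

theorem Mx_unique {F cd y δ k δ' k' : M} (hcd : Inj cd (ops (M := M)) (om1 M))
    (h : Mx d F cd y δ k) (h' : Mx d F cd y δ' k') : δ = δ' ∧ k = k' := by
  have key : ∀ a f b g, Mx d F cd y a f → Mx d F cd y b g → a ∉ b := by
    intro a f b g h1 h2 hab
    have hO := (mem_om1.mp h2.1.1).1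
    have he := Apx.unique hcd h1.1 h2.1 (K1_sub_of_mem hO hab)
    obtain ⟨op, ho, _⟩ := h2.1.2.2 a hab
    rw [← he] at ho
    exact h1.2 op ho.1
  have hO := (mem_om1.mp h.1.1).1
  have hO' := (mem_om1.mp h'.1.1).1
  have hδ : δ = δ' := by
    rcases hO.tri hO' with h1 | h1 | h1
    · exact absurd h1 (key δ k δ' k' h h')
    · exact h1
    · exact absurd h1 (key δ' k' δ k h' h)
  subst hδ
  refine ⟨rfl, ?_⟩
  have he := Apx.unique hcd h.1 h'.1 (Sub.refl δ)
  rw [K1_restr_self h'.1.2.1] at he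
  exact he

/-! #### row K2 -/

theorem K2_fseq_mono {S T : M} (h : Sub S T) : Sub (fseq S) (fseq T) := by
  intro s hs
  obtain ⟨n, hn, hf⟩ := mem_fseq.mp hs
  exact mem_fseq.mpr ⟨n, hn, hf.mono fun x hx => h _ (hf.ap_mem hx)⟩

theorem K2_valid_ops {δ op : M} (hδ : δ ∈ om1 M) (h : Valid δ op) : op ∈ ops (M := M) :=
  prod_mono (Sub.refl _) (prod_mono (Sub.refl _) (K2_fseq_mono (ord_om1.1 δ hδ))) op h.1

theorem K2_fst_exists {F cd y δ k : M} (hcd : Inj cd (ops (M := M)) (om1 M)) (hδ : δ ∈ om1 M)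
    (h : ∃ op, New d F y δ k op) : ∃ op, Fst d F cd y δ k op := by
  obtain ⟨op, hop⟩ := h
  obtain ⟨α, -, ⟨op', h1, rfl⟩, h3⟩ := exists_min (a := om1 M)
    (fun α => ∃ op, New d F y δ k op ∧ ap cd op = α)
    ⟨ap cd op, hcd.1.ap_mem (K2_valid_ops hδ hop.1), op, hop, rfl⟩
  exact ⟨op', h1, fun op2 h2 h4 => h3 _ h4 (hcd.1.ap_mem (K2_valid_ops hδ h2.1)) ⟨op2, h2, rfl⟩⟩

theorem K2_fst_unique {F cd y δ k op op' : M} (hcd : Inj cd (ops (M := M)) (om1 M))
    (hδ : δ ∈ om1 M) (h : Fst d F cd y δ k op) (h' : Fst d F cd y δ k op') : op = op' := by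
  have h1 := K2_valid_ops hδ h.1.1
  have h2 := K2_valid_ops hδ h'.1.1
  rcases Ord.tri (ord_om1.mem (hcd.1.ap_mem h1)) (ord_om1.mem (hcd.1.ap_mem h2)) with h3 | h3 | h3
  · exact absurd h3 (h'.2 _ h.1)
  · exact hcd.2 _ h1 _ h2 h3
  · exact absurd h3 (h.2 _ h'.1)

variable (d) in
/-- the value of the canonical sequence of `y` at `i` -/
noncomputable def K2_V (F cd y i : M) : M := Val d F y i (iota (fun k => Apx d F cd y i k))
  (iota (fun op => Fst d F cd y i (iota (fun k => Apx d F cd y i k)) op))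

instance K2_DT_V (F cd y : M) (t : (ℕ → M) → M) [DT t] :
    DT (fun v => K2_V d F cd y (t v)) := by
  refine DT1 (f := fun i => K2_V d F cd y i) ?_ t
  unfold K2_V
  infer_instance

theorem K2_restr_self {f a b : M} (h : IsFun f a b) : Pool.Agent.Lib.MP_f5c99b_lc.restr f a = f :=
  (h.restr_eq (Sub.refl a)).trans h.eq_lam.symm

theorem K2_fun {F cd y δ : M} : IsFun (lam δ (fun i => K2_V d F cd y i)) δ (pow d.G) :=
  isFun_lam' fun _ _ => mem_pow'.mpr Val_sub

theorem K2_restr {F cd y δ i : M} (hi : Sub i δ) :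
    Pool.Agent.Lib.MP_f5c99b_lc.restr (lam δ (fun i => K2_V d F cd y i)) i =
      lam i (fun i => K2_V d F cd y i) := by
  refine (K2_fun.restr hi).ext (K2_fun (δ := i)) fun x hx => ?_
  rw [K2_fun.ap_restr hi hx, ap_lam' hx, ap_lam' (hi x hx)]

theorem K2_apx {F cd y : M} (hcd : Inj cd (ops (M := M)) (om1 M))
    (hno : ∀ δ k, Apx d F cd y δ k → ∃ op, New d F y δ k op) :
    ∀ δ, Ord δ → δ ∈ om1 M → Apx d F cd y δ (lam δ (fun i => K2_V d F cd y i)) := by
  refine ord_induct (fun δ => δ ∈ om1 M → Apx d F cd y δ (lam δ (fun i => K2_V d F cd y i))) ?_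
  intro δ hδ ih hm
  have ih' : ∀ i, i ∈ δ → Apx d F cd y i (lam i (fun i => K2_V d F cd y i)) :=
    fun i hi => ih i hi (om1_trans hm hi)
  refine ⟨hm, K2_fun, fun i hi => ?_⟩
  have hK : iota (fun k => Apx d F cd y i k) = lam i (fun i => K2_V d F cd y i) := by
    refine iota_eq (ih' i hi) fun k hk => ?_
    rw [Apx.unique hcd hk (ih' i hi) (Sub.refl i), K2_restr_self K2_fun]
  obtain ⟨op, hop⟩ := K2_fst_exists hcd (om1_trans hm hi) (hno _ _ (ih' i hi))
  refine ⟨op, ?_, ?_⟩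
  · rw [K2_restr (hδ.1 i hi)]
    exact hop
  · rw [K2_restr (hδ.1 i hi), ap_lam' hi, K2_V, hK,
      iota_eq hop fun op' h' => K2_fst_unique hcd (om1_trans hm hi) h' hop]

/-- existence of the canonical sequence: otherwise the union of all initial pieces would be an
injection of `ω₁` into `P(G)` modulo `I`, hence into the reals -/
theorem exists_Mx (hDC : DC M) (hAD : ADR M) (hd : d.Good) {F cd : M}
    (hcd : Inj cd (ops (M := M)) (om1 M)) (y : M) : ∃ δ k, Mx d F cd y δ k := by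
  by_contra hcon
  have hno : ∀ δ k, Apx d F cd y δ k → ∃ op, New d F y δ k op := by
    intro δ k h
    by_contra h'
    push Not at h'
    exact hcon ⟨δ, k, h, h'⟩
  have key := K2_apx hcd hno
  obtain ⟨ρ, hρ, hρ'⟩ := hd.I_code
  refine no_om1 hDC hAD (Emb.of_fun (fun i => ap ρ (K2_V d F cd y i)) ?_ ?_)
  · intro i _
    exact hρ.ap_mem (mem_pow'.mpr Val_sub)
  · intro i hi j hj h
    obtain ⟨α, hα, hb⟩ := om1_bdd hDC (a := upair i j)
      (fun x hx => by rcases mem_upair.mp hx with rfl | rfl <;> assumption) (ctbl_upair i j)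
    have h1 := hb i (mem_upair.mpr (Or.inl rfl))
    have h2 := hb j (mem_upair.mpr (Or.inr rfl))
    refine (key α (ord_om1.mem hα) hα).inj h1 h2 ?_
    rw [ap_lam' h1, ap_lam' h2]
    exact hρ' _ _ (mem_pow'.mpr Val_sub) (mem_pow'.mpr Val_sub) h

/-- the canonical sequence is closed under all operations -/
theorem Mx.closed {F cd y δ k op : M} (h : Mx d F cd y δ k) (hv : Valid δ op) :
    ∃ i, i ∈ δ ∧ d.eqI (Val d F y δ k op) (ap k i) := by
  by_contra hc
  push Not at hc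
  exact h.2 op ⟨hv, hc⟩

end Pool.Agent.Lib.MP_f5c99b_lc
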