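import Pool.Agent.Lib.MP_7b07e0_lc.Data

/-! The canonical sequence of a point: `Mx_act`. (ROW K3) -/

namespace Pool.Agent.Lib.MP_f5c99b_lc

universe u

variable {M : Type u} [Membership M M] [hZF : Fact (IsModelOfZF M)] {d : Dat M}

/-- right translate -/
noncomputable def K3_Rt (d : Dat M) (g A : M) : M := sep d.G (fun x => d.mul x g ∈ A)

instance DT_K3_Rt (t1 t2 : (ℕ → M) → M) [DT t1] [DT t2] :
    DT (fun v => K3_Rt d (t1 v) (t2 v)) := by
  refine DT2 (f := K3_Rt d) ?_ t1 t2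
  unfold K3_Rt
  infer_instance

theorem K3_mem {g A x : M} : x ∈ K3_Rt d g A ↔ x ∈ d.G ∧ d.mul x g ∈ A := mem_sep

theorem K3_mul_mem (hd : d.Good) {x y : M} (hx : x ∈ d.G) (hy : y ∈ d.G) : d.mul x y ∈ d.G :=
  hd.m_fn.ap_mem (pr_mem_prod.mpr ⟨hx, hy⟩)

theorem K3_gm_mem (hd : d.Good) {n : M} (hn : n ∈ omega M) : d.gm n ∈ d.G :=
  hd.gam_fn.ap_mem hn

theorem K3_diff {g A B : M} : diff (K3_Rt d g A) (K3_Rt d g B) = K3_Rt d g (diff A B) := by
  refine Pool.Agent.Lib.MP_f5c99b_lc.ext fun x => ?_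
  rw [mem_diff, K3_mem, K3_mem, K3_mem, mem_diff]
  tauto

theorem K3_I (hd : d.Good) {g A : M} (hg : g ∈ d.G) (hA : Sub A d.G) :
    K3_Rt d g A ∈ d.I ↔ A ∈ d.I := by
  constructor
  · intro h
    obtain ⟨h', hh, h1, h2⟩ := hd.inv g hg
    have h3 := hd.I_right h' _ hh h
    refine hd.I_sub _ A h3 fun x hx => ?_
    have hxG := hA x hx
    rw [mem_sep, K3_mem]
    refine ⟨hxG, K3_mul_mem hd hxG hh, ?_⟩
    rw [hd.assoc x h' g hxG hh hg, h2, hd.mul_e x hxG]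
    exact hx
  · intro h
    exact hd.I_right g A hg h

theorem K3_leI (hd : d.Good) {g A B : M} (hg : g ∈ d.G) (hA : Sub A d.G) :
    d.leI (K3_Rt d g A) (K3_Rt d g B) ↔ d.leI A B := by
  unfold Dat.leI
  rw [K3_diff]
  exact K3_I hd hg (diff_sub.trans hA)

theorem K3_eqI (hd : d.Good) {g A B : M} (hg : g ∈ d.G) (hA : Sub A d.G) (hB : Sub B d.G) :
    d.eqI (K3_Rt d g A) (K3_Rt d g B) ↔ d.eqI A B :=
  and_congr (K3_leI hd hg hA) (K3_leI hd hg hB)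

theorem K3_sep_congr {a : M} {P Q : M → Prop} (h : ∀ x, x ∈ a → (P x ↔ Q x)) :
    sep a P = sep a Q := by
  unfold sep
  congr 1
  funext x
  exact propext (and_congr_right (h x))

theorem K3_Bset (hd : d.Good) {g y n : M} (hg : g ∈ d.G) (hy : y ∈ d.X) :
    Bset d (d.sm g y) n = K3_Rt d g (Bset d y n) := by
  unfold Bset K3_Rt
  refine K3_sep_congr fun x hx => ?_
  rw [mem_sep, hd.act_mul x g y hx hg hy]
  exact (and_iff_right (K3_mul_mem hd hx hg)).symm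

theorem K3_Aset (hd : d.Good) {g n A : M} (hg : g ∈ d.G) (hn : n ∈ omega M) :
    Aset d n (K3_Rt d g A) = K3_Rt d g (Aset d n A) := by
  have h1 := K3_gm_mem hd hn
  unfold Aset
  refine Pool.Agent.Lib.MP_f5c99b_lc.ext fun x => ?_
  rw [mem_sep, K3_mem, K3_mem, mem_sep]
  constructor
  · rintro ⟨hx, h2, h3⟩
    refine ⟨hx, K3_mul_mem hd hx hg, ?_⟩
    rwa [← hd.assoc _ _ _ h1 hx hg]
  · rintro ⟨hx, h2, h3⟩
    refine ⟨hx, K3_mul_mem hd h1 hx, ?_⟩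
    rwa [hd.assoc _ _ _ h1 hx hg]

theorem K3_tab (hd : d.Good) {g y δ k k' : M} (hg : g ∈ d.G) (hy : y ∈ d.X)
    (hk : ∀ i, i ∈ δ → Sub (ap k i) d.G) (hk' : ∀ i, i ∈ δ → ap k' i = K3_Rt d g (ap k i)) :
    tab d (d.sm g y) δ k' = tab d y δ k := by
  unfold tab
  congr 1
  refine K3_sep_congr fun p hp => ?_
  have h1 : snd (fst p) ∈ omega M := snd_mem (fst_mem hp)
  have h2 : fst (snd p) ∈ δ := fst_mem (snd_mem hp)
  have h3 : snd (snd p) ∈ δ := snd_mem (snd_mem hp)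
  have h4 : Sub (Bset d y (snd (fst p))) d.G := sep_sub
  have h5 : Sub (Aset d (snd (fst p)) (ap k (snd (snd p)))) d.G := sep_sub
  rw [hk' _ h2, hk' _ h3, K3_Bset hd hg hy, K3_Aset hd hg h1,
    K3_eqI hd hg (hk _ h3) h4, K3_leI hd hg (hk _ h2), K3_eqI hd hg (hk _ h2) h5]

theorem K3_mem_Val {F y δ k op x : M} : x ∈ Val d F y δ k op ↔ x ∈ d.G ∧
  ((fst op = nn0 ∧ fst (snd op) ∈ d.sm x y) ∨
  (fst op = nn1 ∧ x ∉ ap k (ap (snd (snd op)) nn0)) ∨
  (fst op = nn2 ∧ x ∈ ap k (ap (snd (snd op)) nn0) ∧ x ∈ ap k (ap (snd (snd op)) nn1)) ∨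
  (fst op = nn3 ∧ d.mul (d.gm (fst (snd op))) x ∈ ap k (ap (snd (snd op)) nn0)) ∨
  (fst op = nn4 ∧ ∀ i, i ∈ TT F (tab d y δ k) (fst (snd op)) (snd (snd op)) → x ∉ ap k i)) :=
  mem_sep

theorem K3_nn_ne {m : M} (h : m = nn1 ∨ m = nn2 ∨ m = nn3) : ¬ (m = nn0 ∨ m = nn4) := by
  unfold nn0 nn1 nn2 nn3 nn4 at *
  rintro (h0 | h0) <;> rcases h with h | h | h <;> rw [h] at h0
  · exact suc_ne_emp _ h0
  · exact suc_ne_emp _ h0
  · exact suc_ne_emp _ h0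
  · exact suc_ne_emp _ (suc_inj h0).symm
  · exact suc_ne_emp _ (suc_inj (suc_inj h0)).symm
  · exact suc_ne_emp _ (suc_inj (suc_inj (suc_inj h0))).symm

theorem K3_args {δ op : M} (h : Valid δ op) (h' : fst op = nn1 ∨ fst op = nn2 ∨ fst op = nn3) :
    ap (snd (snd op)) nn0 ∈ δ ∧ ap (snd (snd op)) nn1 ∈ δ := by
  obtain ⟨h1, h2⟩ := h
  have h3 : nn1 ∈ dom (snd (snd op)) := by
    rcases h2 with h2 | h2 | h2
    · exact absurd (Or.inl h2) (K3_nn_ne h')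
    · exact absurd (Or.inr h2) (K3_nn_ne h')
    · exact h2
  obtain ⟨n, hn, hf⟩ := mem_fseq.mp (snd_mem (snd_mem h1))
  rw [hf.dom] at h3
  have h4 : (nn0 : M) ∈ n := omega_mem_trans hn (mem_suc_self _) h3
  exact ⟨hf.ap_mem h4, hf.ap_mem h3⟩

theorem K3_Val (hd : d.Good) {F g y δ k k' op : M} (hg : g ∈ d.G) (hy : y ∈ d.X)
    (hk : ∀ i, i ∈ δ → Sub (ap k i) d.G) (hk' : ∀ i, i ∈ δ → ap k' i = K3_Rt d g (ap k i))
    (hv : Valid δ op) : Val d F (d.sm g y) δ k' op = K3_Rt d g (Val d F y δ k op) := by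
  refine Pool.Agent.Lib.MP_f5c99b_lc.ext fun x => ?_
  rw [K3_mem, K3_mem_Val, K3_mem_Val]
  refine and_congr_right fun hx => ?_
  have hxg := K3_mul_mem hd hx hg
  rw [and_iff_right hxg]
  refine or_congr ?_ (or_congr ?_ (or_congr ?_ (or_congr ?_ ?_)))
  · rw [hd.act_mul x g y hx hg hy]
  · refine and_congr_right fun h => ?_
    rw [hk' _ (K3_args hv (Or.inl h)).1, K3_mem, and_iff_right hx]
  · refine and_congr_right fun h => ?_
    have h2 := K3_args hv (Or.inr (Or.inl h))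
    rw [hk' _ h2.1, hk' _ h2.2, K3_mem, K3_mem, and_iff_right hx, and_iff_right hx]
  · refine and_congr_right fun h => ?_
    have h1 : d.gm (fst (snd op)) ∈ d.G := K3_gm_mem hd (fst_mem (snd_mem hv.1))
    rw [hk' _ (K3_args hv (Or.inr (Or.inr h))).1, K3_mem, and_iff_right (K3_mul_mem hd h1 hx),
      hd.assoc _ _ _ h1 hx hg]
  · refine and_congr_right fun _ => ?_
    rw [K3_tab hd hg hy hk hk']
    refine forall_congr' fun i => forall_congr' fun hi => ?_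
    have hi' : i ∈ δ := by
      have := sep_sub i hi
      unfold tab at this
      rwa [fst_pr] at this
    rw [hk' i hi', K3_mem, and_iff_right hx]

theorem K3_New (hd : d.Good) {F g y δ k k' op : M} (hg : g ∈ d.G) (hy : y ∈ d.X)
    (hk : ∀ i, i ∈ δ → Sub (ap k i) d.G) (hk' : ∀ i, i ∈ δ → ap k' i = K3_Rt d g (ap k i)) :
    New d F (d.sm g y) δ k' op ↔ New d F y δ k op := by
  refine and_congr_right fun hv => ?_
  rw [K3_Val hd hg hy hk hk' hv]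
  refine forall_congr' fun i => forall_congr' fun hi => not_congr ?_
  rw [hk' i hi]
  exact K3_eqI hd hg sep_sub (hk i hi)

theorem K3_Fst (hd : d.Good) {F cd g y δ k k' op : M} (hg : g ∈ d.G) (hy : y ∈ d.X)
    (hk : ∀ i, i ∈ δ → Sub (ap k i) d.G) (hk' : ∀ i, i ∈ δ → ap k' i = K3_Rt d g (ap k i)) :
    Fst d F cd (d.sm g y) δ k' op ↔ Fst d F cd y δ k op := by
  refine and_congr (K3_New hd hg hy hk hk') ?_
  exact forall_congr' fun op' => imp_congr_left (K3_New hd hg hy hk hk')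

/-- the table of the canonical sequence depends only on the orbit:
`k' i = {x ∈ G | x g ∈ k i}` -/
theorem Mx_act (hd : d.Good) {F cd y δ k g : M} (hcd : Inj cd (ops (M := M)) (om1 M))
    (hg : g ∈ d.G) (hy : y ∈ d.X) (h : Mx d F cd y δ k) :
    ∃ k', Mx d F cd (d.sm g y) δ k' ∧ tab d (d.sm g y) δ k' = tab d y δ k := by
  obtain ⟨⟨hδ, hkf, hst⟩, hmax⟩ := h
  have hk : ∀ i, i ∈ δ → Sub (ap k i) d.G := fun i hi => mem_pow'.mp (hkf.ap_mem hi)
  have hk'f : IsFun (lam δ (fun i => K3_Rt d g (ap k i))) δ (pow d.G) :=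
    isFun_lam' fun x _ => sep_mem_pow
  have hk' : ∀ i, i ∈ δ → ap (lam δ (fun i => K3_Rt d g (ap k i))) i = K3_Rt d g (ap k i) :=
    fun i hi => ap_lam' hi
  refine ⟨lam δ (fun i => K3_Rt d g (ap k i)), ⟨⟨hδ, hk'f, ?_⟩, ?_⟩, K3_tab hd hg hy hk hk'⟩
  · intro i hi
    have hsub : Sub i δ := fun x hx => (mem_om1.mp hδ).1.1 i hi x hx
    obtain ⟨op, h1, h2⟩ := hst i hi
    have hr : ∀ j, j ∈ i → Sub (ap (restr k i) j) d.G := fun j hj => by
      rw [hkf.ap_restr hsub hj]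
      exact hk j (hsub j hj)
    have hr' : ∀ j, j ∈ i → ap (restr (lam δ (fun i => K3_Rt d g (ap k i))) i) j =
        K3_Rt d g (ap (restr k i) j) := fun j hj => by
      rw [hkf.ap_restr hsub hj, hk'f.ap_restr hsub hj]
      exact hk' j (hsub j hj)
    refine ⟨op, (K3_Fst hd hg hy hr hr').mpr h1, ?_⟩
    rw [hk' i hi, K3_Val hd hg hy hr hr' h1.1.1, ← h2]
  · intro op hop
    exact hmax op ((K3_New hd hg hy hk hk').mp hop)

end Pool.Agent.Lib.MP_f5c99b_lc
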