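import Pool.Agent.Lib.MP_7b07e0_lc.Space

/-! The Cantor scheme for `E₀` in a model of `ZF + DC`. (ROW E) -/

namespace Pool.Agent.Lib.MP_f5c99b_lc

universe u

set_option synthInstance.maxSize 2000

variable {M : Type u} [Membership M M] [hZF : Fact (IsModelOfZF M)]

/-- `x E₀ y` for `x, y ⊆ ω`: they agree from some `n` on -/
def E0 (x y : M) : Prop := ∃ n, n ∈ omega M ∧ ∀ m, m ∈ omega M → Sub n m → (m ∈ x ↔ m ∈ y)

instance D_E0 (t1 t2 : (ℕ → M) → M) [DT t1] [DT t2] : D (fun v => E0 (t1 v) (t2 v)) := by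
  refine D2 (P := E0) ?_ t1 t2
  unfold E0
  infer_instance

/-- value of an action `act : ω × P → P` -/
noncomputable def sg (act m x : M) : M := ap act (pr m x)

instance DT_sg (t1 t2 t3 : (ℕ → M) → M) [DT t1] [DT t2] [DT t3] :
    DT (fun v => sg (t1 v) (t2 v) (t3 v)) := by
  refine DT3 (f := sg) ?_ t1 t2 t3
  unfold sg
  infer_instance

/-- `act` is a topologically transitive action of a countable group (whose elements are numbered
by `ω`) on `P` which preserves the base `B` -/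
structure HAct (P B act : M) : Prop where
  fn : IsFun act (prod (omega M) P) P
  pre : ∀ m u, m ∈ omega M → u ∈ B → sep P (fun x => sg act m x ∈ u) ∈ B
  one : ∃ e, e ∈ omega M ∧ ∀ x, x ∈ P → sg act e x = x
  mul : ∀ m n, m ∈ omega M → n ∈ omega M → ∃ l, l ∈ omega M ∧
    ∀ x, x ∈ P → sg act l x = sg act m (sg act n x)
  inv : ∀ m, m ∈ omega M → ∃ n, n ∈ omega M ∧
    ∀ x, x ∈ P → sg act n (sg act m x) = x ∧ sg act m (sg act n x) = x
  trans : ∀ u v, u ∈ B → v ∈ B → ∃ m, m ∈ omega M ∧ ∃ x, x ∈ u ∧ sg act m x ∈ v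

/-- the relation on `A × B` given by a definable predicate -/
noncomputable def E6_rel (A B : M) (E : M → M → Prop) : M := sep (prod A B) (fun p => E (fst p) (snd p))

theorem E6_app_rel {A B : M} {E : M → M → Prop} [hE : D (fun v => E (v 0) (v 1))] {a b : M} :
    App (E6_rel A B E) a b ↔ a ∈ A ∧ b ∈ B ∧ E a b := by
  have : D (fun v : ℕ → M => E (fst (v 0)) (snd (v 0))) :=
    D2 (P := E) hE (fun v => fst (v 0)) (fun v => snd (v 0))
  rw [app_iff, E6_rel, mem_sep, pr_mem_prod, fst_pr, snd_pr, and_assoc]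

/-- every dense hereditary family of conditions indexed by `F` can be met (true for finite `F`) -/
def E6_Good (F : M) : Prop := ∀ Q E C : M,
  (∀ a, a ∈ Q → App E a a) →
  (∀ a b c, a ∈ Q → b ∈ Q → c ∈ Q → App E a b → App E b c → App E a c) →
  (∀ h q, h ∈ F → q ∈ Q → ∃ r, r ∈ Q ∧ App E r q ∧ App C h r) →
  (∀ h q r, h ∈ F → q ∈ Q → r ∈ Q → App E r q → App C h q → App C h r) →
  ∀ q, q ∈ Q → ∃ r, r ∈ Q ∧ App E r q ∧ ∀ h, h ∈ F → App C h r


theorem E6_D_Good_aux : D (fun v : ℕ → M => E6_Good (v 0)) := by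
  unfold E6_Good
  infer_instance


instance E6_D_Good (t1 : (ℕ → M) → M) [DT t1] : D (fun v => E6_Good (t1 v)) := D1 E6_D_Good_aux t1

theorem E6_Good.use {F Q : M} (hF : E6_Good F) (E C : M → M → Prop)
    [hE : D (fun v => E (v 0) (v 1))] [hC : D (fun v => C (v 0) (v 1))]
    (hr : ∀ a, a ∈ Q → E a a)
    (ht : ∀ a b c, a ∈ Q → b ∈ Q → c ∈ Q → E a b → E b c → E a c)
    (hd : ∀ h q, h ∈ F → q ∈ Q → ∃ r, r ∈ Q ∧ E r q ∧ C h r)
    (hh : ∀ h q r, h ∈ F → q ∈ Q → r ∈ Q → E r q → C h q → C h r)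
    {q : M} (hq : q ∈ Q) : ∃ r, r ∈ Q ∧ E r q ∧ ∀ h, h ∈ F → C h r := by
  obtain ⟨r, h1, h2, h3⟩ := hF Q (E6_rel Q Q E) (E6_rel F Q C)
    (fun a ha => E6_app_rel.mpr ⟨ha, ha, hr a ha⟩)
    (fun a b c ha hb hc h h' => E6_app_rel.mpr ⟨ha, hc, ht a b c ha hb hc
      (E6_app_rel.mp h).2.2 (E6_app_rel.mp h').2.2⟩)
    (fun h q hh' hq => by
      obtain ⟨r, h1, h2, h3⟩ := hd h q hh' hq
      exact ⟨r, h1, E6_app_rel.mpr ⟨h1, hq, h2⟩, E6_app_rel.mpr ⟨hh', h1, h3⟩⟩)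
    (fun h q r hh' hq hr' h1 h2 => E6_app_rel.mpr ⟨hh', hr', hh h q r hh' hq hr'
      (E6_app_rel.mp h1).2.2 (E6_app_rel.mp h2).2.2⟩) q hq
  exact ⟨r, h1, (E6_app_rel.mp h2).2.2, fun h hh' => (E6_app_rel.mp (h3 h hh')).2.2⟩

theorem E6_good_emp : E6_Good (emp : M) := by
  intro Q E C hr _ _ _ q hq
  exact ⟨q, hq, hr q hq, fun h hh => (not_mem_emp h hh).elim⟩

theorem E6_good_single (x : M) : E6_Good (upair x x) := by
  intro Q E C _ _ hd _ q hq
  obtain ⟨r, h1, h2, h3⟩ := hd x q (mem_upair.mpr (Or.inl rfl)) hq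
  refine ⟨r, h1, h2, fun h hh => ?_⟩
  rcases mem_upair.mp hh with rfl | rfl <;> exact h3

theorem E6_Good.un {F F' : M} (h : E6_Good F) (h' : E6_Good F') : E6_Good (un F F') := by
  intro Q E C hr ht hd hh q hq
  obtain ⟨r, h1, h2, h3⟩ := h Q E C hr ht (fun x y hx hy => hd x y (mem_un.mpr (Or.inl hx)) hy)
    (fun x y z hx => hh x y z (mem_un.mpr (Or.inl hx))) q hq
  obtain ⟨r', h1', h2', h3'⟩ := h' Q E C hr ht
    (fun x y hx hy => hd x y (mem_un.mpr (Or.inr hx)) hy)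
    (fun x y z hx => hh x y z (mem_un.mpr (Or.inr hx))) r h1
  refine ⟨r', h1', ht _ _ _ h1' h1 hq h2' h2, fun x hx => ?_⟩
  rcases mem_un.mp hx with hx' | hx'
  · exact hh x r r' hx h1 h1' h2' (h3 x hx')
  · exact h3' x hx'

theorem E6_Good.suc {n : M} (h : E6_Good n) : E6_Good (suc n) := by
  have := h.un (E6_good_single n)
  exact this

theorem E6_good_omega {n : M} (hn : n ∈ omega M) : E6_Good n := by
  exact omega_induction (fun n => E6_Good n) E6_good_emp (fun n _ h => h.suc) n hn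

theorem E6_Good.img {F : M} (h : E6_Good F) (t : M → M) [ht' : DT (fun v => t (v 0))] :
    E6_Good (img F t) := by
  intro Q E C hr ht hd hh q hq
  have : D (fun v : ℕ → M => App C (t (v 0)) (v 1)) := inferInstance
  obtain ⟨r, h1, h2, h3⟩ := h.use (Q := Q) (fun a b => App E a b) (fun x y => App C (t x) y) hr ht
    (fun x y hx hy => hd (t x) y (mem_img.mpr ⟨x, hx, rfl⟩) hy)
    (fun x y z hx => hh (t x) y z (mem_img.mpr ⟨x, hx, rfl⟩)) hq
  refine ⟨r, h1, h2, fun y hy => ?_⟩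
  obtain ⟨x, hx, rfl⟩ := mem_img.mp hy
  exact h3 x hx

theorem E6_Good.prod {F F' : M} (h : E6_Good F) (h' : E6_Good F') : E6_Good (prod F F') := by
  intro Q E C hr ht hd hh q hq
  obtain ⟨r, h1, h2, h3⟩ := h.use (Q := Q) (fun a b => App E a b)
    (fun x y => ∀ k, k ∈ F' → App C (pr x k) y) hr ht
    (fun x y hx hy => by
      exact h'.use (Q := Q) (fun a b => App E a b) (fun k y => App C (pr x k) y) hr ht
        (fun k y hk hy => hd (pr x k) y (pr_mem_prod.mpr ⟨hx, hk⟩) hy)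
        (fun k y z hk => hh (pr x k) y z (pr_mem_prod.mpr ⟨hx, hk⟩)) hy)
    (fun x y z hx hy hz h1 h2 k hk => hh (pr x k) y z (pr_mem_prod.mpr ⟨hx, hk⟩) hy hz h1 (h2 k hk))
    hq
  refine ⟨r, h1, h2, fun p hp => ?_⟩
  obtain ⟨x, hx, k, hk, rfl⟩ := mem_prod.mp hp
  exact h3 x hx k hk

/-! ### one step of the construction -/

theorem HAct.mem {P B act m x : M} (ha : HAct P B act) (hm : m ∈ omega M) (hx : x ∈ P) :
    sg act m x ∈ P := ha.fn.ap_mem (pr_mem_prod.mpr ⟨hm, hx⟩)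

/-- number of the product -/
noncomputable def E6_ml (P act h m : M) : M :=
  mu (fun l => ∀ x, x ∈ P → sg act l x = sg act h (sg act m x))

instance E6_DT_ml (t1 t2 t3 t4 : (ℕ → M) → M) [DT t1] [DT t2] [DT t3] [DT t4] :
    DT (fun v => E6_ml (t1 v) (t2 v) (t3 v) (t4 v)) := by
  refine DT4 (f := E6_ml) ?_ t1 t2 t3 t4
  unfold E6_ml
  infer_instance

theorem E6_ml_mem {P B act h m : M} (ha : HAct P B act) (hh : h ∈ omega M) (hm : m ∈ omega M) :
    E6_ml P act h m ∈ omega M := (mu_spec (ha.mul h m hh hm)).1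

theorem E6_ml_eq {P B act h m : M} (ha : HAct P B act) (hh : h ∈ omega M) (hm : m ∈ omega M)
    {x : M} (hx : x ∈ P) : sg act (E6_ml P act h m) x = sg act h (sg act m x) :=
  (mu_spec (ha.mul h m hh hm)).2.1 x hx

/-- the step from the state `q = (F, (U, m))` to the state `q'` -/
def E6_Step (P act O W S n q q' : M) : Prop :=
  fst q' = un (fst q) (img (fst q) (fun h => E6_ml P act h (snd (snd q')))) ∧
  (∀ x, x ∈ fst (snd q') → x ∈ fst (snd q) ∧ sg act (snd (snd q')) x ∈ fst (snd q)) ∧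
  (∀ i h k x y, i ∈ suc n → h ∈ fst q → k ∈ fst q → x ∈ fst (snd q') → y ∈ fst (snd q') →
    pr (sg act h x) (sg act k (sg act (snd (snd q')) y)) ∈ ap O i ∧
    pr (sg act k (sg act (snd (snd q')) y)) (sg act h x) ∈ ap O i) ∧
  (∀ h x, h ∈ fst q' → x ∈ fst (snd q') → sg act h x ∈ ap W n) ∧
  (∀ h, h ∈ fst q' → ∃ s, s ∈ ap S n ∧ (∀ x, x ∈ fst (snd q') → sg act h x ∈ s) ∧
    ∀ y, y ∈ s → ∃ x, x ∈ fst (snd q) ∧ sg act (snd (snd q')) x ∈ fst (snd q) ∧ sg act h x = y)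

instance E6_D_Step (P act O W S : M) :
    D (fun v : ℕ → M => E6_Step P act O W S (v 0) (v 1) (v 2)) := by
  unfold E6_Step
  infer_instance

/-- the states -/
noncomputable def E6_St (B : M) : M :=
  sep (prod (pow (omega M)) (prod B (omega M))) (fun q => E6_Good (fst q))

theorem E6_mem_St {B F U m : M} : pr F (pr U m) ∈ E6_St B ↔
    Sub F (omega M) ∧ U ∈ B ∧ m ∈ omega M ∧ E6_Good F := by
  rw [E6_St, mem_sep, pr_mem_prod, pr_mem_prod, fst_pr, mem_pow']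
  tauto

/-- image of a basic set: it is a basic set -/
theorem E6_image {P B act h u : M} (hb : Base P B) (ha : HAct P B act) (hh : h ∈ omega M)
    (hu : u ∈ B) : ∃ c, c ∈ B ∧ (∀ x, x ∈ c ↔ x ∈ P ∧ ∃ y, y ∈ u ∧ sg act h y = x) := by
  obtain ⟨g, hg, hg'⟩ := ha.inv h hh
  refine ⟨_, ha.pre g u hg hu, fun x => ?_⟩
  rw [mem_sep]
  constructor
  · rintro ⟨hx, h2⟩
    exact ⟨hx, _, h2, (hg' x hx).2⟩
  · rintro ⟨hx, y, hy, rfl⟩
    refine ⟨hx, ?_⟩
    rw [(hg' y (hb.sub u hu y hy)).1]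
    exact hy

theorem E6_inj {P B act h x y : M} (ha : HAct P B act) (hh : h ∈ omega M) (hx : x ∈ P)
    (hy : y ∈ P) (e : sg act h x = sg act h y) : x = y := by
  obtain ⟨g, hg, hg'⟩ := ha.inv h hh
  rw [← (hg' x hx).1, ← (hg' y hy).1, e]

theorem E6_prod_sub {a b c d : M} (ha : ∃ x, x ∈ a) (hb : ∃ x, x ∈ b)
    (h : Sub (prod a b) (prod c d)) : Sub a c ∧ Sub b d := by
  obtain ⟨x0, hx0⟩ := ha
  obtain ⟨y0, hy0⟩ := hb
  exact ⟨fun x hx => (pr_mem_prod.mp (h _ (pr_mem_prod.mpr ⟨hx, hy0⟩))).1,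
    fun y hy => (pr_mem_prod.mp (h _ (pr_mem_prod.mpr ⟨hx0, hy⟩))).2⟩

/-- one pair of conditions for the product -/
theorem E6_dense2 {P B act O' h k a0 a1 : M} (hb : Base P B) (ha : HAct P B act)
    (hO : OD (prodB B B) O') (hh : h ∈ omega M) (hk : k ∈ omega M) (h0 : a0 ∈ B) (h1 : a1 ∈ B) :
    ∃ b0 b1, b0 ∈ B ∧ b1 ∈ B ∧ Sub b0 a0 ∧ Sub b1 a1 ∧ ∀ x y, x ∈ b0 → y ∈ b1 →
      pr (sg act h x) (sg act k y) ∈ O' ∧ pr (sg act k y) (sg act h x) ∈ O' := by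
  obtain ⟨c0, hc0, hc0'⟩ := E6_image hb ha hh h0
  obtain ⟨c1, hc1, hc1'⟩ := E6_image hb ha hk h1
  obtain ⟨w, hw, hw1, hw2⟩ := hO (prod c0 c1) (mem_prodB.mpr ⟨c0, c1, hc0, hc1, rfl⟩)
  obtain ⟨d0, d1, hd0, hd1, rfl⟩ := mem_prodB.mp hw
  obtain ⟨w', hw', hw3, hw4⟩ := hO (prod d1 d0) (mem_prodB.mpr ⟨d1, d0, hd1, hd0, rfl⟩)
  obtain ⟨e1, e0, he1, he0, rfl⟩ := mem_prodB.mp hw'
  obtain ⟨s0, s1⟩ := E6_prod_sub (hb.ne _ hd0) (hb.ne _ hd1) hw1
  obtain ⟨s2, s3⟩ := E6_prod_sub (hb.ne _ he1) (hb.ne _ he0) hw3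
  refine ⟨_, _, ha.pre h e0 hh he0, ha.pre k e1 hk he1, ?_, ?_, ?_⟩
  · intro x hx
    obtain ⟨hxP, hx2⟩ := mem_sep.mp hx
    obtain ⟨_, y, hy, e⟩ := (hc0' _).mp (s0 _ (s3 _ hx2))
    rwa [← E6_inj ha hh (hb.sub _ h0 y hy) hxP e]
  · intro x hx
    obtain ⟨hxP, hx2⟩ := mem_sep.mp hx
    obtain ⟨_, y, hy, e⟩ := (hc1' _).mp (s1 _ (s2 _ hx2))
    rwa [← E6_inj ha hk (hb.sub _ h1 y hy) hxP e]
  · intro x y hx hy
    have hx2 := (mem_sep.mp hx).2
    have hy2 := (mem_sep.mp hy).2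
    exact ⟨hw2 _ (pr_mem_prod.mpr ⟨s3 _ hx2, s2 _ hy2⟩), hw4 _ (pr_mem_prod.mpr ⟨hy2, hx2⟩)⟩

/-- the pair of sets -/
theorem E6_pair {P B act O n F U : M} (hb : Base P B) (ha : HAct P B act)
    (hO : ∀ n, n ∈ omega M → OD (prodB B B) (ap O n)) (hn : n ∈ omega M)
    (hF : Sub F (omega M)) (hG : E6_Good F) (hU : U ∈ B) :
    ∃ v0 v1, v0 ∈ B ∧ v1 ∈ B ∧ Sub v0 U ∧ Sub v1 U ∧ ∀ i h k x y, i ∈ suc n → h ∈ F → k ∈ F →
      x ∈ v0 → y ∈ v1 → pr (sg act h x) (sg act k y) ∈ ap O i ∧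
        pr (sg act k y) (sg act h x) ∈ ap O i := by
  have hG2 : E6_Good (prod (suc n) (prod F F)) := (E6_good_omega (suc_mem_omega hn)).prod (hG.prod hG)
  have := hG2.use (Q := prod B B) (fun a b => Sub (fst a) (fst b) ∧ Sub (snd a) (snd b))
    (fun p a => ∀ x y, x ∈ fst a → y ∈ snd a →
      pr (sg act (fst (snd p)) x) (sg act (snd (snd p)) y) ∈ ap O (fst p) ∧
        pr (sg act (snd (snd p)) y) (sg act (fst (snd p)) x) ∈ ap O (fst p))
    (fun a _ => ⟨Sub.refl _, Sub.refl _⟩)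
    (fun a b c _ _ _ h h' => ⟨h.1.trans h'.1, h.2.trans h'.2⟩)
    (fun p a hp ha' => by
      obtain ⟨i, hi, p', hp', rfl⟩ := mem_prod.mp hp
      obtain ⟨h, hh, k, hk, rfl⟩ := mem_prod.mp hp'
      obtain ⟨a0, ha0, a1, ha1, rfl⟩ := mem_prod.mp ha'
      simp only [fst_pr, snd_pr]
      obtain ⟨b0, b1, hb0, hb1, s0, s1, h3⟩ := E6_dense2 hb ha
        (hO i (omega_trans (suc_mem_omega hn) hi)) (hF h hh) (hF k hk) ha0 ha1
      exact ⟨pr b0 b1, pr_mem_prod.mpr ⟨hb0, hb1⟩, by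
        simp only [fst_pr, snd_pr]
        exact ⟨⟨s0, s1⟩, h3⟩⟩)
    (fun p a b _ _ _ h1 h2 x y hx hy => h2 x y (h1.1 x hx) (h1.2 y hy))
    (q := pr U U) (pr_mem_prod.mpr ⟨hU, hU⟩)
  obtain ⟨r, hr, h1, h2⟩ := this
  obtain ⟨v0, hv0, v1, hv1, rfl⟩ := mem_prod.mp hr
  simp only [fst_pr, snd_pr] at h1 h2
  refine ⟨v0, v1, hv0, hv1, h1.1, h1.2, fun i h k x y hi hh hk hx hy => ?_⟩
  have := h2 (pr i (pr h k)) (pr_mem_prod.mpr ⟨hi, pr_mem_prod.mpr ⟨hh, hk⟩⟩) x y hx hy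
  simpa only [fst_pr, snd_pr] using this

theorem E6_step {P B act O W S n q : M} (hb : Base P B) (ha : HAct P B act) (hS : Shrink P B S)
    (hO : ∀ n, n ∈ omega M → OD (prodB B B) (ap O n)) (hW : ∀ n, n ∈ omega M → OD B (ap W n))
    (hn : n ∈ omega M) (hq : q ∈ E6_St B) : ∃ q', q' ∈ E6_St B ∧ E6_Step P act O W S n q q' := by
  obtain ⟨F, hF, q1, hq1, rfl⟩ := mem_prod.mp (mem_sep.mp hq).1
  obtain ⟨U, hU, m0, hm0, rfl⟩ := mem_prod.mp hq1
  obtain ⟨hF, _, _, hG⟩ := E6_mem_St.mp hq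
  obtain ⟨v0, v1, hv0, hv1, s0, s1, hv⟩ := E6_pair hb ha hO hn hF hG hU
  obtain ⟨m, hm, x0, hx0, hx1⟩ := ha.trans v0 v1 hv0 hv1
  obtain ⟨w, hw, hxw, hw0, hw1⟩ := hb.base v0 _ x0 hv0 (ha.pre m v1 hm hv1) hx0
    (mem_sep.mpr ⟨hb.sub _ hv0 _ hx0, hx1⟩)
  have hwm : ∀ z, z ∈ w → sg act m z ∈ v1 := fun z hz => (mem_sep.mp (hw1 z hz)).2
  have hG' : E6_Good (un F (Pool.Agent.Lib.MP_f5c99b_lc.img F (fun h => E6_ml P act h m))) :=
    hG.un (hG.img _)
  have hF' : Sub (un F (Pool.Agent.Lib.MP_f5c99b_lc.img F (fun h => E6_ml P act h m))) (omega M) := by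
    intro h hh
    rcases mem_un.mp hh with h1 | h1
    · exact hF h h1
    · obtain ⟨h', hh', rfl⟩ := mem_img.mp h1
      exact E6_ml_mem ha (hF h' hh') hm
  obtain ⟨U', hU', hUw, hU2⟩ := hG'.use (Q := sep B (fun u => Sub u w)) (fun a b => Sub a b)
    (fun h u => (∀ x, x ∈ u → sg act h x ∈ ap W n) ∧ ∃ s, s ∈ ap S n ∧
      (∀ x, x ∈ u → sg act h x ∈ s) ∧ ∀ y, y ∈ s → ∃ x, x ∈ w ∧ sg act h x = y)
    (fun a _ => Sub.refl a) (fun a b c _ _ _ h h' => h.trans h')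
    (fun h u hh hu => by
      obtain ⟨huB, huw⟩ := mem_sep.mp hu
      have hho := hF' h hh
      obtain ⟨c, hc, hc'⟩ := E6_image hb ha hho huB
      obtain ⟨d, hd, hdc, hdW⟩ := hW n hn c hc
      obtain ⟨x, hx⟩ := hb.ne d hd
      obtain ⟨s, hs, hxs, hsd⟩ := hS.small n d x hn hd hx
      have hsB : s ∈ B := mem_pow.mp (hS.fn.ap_mem hn) s hs
      refine ⟨_, mem_sep.mpr ⟨ha.pre h s hho hsB, ?_⟩, ?_, ?_, s, hs, ?_, ?_⟩
      · intro z hz
        obtain ⟨hzP, hz2⟩ := mem_sep.mp hz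
        obtain ⟨_, y, hy, e⟩ := (hc' _).mp (hdc _ (hsd _ hz2))
        rw [← E6_inj ha hho (hb.sub _ huB y hy) hzP e]
        exact huw y hy
      · intro z hz
        obtain ⟨hzP, hz2⟩ := mem_sep.mp hz
        obtain ⟨_, y, hy, e⟩ := (hc' _).mp (hdc _ (hsd _ hz2))
        rwa [← E6_inj ha hho (hb.sub _ huB y hy) hzP e]
      · intro z hz
        exact hdW _ (hsd _ (mem_sep.mp hz).2)
      · intro z hz
        exact (mem_sep.mp hz).2
      · intro y hy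
        obtain ⟨_, x, hx, e⟩ := (hc' _).mp (hdc _ (hsd _ hy))
        exact ⟨x, huw x hx, e⟩)
    (fun h u u' _ _ _ h1 h2 => ⟨fun x hx => h2.1 x (h1 x hx), by
      obtain ⟨s, hs, h3, h4⟩ := h2.2
      exact ⟨s, hs, fun x hx => h3 x (h1 x hx), h4⟩⟩)
    (q := w) (mem_sep.mpr ⟨hw, Sub.refl w⟩)
  have hUB := (mem_sep.mp hU').1
  refine ⟨pr (un F (Pool.Agent.Lib.MP_f5c99b_lc.img F (fun h => E6_ml P act h m))) (pr U' m),
    E6_mem_St.mpr ⟨hF', hUB, hm, hG'⟩, ?_⟩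
  unfold E6_Step
  simp only [fst_pr, snd_pr]
  refine ⟨trivial, fun x hx => ⟨s0 _ (hw0 _ (hUw _ hx)), s1 _ (hwm _ (hUw _ hx))⟩,
    fun i h k x y hi hh hk hx hy => hv i h k x _ hi hh hk (hw0 _ (hUw _ hx)) (hwm _ (hUw _ hy)),
    fun h x hh hx => (hU2 h hh).1 x hx, fun h hh => ?_⟩
  obtain ⟨s, hs, h3, h4⟩ := (hU2 h hh).2
  refine ⟨s, hs, h3, fun y hy => ?_⟩
  obtain ⟨x, hx, e⟩ := h4 y hy
  exact ⟨x, s0 _ (hw0 _ hx), s1 _ (hwm _ hx), e⟩

/-! ### the paths -/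

/-- next element of a path -/
noncomputable def E6_nxt (P act f x n h : M) : M :=
  iota (fun z => (n ∈ x ∧ z = E6_ml P act h (snd (snd (ap f (suc n))))) ∨ (n ∉ x ∧ z = h))

theorem E6_nxt_in {P act f x n h : M} (hn : n ∈ x) :
    E6_nxt P act f x n h = E6_ml P act h (snd (snd (ap f (suc n)))) :=
  iota_eq (Or.inl ⟨hn, rfl⟩) (by rintro y (⟨_, h⟩ | ⟨h, _⟩); exacts [h, absurd hn h])

theorem E6_nxt_out {P act f x n h : M} (hn : n ∉ x) : E6_nxt P act f x n h = h :=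
  iota_eq (Or.inr ⟨hn, rfl⟩) (by rintro y (⟨h, _⟩ | ⟨_, h⟩); exacts [absurd h hn, h])

instance E6_DT_nxt (t1 t2 t3 t4 t5 t6 : (ℕ → M) → M) [DT t1] [DT t2] [DT t3] [DT t4] [DT t5]
    [DT t6] : DT (fun v => E6_nxt (t1 v) (t2 v) (t3 v) (t4 v) (t5 v) (t6 v)) := by
  refine DT6 (f := E6_nxt) ?_ t1 t2 t3 t4 t5 t6
  unfold E6_nxt
  infer_instance

/-- `g` is the path of `x` -/
def E6_isPath (P act f e x g : M) : Prop := IsFun g (omega M) (omega M) ∧ ap g emp = e ∧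
  ∀ n, n ∈ omega M → ap g (suc n) = E6_nxt P act f x n (ap g n)

instance E6_D_isPath (t1 t2 t3 t4 t5 t6 : (ℕ → M) → M) [DT t1] [DT t2] [DT t3] [DT t4] [DT t5]
    [DT t6] : D (fun v => E6_isPath (t1 v) (t2 v) (t3 v) (t4 v) (t5 v) (t6 v)) := by
  refine D6 (P := E6_isPath) ?_ t1 t2 t3 t4 t5 t6
  unfold E6_isPath
  infer_instance

/-- the path of `x` -/
noncomputable def E6_path (P act f e x : M) : M := iota (fun g => E6_isPath P act f e x g)

instance E6_DT_path (t1 t2 t3 t4 t5 : (ℕ → M) → M) [DT t1] [DT t2] [DT t3] [DT t4] [DT t5] :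
    DT (fun v => E6_path (t1 v) (t2 v) (t3 v) (t4 v) (t5 v)) := by
  refine DT5 (f := E6_path) ?_ t1 t2 t3 t4 t5
  unfold E6_path
  infer_instance

/-- what the recursion gives -/
structure E6_Seq (P B act O W S e f : M) : Prop where
  fn : IsFun f (omega M) (E6_St B)
  e_mem : e ∈ omega M
  e_one : ∀ x, x ∈ P → sg act e x = x
  e_st : e ∈ fst (ap f emp)
  step : ∀ n, n ∈ omega M → E6_Step P act O W S n (ap f n) (ap f (suc n))

theorem E6_exists_seq (hDC : DC M) {P B act O W S : M} (hb : Base P B) (hB : ∃ u, u ∈ B)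
    (ha : HAct P B act) (hS : Shrink P B S)
    (hO : ∀ n, n ∈ omega M → OD (prodB B B) (ap O n)) (hW : ∀ n, n ∈ omega M → OD B (ap W n)) :
    ∃ e f, E6_Seq P B act O W S e f := by
  obtain ⟨e, he, he'⟩ := ha.one
  obtain ⟨u, hu⟩ := hB
  have h0 : pr (upair e e) (pr u e) ∈ E6_St B := E6_mem_St.mpr ⟨by
    intro x hx
    rcases mem_upair.mp hx with rfl | rfl <;> exact he, hu, he, E6_good_single e⟩
  obtain ⟨f, hf, hf0, hf1⟩ := dc_rel' hDC h0 (fun n q q' => E6_Step P act O W S n q q')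
    (fun n hn q hq => E6_step hb ha hS hO hW hn hq)
  refine ⟨e, f, hf, he, he', ?_, hf1⟩
  rw [hf0, fst_pr]
  exact mem_upair.mpr (Or.inl rfl)

section

variable {P B act O W S e f : M} (hq : E6_Seq P B act O W S e f) (ha : HAct P B act)

include hq

theorem E6_Seq.mem {n : M} (hn : n ∈ omega M) : Sub (fst (ap f n)) (omega M) ∧
    fst (snd (ap f n)) ∈ B ∧ snd (snd (ap f n)) ∈ omega M := by
  have h := hq.fn.ap_mem hn
  obtain ⟨F, hF, q1, hq1, e1⟩ := mem_prod.mp (mem_sep.mp h).1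
  obtain ⟨U, hU, m0, hm0, rfl⟩ := mem_prod.mp hq1
  rw [e1] at h ⊢
  simp only [fst_pr, snd_pr]
  obtain ⟨hF, _, _, _⟩ := E6_mem_St.mp h
  exact ⟨hF, hU, hm0⟩

include ha

theorem E6_Seq.nxt_mem {x n h : M} (hn : n ∈ omega M) (hh : h ∈ omega M) :
    E6_nxt P act f x n h ∈ omega M := by
  by_cases h1 : n ∈ x
  · rw [E6_nxt_in h1]
    exact E6_ml_mem ha hh (hq.mem (suc_mem_omega hn)).2.2
  · rwa [E6_nxt_out h1]

theorem E6_Seq.path (x : M) : E6_isPath P act f e x (E6_path P act f e x) := by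
  refine iota_spec ?_
  obtain ⟨g, h1, h2, h3⟩ := omega_rec (S := omega M) (a := e)
    (fun n h => E6_nxt P act f x n h) hq.e_mem (fun n hn h hh => hq.nxt_mem ha hn hh)
  refine ⟨g, ⟨h1, h2, h3⟩, ?_⟩
  rintro g' ⟨h1', h2', h3'⟩
  exact omega_rec_unique (fun n h => E6_nxt P act f x n h) h1' h1 (by rw [h2, h2']) h3' h3

theorem E6_Seq.path_mem {x n : M} (hn : n ∈ omega M) :
    ap (E6_path P act f e x) n ∈ omega M := (hq.path ha x).1.ap_mem hn

theorem E6_Seq.path_in {x n : M} (hn : n ∈ omega M) :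
    ap (E6_path P act f e x) n ∈ fst (ap f n) := by
  obtain ⟨h1, h2, h3⟩ := hq.path ha x
  refine omega_induction (fun n => ap (E6_path P act f e x) n ∈ fst (ap f n)) ?_ ?_ n hn
  · show ap (E6_path P act f e x) emp ∈ fst (ap f emp)
    rw [h2]
    exact hq.e_st
  · intro n hn ih
    show ap (E6_path P act f e x) (suc n) ∈ fst (ap f (suc n))
    rw [(hq.step n hn).1, h3 n hn, mem_un]
    by_cases h : n ∈ x
    · rw [E6_nxt_in h]
      exact Or.inr (mem_img.mpr ⟨_, ih, rfl⟩)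
    · rw [E6_nxt_out h]
      exact Or.inl ih

end

/-- the cell number `n` of `x` -/
def E6_In (P act f e x n z : M) : Prop :=
  ∃ y, y ∈ fst (snd (ap f n)) ∧ sg act (ap (E6_path P act f e x) n) y = z

instance E6_D_In (t1 t2 t3 t4 t5 t6 t7 : (ℕ → M) → M) [DT t1] [DT t2] [DT t3] [DT t4] [DT t5]
    [DT t6] [DT t7] :
    D (fun v => E6_In (t1 v) (t2 v) (t3 v) (t4 v) (t5 v) (t6 v) (t7 v)) := by
  refine D7 (P := E6_In) ?_ t1 t2 t3 t4 t5 t6 t7
  unfold E6_In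
  infer_instance

section

variable {P B act O W S e f : M} (hb : Base P B) (hq : E6_Seq P B act O W S e f)
  (ha : HAct P B act)

include hb hq ha

/-- the cell number `n + 1` lies in a small set which lies in the cell number `n` -/
theorem E6_Seq.small {x n : M} (hn : n ∈ omega M) : ∃ s, s ∈ ap S n ∧
    (∀ z, E6_In P act f e x (suc n) z → z ∈ s) ∧ ∀ z, z ∈ s → E6_In P act f e x n z := by
  obtain ⟨h1, h2, h3, h4, h5⟩ := hq.step n hn
  obtain ⟨s, hs, h6, h7⟩ := h5 _ (hq.path_in ha (x := x) (suc_mem_omega hn))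
  refine ⟨s, hs, ?_, ?_⟩
  · rintro z ⟨y, hy, rfl⟩
    exact h6 y hy
  · intro z hz
    obtain ⟨y, hy, hy', e1⟩ := h7 z hz
    have hyP := hb.sub _ (hq.mem hn).2.1 y hy
    rw [(hq.path ha x).2.2 n hn] at e1
    by_cases h : n ∈ x
    · rw [E6_nxt_in h, E6_ml_eq ha (hq.path_mem ha hn) (hq.mem (suc_mem_omega hn)).2.2 hyP] at e1
      exact ⟨_, hy', e1⟩
    · rw [E6_nxt_out h] at e1
      exact ⟨y, hy, e1⟩

theorem E6_Seq.anti {x n z : M} (hn : n ∈ omega M) (h : E6_In P act f e x (suc n) z) :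
    E6_In P act f e x n z := by
  obtain ⟨s, _, h1, h2⟩ := hq.small hb ha (x := x) hn
  exact h2 z (h1 z h)

/-- a point which lies in all cells from some number on lies in all cells -/
theorem E6_Seq.down {x n z : M} (hn : n ∈ omega M)
    (h : ∀ m, m ∈ omega M → Sub n m → E6_In P act f e x m z) :
    ∀ m, m ∈ omega M → E6_In P act f e x m z := by
  have key : ∀ m, m ∈ omega M → ∀ k, k ∈ omega M → Sub k m → E6_In P act f e x m z →
      E6_In P act f e x k z := by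
    intro m hm
    refine omega_induction (fun m => ∀ k, k ∈ omega M → Sub k m → E6_In P act f e x m z →
      E6_In P act f e x k z) ?_ ?_ m hm
    · intro k hk hs h
      have : k = emp := eq_emp fun x hx => not_mem_emp x (hs x hx)
      rwa [this]
    · intro m hm ih k hk hs h
      rcases (omega_sub_iff hk (suc_mem_omega hm)).mp hs with h1 | h1
      · rcases mem_suc.mp h1 with h2 | h2
        · exact ih k hk ((omega_sub_iff hk hm).mpr (Or.inl h2)) (hq.anti hb ha hm h)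
        · exact ih k hk ((omega_sub_iff hk hm).mpr (Or.inr h2)) (hq.anti hb ha hm h)
      · rwa [h1]
  intro m hm
  rcases omega_tri hm hn with h1 | h1 | h1
  · exact key n hn m hm ((omega_sub_iff hm hn).mpr (Or.inl h1)) (h n hn (Sub.refl n))
  · exact h m hm (h1 ▸ Sub.refl m)
  · exact h m hm ((omega_sub_iff hn hm).mpr (Or.inl h1))

/-- there is exactly one point in all cells of `x` -/
theorem E6_Seq.point (hDC : DC M) (hS : Shrink P B S) (hc : Compl B S) (x : M) :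
    ∃! z, z ∈ P ∧ ∀ n, n ∈ omega M → E6_In P act f e x n z := by
  obtain ⟨s, hs, hs'⟩ := cchoice hDC (S := B) (fun n s => s ∈ ap S n ∧
    (∀ z, E6_In P act f e x (suc n) z → z ∈ s) ∧ ∀ z, z ∈ s → E6_In P act f e x n z)
    (fun n hn => by
      obtain ⟨s, hs, h⟩ := hq.small hb ha (x := x) hn
      exact ⟨s, mem_pow.mp (hS.fn.ap_mem hn) s hs, hs, h⟩)
  obtain ⟨z, hz⟩ := hc s hs (fun n hn => (hs' n hn).1) (fun n hn z hz =>
    (hs' n hn).2.1 z ((hs' _ (suc_mem_omega hn)).2.2 z hz))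
  refine ⟨z, ⟨hb.sub _ (hs.ap_mem emp_mem_omega) z (hz _ emp_mem_omega),
    fun n hn => (hs' n hn).2.2 z (hz n hn)⟩, ?_⟩
  rintro z' ⟨_, hz'⟩
  exact hS.sep s z' z hs (fun n hn => (hs' n hn).1) (fun n hn =>
    ⟨(hs' n hn).2.1 z' (hz' _ (suc_mem_omega hn)), hz n hn⟩)

omit hb in
/-- paths of `E₀`-equivalent `x`, `y` differ by a group element -/
theorem E6_Seq.shift {x y n : M} (hn : n ∈ omega M)
    (h : ∀ m, m ∈ omega M → Sub n m → (m ∈ x ↔ m ∈ y)) :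
    ∃ l, l ∈ omega M ∧ ∀ m, m ∈ omega M → Sub n m → ∀ z, z ∈ P →
      sg act (ap (E6_path P act f e y) m) z = sg act l (sg act (ap (E6_path P act f e x) m) z) := by
  obtain ⟨g, hg, hg'⟩ := ha.inv _ (hq.path_mem ha (x := x) hn)
  obtain ⟨l, hl, hl'⟩ := ha.mul _ g (hq.path_mem ha (x := y) hn) hg
  refine ⟨l, hl, fun m hm => ?_⟩
  refine omega_induction (fun m => Sub n m → ∀ z, z ∈ P →
      sg act (ap (E6_path P act f e y) m) z = sg act l (sg act (ap (E6_path P act f e x) m) z))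
      ?_ ?_ m hm
  · intro hs z hz
    have : n = emp := eq_emp fun x hx => not_mem_emp x (hs x hx)
    subst this
    rw [hl' _ (ha.mem (hq.path_mem ha hn) hz), (hg' z hz).1]
  · intro m hm ih hs z hz
    rcases (omega_sub_iff hn (suc_mem_omega hm)).mp hs with h1 | h1
    · have hnm : Sub n m := by
        rcases mem_suc.mp h1 with h2 | h2
        · exact (omega_sub_iff hn hm).mpr (Or.inl h2)
        · exact (omega_sub_iff hn hm).mpr (Or.inr h2)
      have hm1 := (hq.mem (suc_mem_omega hm)).2.2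
      rw [(hq.path ha x).2.2 m hm, (hq.path ha y).2.2 m hm]
      by_cases hx : m ∈ x
      · rw [E6_nxt_in hx, E6_nxt_in ((h m hm hnm).mp hx), E6_ml_eq ha (hq.path_mem ha hm) hm1 hz,
          E6_ml_eq ha (hq.path_mem ha hm) hm1 hz]
        exact ih hnm _ (ha.mem hm1 hz)
      · rw [E6_nxt_out hx, E6_nxt_out (fun hy => hx ((h m hm hnm).mpr hy))]
        exact ih hnm z hz
    · subst h1
      rw [hl' _ (ha.mem (hq.path_mem ha (suc_mem_omega hm)) hz), (hg' z hz).1]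

end

/-- Let `R ⊆ P × P` be meager and `V ⊆ P` comeager. There is `f : P(ω) → V` which maps
`E₀`-equivalent points to points of one orbit, and inequivalent points to pairs outside `R`. -/
theorem e0_scheme (hDC : DC M) {P B act R V : M} (h : CSp P B) (hB : ∃ u, u ∈ B)
    (ha : HAct P B act) (hR : Mgr (prodB B B) (prod P P) R) (hVP : Sub V P)
    (hV : Mgr B P (diff P V)) :
    ∃ f, IsFun f (pow (omega M)) P ∧ (∀ x, x ∈ pow (omega M) → ap f x ∈ V) ∧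
      (∀ x y, x ∈ pow (omega M) → y ∈ pow (omega M) → E0 x y →
        ∃ m, m ∈ omega M ∧ ap f y = sg act m (ap f x)) ∧
      ∀ x y, x ∈ pow (omega M) → y ∈ pow (omega M) → ¬ E0 x y → pr (ap f x) (ap f y) ∉ R := by
  have hb := h.toBase
  obtain ⟨S, hS, hc⟩ := h.shrink
  obtain ⟨_, O, _, hO, hO'⟩ := hR
  obtain ⟨_, W, _, hW, hW'⟩ := hV
  obtain ⟨e, f, hq⟩ := E6_exists_seq hDC hb hB ha hS hO hW
  let F : M → M := fun x => iota (fun z => z ∈ P ∧ ∀ n, n ∈ omega M → E6_In P act f e x n z)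
  have hF : ∀ x, F x ∈ P ∧ ∀ n, n ∈ omega M → E6_In P act f e x n (F x) := fun x =>
    iota_spec (hq.point hb ha hDC hS hc x)
  have hFu : ∀ x z, z ∈ P → (∀ n, n ∈ omega M → E6_In P act f e x n z) → z = F x := fun x z h1 h2 =>
    (hq.point hb ha hDC hS hc x).unique ⟨h1, h2⟩ (hF x)
  have hap : ∀ x, x ∈ pow (omega M) → ap (lam (pow (omega M)) F) x = F x := fun x hx => ap_lam' hx
  have hUP : ∀ n, n ∈ omega M → Sub (fst (snd (ap f n))) P := fun n hn =>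
    hb.sub _ (hq.mem hn).2.1
  refine ⟨lam (pow (omega M)) F, isFun_lam' fun x _ => (hF x).1, ?_, ?_, ?_⟩
  · intro x hx
    rw [hap x hx]
    by_contra hV
    obtain ⟨n, hn, h1⟩ := hW' (F x) (mem_diff.mpr ⟨(hF x).1, hV⟩)
    obtain ⟨y, hy, e1⟩ := (hF x).2 (suc n) (suc_mem_omega hn)
    apply h1
    rw [← e1]
    exact (hq.step n hn).2.2.2.1 _ y (hq.path_in ha (suc_mem_omega hn)) hy
  · intro x y hx hy hxy
    obtain ⟨n, hn, h1⟩ := hxy
    obtain ⟨l, hl, h2⟩ := hq.shift ha hn h1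
    refine ⟨l, hl, ?_⟩
    rw [hap x hx, hap y hy]
    refine (hFu y _ (ha.mem hl (hF x).1) (hq.down hb ha hn fun m hm hs => ?_)).symm
    obtain ⟨z, hz, e1⟩ := (hF x).2 m hm
    exact ⟨z, hz, by rw [h2 m hm hs z (hUP m hm z hz), e1]⟩
  · intro x y hx hy hxy hR
    rw [hap x hx, hap y hy] at hR
    obtain ⟨n, hn, h1⟩ := hO' _ hR
    apply hxy
    refine ⟨n, hn, fun m hm hs => ?_⟩
    have hnm : n ∈ suc m := by
      rcases (omega_sub_iff hn hm).mp hs with h2 | h2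
      · exact mem_suc.mpr (Or.inl h2)
      · exact mem_suc.mpr (Or.inr h2)
    obtain ⟨a, ha1, ea⟩ := (hF x).2 (suc m) (suc_mem_omega hm)
    obtain ⟨b, hb1, eb⟩ := (hF y).2 (suc m) (suc_mem_omega hm)
    have hm1 := (hq.mem (suc_mem_omega hm)).2.2
    rw [(hq.path ha x).2.2 m hm] at ea
    rw [(hq.path ha y).2.2 m hm] at eb
    have h3 := (hq.step m hm).2.2.1
    constructor
    · intro hmx
      by_contra hmy
      apply h1
      rw [E6_nxt_in hmx, E6_ml_eq ha (hq.path_mem ha hm) hm1 (hUP _ (suc_mem_omega hm) a ha1)] at ea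
      rw [E6_nxt_out hmy] at eb
      rw [← ea, ← eb]
      exact (h3 n _ _ b a hnm (hq.path_in ha hm) (hq.path_in ha hm) hb1 ha1).2
    · intro hmy
      by_contra hmx
      apply h1
      rw [E6_nxt_in hmy, E6_ml_eq ha (hq.path_mem ha hm) hm1 (hUP _ (suc_mem_omega hm) b hb1)] at eb
      rw [E6_nxt_out hmx] at ea
      rw [← ea, ← eb]
      exact (h3 n _ _ a b hnm (hq.path_in ha hm) (hq.path_in ha hm) ha1 hb1).1

end Pool.Agent.Lib.MP_f5c99b_lc
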