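import Pool.Agent.Lib.MP_7b07e0_lc.Stone

/-! Existence of predense sequences which decide `P1` and `P2`; the uniformizing function.
(ROWS T2, T3) -/

namespace Pool.Agent.Lib.MP_f5c99b_lc

universe u

variable {M : Type u} [Membership M M] [hZF : Fact (IsModelOfZF M)] {d : Dat M}

theorem T2_ctbl {c : M} (hc : TabOK c) : Ctbl (fst c) := (mem_om1.mp hc.1).2

theorem T2_bas_sub {c i : M} : Sub (bas c i) (St c) := fun _ h => (mem_bas.mp h).1

theorem T2_bas_mono {c i l : M} (hi : i ∈ fst c) (h : LE c l i) : Sub (bas c l) (bas c i) := by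
  intro x hx
  obtain ⟨h1, h2⟩ := mem_bas.mp hx
  exact mem_bas.mpr ⟨h1, (mem_St.mp h1).2.2.2.1 l i h2 hi h⟩

theorem T2_mem_OO {c Q i : M} : i ∈ OO c Q ↔ i ∈ fst c ∧ NZ c i ∧
    Mgr (BS c) (St c) (diff (bas c i) Q) := mem_sep

/-- By the Baire property, a subset `Q` of the Stone space is the union of the basic sets in which
it is comeager, up to a meager set. (ROW T2) -/
theorem mgr_dec (hDC : DC M) (hAD : ADR M) {c Q : M} (hc : TabOK c) (hQ : Sub Q (St c)) :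
    Mgr (BS c) (St c) (sep (St c) (fun h => ¬ (h ∈ Q ↔ ∃ i, i ∈ h ∧ i ∈ OO c Q))) := by
  have hS := hc.csp hDC
  have hOO : Ctbl (OO c Q) := (T2_ctbl hc).sub fun i hi => (T2_mem_OO.mp hi).1
  have h1 : Mgr (BS c) (St c) (sU (img (OO c Q) (fun i => diff (bas c i) Q))) :=
    Mgr.iUnion' hDC hS.toBase hOO (fun i => diff (bas c i) Q) fun i hi => (T2_mem_OO.mp hi).2.2
  have h2 : Mgr (BS c) (St c) (sep Q (fun h => ∀ i, i ∈ h → i ∉ OO c Q)) := by
    by_contra hn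
    obtain ⟨u, hu, hm⟩ := hS.sp.bp hDC hAD (sep_sub.trans hQ) hn
    obtain ⟨i, hi, rfl⟩ := mem_BS.mp hu
    have hiO : i ∈ OO c Q := by
      refine T2_mem_OO.mpr ⟨hi.1, hi, hm.sub ?_⟩
      intro h hh
      obtain ⟨h3, h4⟩ := mem_diff.mp hh
      exact mem_diff.mpr ⟨h3, fun h5 => h4 (mem_sep.mp h5).1⟩
    refine hS.baire hDC hu (hm.sub ?_)
    intro h hh
    exact mem_diff.mpr ⟨hh, fun h5 => (mem_sep.mp h5).2 i (mem_bas.mp hh).2 hiO⟩
  refine (Mgr.un hS.toBase h1 h2).sub ?_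
  intro h hh
  obtain ⟨h3, h4⟩ := mem_sep.mp hh
  rw [mem_un]
  by_cases hQ' : h ∈ Q
  · right
    refine mem_sep.mpr ⟨hQ', fun i hi hiO => h4 ⟨fun _ => ⟨i, hi, hiO⟩, fun _ => hQ'⟩⟩
  · left
    have h5 : ∃ i, i ∈ h ∧ i ∈ OO c Q := by
      by_contra hn
      exact h4 ⟨fun h => (hQ' h).elim, fun h => (hn h).elim⟩
    obtain ⟨i, hi, hiO⟩ := h5
    exact mem_sU.mpr ⟨_, mem_img.mpr ⟨i, hiO, rfl⟩,
      mem_diff.mpr ⟨mem_bas.mpr ⟨h3, hi⟩, hQ'⟩⟩

/-- a meager subset of the Stone space is avoided by the ultrafilters that meet all sets of a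
suitable sequence of predense sets (ROW T2) -/
theorem exists_predense {c A : M} (hc : TabOK c) (hA : Mgr (BS c) (St c) A) :
    ∃ D, IsFun D (omega M) (pow (fst c)) ∧ (∀ n, n ∈ omega M → Pd c (ap D n)) ∧
      ∀ h, h ∈ St c → (∀ n, n ∈ omega M → ∃ i, i ∈ h ∧ i ∈ ap D n) → h ∉ A := by
  obtain ⟨_, O, _, hO, hA'⟩ := hA
  have hap : ∀ n, n ∈ omega M →
      ap (lam (omega M) (fun n => sep (fst c) (fun i => NZ c i ∧ Sub (bas c i) (ap O n)))) n =
      sep (fst c) (fun i => NZ c i ∧ Sub (bas c i) (ap O n)) := fun n hn => ap_lam' hn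
  refine ⟨lam (omega M) (fun n => sep (fst c) (fun i => NZ c i ∧ Sub (bas c i) (ap O n))),
    isFun_lam fun n _ => sep_mem_pow, ?_, ?_⟩
  · intro n hn
    rw [hap n hn]
    refine ⟨sep_sub, fun i hi => ?_⟩
    obtain ⟨v, hv, h1, h2⟩ := hO n hn _ (mem_BS.mpr ⟨i, hi, rfl⟩)
    obtain ⟨j, hj, rfl⟩ := mem_BS.mp hv
    exact ⟨j, mem_sep.mpr ⟨hj.1, hj, h2⟩, j, hj, hc.2.2.2.2.2 j i hj hi.1 h1,
      hc.2.2.2.2.2 j j hj hj.1 (Sub.refl _)⟩
  · intro h hh hmeet hhA
    obtain ⟨n, hn, hx⟩ := hA' h hhA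
    obtain ⟨i, hi, hiD⟩ := hmeet n hn
    rw [hap n hn] at hiD
    exact hx ((mem_sep.mp hiD).2.2 h (mem_bas.mpr ⟨hh, hi⟩))

/-- the ultrafilters which meet all sets of a sequence of predense sets are comeager (ROW T2) -/
theorem mgr_of_predense {c D : M} (hc : TabOK c) (hD : IsFun D (omega M) (pow (fst c)))
    (hP : ∀ n, n ∈ omega M → Pd c (ap D n)) :
    Mgr (BS c) (St c) (sep (St c) (fun h =>
      ¬ ∀ n, n ∈ omega M → ∃ i, i ∈ h ∧ i ∈ ap D n)) := by
  have _ := hc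
  have _ := hD
  have hap : ∀ n, n ∈ omega M →
      ap (lam (omega M) (fun n => sep (St c) (fun h => ∃ i, i ∈ h ∧ i ∈ ap D n))) n =
      sep (St c) (fun h => ∃ i, i ∈ h ∧ i ∈ ap D n) := fun n hn => ap_lam' hn
  refine ⟨sep_sub, lam (omega M) (fun n => sep (St c) (fun h => ∃ i, i ∈ h ∧ i ∈ ap D n)),
    isFun_lam fun n _ => sep_mem_pow, ?_, ?_⟩
  · intro n hn u hu
    rw [hap n hn]
    obtain ⟨i, hi, rfl⟩ := mem_BS.mp hu
    obtain ⟨j, hj, l, hl, h1, h2⟩ := (hP n hn).2 i hi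
    refine ⟨bas c l, mem_BS.mpr ⟨l, hl, rfl⟩, T2_bas_mono hi.1 h1, fun h hh => ?_⟩
    have h3 := T2_bas_mono ((hP n hn).1 j hj) h2 h hh
    exact mem_sep.mpr ⟨(mem_bas.mp h3).1, j, (mem_bas.mp h3).2, hj⟩
  · intro h hh
    obtain ⟨h1, h2⟩ := mem_sep.mp hh
    by_contra hn
    refine h2 fun n hn' => ?_
    by_contra h3
    refine hn ⟨n, hn', fun h4 => h3 ?_⟩
    rw [hap n hn'] at h4
    exact (mem_sep.mp h4).2

/-- (ROW T2) -/
theorem exists_sol (hDC : DC M) (hAD : ADR M) {c : M} (hc : TabOK c) : ∃ D, Sol d c D := by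
  have h1 := mgr_dec hDC hAD (Q := P1 d c) hc sep_sub
  have h2 := mgr_dec hDC hAD (Q := P2 d c) hc sep_sub
  obtain ⟨D, hD, hP, hm⟩ := exists_predense hc (Mgr.un (hc.csp hDC).toBase h1 h2)
  refine ⟨D, hD, hP, fun h hh hmeet => ?_⟩
  have h3 := hm h hh hmeet
  rw [mem_un] at h3
  constructor
  · by_contra h4
    exact h3 (Or.inl (mem_sep.mpr ⟨hh, h4⟩))
  · by_contra h4
    exact h3 (Or.inr (mem_sep.mpr ⟨hh, h4⟩))

theorem T3_nn3_mem : (nn3 : M) ∈ omega M :=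
  suc_mem_omega (suc_mem_omega (suc_mem_omega emp_mem_omega))

theorem T3_mem_cod {c r a m n : M} (ha : a ∈ prod (omega M) (omega M)) (hm : m ∈ omega M)
    (hn : n ∈ omega M) : pr a (pr m n) ∈ cod c r ↔ pr a (pr (ap r m) (ap r n)) ∈ snd c := by
  unfold cod
  rw [mem_sep, fst_pr, snd_pr, fst_pr, snd_pr]
  exact ⟨fun h => h.2, fun h => ⟨pr_mem_prod.mpr ⟨ha, pr_mem_prod.mpr ⟨hm, hn⟩⟩, h⟩⟩

theorem T3_OR {c r m n : M} (hc : TabOK c) (hr : Surj r (omega M) (fst c)) (hm : m ∈ omega M)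
    (hn : n ∈ omega M) : pr (pr nn3 emp) (pr m n) ∈ cod c r ↔ ap r m ∈ ap r n := by
  rw [T3_mem_cod (pr_mem_prod.mpr ⟨T3_nn3_mem, emp_mem_omega⟩) hm hn]
  exact hc.2.2.2.1 (ap r m) (ap r n) (hr.1.ap_mem hm) (hr.1.ap_mem hn)

theorem T3_snd_sub {c c' r : M} (hc : TabOK c)
    (hr : Surj r (omega M) (fst c)) (h : cod c r = cod c' r) : Sub (snd c) (snd c') := by
  intro q hq
  obtain ⟨δ, hδ, τ, hτ, e⟩ := mem_prod.mp hc.2.2.1
  have hs : snd c = τ := by rw [e, snd_pr]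
  have hq' := mem_pow.mp hτ q (hs ▸ hq)
  obtain ⟨a, ha, b, hb, rfl⟩ := mem_prod.mp hq'
  obtain ⟨i, hi, j, hj, rfl⟩ := mem_prod.mp hb
  obtain ⟨m, hm, rfl⟩ := hr.2 i hi
  obtain ⟨n, hn, rfl⟩ := hr.2 j hj
  rw [← T3_mem_cod ha hm hn, h, T3_mem_cod ha hm hn] at hq
  exact hq

/-- the code determines the table and the enumeration (ROW T3) -/
theorem cod_inj {c c' r r' : M} (hc : TabOK c) (hc' : TabOK c') (hr : Surj r (omega M) (fst c))
    (hr' : Surj r' (omega M) (fst c')) (h : cod c r = cod c' r') : c = c' ∧ r = r' := by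
  have key := ord_rigid (mem_om1.mp hc.1).1 (mem_om1.mp hc'.1).1 hr hr' (fun m hm n hn => by
    rw [← T3_OR hc hr hm hn, h, T3_OR hc' hr' hm hn])
  obtain ⟨rfl, hf⟩ := key
  have hs : snd c = snd c' := Sub.antisymm (T3_snd_sub hc hr h) (T3_snd_sub hc' (hf ▸ hr) h.symm)
  refine ⟨?_, rfl⟩
  rw [← pr_fst_snd hc.2.2.1, ← pr_fst_snd hc'.2.2.1, hf, hs]

/-- sequences of reals inject into the reals -/
theorem T3_emb_funs : Emb (funs (omega M) (pow (omega M))) (pow (omega M)) := by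
  refine Emb.trans ?_ (Emb.pow (emb_omega_prod (M := M)))
  refine Emb.of_fun (fun x => sep (prod (omega M) (omega M)) (fun p => snd p ∈ ap x (fst p))) ?_ ?_
  · intro x _
    exact sep_mem_pow
  · intro x hx y hy h
    have hx' := mem_funs.mp hx
    have hy' := mem_funs.mp hy
    have key : ∀ x y : M, IsFun x (omega M) (pow (omega M)) → 
        sep (prod (omega M) (omega M)) (fun p => snd p ∈ ap x (fst p)) =
          sep (prod (omega M) (omega M)) (fun p => snd p ∈ ap y (fst p)) →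
        ∀ n, n ∈ omega M → Sub (ap x n) (ap y n) := by
      intro x y hx h n hn k hk
      have hk' : k ∈ omega M := mem_pow.mp (hx.ap_mem hn) k hk
      have h1 : pr n k ∈ sep (prod (omega M) (omega M)) (fun p => snd p ∈ ap x (fst p)) := by
        rw [mem_sep, fst_pr, snd_pr]
        exact ⟨pr_mem_prod.mpr ⟨hn, hk'⟩, hk⟩
      rw [h, mem_sep, fst_pr, snd_pr] at h1
      exact h1.2
    exact hx'.ext hy' fun n hn => Sub.antisymm (key x y hx' h n hn) (key y x hy' h.symm n hn)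

/-- the relation to be uniformized -/
def T3_P (d : Dat M) (a D : M) : Prop := ∀ c r, TabOK c → Surj r (omega M) (fst c) → cod c r = a →
  Sol d c (lam (omega M) (fun n => img (ap D n) (fun m => ap r m)))

instance D_T3_P (d : Dat M) (t1 t2 : (ℕ → M) → M) [DT t1] [DT t2] :
    D (fun v => T3_P d (t1 v) (t2 v)) := by
  refine D2 (P := T3_P d) ?_ t1 t2
  unfold T3_P
  infer_instance

/-- existence of the uniformizing function (ROW T3) -/
theorem exists_UF (hDC : DC M) (hAD : ADR M) (d : Dat M) : ∃ F, UF d F := by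
  have hI : Emb (pow (prod (prod (omega M) (omega M)) (prod (omega M) (omega M)))) (pow (omega M)) :=
    Emb.pow ((Emb.prod emb_omega_prod emb_omega_prod).trans emb_omega_prod)
  obtain ⟨F, hF, hF2⟩ := unif_emb hAD hI (T3_emb_funs (M := M)) (T3_P d) (by
    intro a _
    by_cases hex : ∃ c r, TabOK c ∧ Surj r (omega M) (fst c) ∧ cod c r = a
    · obtain ⟨c, r, hc, hr, rfl⟩ := hex
      obtain ⟨D0, hD0⟩ := exists_sol (d := d) hDC hAD hc
      refine ⟨lam (omega M) (fun n => sep (omega M) (fun m => ap r m ∈ ap D0 n)),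
        mem_funs.mpr (isFun_lam' fun n _ => sep_mem_pow), ?_⟩
      intro c' r' hc' hr' he
      obtain ⟨rfl, rfl⟩ := cod_inj hc' hc hr' hr he
      have e : lam (omega M) (fun n => img (ap (lam (omega M) (fun n => sep (omega M)
          (fun m => ap r' m ∈ ap D0 n))) n) (fun m => ap r' m)) = D0 := by
        rw [hD0.1.eq_lam]
        refine (isFun_lam' (b := pow (fst c')) ?_).ext (isFun_lam' (b := pow (fst c')) ?_) ?_
        · intro n hn
          rw [ap_lam' hn, mem_pow]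
          intro y hy
          obtain ⟨m, hm, rfl⟩ := mem_img.mp hy
          exact hr'.1.ap_mem (mem_sep.mp hm).1
        · intro n hn
          exact hD0.1.ap_mem hn
        · intro n hn
          rw [ap_lam' hn, ap_lam' hn, ap_lam' hn]
          refine Pool.Agent.Lib.MP_f5c99b_lc.ext fun y => ?_
          rw [mem_img]
          constructor
          · rintro ⟨m, hm, rfl⟩
            exact (mem_sep.mp hm).2
          · intro hy
            obtain ⟨m, hm, rfl⟩ := hr'.2 y (mem_pow.mp (hD0.1.ap_mem hn) y hy)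
            exact ⟨m, mem_sep.mpr ⟨hm, hy⟩, rfl⟩
      rw [e]
      exact hD0
    · refine ⟨lam (omega M) (fun _ => emp), mem_funs.mpr (isFun_lam' fun n _ =>
        mem_pow.mpr (emp_sub _)), ?_⟩
      intro c r hc hr he
      exact absurd ⟨c, r, hc, hr, he⟩ hex)
  refine ⟨F, hF, ?_⟩
  intro c r hc hr
  exact hF2 (cod c r) sep_mem_pow c r hc hr rfl

end Pool.Agent.Lib.MP_f5c99b_lc
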