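import Pool.Agent.Lib.MP_7b07e0_lc.AD

/-! Baire category in a model of `ZF + DC + AD_ℝ`. (ROWS B1, B2, B3)

A space is a set `P` of points with a countable base `B` of nonempty open sets. -/

namespace Pool.Agent.Lib.MP_f5c99b_lc

universe u

variable {M : Type u} [Membership M M] [hZF : Fact (IsModelOfZF M)]

/-- the set `U` contains an open dense set (`B` is a base of the topology) -/
def OD (B U : M) : Prop := ∀ u, u ∈ B → ∃ v, v ∈ B ∧ Sub v u ∧ Sub v U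

instance D_OD (t1 t2 : (ℕ → M) → M) [DT t1] [DT t2] : D (fun v => OD (t1 v) (t2 v)) := by
  refine D2 (P := OD) ?_ t1 t2
  unfold OD
  infer_instance

/-- `A ⊆ P` is meager: it is disjoint from the intersection of countably many sets which contain
open dense sets -/
def Mgr (B P A : M) : Prop := Sub A P ∧ ∃ O, IsFun O (omega M) (pow P) ∧
  (∀ n, n ∈ omega M → OD B (ap O n)) ∧ ∀ x, x ∈ A → ∃ n, n ∈ omega M ∧ x ∉ ap O n

instance D_Mgr (t1 t2 t3 : (ℕ → M) → M) [DT t1] [DT t2] [DT t3] :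
    D (fun v => Mgr (t1 v) (t2 v) (t3 v)) := by
  refine D3 (P := Mgr) ?_ t1 t2 t3
  unfold Mgr
  infer_instance

/-- `B` is a countable base of nonempty sets of a topology on `P` -/
structure Base (P B : M) : Prop where
  sub : ∀ u, u ∈ B → Sub u P
  ne : ∀ u, u ∈ B → ∃ x, x ∈ u
  ctbl : Ctbl B
  cover : ∀ x, x ∈ P → ∃ u, u ∈ B ∧ x ∈ u
  base : ∀ u v x, u ∈ B → v ∈ B → x ∈ u → x ∈ v → ∃ w, w ∈ B ∧ x ∈ w ∧ Sub w u ∧ Sub w v

/-- `S n`, `n ∈ ω`, are families of basic sets ('small of order n'): every basic neighbourhood of a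
point contains one in `S n`, and a sequence of sets in `S n` determines a point. -/
structure Shrink (P B S : M) : Prop where
  fn : IsFun S (omega M) (pow B)
  small : ∀ n u x, n ∈ omega M → u ∈ B → x ∈ u → ∃ v, v ∈ ap S n ∧ x ∈ v ∧ Sub v u
  sep : ∀ f x y, IsFun f (omega M) B → (∀ n, n ∈ omega M → ap f n ∈ ap S n) →
    (∀ n, n ∈ omega M → x ∈ ap f n ∧ y ∈ ap f n) → x = y

/-- completeness with respect to `S` -/
def Compl (B S : M) : Prop := ∀ f, IsFun f (omega M) B → (∀ n, n ∈ omega M → ap f n ∈ ap S n) →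
    (∀ n, n ∈ omega M → Sub (ap f (suc n)) (ap f n)) → ∃ x, ∀ n, n ∈ omega M → x ∈ ap f n

/-- a second countable space in which points are determined by sequences of small sets -/
structure Sp (P B : M) : Prop extends Base P B where
  shrink : ∃ S, Shrink P B S

/-- a complete space -/
structure CSp (P B : M) : Prop extends Base P B where
  shrink : ∃ S, Shrink P B S ∧ Compl B S

theorem CSp.sp {P B : M} (h : CSp P B) : Sp P B := by
  obtain ⟨S, hS, _⟩ := h.shrink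
  exact ⟨h.toBase, S, hS⟩

/-! ### the ideal of meager sets (ROW B1) -/

theorem Mgr.sub {B P A A' : M} (h : Mgr B P A) (hs : Sub A' A) : Mgr B P A' := by
  obtain ⟨h1, O, h2, h3, h4⟩ := h
  exact ⟨fun x hx => h1 x (hs x hx), O, h2, h3, fun x hx => h4 x (hs x hx)⟩

/-- a set with a countable family of sets containing open dense sets such that each point misses
one of them is meager -/
theorem B1_of_fam {B P A F : M} (hA : Sub A P) (hF : Ctbl F) (hne : ∃ U, U ∈ F)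
    (h1 : ∀ U, U ∈ F → Sub U P ∧ OD B U) (h2 : ∀ x, x ∈ A → ∃ U, U ∈ F ∧ x ∉ U) : Mgr B P A := by
  obtain ⟨f, hf, hf'⟩ := hF.surj hne
  refine ⟨hA, f, ?_, fun n hn => (h1 _ (hf.ap_mem hn)).2, ?_⟩
  · exact hf.mono fun n hn => mem_pow.mpr (h1 _ (hf.ap_mem hn)).1
  · intro x hx
    obtain ⟨U, hU, hxU⟩ := h2 x hx
    obtain ⟨n, hn, rfl⟩ := hf' U hU
    exact ⟨n, hn, hxU⟩

/-- a set whose complement contains an open dense set is meager -/
theorem mgr_of_od {B P A : M} (h : Base P B) (hA : Sub A P) (h' : OD B (diff P A)) : Mgr B P A := by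
  refine ⟨hA, lam (omega M) (fun _ => diff P A), isFun_lam' fun n _ => mem_pow.mpr ?_, ?_, ?_⟩
  · exact fun x hx => (mem_diff.mp hx).1
  · intro n hn
    rwa [ap_lam' hn]
  · intro x hx
    refine ⟨emp, emp_mem_omega, ?_⟩
    rw [ap_lam' emp_mem_omega]
    exact fun h2 => (mem_diff.mp h2).2 hx

theorem mgr_emp {B P : M} (h : Base P B) : Mgr B P emp := by
  refine mgr_of_od h (emp_sub _) fun u hu => ⟨u, hu, Sub.refl u, fun x hx => ?_⟩
  exact mem_diff.mpr ⟨h.sub u hu x hx, not_mem_emp x⟩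

theorem Mgr.un {B P A A' : M} (h : Base P B) (h1 : Mgr B P A) (h2 : Mgr B P A') :
    Mgr B P (un A A') := by
  obtain ⟨hA, O, hO, hOD, hx⟩ := h1
  obtain ⟨hA', O', hO', hOD', hx'⟩ := h2
  have c0 : ∀ Q : M, IsFun Q (omega M) (pow P) → Ctbl (ran Q) := fun Q hQ =>
    Ctbl.of_surj (f := Q) ctbl_omega
      ⟨hQ.mono fun x hx => hQ.mem_ran.mpr ⟨x, hx, rfl⟩,
        fun y hy => by obtain ⟨x, hx, rfl⟩ := hQ.mem_ran.mp hy; exact ⟨x, hx, rfl⟩⟩
  have c1 := c0 O hO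
  have c2 := c0 O' hO'
  refine B1_of_fam (F := Pool.Agent.Lib.MP_f5c99b_lc.un (ran O) (ran O')) ?_ (c1.un c2) ?_ ?_ ?_
  · intro x h3
    rcases mem_un.mp h3 with h3 | h3
    · exact hA x h3
    · exact hA' x h3
  · exact ⟨ap O emp, mem_un.mpr (Or.inl (hO.mem_ran.mpr ⟨emp, emp_mem_omega, rfl⟩))⟩
  · intro U hU
    rcases mem_un.mp hU with h3 | h3
    · obtain ⟨n, hn, rfl⟩ := hO.mem_ran.mp h3
      exact ⟨mem_pow.mp (hO.ap_mem hn), hOD n hn⟩
    · obtain ⟨n, hn, rfl⟩ := hO'.mem_ran.mp h3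
      exact ⟨mem_pow.mp (hO'.ap_mem hn), hOD' n hn⟩
  · intro x h3
    rcases mem_un.mp h3 with h3 | h3
    · obtain ⟨n, hn, h4⟩ := hx x h3
      exact ⟨_, mem_un.mpr (Or.inl (hO.mem_ran.mpr ⟨n, hn, rfl⟩)), h4⟩
    · obtain ⟨n, hn, h4⟩ := hx' x h3
      exact ⟨_, mem_un.mpr (Or.inr (hO'.mem_ran.mpr ⟨n, hn, rfl⟩)), h4⟩

/-- the union of countably many meager sets, definable family -/
theorem Mgr.iUnion' (hDC : DC M) {B P I : M} (h : Base P B) (hI : Ctbl I) (t : M → M)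
    [DT (fun v => t (v 0))] (hm : ∀ i, i ∈ I → Mgr B P (t i)) : Mgr B P (sU (img I t)) := by
  rename_i ht
  have hD : D (fun v : ℕ → M => (∀ n, n ∈ omega M → OD B (ap (v 1) n)) ∧
      ∀ x, x ∈ t (v 0) → ∃ n, n ∈ omega M ∧ x ∉ ap (v 1) n) := by
    have ht' : ∀ (t1 : (ℕ → M) → M) [DT t1], DT (fun v => t (t1 v)) := fun t1 _ => DT1 ht t1
    infer_instance
  by_cases hne : ∃ i, i ∈ I
  swap
  · refine (mgr_emp h).sub fun x hx => ?_
    obtain ⟨y, hy, _⟩ := mem_sU.mp hx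
    obtain ⟨i, hi, _⟩ := mem_img.mp hy
    exact absurd ⟨i, hi⟩ hne
  obtain ⟨i0, hi0⟩ := hne
  obtain ⟨g, hg, hg'⟩ := Ctbl.choice hDC (S := funs (omega M) (pow P)) hI
    (fun i O => (∀ n, n ∈ omega M → OD B (ap O n)) ∧ ∀ x, x ∈ t i → ∃ n, n ∈ omega M ∧ x ∉ ap O n)
    (fun i hi => by
      obtain ⟨_, O, hO, h1, h2⟩ := hm i hi
      exact ⟨O, mem_funs.mpr hO, h1, h2⟩)
  have hgi : ∀ i, i ∈ I → IsFun (ap g i) (omega M) (pow P) := fun i hi =>
    mem_funs.mp (hg.ap_mem hi)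
  refine B1_of_fam (F := img (prod I (omega M)) (fun p => ap (ap g (fst p)) (snd p))) ?_
    ((hI.prod ctbl_omega).img _) ?_ ?_ ?_
  · intro x hx
    obtain ⟨y, hy, hxy⟩ := mem_sU.mp hx
    obtain ⟨i, hi, rfl⟩ := mem_img.mp hy
    exact (hm i hi).1 x hxy
  · exact ⟨_, mem_img.mpr ⟨pr i0 emp, pr_mem_prod.mpr ⟨hi0, emp_mem_omega⟩, rfl⟩⟩
  · intro U hU
    obtain ⟨p, hp, rfl⟩ := mem_img.mp hU
    obtain ⟨i, hi, n, hn, rfl⟩ := mem_prod.mp hp
    rw [fst_pr, snd_pr]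
    exact ⟨mem_pow.mp ((hgi i hi).ap_mem hn), (hg' i hi).1 n hn⟩
  · intro x hx
    obtain ⟨y, hy, hxy⟩ := mem_sU.mp hx
    obtain ⟨i, hi, rfl⟩ := mem_img.mp hy
    obtain ⟨n, hn, h1⟩ := (hg' i hi).2 x hxy
    refine ⟨_, mem_img.mpr ⟨pr i n, pr_mem_prod.mpr ⟨hi, hn⟩, rfl⟩, ?_⟩
    rwa [fst_pr, snd_pr]

/-- the union of countably many meager sets -/
theorem Mgr.iUnion (hDC : DC M) {B P I f : M} (h : Base P B) (hI : Ctbl I)
    (hf : IsFun f I (pow P)) (hm : ∀ i, i ∈ I → Mgr B P (ap f i)) : Mgr B P (sU (ran f)) := by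
  refine (Mgr.iUnion' hDC h hI (fun i => ap f i) hm).sub fun x hx => ?_
  obtain ⟨y, hy, hxy⟩ := mem_sU.mp hx
  obtain ⟨i, hi, rfl⟩ := hf.mem_ran.mp hy
  exact mem_sU.mpr ⟨_, mem_img.mpr ⟨i, hi, rfl⟩, hxy⟩

/-- a single sequence of open dense sets for countably many meager sets: they are contained in a
meager set, so this follows from `Mgr.iUnion'`; a point outside lies in none of them -/
theorem Mgr.of_forall (hDC : DC M) {B P I A : M} (h : Base P B) (hA : Sub A P) (hI : Ctbl I)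
    (Q : M → M → Prop) [D (fun v => Q (v 0) (v 1))]
    (hm : ∀ i, i ∈ I → Mgr B P (sep P (fun x => ¬ Q i x)))
    (hA' : ∀ x, x ∈ A → ∃ i, i ∈ I ∧ ¬ Q i x) : Mgr B P A := by
  rename_i hQ
  have hD : DT (fun v : ℕ → M => sep P (fun x => ¬ Q (v 0) x)) := by
    have h1 : ∀ t1 t2 : (ℕ → M) → M, DT t1 → DT t2 → D (fun v => Q (t1 v) (t2 v)) :=
      fun t1 t2 _ _ => D2 hQ t1 t2
    have h2 : D (fun v : ℕ → M => ¬ Q (v 1) (v 0)) := by
      have := h1 (fun v => v 1) (fun v => v 0) inferInstance inferInstance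
      infer_instance
    infer_instance
  refine (Mgr.iUnion' hDC h hI (fun i => sep P (fun x => ¬ Q i x)) hm).sub fun x hx => ?_
  obtain ⟨i, hi, h1⟩ := hA' x hx
  refine mem_sU.mpr ⟨_, mem_img.mpr ⟨i, hi, rfl⟩, ?_⟩
  have h3 : D (fun v : ℕ → M => ¬ Q i (v 0)) := by
    have := D2 hQ (fun _ : ℕ → M => i) (fun v : ℕ → M => v 0)
    infer_instance
  exact mem_sep.mpr ⟨hA x hx, h1⟩

theorem CSp.baire (hDC : DC M) {B P u : M} (h : CSp P B) (hu : u ∈ B) : ¬ Mgr B P u := by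
  rintro ⟨_, O, hO, hOD, hx⟩
  obtain ⟨S, hS, hC⟩ := h.shrink
  have hSB : ∀ n, n ∈ omega M → ∀ v, v ∈ ap S n → v ∈ B := fun n hn v hv =>
    mem_pow.mp (hS.fn.ap_mem hn) v hv
  obtain ⟨x0, hx0⟩ := h.ne u hu
  obtain ⟨y0, hy0, _, hy0u⟩ := hS.small emp u x0 emp_mem_omega hu hx0
  obtain ⟨f, hf, hf0, hfs⟩ := dc_rel' hDC (hSB _ emp_mem_omega y0 hy0)
    (fun n x y => y ∈ ap S (suc n) ∧ Sub y x ∧ Sub y (ap O n)) (by
      intro n hn x hxB
      obtain ⟨v, hv, hvx, hvO⟩ := hOD n hn x hxB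
      obtain ⟨z, hz⟩ := h.ne v hv
      obtain ⟨y, hy, _, hyv⟩ := hS.small (suc n) v z (suc_mem_omega hn) hv hz
      exact ⟨y, hSB _ (suc_mem_omega hn) y hy, hy, hyv.trans hvx, hyv.trans hvO⟩)
  have hfS : ∀ n, n ∈ omega M → ap f n ∈ ap S n := by
    refine omega_induction (fun n => ap f n ∈ ap S n) ?_ ?_
    · show ap f emp ∈ ap S emp
      rw [hf0]
      exact hy0
    · intro n hn _
      exact (hfs n hn).1
  obtain ⟨x, hxf⟩ := hC f hf hfS (fun n hn => (hfs n hn).2.1)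
  have hxu : x ∈ u := hy0u x (by
    have := hxf emp emp_mem_omega
    rwa [hf0] at this)
  obtain ⟨n, hn, hxn⟩ := hx x hxu
  exact hxn ((hfs n hn).2.2 x (hxf (suc n) (suc_mem_omega hn)))

/-- in a complete space a set comeager in a basic set has a point there -/
theorem CSp.exists_of_mgr (hDC : DC M) {B P u : M} (h : CSp P B) (hu : u ∈ B) (Q : M → Prop)
    [D (fun v => Q (v 0))] (hm : Mgr B P (sep u (fun x => ¬ Q x))) : ∃ x, x ∈ u ∧ Q x := by
  by_contra hne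
  push Not at hne
  have he : sep u (fun x => ¬ Q x) = u :=
    Pool.Agent.Lib.MP_f5c99b_lc.ext fun x => by
      rw [mem_sep]
      exact ⟨fun h => h.1, fun h => ⟨h, hne x h⟩⟩
  rw [he] at hm
  exact h.baire hDC hu hm

/-! ### products (ROW B2) -/

/-- the base of the product of two spaces -/
noncomputable def prodB (B B' : M) : M := img (prod B B') (fun p => prod (fst p) (snd p))

instance DT_prodB (t1 t2 : (ℕ → M) → M) [DT t1] [DT t2] : DT (fun v => prodB (t1 v) (t2 v)) := by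
  refine DT2 (f := prodB) ?_ t1 t2
  unfold prodB
  infer_instance

theorem mem_prodB {B B' w : M} : w ∈ prodB B B' ↔ ∃ u v, u ∈ B ∧ v ∈ B' ∧ w = prod u v := by
  rw [prodB, mem_img]
  constructor
  · rintro ⟨p, hp, rfl⟩
    exact ⟨fst p, snd p, fst_mem hp, snd_mem hp, rfl⟩
  · rintro ⟨u, v, hu, hv, rfl⟩
    exact ⟨pr u v, pr_mem_prod.mpr ⟨hu, hv⟩, by rw [fst_pr, snd_pr]⟩

theorem B2_prod_mem {B B' u v : M} (hu : u ∈ B) (hv : v ∈ B') : prod u v ∈ prodB B B' :=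
  mem_prodB.mpr ⟨u, v, hu, hv, rfl⟩

theorem B2_base {P B P' B' : M} (h : Base P B) (h' : Base P' B') :
    Base (prod P P') (prodB B B') := by
  refine ⟨?_, ?_, ?_, ?_, ?_⟩
  · intro w hw
    obtain ⟨u, v, hu, hv, rfl⟩ := mem_prodB.mp hw
    exact prod_mono (h.sub u hu) (h'.sub v hv)
  · intro w hw
    obtain ⟨u, v, hu, hv, rfl⟩ := mem_prodB.mp hw
    obtain ⟨x, hx⟩ := h.ne u hu
    obtain ⟨y, hy⟩ := h'.ne v hv
    exact ⟨pr x y, pr_mem_prod.mpr ⟨hx, hy⟩⟩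
  · exact Ctbl.img (Ctbl.prod h.ctbl h'.ctbl) _
  · intro p hp
    obtain ⟨x, hx, y, hy, rfl⟩ := mem_prod.mp hp
    obtain ⟨u, hu, hxu⟩ := h.cover x hx
    obtain ⟨v, hv, hyv⟩ := h'.cover y hy
    exact ⟨prod u v, B2_prod_mem hu hv, pr_mem_prod.mpr ⟨hxu, hyv⟩⟩
  · intro w1 w2 p hw1 hw2 hp1 hp2
    obtain ⟨u1, v1, hu1, hv1, rfl⟩ := mem_prodB.mp hw1
    obtain ⟨u2, v2, hu2, hv2, rfl⟩ := mem_prodB.mp hw2
    obtain ⟨x, hx1, y, hy1, rfl⟩ := mem_prod.mp hp1
    obtain ⟨hx2, hy2⟩ := pr_mem_prod.mp hp2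
    obtain ⟨u, hu, hxu, hs1, hs2⟩ := h.base u1 u2 x hu1 hu2 hx1 hx2
    obtain ⟨v, hv, hyv, ht1, ht2⟩ := h'.base v1 v2 y hv1 hv2 hy1 hy2
    exact ⟨prod u v, B2_prod_mem hu hv, pr_mem_prod.mpr ⟨hxu, hyv⟩, prod_mono hs1 ht1,
      prod_mono hs2 ht2⟩

theorem B2_img_fst {u v x y : M} (hx : x ∈ u) (hy : y ∈ v) :
    img (prod u v) (fun p => fst p) = u := by
  refine ext fun z => ?_
  rw [mem_img]
  constructor
  · rintro ⟨p, hp, rfl⟩
    exact fst_mem hp
  · intro hz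
    exact ⟨pr z y, pr_mem_prod.mpr ⟨hz, hy⟩, (fst_pr _ _).symm⟩

theorem B2_img_snd {u v x y : M} (hx : x ∈ u) (hy : y ∈ v) :
    img (prod u v) (fun p => snd p) = v := by
  refine ext fun z => ?_
  rw [mem_img]
  constructor
  · rintro ⟨p, hp, rfl⟩
    exact snd_mem hp
  · intro hz
    exact ⟨pr x z, pr_mem_prod.mpr ⟨hx, hz⟩, (snd_pr _ _).symm⟩

theorem B2_shrink {P B S P' B' S' : M} (h : Shrink P B S) (h' : Shrink P' B' S') :
    Shrink (prod P P') (prodB B B') (lam (omega M) (fun n => prodB (ap S n) (ap S' n))) := by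
  have hsub : ∀ n, n ∈ omega M → Sub (ap S n) B := fun n hn => mem_pow.mp (h.fn.ap_mem hn)
  have hsub' : ∀ n, n ∈ omega M → Sub (ap S' n) B' := fun n hn => mem_pow.mp (h'.fn.ap_mem hn)
  refine ⟨?_, ?_, ?_⟩
  · refine isFun_lam' fun n hn => ?_
    rw [mem_pow]
    intro w hw
    obtain ⟨u, v, hu, hv, rfl⟩ := mem_prodB.mp hw
    exact B2_prod_mem (hsub n hn u hu) (hsub' n hn v hv)
  · intro n w p hn hw hp
    obtain ⟨u, v, hu, hv, rfl⟩ := mem_prodB.mp hw
    obtain ⟨x, hx, y, hy, rfl⟩ := mem_prod.mp hp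
    obtain ⟨u', hu', hxu', hs⟩ := h.small n u x hn hu hx
    obtain ⟨v', hv', hyv', ht⟩ := h'.small n v y hn hv hy
    refine ⟨prod u' v', ?_, pr_mem_prod.mpr ⟨hxu', hyv'⟩, prod_mono hs ht⟩
    rw [ap_lam' hn]
    exact B2_prod_mem hu' hv'
  · intro f p q hf hfS hpq
    have key : ∀ n, n ∈ omega M → ∃ u v, u ∈ ap S n ∧ v ∈ ap S' n ∧ ap f n = prod u v ∧
        img (ap f n) (fun p => fst p) = u ∧ img (ap f n) (fun p => snd p) = v := by
      intro n hn
      have h1 := hfS n hn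
      rw [ap_lam' hn] at h1
      obtain ⟨u, v, hu, hv, e⟩ := mem_prodB.mp h1
      obtain ⟨h2, _⟩ := hpq n hn
      rw [e] at h2
      obtain ⟨x, hx, y, hy, _⟩ := mem_prod.mp h2
      exact ⟨u, v, hu, hv, e, by rw [e]; exact B2_img_fst hx hy, by rw [e]; exact B2_img_snd hx hy⟩
    have e1 : fst p = fst q := by
      refine h.sep (lam (omega M) (fun n => img (ap f n) (fun p => fst p))) (fst p) (fst q)
        ?_ ?_ ?_
      · refine isFun_lam' fun n hn => ?_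
        obtain ⟨u, v, hu, hv, e, e1, e2⟩ := key n hn
        rw [e1]
        exact hsub n hn u hu
      · intro n hn
        obtain ⟨u, v, hu, hv, e, e1, e2⟩ := key n hn
        rw [ap_lam' hn, e1]
        exact hu
      · intro n hn
        obtain ⟨u, v, hu, hv, e, e1, e2⟩ := key n hn
        obtain ⟨h2, h3⟩ := hpq n hn
        rw [e] at h2 h3
        rw [ap_lam' hn, e1]
        exact ⟨fst_mem h2, fst_mem h3⟩
    have e2 : snd p = snd q := by
      refine h'.sep (lam (omega M) (fun n => img (ap f n) (fun p => snd p))) (snd p) (snd q)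
        ?_ ?_ ?_
      · refine isFun_lam' fun n hn => ?_
        obtain ⟨u, v, hu, hv, e, e1, e2⟩ := key n hn
        rw [e2]
        exact hsub' n hn v hv
      · intro n hn
        obtain ⟨u, v, hu, hv, e, e1, e2⟩ := key n hn
        rw [ap_lam' hn, e2]
        exact hv
      · intro n hn
        obtain ⟨u, v, hu, hv, e, e1, e2⟩ := key n hn
        obtain ⟨h2, h3⟩ := hpq n hn
        rw [e] at h2 h3
        rw [ap_lam' hn, e2]
        exact ⟨snd_mem h2, snd_mem h3⟩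
    obtain ⟨h2, h3⟩ := hpq emp emp_mem_omega
    obtain ⟨u, v, hu, hv, e, -, -⟩ := key emp emp_mem_omega
    rw [e] at h2 h3
    rw [← pr_fst_snd h2, ← pr_fst_snd h3, e1, e2]

theorem Base.prod {P B P' B' : M} (h : Base P B) (h' : Base P' B') :
    Base (prod P P') (prodB B B') :=
  B2_base h h'

theorem Sp.prod {P B P' B' : M} (h : Sp P B) (h' : Sp P' B') : Sp (prod P P') (prodB B B') := by
  obtain ⟨S, hS⟩ := h.shrink
  obtain ⟨S', hS'⟩ := h'.shrink
  exact ⟨B2_base h.toBase h'.toBase, _, B2_shrink hS hS'⟩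

/-- the weak half of the theorem of Kuratowski and Ulam: almost all sections of a meager set are
meager -/
theorem Mgr.sections (hDC : DC M) {P B P' B' A : M} (h : Base P B) (h' : Base P' B')
    (hA : Mgr (prodB B B') (prod P P') A) :
    Mgr B P (sep P (fun x => ¬ Mgr B' P' (sep P' (fun y => pr x y ∈ A)))) := by
  obtain ⟨hAs, O, hO, hOD, hAx⟩ := hA
  refine Mgr.of_forall hDC h sep_sub (I := prod (omega M) B') (Ctbl.prod ctbl_omega h'.ctbl)
    (fun i x => ∃ v', v' ∈ B' ∧ Sub v' (snd i) ∧ ∃ u, u ∈ B ∧ x ∈ u ∧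
      Sub (prod u v') (ap O (fst i))) ?_ ?_
  · intro i hi
    obtain ⟨n, hn, v, hv, rfl⟩ := mem_prod.mp hi
    refine mgr_of_od h sep_sub ?_
    intro u hu
    obtain ⟨w, hw, hs1, hs2⟩ := hOD n hn (prod u v) (B2_prod_mem hu hv)
    obtain ⟨u1, v1, hu1, hv1, rfl⟩ := mem_prodB.mp hw
    obtain ⟨x1, hx1⟩ := h.ne u1 hu1
    obtain ⟨y1, hy1⟩ := h'.ne v1 hv1
    refine ⟨u1, hu1, fun x hx => (pr_mem_prod.mp (hs1 _ (pr_mem_prod.mpr ⟨hx, hy1⟩))).1,
      fun x hx => mem_diff.mpr ⟨h.sub u1 hu1 x hx, fun hx' => ?_⟩⟩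
    refine (mem_sep.mp hx').2 ⟨v1, hv1, fun y hy => ?_, u1, hu1, hx, ?_⟩
    · rw [snd_pr]
      exact (pr_mem_prod.mp (hs1 _ (pr_mem_prod.mpr ⟨hx1, hy⟩))).2
    · rw [fst_pr]
      exact hs2
  · intro x hx
    obtain ⟨hxP, hxn⟩ := mem_sep.mp hx
    by_contra hcon
    push Not at hcon
    refine hxn ⟨sep_sub, lam (omega M) (fun n => sep P' (fun y => pr x y ∈ ap O n)), ?_, ?_, ?_⟩
    · exact isFun_lam' fun n hn => sep_mem_pow
    · intro n hn v hv
      obtain ⟨v', hv', hsv, u, hu, hxu, hs⟩ := hcon (pr n v) (pr_mem_prod.mpr ⟨hn, hv⟩)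
      rw [snd_pr] at hsv
      rw [fst_pr] at hs
      refine ⟨v', hv', hsv, fun y hy => ?_⟩
      rw [ap_lam' hn]
      exact mem_sep.mpr ⟨h'.sub v' hv' y hy, hs _ (pr_mem_prod.mpr ⟨hxu, hy⟩)⟩
    · intro y hy
      obtain ⟨hyP, hyA⟩ := mem_sep.mp hy
      obtain ⟨n, hn, hn'⟩ := hAx _ hyA
      refine ⟨n, hn, fun h2 => hn' ?_⟩
      rw [ap_lam' hn] at h2
      exact (mem_sep.mp h2).2

/-! ### the Baire property (ROW B3): the Banach-Mazur game -/

/-- a finite sequence extends to an infinite one -/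
theorem B3_ext {S s b : M} (hs : s ∈ fseq S) (hb : b ∈ S) :
    ∃ y, IsFun y (omega M) S ∧ restr y (dom s) = s := by
  obtain ⟨n, hn, hf⟩ := mem_fseq.mp hs
  have ht : ∀ k, k ∈ omega M → iota (fun z => (k ∈ n ∧ z = ap s k) ∨ (k ∉ n ∧ z = b)) ∈ S ∧
      (k ∈ n → iota (fun z => (k ∈ n ∧ z = ap s k) ∨ (k ∉ n ∧ z = b)) = ap s k) := by
    intro k _
    by_cases hk : k ∈ n
    · have e : iota (fun z => (k ∈ n ∧ z = ap s k) ∨ (k ∉ n ∧ z = b)) = ap s k := by
        refine iota_eq (Or.inl ⟨hk, rfl⟩) ?_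
        rintro z (⟨_, h⟩ | ⟨h, _⟩)
        · exact h
        · exact absurd hk h
      exact ⟨by rw [e]; exact hf.ap_mem hk, fun _ => e⟩
    · have e : iota (fun z => (k ∈ n ∧ z = ap s k) ∨ (k ∉ n ∧ z = b)) = b := by
        refine iota_eq (Or.inr ⟨hk, rfl⟩) ?_
        rintro z (⟨h, _⟩ | ⟨_, h⟩)
        · exact absurd h hk
        · exact h
      exact ⟨by rw [e]; exact hb, fun h => absurd h hk⟩
  have hy : IsFun (lam (omega M) (fun k => iota (fun z => (k ∈ n ∧ z = ap s k) ∨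
      (k ∉ n ∧ z = b)))) (omega M) S := isFun_lam fun k hk => (ht k hk).1
  refine ⟨_, hy, ?_⟩
  rw [hf.dom]
  refine (isFun_restr_omega hy hn).ext hf fun k hk => ?_
  have hkω : k ∈ omega M := omega_trans hn hk
  rw [hy.ap_restr (fun z hz => omega_trans hn hz) hk, ap_lam' hkω]
  exact (ht k hkω).2 hk

/-- restriction of a restriction -/
theorem B3_restr {y n k : M}
    (hkn : Sub k n) : restr (restr y n) k = restr y k := by
  refine ext fun p => ?_
  rw [restr, mem_sep, restr, mem_sep, restr, mem_sep]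
  exact ⟨fun h => ⟨h.1.1, h.2⟩, fun h => ⟨⟨h.1, hkn _ h.2⟩, h.2⟩⟩

/-- legal sequences of moves of the opponent of the answering function `ρ` -/
noncomputable def B3G (B S ρ : M) : M :=
  sep (fseq B) (fun s => ∀ k, k ∈ dom s → ap s k ∈ ap S k ∧ Sub (ap s k) (ap ρ (restr s k)))

theorem B3_mem {B S ρ s : M} : s ∈ B3G B S ρ ↔
    s ∈ fseq B ∧ ∀ k, k ∈ dom s → ap s k ∈ ap S k ∧ Sub (ap s k) (ap ρ (restr s k)) := mem_sep

instance DT_B3G (t1 t2 t3 : (ℕ → M) → M) [DT t1] [DT t2] [DT t3] :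
    DT (fun v => B3G (t1 v) (t2 v) (t3 v)) := by
  refine DT3 (f := B3G) ?_ t1 t2 t3
  unfold B3G
  infer_instance

theorem B3_emp {B S ρ : M} : (emp : M) ∈ B3G B S ρ := by
  refine B3_mem.mpr ⟨emp_mem_fseq B, fun k hk => ?_⟩
  rw [(isFun_emp B).dom] at hk
  exact absurd hk (not_mem_emp k)

theorem B3_snoc {B S ρ s m : M} (hS : IsFun S (omega M) (pow B)) (hs : s ∈ B3G B S ρ)
    (hm : m ∈ ap S (dom s)) (hr : Sub m (ap ρ s)) : m ∈ B ∧ snoc s m ∈ B3G B S ρ := by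
  obtain ⟨h1, h2⟩ := B3_mem.mp hs
  obtain ⟨n, hn, hf⟩ := mem_fseq.mp h1
  rw [hf.dom] at hm h2
  have hmB : m ∈ B := mem_pow.mp (hS.ap_mem hn) m hm
  have hf' := isFun_snoc hn hf hmB
  refine ⟨hmB, B3_mem.mpr ⟨snoc_mem h1 hmB, fun k hk => ?_⟩⟩
  rw [hf'.dom] at hk
  have hkω : k ∈ omega M := omega_trans (suc_mem_omega hn) hk
  have hres : ∀ k, k ∈ suc n → Sub k n := by
    intro k hk
    have hkω : k ∈ omega M := omega_trans (suc_mem_omega hn) hk
    exact (omega_sub_iff hkω hn).mpr (mem_suc.mp hk)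
  have e : restr (snoc s m) k = restr s k := by
    have h3 : IsFun (restr (snoc s m) k) k B := hf'.restr (fun z hz => mem_suc.mpr (Or.inl (hres k hk z hz)))
    have h4 : IsFun (restr s k) k B := hf.restr (hres k hk)
    refine h3.ext h4 fun i hi => ?_
    rw [hf'.ap_restr (fun z hz => mem_suc.mpr (Or.inl (hres k hk z hz))) hi,
      hf.ap_restr (hres k hk) hi]
    exact ap_snoc hn hf hmB (hres k hk i hi)
  rw [e]
  rcases mem_suc.mp hk with hk' | rfl
  · rw [ap_snoc hn hf hmB hk']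
    exact h2 k hk'
  · rw [ap_snoc_last hn hf hmB]
    have e2 : restr s k = s := by
      refine (hf.restr (Sub.refl k)).ext hf fun i hi => ?_
      rw [hf.ap_restr (Sub.refl k) hi]
    rw [e2]
    exact ⟨hm, hr⟩

/-- the category part of the Banach-Mazur game -/
theorem B3_core (hDC : DC M) {P B S ρ : M} (hb : Base P B) (hS : Shrink P B S)
    (hρP : Sub (ap ρ emp) P) (hρB : ∀ s, s ∈ fseq B → ap ρ s ∈ B)
    (hstep : ∀ s m, s ∈ fseq B → m ∈ B → snoc s m ∈ B3G B S ρ → Sub (ap ρ (snoc s m)) m) :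
    ∃ N, Mgr B P N ∧ ∀ x, x ∈ ap ρ emp → x ∉ N → ∃ y, IsFun y (omega M) B ∧
      ∀ n, n ∈ omega M → restr y n ∈ B3G B S ρ ∧ x ∈ ap ρ (restr y n) := by
  have hc : Ctbl (B3G B S ρ) := (Ctbl.fseq hb.ctbl).sub sep_sub
  refine ⟨sU (img (B3G B S ρ) (fun s => sep P (fun x => x ∈ ap ρ s ∧
    ∀ m, m ∈ B → snoc s m ∈ B3G B S ρ → x ∉ ap ρ (snoc s m)))), ?_, ?_⟩
  · refine Mgr.iUnion' hDC hb hc _ ?_
    intro s hs
    refine mgr_of_od hb sep_sub ?_
    intro w hw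
    have hsf : s ∈ fseq B := (B3_mem.mp hs).1
    obtain ⟨n, hn, hf⟩ := mem_fseq.mp hsf
    by_cases hz : ∃ z, z ∈ w ∧ z ∈ ap ρ s
    · obtain ⟨z, hz1, hz2⟩ := hz
      obtain ⟨w', hw', hz', h1, h2⟩ := hb.base w (ap ρ s) z hw (hρB s hsf) hz1 hz2
      obtain ⟨m, hm, hzm, hmw⟩ := hS.small n w' z hn hw' hz'
      have hm' : m ∈ ap S (dom s) := by rw [hf.dom]; exact hm
      obtain ⟨hmB, h3⟩ := B3_snoc hS.fn hs hm' (fun q hq => h2 q (hmw q hq))
      have h4 := hstep s m hsf hmB h3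
      refine ⟨ap ρ (snoc s m), hρB _ (snoc_mem hsf hmB), fun q hq => h1 q (hmw q (h4 q hq)), ?_⟩
      intro q hq
      rw [mem_diff]
      have hqw : q ∈ w := h1 q (hmw q (h4 q hq))
      refine ⟨hb.sub w hw q hqw, fun h => ?_⟩
      exact (mem_sep.mp h).2.2 m hmB h3 hq
    · refine ⟨w, hw, Sub.refl w, fun q hq => mem_diff.mpr ⟨hb.sub w hw q hq, fun h => ?_⟩⟩
      exact hz ⟨q, hq, (mem_sep.mp h).2.1⟩
  · intro x hx hxN
    have hnext : ∀ s, s ∈ B3G B S ρ → x ∈ ap ρ s → ∃ m, m ∈ B ∧ snoc s m ∈ B3G B S ρ ∧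
        x ∈ ap ρ (snoc s m) := by
      intro s hs hxs
      by_contra hcon
      push Not at hcon
      refine hxN (mem_sU.mpr ⟨_, mem_img.mpr ⟨s, hs, rfl⟩, mem_sep.mpr ⟨hρP x hx, hxs, ?_⟩⟩)
      intro m hm hsm
      exact hcon m hm hsm
    have hemp : (emp : M) ∈ sep (B3G B S ρ) (fun s => x ∈ ap ρ s) := mem_sep.mpr ⟨B3_emp, hx⟩
    obtain ⟨f, hf, hf0, hfs⟩ := dc_rel hDC hemp (fun s t => ∃ m, m ∈ B ∧ t = snoc s m) (by
      intro s hs
      obtain ⟨h1, h2⟩ := mem_sep.mp hs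
      obtain ⟨m, hm, h3, h4⟩ := hnext s h1 h2
      exact ⟨snoc s m, mem_sep.mpr ⟨h3, h4⟩, m, hm, rfl⟩)
    have hfn : ∀ n, n ∈ omega M → IsFun (ap f n) n B := by
      refine omega_induction (fun n => IsFun (ap f n) n B) ?_ ?_
      · rw [hf0]; exact isFun_emp B
      · intro n hn ih
        obtain ⟨m, hm, e⟩ := hfs n hn
        rw [e]
        exact isFun_snoc hn ih hm
    obtain ⟨y, hy, hyr⟩ := exists_limit (S := B) hfn (by
      intro n hn i hi
      obtain ⟨m, hm, e⟩ := hfs n hn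
      rw [e]
      exact ap_snoc hn (hfn n hn) hm hi)
    refine ⟨y, hy, fun n hn => ?_⟩
    rw [hyr n hn]
    exact mem_sep.mp (hf.ap_mem hn)

/-- the `n`-th move of player I is legal (first move inside `c`) -/
def B3LI (S c x y n : M) : Prop := ap x n ∈ ap S n ∧ (n = emp → Sub (ap x n) c) ∧
  ∀ k, k ∈ omega M → n = suc k → Sub (ap x n) (ap y k)

instance D_B3LI (t1 t2 t3 t4 t5 : (ℕ → M) → M) [DT t1] [DT t2] [DT t3] [DT t4] [DT t5] :
    D (fun v => B3LI (t1 v) (t2 v) (t3 v) (t4 v) (t5 v)) := by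
  refine D5 (P := B3LI) ?_ t1 t2 t3 t4 t5
  unfold B3LI
  infer_instance

/-- the `n`-th move of player II is legal -/
def B3LII (S x y n : M) : Prop := ap y n ∈ ap S n ∧ Sub (ap y n) (ap x n)

instance D_B3LII (t1 t2 t3 t4 : (ℕ → M) → M) [DT t1] [DT t2] [DT t3] [DT t4] :
    D (fun v => B3LII (t1 v) (t2 v) (t3 v) (t4 v)) := by
  refine D4 (P := B3LII) ?_ t1 t2 t3 t4
  unfold B3LII
  infer_instance

/-- player I wins the play `x, y` -/
def B3W (S c A x y : M) : Prop :=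
  (∃ n, n ∈ omega M ∧ ¬ B3LII S x y n ∧ ∀ k, k ∈ suc n → B3LI S c x y k) ∨
  ((∀ n, n ∈ omega M → B3LI S c x y n ∧ B3LII S x y n) ∧
    ∃ p, p ∈ A ∧ ∀ n, n ∈ omega M → p ∈ ap x n)

instance D_B3W (t1 t2 t3 t4 t5 : (ℕ → M) → M) [DT t1] [DT t2] [DT t3] [DT t4] [DT t5] :
    D (fun v => B3W (t1 v) (t2 v) (t3 v) (t4 v) (t5 v)) := by
  refine D5 (P := B3W) ?_ t1 t2 t3 t4 t5
  unfold B3W
  infer_instance

/-- the payoff set -/
noncomputable def B3pay (B S c A : M) : M :=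
  sep (prod (funs (omega M) B) (funs (omega M) B)) (fun p => B3W S c A (fst p) (snd p))

theorem B3_pay {B S c A x y : M} (hx : IsFun x (omega M) B) (hy : IsFun y (omega M) B) :
    pr x y ∈ B3pay B S c A ↔ B3W S c A x y := by
  rw [B3pay, mem_sep, fst_pr, snd_pr, pr_mem_prod, mem_funs, mem_funs]
  exact ⟨fun h => h.2, fun h => ⟨⟨hx, hy⟩, h⟩⟩

/-- initial segments of an extension -/
theorem B3_pre {B y s k : M} (hy : IsFun y (omega M) B) (hs : s ∈ fseq B)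
    (e : restr y (dom s) = s) (hk : k ∈ dom s) : ap y k = ap s k ∧ restr y k = restr s k := by
  obtain ⟨n, hn, hf⟩ := mem_fseq.mp hs
  rw [hf.dom] at e hk
  have hkω := omega_trans hn hk
  have hsub : Sub n (omega M) := fun z hz => omega_trans hn hz
  constructor
  · conv_rhs => rw [← e]
    rw [hy.ap_restr hsub hk]
  · conv_rhs => rw [← e]
    exact (B3_restr ((omega_sub_iff hkω hn).mpr (Or.inl hk))).symm

/-- player I has a winning strategy -/
theorem B3_caseI (hDC : DC M) {P B S A c σ : M} (hb : Base P B) (hS : Shrink P B S)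
    (hne : ∃ b, b ∈ B) (hσ : WinI B (B3pay B S c A) σ) :
    ∃ w, w ∈ B ∧ Sub w c ∧ Mgr B P (diff w A) := by
  obtain ⟨hσf, hσw⟩ := hσ
  obtain ⟨b, hbB⟩ := hne
  -- the play against `y`
  have hplay : ∀ y, IsFun y (omega M) B → ∃ x, IsFun x (omega M) B ∧
      (∀ n, n ∈ omega M → ap x n = ap σ (restr y n)) ∧ B3W S c A x y := by
    intro y hy
    have hx : IsFun (lam (omega M) (fun n => ap σ (restr y n))) (omega M) B :=
      isFun_lam fun n hn => hσf.ap_mem (restr_mem_fseq hy hn)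
    have h2 : ∀ n, n ∈ omega M → ap (lam (omega M) (fun n => ap σ (restr y n))) n =
        ap σ (restr y n) := fun n hn => ap_lam' hn
    exact ⟨_, hx, h2, (B3_pay hx hy).mp (hσw _ y hx hy h2)⟩
  -- legality of the answers
  have hleg : ∀ y, IsFun y (omega M) B → ∀ x, IsFun x (omega M) B →
      (∀ n, n ∈ omega M → ap x n = ap σ (restr y n)) → B3W S c A x y →
      ∀ n, n ∈ omega M → (∀ k, k ∈ n → B3LII S x y k) → B3LI S c x y n := by
    intro y _ x _ _ hW n hn hII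
    rcases hW with ⟨j, hj, h1, h2⟩ | ⟨h1, _⟩
    · refine h2 n ?_
      rw [mem_suc]
      rcases omega_tri hn hj with h | h | h
      · exact Or.inl h
      · exact Or.inr h
      · exact absurd (hII j h) h1
    · exact (h1 n hn).1
  have hres0 : ∀ y, IsFun y (omega M) B → restr y emp = emp := by
    intro y hy
    refine eq_emp fun p hp => ?_
    rw [restr, mem_sep] at hp
    exact not_mem_emp _ hp.2
  have hstep : ∀ s m, s ∈ fseq B → m ∈ B → snoc s m ∈ B3G B S σ →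
      Sub (ap σ (snoc s m)) m := by
    intro s m hs hm hsm
    obtain ⟨n, hn, hf⟩ := mem_fseq.mp hs
    have hf' := isFun_snoc hn hf hm
    obtain ⟨h1, h2⟩ := B3_mem.mp hsm
    obtain ⟨y, hy, e⟩ := B3_ext h1 hbB
    have hpre := fun k (hk : k ∈ dom (snoc s m)) => B3_pre hy h1 e hk
    rw [hf'.dom] at e h2 hpre
    obtain ⟨x, hx, hxy, hW⟩ := hplay y hy
    have h3 := hleg y hy x hx hxy hW (suc n) (suc_mem_omega hn) (by
      intro k hk
      have hkω := omega_trans (suc_mem_omega hn) hk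
      obtain ⟨h4, h5⟩ := h2 k hk
      obtain ⟨h6, h7⟩ := hpre k hk
      refine ⟨by rw [h6]; exact h4, ?_⟩
      rw [h6, hxy k hkω, h7]
      exact h5)
    have h8 := h3.2.2 n hn rfl
    rw [hxy (suc n) (suc_mem_omega hn), e, (hpre n (mem_suc_self n)).1,
      ap_snoc_last hn hf hm] at h8
    exact h8
  obtain ⟨N, hN, hN'⟩ := B3_core hDC hb hS (hb.sub _ (hσf.ap_mem (emp_mem_fseq B)))
    (fun s hs => hσf.ap_mem hs) hstep
  refine ⟨ap σ emp, hσf.ap_mem (emp_mem_fseq B), ?_, hN.sub ?_⟩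
  · obtain ⟨y, hy, _⟩ := B3_ext (emp_mem_fseq B) hbB
    obtain ⟨x, hx, hxy, hW⟩ := hplay y hy
    have h3 := hleg y hy x hx hxy hW emp emp_mem_omega (fun k hk => absurd hk (not_mem_emp k))
    have h4 := h3.2.1 rfl
    rw [hxy emp emp_mem_omega, hres0 y hy] at h4
    exact h4
  · intro z hz
    obtain ⟨hz1, hz2⟩ := mem_diff.mp hz
    by_contra hzN
    obtain ⟨y, hy, hyG⟩ := hN' z hz1 hzN
    obtain ⟨x, hx, hxy, hW⟩ := hplay y hy
    have hII : ∀ n, n ∈ omega M → B3LII S x y n := by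
      intro n hn
      have h1 := (B3_mem.mp (hyG (suc n) (suc_mem_omega hn)).1).2
      rw [(isFun_restr_omega hy (suc_mem_omega hn)).dom] at h1
      obtain ⟨h2, h3⟩ := h1 n (mem_suc_self n)
      have hsub : Sub (suc n) (omega M) := fun z hz => omega_trans (suc_mem_omega hn) hz
      rw [hy.ap_restr hsub (mem_suc_self n)] at h2 h3
      refine ⟨h2, ?_⟩
      rw [hxy n hn]
      rwa [B3_restr (fun z hz => mem_suc.mpr (Or.inl hz))] at h3
    rcases hW with ⟨j, hj, h1, _⟩ | ⟨h1, p, hpA, hp⟩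
    · exact h1 (hII j hj)
    · have : z = p := hS.sep x z p hx (fun n hn => (h1 n hn).1.1) (fun n hn => by
        refine ⟨?_, hp n hn⟩
        rw [hxy n hn]
        exact (hyG n hn).2)
      exact hz2 (this ▸ hpA)

/-- player II has a winning strategy -/
theorem B3_caseII (hDC : DC M) {P B S A c τ : M} (hb : Base P B) (hS : Shrink P B S)
    (hc : c ∈ B) (hτ : WinII B (B3pay B S c A) τ) : Mgr B P (inter A c) := by
  obtain ⟨hτf, hτw⟩ := hτ
  -- the answering function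
  have hval : ∀ s, (s = emp → iota (fun z => (s = emp ∧ z = c) ∨ (s ≠ emp ∧ z = ap τ s)) = c) ∧
      (s ≠ emp → iota (fun z => (s = emp ∧ z = c) ∨ (s ≠ emp ∧ z = ap τ s)) = ap τ s) := by
    intro s
    constructor
    · intro h
      refine iota_eq (Or.inl ⟨h, rfl⟩) ?_
      rintro z (⟨_, h'⟩ | ⟨h', _⟩)
      · exact h'
      · exact absurd h h'
    · intro h
      refine iota_eq (Or.inr ⟨h, rfl⟩) ?_
      rintro z (⟨h', _⟩ | ⟨_, h'⟩)
      · exact absurd h' h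
      · exact h'
  obtain ⟨ρ, hρ⟩ : ∃ ρ, ρ = lam (fseq B) (fun s => iota (fun z => (s = emp ∧ z = c) ∨
      (s ≠ emp ∧ z = ap τ s))) := ⟨_, rfl⟩
  have hρ0 : ap ρ emp = c := by
    rw [hρ, ap_lam' (emp_mem_fseq B)]
    exact (hval emp).1 rfl
  have hρ1 : ∀ s, s ∈ fseq B → s ≠ emp → ap ρ s = ap τ s := by
    intro s hs hne
    rw [hρ, ap_lam' hs]
    exact (hval s).2 hne
  have hρB : ∀ s, s ∈ fseq B → ap ρ s ∈ B := by
    intro s hs
    by_cases h : s = emp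
    · rw [h, hρ0]; exact hc
    · rw [hρ1 s hs h]; exact hτf.ap_mem hs
  have hne : ∀ y k, IsFun y (omega M) B → k ∈ omega M → restr y (suc k) ≠ emp := by
    intro y k hy hk h
    have h1 := (isFun_restr_omega hy (suc_mem_omega hk)).dom
    rw [h, (isFun_emp B).dom] at h1
    exact suc_ne_emp k h1.symm
  have hplay : ∀ x, IsFun x (omega M) B → ∃ y, IsFun y (omega M) B ∧
      (∀ n, n ∈ omega M → ap y n = ap ρ (restr x (suc n))) ∧ ¬ B3W S c A x y := by
    intro x hx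
    have hy : IsFun (lam (omega M) (fun n => ap τ (restr x (suc n)))) (omega M) B :=
      isFun_lam fun n hn => hτf.ap_mem (restr_mem_fseq hx (suc_mem_omega hn))
    have h2 : ∀ n, n ∈ omega M → ap (lam (omega M) (fun n => ap τ (restr x (suc n)))) n =
        ap τ (restr x (suc n)) := fun n hn => ap_lam' hn
    refine ⟨_, hy, fun n hn => ?_, fun h => hτw x _ hx hy h2 ((B3_pay hx hy).mpr h)⟩
    rw [h2 n hn, hρ1 _ (restr_mem_fseq hx (suc_mem_omega hn)) (hne x n hx hn)]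
  -- legal moves of I in the sense of `B3G` are legal
  have hlegI : ∀ x, IsFun x (omega M) B → ∀ y, IsFun y (omega M) B →
      (∀ n, n ∈ omega M → ap y n = ap ρ (restr x (suc n))) → ∀ k, k ∈ omega M →
      ap x k ∈ ap S k → Sub (ap x k) (ap ρ (restr x k)) → B3LI S c x y k := by
    intro x hx y hy hxy k hk h1 h2
    refine ⟨h1, ?_, ?_⟩
    · rintro rfl
      have : restr x emp = emp := by
        refine eq_emp fun p hp => ?_
        rw [restr, mem_sep] at hp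
        exact not_mem_emp _ hp.2
      rwa [this, hρ0] at h2
    · rintro j hj rfl
      rwa [hxy j hj]
  have hstep : ∀ s m, s ∈ fseq B → m ∈ B → snoc s m ∈ B3G B S ρ →
      Sub (ap ρ (snoc s m)) m := by
    intro s m hs hm hsm
    obtain ⟨n, hn, hf⟩ := mem_fseq.mp hs
    have hf' := isFun_snoc hn hf hm
    obtain ⟨h1, h2⟩ := B3_mem.mp hsm
    obtain ⟨x, hx, e⟩ := B3_ext h1 hc
    have hpre := fun k (hk : k ∈ dom (snoc s m)) => B3_pre hx h1 e hk
    rw [hf'.dom] at e h2 hpre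
    obtain ⟨y, hy, hxy, hW⟩ := hplay x hx
    by_contra hcon
    refine hW (Or.inl ⟨n, hn, ?_, ?_⟩)
    · intro h3
      apply hcon
      have h4 := h3.2
      rw [hxy n hn, e, (hpre n (mem_suc_self n)).1, ap_snoc_last hn hf hm] at h4
      exact h4
    · intro k hk
      have hkω := omega_trans (suc_mem_omega hn) hk
      obtain ⟨h4, h5⟩ := h2 k hk
      obtain ⟨h6, h7⟩ := hpre k hk
      refine hlegI x hx y hy hxy k hkω (by rw [h6]; exact h4) ?_
      rw [h6, h7]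
      exact h5
  obtain ⟨N, hN, hN'⟩ := B3_core hDC hb hS (by rw [hρ0]; exact hb.sub c hc) hρB hstep
  refine hN.sub ?_
  intro z hz
  obtain ⟨hzA, hzc⟩ := mem_inter.mp hz
  by_contra hzN
  obtain ⟨x, hx, hxG⟩ := hN' z (by rw [hρ0]; exact hzc) hzN
  obtain ⟨y, hy, hxy, hW⟩ := hplay x hx
  have hI : ∀ n, n ∈ omega M → B3LI S c x y n := by
    intro n hn
    have h1 := (B3_mem.mp (hxG (suc n) (suc_mem_omega hn)).1).2
    rw [(isFun_restr_omega hx (suc_mem_omega hn)).dom] at h1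
    obtain ⟨h2, h3⟩ := h1 n (mem_suc_self n)
    have hsub : Sub (suc n) (omega M) := fun z hz => omega_trans (suc_mem_omega hn) hz
    rw [hx.ap_restr hsub (mem_suc_self n)] at h2 h3
    rw [B3_restr (fun z hz => mem_suc.mpr (Or.inl hz))] at h3
    exact hlegI x hx y hy hxy n hn h2 h3
  have hII : ∀ n, n ∈ omega M → B3LII S x y n := by
    intro n hn
    by_contra hcon
    exact hW (Or.inl ⟨n, hn, hcon, fun k hk => hI k (omega_trans (suc_mem_omega hn) hk)⟩)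
  refine hW (Or.inr ⟨fun n hn => ⟨hI n hn, hII n hn⟩, z, hzA, fun n hn => ?_⟩)
  have h1 := (hxG (suc n) (suc_mem_omega hn)).2
  rw [← hxy n hn] at h1
  exact (hII n hn).2 z h1

theorem B3_local (hDC : DC M) (hAD : ADR M) {P B A u : M} (h : Sp P B)
    (hu : u ∈ B) (hn : ¬ Mgr B P (inter A u)) :
    ∃ w, w ∈ B ∧ Sub w u ∧ Mgr B P (diff w A) := by
  obtain ⟨S, hS⟩ := h.shrink
  have hemb : Emb B (pow (omega M)) := by
    refine Emb.trans h.ctbl (Emb.of_sub ?_)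
    intro n hn
    exact mem_pow.mpr fun k hk => omega_trans hn hk
  rcases det_emb hAD hemb ⟨u, hu⟩ (B3pay B S u A) with ⟨σ, hσ⟩ | ⟨τ, hτ⟩
  · exact B3_caseI hDC h.toBase hS ⟨u, hu⟩ hσ
  · exact absurd (B3_caseII hDC h.toBase hS hu hτ) hn

theorem B3_bp (hDC : DC M) (hAD : ADR M) {P B A : M} (h : Sp P B) (hA : Sub A P)
    (hn : ¬ Mgr B P A) : ∃ u, u ∈ B ∧ Mgr B P (diff u A) := by
  by_contra hcon
  push Not at hcon
  apply hn
  refine (Mgr.iUnion' hDC h.toBase h.ctbl (fun u => inter A u) ?_).sub ?_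
  · intro u hu
    by_contra h1
    obtain ⟨w, hw, _, h2⟩ := B3_local hDC hAD h hu h1
    exact hcon w hw h2
  · intro x hx
    obtain ⟨u, hu, hxu⟩ := h.cover x (hA x hx)
    exact mem_sU.mpr ⟨_, mem_img.mpr ⟨u, hu, rfl⟩, mem_inter.mpr ⟨hx, hxu⟩⟩

/-- Under `AD_ℝ` every nonmeager subset of a space is comeager in a nonempty open set. -/
theorem Sp.bp (hDC : DC M) (hAD : ADR M) {P B A : M} (h : Sp P B) (hA : Sub A P)
    (hn : ¬ Mgr B P A) : ∃ u, u ∈ B ∧ Mgr B P (diff u A) :=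
  B3_bp hDC hAD h hA hn

/-- the Baire property, localised -/
theorem Sp.bp_local (hDC : DC M) (hAD : ADR M) {P B A u : M} (h : Sp P B) (hA : Sub A P)
    (hu : u ∈ B) (hn : ¬ Mgr B P (inter A u)) :
    ∃ w, w ∈ B ∧ Sub w u ∧ Mgr B P (diff w A) :=
  B3_local hDC hAD h hu hn

end Pool.Agent.Lib.MP_f5c99b_lc
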