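import Pool.Agent.Lib.MP_f5c99b_lc.Defs

/-! The notions of the final statement, inside a structure `(M, ∈)`. All quantifiers over sets range
over `M`. The real line of determinacy theory is `P(ω)`. -/

namespace Pool.Agent.Lib.MP_7b07e0_lc

open Pool.Agent.Lib.MP_f5c99b_lc

universe u

variable {M : Type u} [Membership M M]

/-- `a ⊆ b` -/
def Incl (a b : M) : Prop := ∀ x : M, x ∈ a → x ∈ b

/-- `f` is an injective function from `a` to `b`, for some `f` in `M` : `card a ≤ card b` -/
def CardLE (a b : M) : Prop := ∃ f : M, IsFun f a b ∧ ∀ x y z : M, App f x z → App f y z → x = y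

/-- `P` is the set of all subsets of `a` -/
def IsPow (P a : M) : Prop := ∀ x : M, x ∈ P ↔ Incl x a

/-- `m = n ∪ {n}` -/
def IsSuc (m n : M) : Prop := ∀ x : M, x ∈ m ↔ x ∈ n ∨ x = n

/-- `s` is the restriction of the function `f` to `a` -/
def IsRestr (s f a : M) : Prop := ∀ p : M, p ∈ s ↔ p ∈ f ∧ ∃ x y : M, IsPair p x y ∧ x ∈ a

/-- `Q` is the set of finite sequences in `R`: functions from an element of `w = ω` to `R` -/
def IsFinSeqs (w Q R : M) : Prop := ∀ s : M, s ∈ Q ↔ ∃ n : M, n ∈ w ∧ IsFun s n R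

variable (M) in
/-- The axiom of dependent choice. -/
def DependentChoice : Prop := ∀ w S R : M, IsOmega w → (∃ x : M, x ∈ S) →
  (∀ x : M, x ∈ S → ∃ y : M, y ∈ S ∧ App R x y) →
    ∃ f : M, IsFun f w S ∧
      ∀ n m x y : M, n ∈ w → IsSuc m n → App f n x → App f m y → App R x y

variable (M) in
/-- `AD_ℝ`: every game of length `ω` in which two players play real numbers is determined. The
players alternately play `x 0, y 0, x 1, y 1, …` in `R = P(ω)`, player I wins iff `(x, y) ∈ A`. A
strategy is a function of the finite sequence of the previous moves of the opponent. -/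
def ADReals : Prop := ∀ w R Q A : M, IsOmega w → IsPow R w → IsFinSeqs w Q R →
  (∃ σ : M, IsFun σ Q R ∧ ∀ x y p : M, IsFun x w R → IsFun y w R → IsPair p x y →
    (∀ n s a : M, n ∈ w → IsRestr s y n → App x n a → App σ s a) → p ∈ A) ∨
  ∃ τ : M, IsFun τ Q R ∧ ∀ x y p : M, IsFun x w R → IsFun y w R → IsPair p x y →
    (∀ n m s a : M, n ∈ w → IsSuc m n → IsRestr s x m → App y n a → App τ s a) → p ∉ A

/-- `x` is an ordinal: a transitive set of transitive sets -/
def IsOrdinal (x : M) : Prop := (∀ y : M, y ∈ x → Incl y x) ∧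
  ∀ y : M, y ∈ x → ∀ z : M, z ∈ y → Incl z y

/-- `o` is `ω₁`, the set of countable ordinals -/
def IsOmega1 (w o : M) : Prop := ∀ x : M, x ∈ o ↔ IsOrdinal x ∧ CardLE x w

/-- `P` is the set of countable subsets of `a` -/
def IsCountableSubsets (w P a : M) : Prop := ∀ x : M, x ∈ P ↔ Incl x a ∧ CardLE x w

/-- `x E₀ y` for subsets `x`, `y` of `w = ω` (elements of `2 ^ ω`): `m ∈ x ↔ m ∈ y` for all `m`
from some `n` on -/
def E0Rel (w x y : M) : Prop := ∃ n : M, n ∈ w ∧ ∀ m : M, m ∈ w → Incl n m → (m ∈ x ↔ m ∈ y)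

/-- `Q` is the set `2 ^ ω / E₀` of equivalence classes -/
def IsE0Quotient (w Q : M) : Prop := ∀ c : M, c ∈ Q ↔ ∃ x : M, Incl x w ∧
  ∀ y : M, y ∈ c ↔ Incl y w ∧ E0Rel w x y

variable (M) in
/-- A separable metric space in `M` : a set `X` with a metric with values in a complete ordered
field of `M` (the real line of `M`), whose graph is the set `ρ` of `M`, and with a sequence in `M`
which is dense. -/
structure SepMetricSpace where
  X : M
  K : RealField M
  ρ : M
  dist : El X → El X → El K.R
  dist_iff : ∀ (x y : El X) (r : El K.R), App2 ρ x.1 y.1 r.1 ↔ dist x y = r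
  dist_eq_zero : ∀ x y : El X, dist x y = 0 ↔ x = y
  dist_comm : ∀ x y : El X, dist x y = dist y x
  dist_triangle : ∀ x y z : El X, dist x z ≤ dist x y + dist y z
  separable : (∃ x : M, x ∈ X) → ∃ w D : M, IsOmega w ∧ IsFun D w X ∧
    ∀ (x : El X) (ε : El K.R), 0 < ε → ∃ (n : M) (y : El X), n ∈ w ∧ App D n y.1 ∧ dist x y < ε

/-- Every Cauchy sequence of `M` converges. -/
def SepMetricSpace.Complete (S : SepMetricSpace M) : Prop := ∀ w s : M, IsOmega w →
  IsFun s w S.X → (∀ ε : El S.K.R, 0 < ε → ∃ N : M, N ∈ w ∧ ∀ (m n : M) (x y : El S.X),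
    m ∈ w → n ∈ w → Incl N m → Incl N n → App s m x.1 → App s n y.1 → S.dist x y < ε) →
  ∃ z : El S.X, ∀ ε : El S.K.R, 0 < ε → ∃ N : M, N ∈ w ∧ ∀ (n : M) (x : El S.X),
    n ∈ w → Incl N n → App s n x.1 → S.dist x z < ε

variable (M) in
/-- A Polish group in `M` : a complete separable metric space with a group structure, the graph of
the multiplication being the set `m` of `M`, such that multiplication and inversion are
continuous. (Every Polish group carries such a metric.) -/
structure PolishGroup extends SepMetricSpace M where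
  m : M
  group : Group (El X)
  mul_iff : ∀ x y z : El X, App2 m x.1 y.1 z.1 ↔ x * y = z
  complete : toSepMetricSpace.Complete
  continuous_mul : ∀ (x y : El X) (ε : El K.R), 0 < ε → ∃ δ : El K.R, 0 < δ ∧
    ∀ x' y' : El X, dist x x' < δ → dist y y' < δ → dist (x * y) (x' * y') < ε
  continuous_inv : ∀ (x : El X) (ε : El K.R), 0 < ε → ∃ δ : El K.R, 0 < δ ∧
    ∀ x' : El X, dist x x' < δ → dist x⁻¹ x'⁻¹ < ε

instance (G : PolishGroup M) : Group (El G.X) := G.group

/-- An action of the group `G` on the set `X` in `M`, with graph `a`. No continuity or measurability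
is required. -/
structure Action (G : PolishGroup M) (X : M) where
  a : M
  smul : El G.X → El X → El X
  smul_iff : ∀ (g : El G.X) (x y : El X), App2 a g.1 x.1 y.1 ↔ smul g x = y
  one_smul : ∀ x : El X, smul 1 x = x
  mul_smul : ∀ (g h : El G.X) (x : El X), smul (g * h) x = smul g (smul h x)

/-- `O` is the set of orbits -/
def Action.IsOrbitSet {G : PolishGroup M} {X : M} (A : Action G X) (O : M) : Prop :=
  ∀ o : M, o ∈ O ↔ ∃ x : El X, ∀ y : M, y ∈ o ↔ ∃ g : El G.X, (A.smul g x).1 = y

end Pool.Agent.Lib.MP_7b07e0_lc
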