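import Pool.Agent.Lib.MP_7b07e0_lc.Laws
import Pool.Agent.Lib.MP_7b07e0_lc.Avg

/-! Transfer between `G` and the Stone space of the canonical table. (ROW X) -/

namespace Pool.Agent.Lib.MP_f5c99b_lc

universe u

variable {M : Type u} [Membership M M] [hZF : Fact (IsModelOfZF M)] {d : Dat M}

theorem Mx.hg_TT (hDC : DC M) (hd : d.Good) {F cd y δ k : M} (hF : UF d F)
    (h : Mx d F cd y δ k) :
    sep d.G (fun g => ¬ ∀ n p, n ∈ omega M → p ∈ fseq δ →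
      ∃ i, i ∈ hg δ k g ∧ i ∈ TT F (tab d y δ k) n p) ∈ d.I := by
  have hc := Mx.tabOK hd h
  have hfst : fst (tab d y δ k) = δ := fst_tab
  have hCδ : Ctbl δ := by
    have := hc.1
    rw [hfst] at this
    exact (mem_om1.mp this).2
  have key : ∀ n p, n ∈ omega M → p ∈ fseq δ →
      sep d.G (fun g => ¬ ∃ i, i ∈ hg δ k g ∧ i ∈ TT F (tab d y δ k) n p) ∈ d.I := by
    intro n p hn hp
    obtain ⟨j, hj, hej⟩ := Mx.cl4 hd h hn hp
    have hpd := TT_predense hDC hF hc hn (p := p) (by rwa [hfst])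
    by_contra hcon
    have hsetEq : Sub (sep d.G (fun g => ¬ ∃ i, i ∈ hg δ k g ∧ i ∈ TT F (tab d y δ k) n p))
        (sep d.G (fun g => ∀ i, i ∈ TT F (tab d y δ k) n p → g ∉ ap k i)) := by
      intro g hg'
      rw [mem_sep] at hg' ⊢
      refine ⟨hg'.1, fun i hi hgi => hg'.2 ⟨i, ?_, hi⟩⟩
      rw [hg, mem_sep]
      have := TT_sub i hi
      rw [hfst] at this
      exact ⟨this, hgi⟩
    have hjI : ap k j ∉ d.I := by
      intro hjI
      refine hcon (hd.I_sub _ _ (hd.I_union hjI hej.2) fun g hg' => ?_)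
      rw [mem_un, mem_diff]
      by_cases hgj : g ∈ ap k j
      · exact Or.inl hgj
      · exact Or.inr ⟨hsetEq g hg', hgj⟩
    have hNZj := (Mx.NZ_iff hd h hj).mpr hjI
    obtain ⟨i, hiT, l, hNZl, hlj, hli⟩ := hpd.2 j hNZj
    have hiδ : i ∈ δ := by
      have := TT_sub i hiT
      rwa [hfst] at this
    have hlδ : l ∈ δ := by
      have := hNZl.1
      rwa [hfst] at this
    have h1 := (LE_tab hlδ hj).mp hlj
    have h2 := (LE_tab hlδ hiδ).mp hli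
    have h3 : ap k l ∉ d.I := (Mx.NZ_iff hd h hlδ).mp hNZl
    refine h3 (hd.I_sub _ _ (hd.I_union (hd.I_union h1 h2) hej.1) fun g hgl => ?_)
    rw [mem_un, mem_un, mem_diff, mem_diff, mem_diff, mem_sep]
    by_cases hgj : g ∈ ap k j
    · by_cases hgi : g ∈ ap k i
      · exact Or.inr ⟨hgj, fun hh => hh.2 i hiT hgi⟩
      · exact Or.inl (Or.inr ⟨hgl, hgi⟩)
    · exact Or.inl (Or.inl ⟨hgl, hgj⟩)
  have hJ : Ctbl (prod (omega M) (fseq δ)) := ctbl_omega.prod hCδ.fseq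
  have := hd.I_forall hJ (fun q g => ∃ i, i ∈ hg δ k g ∧
    i ∈ TT F (tab d y δ k) (fst q) (snd q)) (fun q hq => key _ _ (fst_mem hq) (snd_mem hq))
  refine hd.I_sub _ _ this fun g hg' => ?_
  rw [mem_sep] at hg' ⊢
  refine ⟨hg'.1, fun hh => hg'.2 fun n p hn hp => ?_⟩
  have := hh (pr n p) (pr_mem_prod.mpr ⟨hn, hp⟩)
  rwa [fst_pr, snd_pr] at this

theorem Mx.hg_dec (hDC : DC M) (hAD : ADR M) (hd : d.Good) {F cd y δ k : M} (hF : UF d F)
    (h : Mx d F cd y δ k) :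
    sep d.G (fun g => ¬ Dec d (tab d y δ k) (hg δ k g)) ∈ d.I := by
  have hc := Mx.tabOK hd h
  have hfst : fst (tab d y δ k) = δ := fst_tab
  refine hd.I_sub _ _ (hd.I_union (Mx.hg_mem hd h) (Mx.hg_TT hDC hd hF h)) fun g hg' => ?_
  rw [mem_sep] at hg'
  rw [mem_un, mem_sep, mem_sep]
  by_cases h1 : hg δ k g ∈ St (tab d y δ k)
  · refine Or.inr ⟨hg'.1, fun hh => hg'.2 ?_⟩
    refine TT_dec hDC hAD hF hc h1 fun n p hn hp => hh n p hn (by rwa [hfst] at hp)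
  · exact Or.inl ⟨hg'.1, h1⟩

/-- (A): almost all ultrafilters satisfy `P1` -/
theorem Mx.P1_all (hDC : DC M) (hAD : ADR M) (hd : d.Good) {F cd y δ k : M} (hF : UF d F)
    (hy : y ∈ d.X) (h : Mx d F cd y δ k) :
    Mgr (BS (tab d y δ k)) (St (tab d y δ k)) (diff (St (tab d y δ k)) (P1 d (tab d y δ k))) := by
  have hc := Mx.tabOK hd h
  have hfst : fst (tab d y δ k) = δ := fst_tab
  have hcsp := hc.csp hDC
  have hB := hcsp.toBase
  by_contra hn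
  obtain ⟨u, hu, hmu⟩ := hcsp.sp.bp hDC hAD diff_sub hn
  obtain ⟨i, hNZi, rfl⟩ := mem_BS.mp hu
  have hiδ : i ∈ δ := by
    have := hNZi.1
    rwa [hfst] at this
  have hnI : ap k i ∉ d.I := (Mx.NZ_iff hd h hiδ).mp hNZi
  -- almost all `g`
  have a1 := Mx.hg_mem hd h
  have a2 := Mx.hg_zz hd h hy
  have a3 := Mx.hg_act hd h
  have a4 := Mx.hg_dec hDC hAD hd hF h
  have a5 : sep d.G (fun g => ¬ ∀ n, n ∈ omega M →
      zz (tab d y δ k) (hg δ k (d.mul (d.gm n) g)) = d.sm (d.mul (d.gm n) g) y) ∈ d.I := by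
    refine hd.I_forall ctbl_omega (fun n g =>
      zz (tab d y δ k) (hg δ k (d.mul (d.gm n) g)) = d.sm (d.mul (d.gm n) g) y) fun n hn => ?_
    exact hd.I_shift (hd.gam_fn.ap_mem hn)
      (fun g => zz (tab d y δ k) (hg δ k g) = d.sm g y) a2
  have hU := hd.I_union (hd.I_union (hd.I_union a1 a2) (hd.I_union a3 a4)) a5
  have hex : ∃ g, g ∈ ap k i ∧ hg δ k g ∈ St (tab d y δ k) ∧
      zz (tab d y δ k) (hg δ k g) = d.sm g y ∧
      (∀ n, n ∈ omega M → actS (tab d y δ k) n (hg δ k g) = hg δ k (d.mul (d.gm n) g)) ∧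
      Dec d (tab d y δ k) (hg δ k g) ∧
      ∀ n, n ∈ omega M →
        zz (tab d y δ k) (hg δ k (d.mul (d.gm n) g)) = d.sm (d.mul (d.gm n) g) y := by
    by_contra hcon
    refine hnI (hd.I_sub _ _ hU fun g hg' => ?_)
    have hgG : g ∈ d.G := h.sub hiδ g hg'
    rw [mem_un, mem_un, mem_un, mem_un, mem_sep, mem_sep, mem_sep, mem_sep, mem_sep]
    by_contra hcon2
    push Not at hcon2
    obtain ⟨⟨⟨b1, b2⟩, b3, b4⟩, b5⟩ := hcon2
    exact hcon ⟨g, hg', b1 hgG, b2 hgG, b3 hgG, b4 hgG, b5 hgG⟩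
  obtain ⟨g, hgk, hSt, hz, hact, hdec, hz2⟩ := hex
  have hgG : g ∈ d.G := h.sub hiδ g hgk
  have hih : i ∈ hg δ k g := by
    rw [hg, mem_sep]
    exact ⟨hiδ, hgk⟩
  have hP1 : hg δ k g ∈ P1 d (tab d y δ k) := by
    rw [P1, mem_sep]
    refine ⟨hSt, ?_, fun n hn => ?_⟩
    · rw [hz]
      exact hd.act_fn.ap_mem (pr_mem_prod.mpr ⟨hgG, hy⟩)
    · have hmG : d.mul (d.gm n) g ∈ d.G :=
        hd.m_fn.ap_mem (pr_mem_prod.mpr ⟨hd.gam_fn.ap_mem hn, hgG⟩)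
      rw [hact n hn, hz2 n hn, hz]
      refine ⟨hd.act_fn.ap_mem (pr_mem_prod.mpr ⟨hmG, hy⟩), d.gm n, hd.gam_fn.ap_mem hn, ?_⟩
      exact (hd.act_mul _ _ _ (hd.gam_fn.ap_mem hn) hgG hy).symm
  obtain ⟨j, hjh, hjO⟩ := hdec.1.mp hP1
  rw [OO, mem_sep] at hjO
  obtain ⟨hjc, hNZj, hmj⟩ := hjO
  have hUF := (mem_St.mp hSt).2
  obtain ⟨l, hlh, hli, hlj⟩ := hUF.2.2.2.1 i j hih hjh
  have hNZl := hUF.2.1 l hlh
  have hmono : ∀ a, a ∈ fst (tab d y δ k) → LE (tab d y δ k) l a →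
      Sub (bas (tab d y δ k) l) (bas (tab d y δ k) a) := by
    intro a ha hla x hx
    rw [mem_bas] at hx ⊢
    exact ⟨hx.1, (mem_St.mp hx.1).2.2.2.1 l a hx.2 ha hla⟩
  refine hcsp.baire hDC (mem_BS.mpr ⟨l, hNZl, rfl⟩) ((Mgr.un hB hmu hmj).sub fun x hx => ?_)
  have hxi := hmono i hNZi.1 hli x hx
  have hxj := hmono j hjc hlj x hx
  rw [mem_un, mem_diff, mem_diff, mem_diff]
  by_cases hxP : x ∈ P1 d (tab d y δ k)
  · exact Or.inl ⟨hxi, fun hh => hh.2 hxP⟩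
  · exact Or.inr ⟨hxj, hxP⟩

/-- transfer of `P2` from the Stone space to `G` -/
theorem Mx.P2_down (hDC : DC M) (hAD : ADR M) (hd : d.Good) {F cd y δ k i : M} (hF : UF d F)
    (hy : y ∈ d.X) (h : Mx d F cd y δ k) (hi : i ∈ OO (tab d y δ k) (P2 d (tab d y δ k))) :
    ∃ j, NZ (tab d y δ k) j ∧ Mgr (BS (tab d y δ k)) (St (tab d y δ k))
      (sep (bas (tab d y δ k) j) (fun h' => ¬ d.Er y (zz (tab d y δ k) h'))) := by
  have hi' : i ∈ fst (tab d y δ k) := by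
    rw [OO, mem_sep] at hi
    exact hi.1
  have hnz : NZ (tab d y δ k) i := by
    rw [OO, mem_sep] at hi
    exact hi.2.1
  have hiδ : i ∈ δ := by rwa [fst_tab] at hi'
  have hnI : ap k i ∉ d.I := (Mx.NZ_iff hd h hiδ).mp hnz
  have hU := hd.I_union (Mx.hg_zz hd h hy) (Mx.hg_dec hDC hAD hd hF h)
  have hex : ∃ g, g ∈ ap k i ∧ zz (tab d y δ k) (hg δ k g) = d.sm g y ∧
      Dec d (tab d y δ k) (hg δ k g) := by
    by_contra hcon
    push Not at hcon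
    refine hnI (hd.I_sub _ _ hU fun g hg' => ?_)
    have hgG : g ∈ d.G := h.sub hiδ g hg'
    rw [mem_un, mem_sep, mem_sep]
    by_cases hz : zz (tab d y δ k) (hg δ k g) = d.sm g y
    · exact Or.inr ⟨hgG, hcon g hg' hz⟩
    · exact Or.inl ⟨hgG, hz⟩
  obtain ⟨g, hgk, hz, hdec⟩ := hex
  have hgG : g ∈ d.G := h.sub hiδ g hgk
  have hih : i ∈ hg δ k g := by
    rw [hg, mem_sep]
    exact ⟨hiδ, hgk⟩
  have hP2 : hg δ k g ∈ P2 d (tab d y δ k) := hdec.2.mpr ⟨i, hih, hi⟩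
  rw [P2, mem_sep] at hP2
  obtain ⟨_, j, hj, hm⟩ := hP2
  refine ⟨j, hj, hm.sub fun h' hh' => ?_⟩
  rw [mem_sep] at hh' ⊢
  refine ⟨hh'.1, fun hE => hh'.2 ?_⟩
  obtain ⟨g', hg', he⟩ := hE
  rw [hz] at he
  refine ⟨d.mul g' g, ?_, ?_⟩
  · exact hd.m_fn.ap_mem (pr_mem_prod.mpr ⟨hg', hgG⟩)
  · rw [hd.act_mul g' g y hg' hgG hy, he]

end Pool.Agent.Lib.MP_f5c99b_lc
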